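import Pool.Agent.MP_151d89_pr.H5.Meas

/-! Small facts on laws of heights. -/

set_option autoImplicit false
open MeasureTheory Filter Set

namespace Pool.Agent.MP_151d89_pr.H5
open Pool.Agent.MP_151d89_pr.H82 Pool.Agent.MP_151d89_pr.H33 FinalAux

variable {μ : Measure X}

theorem triv_T (hT : Triv μ) (φ : V ≃ V) (ε c : ℤ) :
    Triv (μ.map (T φ ε c)) := by
  classical
  intro A hA hinv h0
  rw [Measure.map_apply (meas_T φ ε c) hA] at h0
  rw [Measure.map_apply (meas_T φ ε c) hA.compl, preimage_compl]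
  refine hT _ (meas_T φ ε c hA) (fun Λ b => ?_) h0
  ext f
  have e : T φ ε c (rep Λ b f) = rep (Λ.image φ.symm) (T φ ε c b) (T φ ε c f) := by
    funext x
    have : x ∈ Λ.image φ.symm ↔ φ x ∈ Λ := by
      simp only [Finset.mem_image]
      exact ⟨fun ⟨w, hw, e⟩ => by rw [← e, φ.apply_symm_apply]; exact hw,
        fun hx => ⟨φ x, hx, φ.symm_apply_apply x⟩⟩
    simp only [T, rep, this]
    split_ifs <;> rfl
  simp only [mem_preimage, e]
  exact Set.ext_iff.1 (hinv _ _) _

theorem eq_of_law [IsProbabilityMeasure μ] (x z : V) (d : ℤ) (h : ∀ᵐ f ∂μ, f x - d ≤ f z)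
    (hl : ∀ s, μ {f | f x - d ≤ s} ≤ μ {f | f z ≤ s}) : ∀ᵐ f ∂μ, f x - d = f z := by
  have key : ∀ s, {f : X | f z ≤ s} =ᵐ[μ] {f | f x - d ≤ s} := fun s =>
    ae_eq_of_ae_subset_of_measure_ge (h.mono fun f h1 h2 => le_trans h1 h2) (hl s)
      (meas_at z fun a => a ≤ s).nullMeasurableSet (measure_ne_top _ _)
  filter_upwards [ae_all_iff.2 key, h] with f h1 h2
  have h3 : f z ≤ f x - d := (iff_of_eq (h1 (f x - d))).2 le_rfl
  omega

theorem eq_of_law' [IsProbabilityMeasure μ] (x z : V) (d : ℤ) (h : ∀ᵐ f ∂μ, f z ≤ f x - d)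
    (hl : ∀ s, μ {f | f z ≤ s} ≤ μ {f | f x - d ≤ s}) : ∀ᵐ f ∂μ, f x - d = f z := by
  have := eq_of_law (μ := μ) z x (-d) (h.mono fun f h1 => by omega) fun s => by
    have e1 : {f : X | f z - -d ≤ s} = {f | f z ≤ s - d} := by ext f; simp only [mem_ofPred_eq]; omega
    have e2 : {f : X | f x ≤ s} = {f | f x - d ≤ s - d} := by ext f; simp only [mem_ofPred_eq]; omega
    rw [e1, e2]; exact hl _
  exact this.mono fun f h1 => by omega

theorem par_const (hG : Gibbs μ) (hT : Triv μ) : ∃ π : ℤ, ∀ᵐ f ∂μ, (f (0, 0) - π) % 2 = 0 := by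
  let A : Set X := {f | ∀ᶠ n : ℕ in atTop, (f (n, 0) - n) % 2 = 0}
  have hA : MeasurableSet A := by
    have : A = ⋃ N : ℕ, ⋂ n : ℕ, ⋂ _ : N ≤ n, {f : X | (f (n, 0) - n) % 2 = 0} := by
      ext f; simp [A, eventually_atTop]
    rw [this]
    exact MeasurableSet.iUnion fun N => MeasurableSet.iInter fun n => MeasurableSet.iInter fun _ =>
      meas_at (n, 0) fun a => (a - n) % 2 = 0
  have hinv : ∀ Λ b, rep Λ b ⁻¹' A = A := by
    intro Λ b
    ext f
    simp only [A, mem_preimage, mem_ofPred_eq]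
    refine eventually_congr ?_
    filter_upwards [ray_out (e := (1, 0)) (by simp) (0, 0) Λ] with n hn
    have : ((0, 0) : V) + (n : ℤ) • ((1, 0) : V) = ((n : ℤ), 0) := by simp
    rw [this] at hn
    simp only [rep, if_neg hn]
  have key : ∀ f, Hom f → ∀ n : ℕ, (f (n, 0) - f (0, 0) - n) % 2 = 0 := fun f hf n => by
    have := (lipH hf 0 0 n).2
    simpa using this
  by_cases h0 : μ A = 0
  · refine ⟨1, ?_⟩
    filter_upwards [measure_eq_zero_iff_ae_notMem.1 h0, hG.2.1] with f h1 h2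
    by_contra hc
    exact h1 (Eventually.of_forall fun n => by have := key f h2 n; omega)
  · refine ⟨0, ?_⟩
    filter_upwards [measure_eq_zero_iff_ae_notMem.1 (hT A hA hinv h0), hG.2.1] with f h1 h2
    obtain ⟨n, hn⟩ := (not_not.1 h1 : f ∈ A).exists
    have := key f h2 n
    omega

theorem af_of_step {e : V} (he : |e.1| + |e.2| = 1) (h : ∀ z, ∀ᵐ f ∂μ, f (z + e) = f z + 1) :
    AF μ e := by
  refine ⟨he, fun u => ?_⟩
  filter_upwards [ae_all_iff.2 h] with f hf
  have key : ∀ n : ℕ, f (u + (n : ℤ) • e) - f u = n := by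
    intro n
    induction n with
    | zero => simp
    | succ n ih =>
      have : u + ((n + 1 : ℕ) : ℤ) • e = u + (n : ℤ) • e + e := by
        push_cast; rw [add_smul, one_smul, add_assoc]
      rw [this, hf]; push_cast; omega
  exact lim_of_bdd _ 0 (fun n => (key n).le) fun n => by rw [key n]; omega

theorem tight [IsProbabilityMeasure μ] (x : V) {η : ENNReal} (hη : 0 < η) :
    ∃ M : ℕ, μ {f | (M : ℤ) ≤ |f x|} < η := by
  have h := tendsto_measure_iInter_atTop (μ := μ) (s := fun M : ℕ => {f : X | (M : ℤ) ≤ |f x|})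
    (fun M => (meas_at x fun a => (M : ℤ) ≤ |a|).nullMeasurableSet)
    (fun M M' hM f hf => by
      have : (M' : ℤ) ≤ |f x| := hf
      show (M : ℤ) ≤ |f x|
      omega) ⟨0, measure_ne_top _ _⟩
  have e : ⋂ M : ℕ, {f : X | (M : ℤ) ≤ |f x|} = ∅ := by
    ext f
    simp only [mem_iInter, mem_ofPred_eq, mem_empty_iff_false, iff_false, not_forall, not_le]
    exact ⟨(f x).natAbs + 1, by rw [Int.abs_eq_natAbs]; omega⟩
  rw [e, measure_empty] at h
  exact (h.eventually (gt_mem_nhds hη)).exists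

theorem Tv_Tv (v w : V) (c d : ℤ) (f : X) : Tv v c (Tv w d f) = Tv (v + w) (c + d) f := by
  funext z
  simp only [Tv, add_assoc]
  ring

theorem Tv_zero (f : X) : Tv 0 0 f = f := by funext z; simp [Tv]

theorem map_Tv_zsmul {v : V} {c : ℤ} (h : μ.map (Tv v c) = μ) (m : ℤ) :
    μ.map (Tv (m • v) (m * c)) = μ := by
  have step : ∀ m : ℤ, μ.map (Tv ((m + 1) • v) ((m + 1) * c)) = μ.map (Tv (m • v) (m * c)) := by
    intro m
    conv_rhs => rw [← h, Measure.map_map (meas_Tv _ _) (meas_Tv _ _)]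
    congr 1
    funext f
    simp only [Function.comp, Tv_Tv, add_smul, one_smul, add_mul, one_mul]
  induction m with
  | zero =>
    have : Tv ((0 : ℤ) • v) (0 * c) = id := by funext f; simp [Tv_zero]
    rw [this, Measure.map_id]
  | succ n ih => rw [step, ih]
  | pred n ih => rw [← step, sub_add_cancel, ih]

theorem meas_inv {v : V} {c : ℤ} (h : μ.map (Tv v c) = μ) {A : Set X} (hA : MeasurableSet A) :
    μ {f | Tv v c f ∈ A} = μ A := by
  conv_rhs => rw [← h, Measure.map_apply (meas_Tv _ _) hA]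
  rfl

theorem iso_Re (y : ℤ) : Iso (Re y) := by
  intro p q
  show |y - p.1 - (y - q.1)| + |-p.2 - -q.2| = _
  have e1 : y - p.1 - (y - q.1) = -(p.1 - q.1) := by ring
  have e2 : -p.2 - -q.2 = -(p.2 - q.2) := by ring
  rw [e1, e2, abs_neg, abs_neg]

end Pool.Agent.MP_151d89_pr.H5
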