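import Pool.Agent.MP_151d89_pr.H5.Meas

/-! The mean height function: Lipschitz bound, shift, lower bound and concentration. -/

set_option autoImplicit false
open MeasureTheory Filter Set

namespace Pool.Agent.MP_151d89_pr.H5
open Pool.Agent.MP_151d89_pr.H82 Pool.Agent.MP_151d89_pr.H33

namespace EllAux

theorem mfun (x : V) (φ : ℤ → ℝ) : Measurable fun f : X => φ (f x) :=
  (Measurable.of_discrete (f := φ)).comp (measurable_pi_apply x)

theorem mD (x y : V) : Measurable fun f : X => (f x : ℝ) - (f y : ℝ) :=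
  (mfun x fun a => (a : ℝ)).sub (mfun y fun a => (a : ℝ))

theorem d1_comm (x y : V) : d1 x y = d1 y x := by
  unfold d1
  rw [abs_sub_comm x.1, abs_sub_comm x.2]

theorem d1_nonneg (x y : V) : 0 ≤ d1 x y := add_nonneg (abs_nonneg _) (abs_nonneg _)

theorem d1_zero {x y : V} (h : d1 x y = 0) : x = y := by
  unfold d1 at h
  have h1 := abs_nonneg (x.1 - y.1)
  have h2 := abs_nonneg (x.2 - y.2)
  have h3 : |x.1 - y.1| = 0 := by omega
  have h4 : |x.2 - y.2| = 0 := by omega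
  rw [abs_eq_zero] at h3 h4
  exact Prod.ext (by omega) (by omega)

theorem absD {f : X} (hf : Hom f) (x y : V) : |(f x : ℝ) - (f y : ℝ)| ≤ (d1 x y : ℝ) := by
  have h1 : f x - f y ≤ d1 x y := (lip hf x y).1
  have h2 : f y - f x ≤ d1 x y := by rw [d1_comm]; exact (lip hf y x).1
  have h1' : (f x : ℝ) - f y ≤ d1 x y := by exact_mod_cast h1
  have h2' : (f y : ℝ) - f x ≤ d1 x y := by exact_mod_cast h2
  rw [abs_le]
  constructor <;> linarith

variable {μ : Measure X}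

theorem intD (hG : Gibbs μ) (x y : V) : Integrable (fun f : X => (f x : ℝ) - (f y : ℝ)) μ := by
  have := hG.1
  refine Integrable.of_bound (mD x y).aestronglyMeasurable (d1 x y : ℝ) ?_
  filter_upwards [hG.2.1] with f hf
  exact absD hf x y

theorem ell_sub (hG : Gibbs μ) (x y : V) :
    ∫ f, ((f x : ℝ) - (f y : ℝ)) ∂μ = ell μ x - ell μ y := by
  unfold ell
  rw [← integral_sub (intD hG _ _) (intD hG _ _)]
  congr 1
  funext f
  ring

theorem part1 (hG : Gibbs μ) (z z' : V) : ell μ z - ell μ z' ≤ d1 z z' := by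
  have := hG.1
  rw [← ell_sub hG]
  calc ∫ f, ((f z : ℝ) - (f z' : ℝ)) ∂μ ≤ ∫ _f, (d1 z z' : ℝ) ∂μ := by
        refine integral_mono_ae (intD hG _ _) (integrable_const _) ?_
        filter_upwards [hG.2.1] with f hf
        exact (le_abs_self _).trans (absD hf z z')
    _ = d1 z z' := by simp

/-- truncation at level n -/
noncomputable def cl (n : ℕ) (a : ℝ) : ℝ := max (-(n : ℝ)) (min n a)

theorem cl_abs (n : ℕ) (a : ℝ) : |cl n a| ≤ n := by
  have hn : (0 : ℝ) ≤ n := Nat.cast_nonneg n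
  unfold cl
  rw [abs_le]
  exact ⟨le_max_left _ _, max_le (by linarith) (min_le_left _ _)⟩

theorem cl_lip (n : ℕ) (a b : ℝ) : |cl n a - cl n b| ≤ |a - b| := by
  unfold cl
  refine (abs_max_sub_max_le_max _ _ _ _).trans (max_le (by simp) ?_)
  exact (abs_min_sub_min_le_max _ _ _ _).trans (max_le (by simp) le_rfl)

theorem cl_ev (a : ℝ) : ∀ᶠ n : ℕ in atTop, cl n a = a := by
  filter_upwards [eventually_ge_atTop ⌈|a|⌉₊] with n hn
  have h : |a| ≤ n := (Nat.le_ceil _).trans (by exact_mod_cast hn)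
  rw [abs_le] at h
  unfold cl
  rw [min_eq_right h.2, max_eq_right h.1]

theorem int_cl (hG : Gibbs μ) (n : ℕ) (x : V) (c : ℝ) :
    Integrable (fun f : X => cl n ((f x : ℝ) - c)) μ := by
  have := hG.1
  exact Integrable.of_bound (mfun x fun a => cl n ((a : ℝ) - c)).aestronglyMeasurable (n : ℝ)
    (Eventually.of_forall fun f => cl_abs n _)

theorem int_map {v : V} {c0 : ℤ} (h : μ.map (Tv v c0) = μ) {F : X → ℝ} (hF : Measurable F) :
    ∫ f, F (Tv v c0 f) ∂μ = ∫ f, F f ∂μ := by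
  conv_rhs => rw [← h]
  rw [integral_map (meas_Tv v c0).aemeasurable hF.aestronglyMeasurable]

theorem ell_v (hG : Gibbs μ) {v : V} {c0 : ℤ} (h : μ.map (Tv v c0) = μ) : ell μ v = c0 := by
  have := hG.1
  have e0 : ((0, 0) : V) + v = v := by ext <;> simp
  have hz : ∀ n : ℕ, ∫ f, (cl n ((f v : ℝ) - c0) - cl n ((f (0, 0) : ℝ) - 0)) ∂μ = 0 := by
    intro n
    rw [integral_sub (int_cl hG n v c0) (int_cl hG n (0, 0) 0), sub_eq_zero,
      ← int_map h (mfun (0, 0) fun a => cl n ((a : ℝ) - 0))]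
    congr 1
    funext f
    simp only [Tv, e0]
    push_cast
    rw [sub_zero]
  have hlim := tendsto_integral_of_dominated_convergence (μ := μ)
    (F := fun (n : ℕ) (f : X) => cl n ((f v : ℝ) - c0) - cl n ((f (0, 0) : ℝ) - 0))
    (f := fun f : X => ((f v : ℝ) - (f (0, 0) : ℝ)) - c0)
    (fun _ => (d1 v (0, 0) : ℝ) + |(c0 : ℝ)|)
    (fun n => ((int_cl hG n v c0).sub (int_cl hG n (0, 0) 0)).aestronglyMeasurable)
    (integrable_const _)
    (fun n => by
      filter_upwards [hG.2.1] with f hf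
      refine (cl_lip n _ _).trans ?_
      have h1 := absD hf v (0, 0)
      have h2 : (f v : ℝ) - c0 - ((f (0, 0) : ℝ) - 0) = ((f v : ℝ) - (f (0, 0) : ℝ)) - c0 := by ring
      rw [h2]
      exact (abs_sub _ _).trans (by linarith))
    (Eventually.of_forall fun f => by
      refine tendsto_const_nhds.congr' ?_
      filter_upwards [cl_ev ((f v : ℝ) - c0), cl_ev ((f (0, 0) : ℝ) - 0)] with n h1 h2
      rw [h1, h2]
      ring)
  simp only [hz] at hlim
  have h0 := tendsto_nhds_unique tendsto_const_nhds hlim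
  rw [integral_sub (intD hG _ _) (integrable_const _)] at h0
  simp only [integral_const, probReal_univ, one_smul] at h0
  unfold ell
  linarith

theorem part2 (hG : Gibbs μ) (v : V) (c0 : ℤ) (h : μ.map (Tv v c0) = μ) (z : V) :
    ell μ (z + v) = ell μ z + c0 := by
  have e0 : ((0, 0) : V) + v = v := by ext <;> simp
  have h1 := int_map h (mD z (0, 0))
  have h2 : (fun f : X => ((Tv v c0 f z : ℤ) : ℝ) - ((Tv v c0 f (0, 0) : ℤ) : ℝ)) =
      fun f : X => (f (z + v) : ℝ) - (f v : ℝ) := by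
    funext f
    simp only [Tv, e0]
    push_cast
    ring
  rw [h2, ell_sub hG, ell_v hG h] at h1
  have h3 : ell μ z = ∫ f, ((f z : ℝ) - (f (0, 0) : ℝ)) ∂μ := rfl
  linarith

theorem cheb_real (hG : Gibbs μ) (hC : Cheb μ) (x y : V) {t : ℝ} (ht : 0 < t) :
    μ.real {f | t ≤ |((f x : ℝ) - (f y : ℝ)) - (ell μ x - ell μ y)|} ≤
      2 * (d1 x y : ℝ) / t ^ 2 := by
  have h := hC x y t ht
  rw [ell_sub hG] at h
  have hd : (0 : ℝ) ≤ d1 x y := by exact_mod_cast d1_nonneg x y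
  exact ENNReal.toReal_le_of_le_ofReal (by positivity) h

theorem part3 (hG : Gibbs μ) (hC : Cheb μ) (p : ℝ) (hp : 0 < p) : ∃ C : ℝ, ∀ (z z' : V) (K : ℤ),
    p ≤ μ.real {f | d1 z z' - K ≤ f z' - f z} →
      ell μ z + d1 z z' - K - C * √(d1 z z') ≤ ell μ z' := by
  have := hG.1
  refine ⟨√(4 / p), fun z z' K h => ?_⟩
  rcases (d1_nonneg z z').eq_or_lt with h0 | h0
  · have hz := d1_zero h0.symm
    subst hz
    rw [← h0] at h ⊢
    have hne : {f : X | (0 : ℤ) - K ≤ f z - f z}.Nonempty := by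
      by_contra hn
      rw [not_nonempty_iff_eq_empty] at hn
      rw [hn, measureReal_empty] at h
      linarith
    obtain ⟨f, hf⟩ := hne
    have hK : (0 : ℤ) ≤ K := by
      have : (0 : ℤ) - K ≤ f z - f z := hf
      omega
    have hK' : (0 : ℝ) ≤ K := by exact_mod_cast hK
    simp only [Int.cast_zero, Real.sqrt_zero, mul_zero]
    linarith
  · by_contra hlt
    rw [not_le] at hlt
    have hd : (0 : ℝ) < d1 z z' := by exact_mod_cast h0
    have hC0 : 0 < √(4 / p) := Real.sqrt_pos.2 (by positivity)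
    have ht : 0 < √(4 / p) * √(d1 z z' : ℝ) := mul_pos hC0 (Real.sqrt_pos.2 hd)
    have h1 := cheb_real hG hC z' z ht
    have h2 : μ.real {f : X | d1 z z' - K ≤ f z' - f z} ≤ μ.real {f : X |
        √(4 / p) * √(d1 z z' : ℝ) ≤ |((f z' : ℝ) - (f z : ℝ)) - (ell μ z' - ell μ z)|} := by
      refine measureReal_mono fun f hf => ?_
      have h3 : d1 z z' - K ≤ f z' - f z := hf
      have h4 : (d1 z z' : ℝ) - K ≤ (f z' : ℝ) - f z := by exact_mod_cast h3
      have h6 : √(4 / p) * √(d1 z z' : ℝ) ≤ ((f z' : ℝ) - (f z : ℝ)) - (ell μ z' - ell μ z) := by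
        linarith
      exact le_trans h6 (le_abs_self _)
    rw [d1_comm z' z, mul_pow, Real.sq_sqrt (by positivity), Real.sq_sqrt hd.le] at h1
    have h5 : 2 * (d1 z z' : ℝ) / (4 / p * d1 z z') = p / 2 := by
      field_simp
      norm_num
    linarith

theorem tight (hG : Gibbs μ) {η : ℝ} (hη : 0 < η) :
    ∃ M : ℕ, μ.real {f : X | (M : ℝ) < |(f (0, 0) : ℝ)|} ≤ η := by
  have := hG.1
  have hA : Antitone fun n : ℕ => {f : X | (n : ℝ) < |(f (0, 0) : ℝ)|} := by
    intro n m hnm f hf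
    have h1 : (m : ℝ) < |(f (0, 0) : ℝ)| := hf
    exact lt_of_le_of_lt (by exact_mod_cast hnm) h1
  have hlim := tendsto_measure_iInter_atTop (μ := μ)
    (fun n : ℕ => (meas_at (0, 0) fun a => (n : ℝ) < |(a : ℝ)|).nullMeasurableSet) hA
    ⟨0, measure_ne_top _ _⟩
  have he : (⋂ n : ℕ, {f : X | (n : ℝ) < |(f (0, 0) : ℝ)|}) = ∅ := by
    refine eq_empty_of_forall_notMem fun f hf => ?_
    have h1 : ((⌈|(f (0, 0) : ℝ)|⌉₊ : ℕ) : ℝ) < |(f (0, 0) : ℝ)| := mem_iInter.1 hf _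
    exact absurd (Nat.le_ceil _) (not_le.2 h1)
  rw [he, measure_empty] at hlim
  obtain ⟨M, hM⟩ := (hlim.eventually (ge_mem_nhds (ENNReal.ofReal_pos.2 hη))).exists
  exact ⟨M, ENNReal.toReal_le_of_le_ofReal hη.le hM⟩

theorem part4 (hG : Gibbs μ) (hC : Cheb μ) (η : ℝ) (hη : 0 < η) : ∃ C : ℝ, ∀ z,
    μ.real {f : X | C * (1 + √(d1 (0, 0) z)) < |(f z : ℝ) - ell μ z|} ≤ η := by
  have := hG.1
  obtain ⟨M, hM⟩ := tight hG (half_pos hη)
  refine ⟨M + √(4 / η), fun z => ?_⟩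
  have hd : (0 : ℝ) ≤ d1 (0, 0) z := by exact_mod_cast d1_nonneg _ _
  have hs : 0 ≤ √(d1 (0, 0) z : ℝ) := Real.sqrt_nonneg _
  have hC0 : 0 < √(4 / η) := Real.sqrt_pos.2 (by positivity)
  have ht : 0 < √(4 / η) * (1 + √(d1 (0, 0) z : ℝ)) := by positivity
  have h1 := cheb_real hG hC z (0, 0) ht
  have hl0 : ell μ (0, 0) = 0 := by simp [ell]
  rw [hl0, sub_zero, d1_comm z, mul_pow, Real.sq_sqrt (by positivity)] at h1
  have h2 : 2 * (d1 (0, 0) z : ℝ) / (4 / η * (1 + √(d1 (0, 0) z : ℝ)) ^ 2) ≤ η / 2 := by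
    rw [div_le_iff₀ (by positivity)]
    have h3 : η / 2 * (4 / η * (1 + √(d1 (0, 0) z : ℝ)) ^ 2) =
        2 * (1 + √(d1 (0, 0) z : ℝ)) ^ 2 := by
      field_simp
      norm_num
    rw [h3]
    have h4 := Real.sq_sqrt hd
    nlinarith
  have hsub : {f : X | (M + √(4 / η)) * (1 + √(d1 (0, 0) z)) < |(f z : ℝ) - ell μ z|} ⊆
      {f : X | (M : ℝ) < |(f (0, 0) : ℝ)|} ∪ {f : X | √(4 / η) * (1 + √(d1 (0, 0) z : ℝ)) ≤
        |((f z : ℝ) - (f (0, 0) : ℝ)) - ell μ z|} := by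
    intro f hf
    have h5 : (M + √(4 / η)) * (1 + √(d1 (0, 0) z)) < |(f z : ℝ) - ell μ z| := hf
    by_contra hn
    simp only [mem_union, mem_ofPred_eq, not_or, not_lt, not_le] at hn
    have h6 : (f z : ℝ) - ell μ z = (((f z : ℝ) - (f (0, 0) : ℝ)) - ell μ z) + f (0, 0) := by ring
    have h7 := abs_add_le (((f z : ℝ) - (f (0, 0) : ℝ)) - ell μ z) (f (0, 0) : ℝ)
    rw [← h6] at h7
    have hM0 : (0 : ℝ) ≤ M := Nat.cast_nonneg M
    nlinarith [mul_nonneg hM0 hs, hn.1, hn.2]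
  have h8 := (measureReal_mono (μ := μ) hsub).trans (measureReal_union_le _ _)
  linarith

end EllAux

theorem ell_row : EllStmt := fun _ hG hC =>
  ⟨EllAux.part1 hG, EllAux.part2 hG, EllAux.part3 hG hC, EllAux.part4 hG hC⟩

end Pool.Agent.MP_151d89_pr.H5
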