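import Pool.Agent.MP_151d89_pr.H5.Law
import Pool.Agent.MP_151d89_pr.H67.Gam

/-! Invariance of the gradient law gives invariance up to a height shift. -/

set_option autoImplicit false
open MeasureTheory Filter Set Topology

namespace Pool.Agent.MP_151d89_pr.H5
open Pool.Agent.MP_151d89_pr.H82 Pool.Agent.MP_151d89_pr.H33 FinalAux

namespace GradAux
open H67

theorem l2 {μ : Measure X} (hμ : Gibbs μ) (hT : Triv μ) {φ : X → ℝ} (hφ : Measurable φ)
    (hB : ∀ a, |φ a| ≤ 1) {ε : ℝ} (hε : 0 < ε) :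
    ∀ᶠ m : ℕ in atTop, ∫ f, (av (box 0 m) φ f - ∫ g, φ g ∂μ) ^ 2 ∂μ < ε := by
  have := hμ.1
  set c := ∫ g, φ g ∂μ with hc
  have hc1 : |c| ≤ 1 := by
    have := norm_integral_le_of_norm_le_const (μ := μ) (f := φ) (C := 1) (ae_of_all _ hB)
    simpa using this
  set a : ℕ → X → ℝ := fun n => av (box 0 n) φ with ha
  have am : ∀ n, Measurable (a n) := fun n => meas_av _ hφ
  have ab : ∀ n f, |a n f| ≤ 1 := fun n => av_abs hB
  have ai : ∀ n m, Integrable (fun f => a n f * a m f) μ := fun n m =>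
    intg ((am n).mul (am m)) fun f => abs_mul_le (ab n f) (ab m f)
  set q : ℕ → ℝ := fun n => ∫ f, a n f * a n f ∂μ with hq
  have hanti : Antitone q := fun n m h => by
    have e1 : ∫ f, a m f * a n f ∂μ = q m := by
      rw [int_av_mul hμ _ hφ (am n) hB (ab n)]
      simp only [ha, av_tower (H67.box_mono h), hq]
    have e2 : ∀ f, (a m f - a n f) ^ 2 =
        (a n f * a n f + a m f * a m f) - 2 * (a m f * a n f) := fun f => by ring
    have := integral_nonneg (μ := μ) (f := fun f => (a m f - a n f) ^ 2) fun f => sq_nonneg _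
    simp only [e2] at this
    rw [integral_sub (f := fun f => a n f * a n f + a m f * a m f) ((ai n n).add (ai m m))
      ((ai m n).const_mul 2), integral_add (ai n n) (ai m m), integral_const_mul, e1] at this
    simp only [hq] at this ⊢
    linarith
  have h2 : ∀ n, ∫ f, (a n f - c) ^ 2 ∂μ = q n - c ^ 2 := by
    intro n
    have e2 : ∀ f, (a n f - c) ^ 2 = (a n f * a n f - 2 * c * a n f) + c ^ 2 := fun f => by ring
    have i1 : Integrable (fun f => 2 * c * a n f) μ := (intg (am n) (ab n)).const_mul _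
    simp only [e2]
    rw [integral_add (f := fun f => a n f * a n f - 2 * c * a n f) ((ai n n).sub i1)
      (integrable_const _), integral_sub (ai n n) i1, integral_const_mul, integral_const,
      probReal_univ, one_smul]
    simp only [ha, int_av hμ _ hφ hB, hq, ← hc]
    ring
  obtain ⟨ns, hns⟩ := av_tendsto hμ hT hφ hB
  have h3 := tendsto_integral_of_dominated_convergence (μ := μ)
    (F := fun i f => (a (ns i) f - c) ^ 2) (f := fun _ => (c - c) ^ 2) (fun _ => 4)
    (fun i => (((am (ns i)).sub_const c).pow_const 2).aestronglyMeasurable) (integrable_const _)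
    (fun i => ae_of_all _ fun f => by
      have := abs_le.1 (ab (ns i) f)
      have := abs_le.1 hc1
      rw [Real.norm_eq_abs, abs_of_nonneg (sq_nonneg _)]
      nlinarith)
    (hns.mono fun f hf => (hf.sub_const c).pow 2)
  simp only [sub_self, ne_eq, OfNat.ofNat_ne_zero, not_false_eq_true, zero_pow, integral_zero] at h3
  obtain ⟨i, hi⟩ := (h3.eventually (gt_mem_nhds hε)).exists
  filter_upwards [eventually_ge_atTop (ns i)] with m hm
  have := hanti hm
  rw [h2] at hi
  exact (h2 m).trans_lt (by linarith)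

theorem cheb2 {μ : Measure X} (hμ : Gibbs μ) (hT : Triv μ) {φ : X → ℝ} (hφ : Measurable φ)
    (hB : ∀ a, |φ a| ≤ 1) {δ ε : ℝ} (hδ : 0 < δ) (hε : 0 < ε) :
    ∀ᶠ m : ℕ in atTop, μ.real {f | δ ≤ (av (box 0 m) φ f - ∫ g, φ g ∂μ) ^ 2} < ε := by
  have := hμ.1
  filter_upwards [l2 hμ hT hφ hB (mul_pos hδ hε)] with m hm
  have i1 : Integrable (fun f => (av (box 0 m) φ f - ∫ g, φ g ∂μ) ^ 2) μ :=
    intg (B := (1 + |∫ g, φ g ∂μ|) ^ 2) (((meas_av _ hφ).sub_const _).pow_const 2) fun f => by
      rw [abs_pow]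
      exact pow_le_pow_left₀ (abs_nonneg _)
        ((abs_sub _ _).trans (add_le_add (av_abs hB f) le_rfl)) 2
  have := mul_meas_ge_le_integral_of_nonneg (ae_of_all _ fun f => sq_nonneg _) i1 δ
  exact lt_of_mul_lt_mul_left (this.trans_lt hm) hδ.le

theorem sing {μ ν : Measure X} (hμ : Gibbs μ) (hT : Triv μ) (hν : Gibbs ν) (hT' : Triv ν)
    (h : μ ≠ ν) : μ ⟂ₘ ν := by
  have := hμ.1
  have := hν.1
  obtain ⟨A, hA, hne⟩ : ∃ A, MeasurableSet A ∧ μ A ≠ ν A := by
    by_contra hc
    push Not at hc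
    exact h (Measure.ext hc)
  let φ : X → ℝ := A.indicator 1
  have hφ : Measurable φ := measurable_one.indicator hA
  have hB : ∀ a, |φ a| ≤ 1 := fun a => by
    by_cases ha : a ∈ A <;> simp [φ, ha]
  have hd : ∫ g, φ g ∂μ ≠ ∫ g, φ g ∂ν := by
    rw [integral_indicator_one hA, integral_indicator_one hA]
    exact fun e => hne ((measureReal_eq_measureReal_iff (measure_ne_top _ _)
      (measure_ne_top _ _)).1 e)
  set c := ∫ g, φ g ∂μ
  set d := ∫ g, φ g ∂ν
  have hδ : 0 < (c - d) ^ 2 / 4 := by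
    have := sq_pos_of_ne_zero (sub_ne_zero.2 hd)
    positivity
  refine Measure.mutuallySingular_of_disjoint fun ξ h1 h2 => ?_
  have : IsFiniteMeasure ξ := isFiniteMeasure_of_le μ h1
  have key : ∀ ε : ℝ, 0 < ε → ξ.real univ ≤ 0 + ε := by
    intro ε hε
    obtain ⟨m, a1, a2⟩ := ((cheb2 hμ hT hφ hB hδ (half_pos hε)).and
      (cheb2 hν hT' hφ hB hδ (half_pos hε))).exists
    have e : univ ⊆ {f | (c - d) ^ 2 / 4 ≤ (av (box 0 m) φ f - c) ^ 2} ∪
        {f | (c - d) ^ 2 / 4 ≤ (av (box 0 m) φ f - d) ^ 2} := fun f _ => by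
      by_contra hc
      simp only [mem_union, mem_ofPred_eq, not_or, not_le] at hc
      nlinarith [hc.1, hc.2, sq_nonneg (2 * av (box 0 m) φ f - c - d)]
    have b0 := (measureReal_mono (μ := ξ) e).trans (measureReal_union_le _ _)
    have b1 := (ENNReal.toReal_mono (measure_ne_top _ _) (h1 _)).trans_lt a1
    have b2 := (ENNReal.toReal_mono (measure_ne_top _ _) (h2 _)).trans_lt a2
    simp only [measureReal_def] at b0 ⊢
    linarith
  have h0 : ξ.real univ = 0 := le_antisymm (le_of_forall_pos_le_add key) measureReal_nonneg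
  rw [measureReal_eq_zero_iff (measure_ne_top _ _), Measure.measure_univ_eq_zero] at h0
  exact h0.le

theorem gt_Tv {μ : Measure X} (hμ : Gibbs μ) (hT : Triv μ) (v : V) (c : ℤ) :
    Gibbs (μ.map (Tv v c)) ∧ Triv (μ.map (Tv v c)) := by
  have e : Tv v c = T (Equiv.addRight v) 1 (-c) := by
    funext f z
    simp [Tv, T, sub_eq_add_neg]
  rw [e]
  exact ⟨gibbs_T hμ (fun x y => by simp) (one_mul 1) _, triv_T hT _ _ _⟩

end GradAux

open GradAux in
theorem inv_of_grad {μ : Measure X} (hμ : Gibbs μ) (hT : Triv μ) (v : V)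
    (h : μ.map (fun (f : X) (z : V) => f (z + v) - f v) =
      μ.map (fun (f : X) (z : V) => f z - f 0)) : ∃ c, μ.map (Tv v c) = μ := by
  have := hμ.1
  by_contra hc
  push Not at hc
  have hs := fun c => sing (gt_Tv hμ hT v c).1 (gt_Tv hμ hT v c).2 hμ hT (hc c)
  choose B hB h1 h2 using hs
  have m1 : Measurable fun (f : X) (z : V) => f (z + v) - f v :=
    measurable_pi_iff.2 fun z => (measurable_pi_apply (z + v)).sub (measurable_pi_apply v)
  have m2 : Measurable fun (f : X) (z : V) => f z - f 0 :=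
    measurable_pi_iff.2 fun z => (measurable_pi_apply z).sub (measurable_pi_apply 0)
  let S : Set X := ⋃ k : ℤ, Tv 0 k ⁻¹' ⋂ c, B c
  have mB : MeasurableSet (⋂ c, B c) := MeasurableSet.iInter hB
  have mS : MeasurableSet S := MeasurableSet.iUnion fun k => meas_Tv _ _ mB
  have e := congrArg (fun m : Measure X => m S) h
  simp only [Measure.map_apply m1 mS, Measure.map_apply m2 mS] at e
  have a1 : μ ((fun (f : X) (z : V) => f (z + v) - f v) ⁻¹' S) = 0 := by
    refine measure_mono_null (t := ⋃ c, Tv v c ⁻¹' B c) ?_ (measure_iUnion_null fun c => ?_)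
    · intro f hf
      obtain ⟨k, hk⟩ := mem_iUnion.1 hf
      refine mem_iUnion.2 ⟨f v + k, ?_⟩
      have e1 : Tv v (f v + k) f = Tv 0 k fun z => f (z + v) - f v := by
        funext z
        simp only [Tv, add_zero]
        ring
      rw [mem_preimage, e1]
      exact mem_iInter.1 hk _
    · rw [← Measure.map_apply (meas_Tv _ _) (hB c)]
      exact h1 c
  rw [a1] at e
  have a2 : μ univ = 0 := by
    refine measure_mono_null (t := (fun (f : X) (z : V) => f z - f 0) ⁻¹' S ∪ ⋃ c, (B c)ᶜ) ?_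
      (measure_union_null e.symm (measure_iUnion_null h2))
    intro f _
    by_cases hf : f ∈ ⋂ c, B c
    · refine Or.inl (mem_iUnion.2 ⟨-f 0, ?_⟩)
      have e1 : (Tv 0 (-f 0) fun z => f z - f 0) = f := by
        funext z
        simp [Tv]
      rw [mem_preimage, e1]
      exact hf
    · right
      rwa [← compl_iInter]
  simp at a2

end Pool.Agent.MP_151d89_pr.H5
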