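import Pool.Agent.MP_151d89_pr.H5.Meas

/-! Row Slope: a maximal mean slope along a ray gives an almost frozen measure. -/

set_option autoImplicit false
open MeasureTheory Filter Set

namespace Pool.Agent.MP_151d89_pr.H5
open Pool.Agent.MP_151d89_pr.H82 Pool.Agent.MP_151d89_pr.H33

namespace SlopeAux

theorem ray {f : X} (hf : Hom f) {e : V} (he : |e.1| + |e.2| = 1) {n m : ℕ} (h : n ≤ m) :
    f ((m : ℤ) • e) - f ((n : ℤ) • e) ≤ m - n := by
  refine (lip hf _ _).1.trans (le_of_eq ?_)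
  have h0 : (0 : ℤ) ≤ (m : ℤ) - n := by omega
  simp only [Prod.smul_fst, Prod.smul_snd, smul_eq_mul]
  rw [← sub_mul, ← sub_mul, abs_mul, abs_mul, abs_of_nonneg h0, ← mul_add, he, mul_one]

theorem bc {μ : Measure X} (hC : Cheb μ) {e : V} (he : |e.1| + |e.2| = 1) {ε : ℝ} (hε : 0 < ε) :
    ∀ᵐ f ∂μ, ∀ᶠ k : ℕ in atTop, ell μ (((2 ^ k : ℕ) : ℤ) • e) - ε * 2 ^ k ≤
      (f (((2 ^ k : ℕ) : ℤ) • e) : ℝ) - f (0, 0) := by
  have hs : Summable fun k : ℕ => 2 / ε ^ 2 * (1 / 2 : ℝ) ^ k :=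
    summable_geometric_two.mul_left _
  have h := ae_eventually_notMem (μ := μ) (s := fun k : ℕ => {f : X | ε * 2 ^ k ≤
      |((f (((2 ^ k : ℕ) : ℤ) • e) : ℝ) - f (0, 0)) - ell μ (((2 ^ k : ℕ) : ℤ) • e)|})
    (ne_top_of_le_ne_top hs.tsum_ofReal_ne_top (ENNReal.tsum_le_tsum fun k => by
      refine (hC _ (0, 0) _ (by positivity)).trans (le_of_eq ?_)
      congr 1
      have : d1 (((2 ^ k : ℕ) : ℤ) • e) (0, 0) = 2 ^ k := by
        simp only [d1, Prod.smul_fst, Prod.smul_snd, smul_eq_mul, sub_zero, abs_mul]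
        rw [← mul_add, he]
        simp
      rw [this, one_div, inv_pow]
      push_cast
      field_simp))
  filter_upwards [h] with f hf
  filter_upwards [hf] with k hk
  have := abs_lt.1 (not_le.1 hk)
  linarith [this.1]

end SlopeAux

theorem slope_row : SlopeStmt := by
  intro μ hG hC e he hl
  refine ⟨he, fun u => ?_⟩
  have hb := ae_all_iff.2 fun m : ℕ => SlopeAux.bc hC he (Nat.one_div_pos_of_nat (α := ℝ) (n := m))
  filter_upwards [hG.2.1, hb] with f hf h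
  refine FinalAux.move hf he 0 u (-f (0, 0)) ?_
  refine tendsto_order.2 ⟨fun a ha => ?_, fun a ha => ?_⟩
  · obtain ⟨m, hm⟩ := exists_nat_one_div_lt (K := ℝ) (show 0 < (1 - a) / 4 by linarith)
    have hε := Nat.one_div_pos_of_nat (α := ℝ) (n := m)
    have h1 := h m
    generalize 1 / ((m : ℝ) + 1) = ε at hm hε h1
    have h2 := (tendsto_pow_atTop_atTop_of_one_lt (by norm_num : 1 < 2)).eventually (hl ε hε)
    obtain ⟨k₀, hk₀⟩ := eventually_atTop.1 (h1.and h2)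
    filter_upwards [eventually_ge_atTop (2 ^ k₀)] with n hn
    have hn0 : 0 < n := lt_of_lt_of_le (by positivity) hn
    have hk : k₀ ≤ Nat.log 2 n + 1 := (Nat.le_log_of_pow_le (by norm_num) hn).trans (Nat.le_succ _)
    obtain ⟨a1, a2⟩ := hk₀ _ hk
    have a3 : n ≤ 2 ^ (Nat.log 2 n + 1) := (Nat.lt_pow_succ_log_self (by norm_num) n).le
    have a4 : 2 ^ (Nat.log 2 n + 1) ≤ 2 * n := by
      have := Nat.pow_log_le_self 2 hn0.ne'
      rw [pow_succ]
      omega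
    have a5 := SlopeAux.ray hf he a3
    have e1 : (2 : ℝ) ^ (Nat.log 2 n + 1) = ((2 ^ (Nat.log 2 n + 1) : ℕ) : ℝ) := by push_cast; rfl
    rw [e1] at a1
    generalize 2 ^ (Nat.log 2 n + 1) = N at a1 a2 a4 a5
    have b4 : (N : ℝ) ≤ 2 * n := by exact_mod_cast a4
    have b5 : (f ((N : ℤ) • e) : ℝ) - f ((n : ℤ) • e) ≤ N - n := by exact_mod_cast a5
    have b0 : (0 : ℝ) < n := by exact_mod_cast hn0
    rw [lt_div_iff₀ b0, zero_add]
    push_cast
    nlinarith
  · filter_upwards [eventually_gt_atTop 0] with n hn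
    have b0 : (0 : ℝ) < n := by exact_mod_cast hn
    have a5 := SlopeAux.ray hf he (Nat.zero_le n)
    have e0 : ((0 : ℕ) : ℤ) • e = (0, 0) := by simp [Prod.ext_iff]
    rw [e0] at a5
    have b5 : (f ((n : ℤ) • e) : ℝ) - f (0, 0) ≤ n - (0 : ℕ) := by exact_mod_cast a5
    rw [div_lt_iff₀ b0, zero_add]
    push_cast at b5 ⊢
    nlinarith

end Pool.Agent.MP_151d89_pr.H5
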