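import Pool.Agent.MP_151d89_pr.H5.Kit

/-! Measurability of the cluster events; invariance and recurrence. -/

set_option autoImplicit false
open MeasureTheory Filter Set

namespace Pool.Agent.MP_151d89_pr.H5
open Pool.Agent.MP_151d89_pr.H82 Pool.Agent.MP_151d89_pr.H33

section
variable {Ω : Type} [MeasurableSpace Ω] {g g' : Ω → Set V}

theorem mmem (hg : Measurable g) (z : V) : Measurable fun ω => z ∈ g ω :=
  measurable_set_iff.1 hg z

theorem minter (hg : Measurable g) (hg' : Measurable g') : Measurable fun ω => g ω ∩ g' ω :=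
  measurable_set_iff.2 fun z => (mmem hg z).and (mmem hg' z)

theorem mcompl (hg : Measurable g) : Measurable fun ω => (g ω)ᶜ :=
  measurable_set_iff.2 fun z => (mmem hg z).not

theorem mdiff (hg : Measurable g) (hg' : Measurable g') : Measurable fun ω => g ω \ g' ω :=
  measurable_set_iff.2 fun z => (mmem hg z).and (mmem hg' z).not

/-- walks with n steps -/
def CN (S : Set V) (p : V) : ℕ → V → Prop
  | 0, q => p ∈ S ∧ q = p
  | n + 1, q => ∃ x, CN S p n x ∧ Adj x q ∧ q ∈ S

theorem conn_iff_CN {S : Set V} {p q : V} : Conn S p q ↔ ∃ n, CN S p n q := by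
  constructor
  · intro h
    exact h.ind (fun x => ∃ n, CN S p n x) ⟨0, h.1, rfl⟩
      fun x _ _ ⟨n, hn⟩ ha hy => ⟨n + 1, x, hn, ha, hy⟩
  · rintro ⟨n, hn⟩
    induction n generalizing q with
    | zero => obtain ⟨h1, rfl⟩ := hn; exact Conn.refl h1
    | succ n ih => obtain ⟨x, h1, h2, h3⟩ := hn; exact (ih h1).tail h2 h3

theorem mCN (hg : Measurable g) (p : V) (n : ℕ) : ∀ q, Measurable fun ω => CN (g ω) p n q := by
  induction n with
  | zero => exact fun q => (mmem hg p).and measurable_const
  | succ n ih =>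
    exact fun q => Measurable.exists fun x => (ih x).and (measurable_const.and (mmem hg q))

theorem mconn (hg : Measurable g) (p q : V) : Measurable fun ω => Conn (g ω) p q := by
  simp only [conn_iff_CN]
  exact Measurable.exists fun n => mCN hg p n q

theorem minf (hg : Measurable g) (p : V) : Measurable fun ω => Inf (g ω) p := by
  simp only [inf_iff_box (0, 0)]
  exact Measurable.forall fun n => Measurable.exists fun q => (mconn hg p q).and measurable_const

theorem mperc (hg : Measurable g) : Measurable fun ω => Perc (g ω) :=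
  Measurable.exists fun p => minf hg p

theorem muniq (hg : Measurable g) : Measurable fun ω => Uniq (g ω) :=
  Measurable.forall fun p => Measurable.forall fun q =>
    (minf hg p).imp ((minf hg q).imp (mconn hg p q))

theorem marmR (hg : Measurable g) (θ : ℤ → ℤ) (j t : ℤ) : Measurable fun ω => ArmR θ j (g ω) t :=
  minf (minter hg measurable_const) _

theorem marmL (hg : Measurable g) (θ : ℤ → ℤ) (j t : ℤ) : Measurable fun ω => ArmL θ j (g ω) t :=
  minf (minter hg measurable_const) _

theorem mgood (hg : Measurable g) (θ : ℤ → ℤ) : Measurable fun ω => Good θ (g ω) :=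
  Measurable.forall fun j => Measurable.forall fun _ =>
    (Measurable.exists fun s => measurable_const.and ((marmR hg θ j s).and (marmL hg θ j s))).and
      (Measurable.exists fun s => measurable_const.and ((marmR hg θ j s).and (marmL hg θ j s)))

theorem mfincol (hg : Measurable g) (θ : ℤ → ℤ) : Measurable fun ω => FinCol θ (g ω) := by
  have : ∀ (S : Set V), FinCol θ S ↔
      ∀ p j, ∃ n : ℕ, ∀ t, Conn S p (cp θ j t) → -(n : ℤ) ≤ t ∧ t ≤ n := by
    intro S
    refine forall₂_congr fun p j => ⟨fun h => ?_, fun ⟨n, hn⟩ =>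
      (finite_Icc (-(n : ℤ)) n).subset fun t ht => hn t ht⟩
    obtain ⟨n, hn⟩ := (h.image Int.natAbs).bddAbove
    exact ⟨n, fun t ht => by have := hn (mem_image_of_mem Int.natAbs ht); omega⟩
  simp only [this]
  exact Measurable.forall fun p => Measurable.forall fun j => Measurable.exists fun _ =>
    Measurable.forall fun t => (mconn hg p _).imp measurable_const

theorem mtall (hg : Measurable g) (p : V) : Measurable fun ω => Tall (g ω) p :=
  Measurable.forall fun _ => Measurable.exists fun q => (mconn hg p q).and measurable_const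

theorem mtop (hg : Measurable g) (n y x : ℤ) : Measurable fun ω => TopArm (g ω) n y x :=
  (mmem hg _).and (measurable_const.and (measurable_const.and (Measurable.exists fun p =>
    measurable_const.and (measurable_const.and (mtall (mdiff hg measurable_const) p)))))

theorem mbot (hg : Measurable g) (n y x : ℤ) : Measurable fun ω => BotArm (g ω) n y x :=
  (mmem hg _).and (measurable_const.and (measurable_const.and (Measurable.exists fun p =>
    measurable_const.and (measurable_const.and (mtall (mdiff hg measurable_const) p)))))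

theorem mhub (hg : Measurable g) (x : V) (r : ℕ) : Measurable fun ω => Hub (g ω) x r :=
  measurable_set_iff.2 fun z => mconn (minter hg measurable_const) x z

theorem mtri (hg : Measurable g) (x : V) (r : ℕ) : Measurable fun ω => Tri (g ω) x r :=
  Measurable.exists fun p => (Measurable.forall fun i => (minf (mdiff hg (mhub hg x r)) _).and
    (Measurable.exists fun w => (mmem (mhub hg x r) w).and measurable_const)).and
    (Measurable.forall fun i => Measurable.forall fun i' =>
      measurable_const.imp (mconn (mdiff hg (mhub hg x r)) (p i) (p i')).not)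

theorem mexit (hg : Measurable g) (θ : ℤ → ℤ) (jA jB t0 t1 : ℤ) (p : V) :
    Measurable fun ω => Exit θ jA jB (g ω) t0 t1 p :=
  Measurable.exists fun q => ((mconn (minter hg measurable_const) p q).or
    ((mconn (minter hg measurable_const) p q).or measurable_const)).and measurable_const

theorem mneck (hg : Measurable g) (θ : ℤ → ℤ) (j t : ℤ) (K n K2 : ℕ) :
    Measurable fun ω => Neck θ j (g ω) t K n K2 :=
  Measurable.exists fun _ => Measurable.exists fun _ =>
    (Measurable.forall fun _ => marmR hg θ j _).and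
      ((Measurable.forall fun _ => marmR (mcompl hg) θ j _).and measurable_const)

theorem man (hg : Measurable g) (θ : ℤ → ℤ) (j s : ℤ) : Measurable fun ω => An θ j (g ω) s :=
  (marmR hg θ j s).and (Measurable.forall fun _ =>
    measurable_const.imp (mconn (minter hg measurable_const) _ _).not)

theorem mtwo (hg : Measurable g) (θ : ℤ → ℤ) (j k s : ℤ) :
    Measurable fun ω => Two θ j k (g ω) s :=
  Measurable.exists fun _ => Measurable.exists fun _ => (marmR hg θ k _).and
    ((marmR hg θ k _).and ((mconn (minter hg measurable_const) _ _).and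
      ((mconn (minter hg measurable_const) _ _).and (mconn (minter hg measurable_const) _ _).not)))

theorem mmrg (hg : Measurable g) (θ : ℤ → ℤ) (j k t : ℤ) (K2 : ℕ) :
    Measurable fun ω => Mrg θ j k (g ω) t K2 :=
  Measurable.exists fun s => measurable_const.and (measurable_const.and
    ((man hg θ j s).and (mtwo hg θ j k s)))

end

theorem meas_sh (w : V) : Measurable (sh w) :=
  measurable_set_iff.2 fun z => mmem measurable_id (z + w)

theorem meas_rf (y : ℤ) : Measurable (rf y) :=
  measurable_set_iff.2 fun z => mmem measurable_id (R y z)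

theorem meas_compl : Measurable (compl : Set V → Set V) := mcompl measurable_id

theorem meas_at (x : V) (P : ℤ → Prop) : MeasurableSet {f : X | P (f x)} :=
  measurable_pi_apply x (MeasurableSet.of_discrete (s := {z | P z}))

theorem meas_chi (y c : ℤ) : Measurable (chi y c) := by
  refine measurable_set_iff.2 fun z => ?_
  have h : Measurable fun ω : X × X => (ω.1 z, ω.2 (R y z)) :=
    ((measurable_pi_apply z).comp measurable_fst).prodMk
      ((measurable_pi_apply (R y z)).comp measurable_snd)
  exact (Measurable.of_discrete (f := fun u : ℤ × ℤ => u.1 + u.2 ≤ c)).comp h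

theorem meas_Tv (v : V) (c : ℤ) : Measurable (Tv v c) :=
  measurable_pi_iff.2 fun z =>
    (Measurable.of_discrete (f := fun a : ℤ => a - c)).comp (measurable_pi_apply (z + v))

theorem nu_apply (μ : Measure X) (y c : ℤ) {E : Set (Set V)} (hE : MeasurableSet E) :
    nu μ y c E = μ.prod μ (chi y c ⁻¹' E) := Measure.map_apply (meas_chi y c) hE

theorem Local.meas {Δ : Finset V} {A : Set X} (h : Local Δ A) : MeasurableSet A := by
  have hπ : Measurable fun (f : X) (x : Δ) => f x :=
    measurable_pi_lambda _ fun x => measurable_pi_apply _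
  have : A = (fun (f : X) (x : Δ) => f x) ⁻¹' ((fun (f : X) (x : Δ) => f x) '' A) := by
    ext f
    exact ⟨fun hf => mem_image_of_mem _ hf, fun ⟨g, hg, e⟩ =>
      h g f (fun x hx => congrFun e ⟨x, hx⟩) hg⟩
  rw [this]
  exact hπ (Set.to_countable _).measurableSet

theorem Up.meas {Δ : Finset V} {A : Set (Set V)} (h : Up Δ A) : MeasurableSet A := by
  have hπ : Measurable fun (L : Set V) (x : Δ) => x.1 ∈ L :=
    measurable_pi_lambda _ fun x => mmem measurable_id _
  have : A = (fun (L : Set V) (x : Δ) => x.1 ∈ L) ⁻¹'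
      ((fun (L : Set V) (x : Δ) => x.1 ∈ L) '' A) := by
    ext L
    exact ⟨fun hf => mem_image_of_mem _ hf, fun ⟨L', hg, e⟩ =>
      h L' L (fun x hx hL => (congrFun e ⟨x, hx⟩).mp hL) hg⟩
  rw [this]
  exact hπ (Set.to_countable _).measurableSet

variable {ν : Measure (Set V)} {a b : ℤ}

theorem Sys0.col (h : Sys0 ν a b) : Col (th a b) := col_th h.ha h.hab h.hb

theorem Sys0.map_sh (h : Sys0 ν a b) (m : ℤ) : ν.map (sh (m • (a, b))) = ν := by
  have step : ∀ m : ℤ, ν.map (sh ((m + 1) • (a, b))) = ν.map (sh (m • (a, b))) := by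
    intro m
    conv_rhs => rw [← h.inv, Measure.map_map (meas_sh _) (meas_sh _)]
    congr 1
    funext L
    rw [Function.comp_apply, sh_sh, add_smul, one_smul]
  induction m using Int.induction_on with
  | zero =>
    have : sh ((0 : ℤ) • (a, b)) = id := funext fun L => by rw [zero_smul, sh_zero]; rfl
    rw [this, Measure.map_id]
  | succ m ih => rw [step, ih]
  | pred m ih => rw [← step, sub_add_cancel, ih]

theorem Sys0.meas_sh (h : Sys0 ν a b) (m : ℤ) {E : Set (Set V)} (hE : MeasurableSet E) :
    ν {L | sh (m • (a, b)) L ∈ E} = ν E := by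
  conv_rhs => rw [← h.map_sh m, Measure.map_apply (H5.meas_sh _) hE]
  rfl

/-- an invariant event of positive probability is almost sure -/
theorem Sys0.ae_of_inv (h : Sys0 ν a b) {E : Set (Set V)} (hE : MeasurableSet E)
    (hi : ∀ L, sh (a, b) L ∈ E ↔ L ∈ E) (h0 : ν E ≠ 0) : ∀ᵐ L ∂ν, L ∈ E :=
  (h.erg E hE hi).resolve_left h0

theorem io_aux (h : Sys0 ν a b) {E : Set (Set V)} (hE : MeasurableSet E) (h0 : ν E ≠ 0)
    (ε : ℤ) (hε : ε = 1 ∨ ε = -1) :
    ∀ᵐ L ∂ν, ∀ N : ℤ, ∃ m, N ≤ ε * m ∧ sh (m • (a, b)) L ∈ E := by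
  have := h.prob
  have hm : ∀ N : ℤ, MeasurableSet {L | ∃ m, N ≤ ε * m ∧ sh (m • (a, b)) L ∈ E} := fun N =>
    measurableSet_setOfPred.2 (Measurable.exists fun m =>
      measurable_const.and (measurableSet_setOfPred.1 (H5.meas_sh _ hE)))
  refine h.ae_of_inv (E := {L | ∀ N : ℤ, ∃ m, N ≤ ε * m ∧ sh (m • (a, b)) L ∈ E})
    (measurableSet_setOfPred.2 (Measurable.forall fun N => measurableSet_setOfPred.1 (hm N))) ?_ ?_
  · intro L
    simp only [mem_ofPred_eq, sh_sh]
    constructor
    · intro H N
      obtain ⟨m, h1, h2⟩ := H (N + 1)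
      exact ⟨m + 1, by rcases hε with rfl | rfl <;> omega, by rwa [add_smul, one_smul]⟩
    · intro H N
      obtain ⟨m, h1, h2⟩ := H (N + 1)
      refine ⟨m - 1, by rcases hε with rfl | rfl <;> omega, ?_⟩
      rwa [sub_smul, one_smul, sub_add_cancel]
  · have e : {L | ∀ N : ℤ, ∃ m, N ≤ ε * m ∧ sh (m • (a, b)) L ∈ E} =
        ⋂ N : ℕ, {L | ∃ m, (N : ℤ) ≤ ε * m ∧ sh (m • (a, b)) L ∈ E} := by
      ext L
      simp only [mem_ofPred_eq, mem_iInter]
      refine ⟨fun H N => H N, fun H N => ?_⟩
      obtain ⟨m, h1, h2⟩ := H N.toNat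
      exact ⟨m, by omega, h2⟩
    have hA : Antitone fun N : ℕ => {L | ∃ m, (N : ℤ) ≤ ε * m ∧ sh (m • (a, b)) L ∈ E} :=
      fun N N' hN L ⟨m, h1, h2⟩ => ⟨m, le_trans (by exact_mod_cast hN) h1, h2⟩
    rw [e, hA.measure_iInter (fun N => (hm N).nullMeasurableSet) ⟨0, measure_ne_top _ _⟩]
    refine fun hz => h0 (le_antisymm (hz ▸ le_iInf fun N => ?_) zero_le)
    rw [← h.meas_sh (ε * N) hE]
    exact measure_mono fun L hL => ⟨ε * N, by rcases hε with rfl | rfl <;> omega, hL⟩

/-- an event of positive probability occurs at arbitrarily high and low translates -/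
theorem Sys0.io (h : Sys0 ν a b) {E : Set (Set V)} (hE : MeasurableSet E) (h0 : ν E ≠ 0) :
    ∀ᵐ L ∂ν, ∀ N : ℤ, (∃ m, N ≤ m ∧ sh (m • (a, b)) L ∈ E) ∧
      ∃ m, m ≤ N ∧ sh (m • (a, b)) L ∈ E := by
  filter_upwards [io_aux h hE h0 1 (Or.inl rfl), io_aux h hE h0 (-1) (Or.inr rfl)] with L h1 h2 N
  obtain ⟨m, h3, h4⟩ := h1 N
  obtain ⟨m', h5, h6⟩ := h2 (-N)
  exact ⟨⟨m, by omega, h4⟩, m', by omega, h6⟩

end Pool.Agent.MP_151d89_pr.H5
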