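import Pool.Agent.MP_151d89_pr.H5.Meas

/-! A long slit carries an arm of the unique infinite cluster. -/

set_option autoImplicit false
open MeasureTheory Filter Set

namespace Pool.Agent.MP_151d89_pr.H5
open Pool.Agent.MP_151d89_pr.H82 Pool.Agent.MP_151d89_pr.H33

theorem arms_cross {S : Set V} {p q : V} (h : Conn S p q) (hp : p.2 < 0) (hq : 0 ≤ q.2) :
    ∃ x : ℤ, Conn S p (x, 0) := by
  have := h.ind (fun z => z.2 < 0 ∨ ∃ x : ℤ, Conn S p (x, 0)) (Or.inl hp) (by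
    rintro x z hx (ih | ih) ha hz
    · by_cases h0 : z.2 < 0
      · exact Or.inl h0
      · have h1 : z.2 = 0 := by unfold Adj at ha; omega
        refine Or.inr ⟨z.1, ?_⟩
        have h2 : ((z.1, 0) : V) = z := Prod.ext rfl h1.symm
        rw [h2]
        exact hx.tail ha hz
    · exact Or.inr ih)
  rcases this with h1 | h1
  · omega
  · exact h1

theorem slit_finite (n y : ℤ) : (slit n y).Finite := by
  refine ((finite_Icc (-n) (y + n)).image fun x : ℤ => ((x, 0) : V)).subset ?_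
  rintro z ⟨h1, h2, h3⟩
  exact ⟨z.1, ⟨h2, h3⟩, Prod.ext rfl h1.symm⟩

theorem arm_of_tall {L : Set V} {x0 n y : ℤ} (h1 : -n ≤ x0) (h2 : x0 ≤ y + n)
    (hT : Tall L (x0, 0)) : ∃ x, TopArm L n y x ∨ BotArm L n y x := by
  have key : ∃ p, (∃ w ∈ slit n y, w ∈ L ∧ Adj w p) ∧ p ∉ slit n y ∧ Tall (L \ slit n y) p := by
    by_contra hc
    have hM : ∀ p : V, ∃ M : ℕ, (∃ w ∈ slit n y, w ∈ L ∧ Adj w p) →
        ∀ q, Conn (L \ slit n y) p q → |q.2| < M := by
      intro p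
      by_contra hp
      push Not at hp
      obtain ⟨hw, q0, hq0, -⟩ := hp 0
      exact hc ⟨p, hw, hq0.mem_left.2, fun M => (hp M).2⟩
    choose g hg using hM
    obtain ⟨M, hM⟩ := ((finite_nbr (slit_finite n y)).image g).bddAbove
    obtain ⟨q, hq1, hq2⟩ := hT (M + 1)
    have hq3 : q ∉ slit n y := by
      rintro ⟨h3, -⟩
      rw [h3] at hq2
      push_cast at hq2
      simp only [abs_zero] at hq2
      omega
    obtain ⟨w, p, hw1, hw2, hw3, hw4⟩ := hq1.last_visit (A := slit n y) ⟨rfl, h1, h2⟩ hq3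
    have h5 := hg p ⟨w, hw1, hw2.mem_right, hw3⟩ q hw4
    have h6 : g p ≤ M := hM (mem_image_of_mem g ⟨w, hw1, hw3⟩)
    push_cast at hq2
    omega
  obtain ⟨p, ⟨w, ⟨hw0, hw1, hw2⟩, hwL, hwa⟩, hp, hT'⟩ := key
  have hw : ((w.1, 0) : V) = w := Prod.ext rfl hw0.symm
  refine ⟨w.1, ?_⟩
  unfold TopArm BotArm
  rw [hw]
  have hp' : ¬ (p.2 = 0 ∧ -n ≤ p.1 ∧ p.1 ≤ y + n) := hp
  have ha := hwa
  unfold Adj at ha
  by_cases hc : p.2 = 1 ∨ (p.2 = 0 ∧ y + n < p.1)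
  · exact Or.inl ⟨hwL, hw1, hw2, p, hwa, hc, hT'⟩
  · exact Or.inr ⟨hwL, hw1, hw2, p, hwa, by omega, hT'⟩

theorem arms_row : ArmsStmt := by
  intro ν a b h jA jB hae y
  have hprob := h.prob
  have hb := h.hb
  have hz : ∃ z : V, ν {L | Inf L z} ≠ 0 := by
    by_contra hc
    push Not at hc
    have h0 : ∀ᵐ L ∂ν, ∀ z : V, ¬ Inf L z := by
      refine ae_all_iff.2 fun z => ?_
      rw [ae_iff]
      simpa using hc z
    have h1 : ∀ᵐ L ∂ν, False := by
      filter_upwards [hae, h0] with L hL hL0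
      obtain ⟨z, hz⟩ := hL.2.2.1
      exact hL0 z hz
    obtain ⟨_, hF⟩ := h1.exists
    exact hF
  obtain ⟨z, hz⟩ := hz
  have hE : MeasurableSet {L : Set V | Inf L z} := measurableSet_setOfPred.2 (minf measurable_id z)
  filter_upwards [hae, h.io hE hz] with L hL hio
  have hU := hL.2.2.2
  have up : ∀ N : ℤ, ∃ q : V, Inf L q ∧ N ≤ q.2 := by
    intro N
    obtain ⟨m, hm1, hm2⟩ := (hio (|N| + |z.2|)).1
    refine ⟨z + m • (a, b), (inf_sh _).1 hm2, ?_⟩
    have e1 := le_abs_self N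
    have e2 := neg_abs_le z.2
    have e3 := abs_nonneg N
    have e4 := abs_nonneg z.2
    have e5 : m ≤ m * b := by nlinarith
    simp only [Prod.snd_add, Prod.smul_mk, smul_eq_mul]
    omega
  have down : ∃ q : V, Inf L q ∧ q.2 < 0 := by
    obtain ⟨m, hm1, hm2⟩ := (hio (-|z.2| - 1)).2
    refine ⟨z + m • (a, b), (inf_sh _).1 hm2, ?_⟩
    have e2 := le_abs_self z.2
    have e4 := abs_nonneg z.2
    have e5 : m * b ≤ m := by nlinarith
    simp only [Prod.snd_add, Prod.smul_mk, smul_eq_mul]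
    omega
  obtain ⟨p, hp1, hp2⟩ := down
  obtain ⟨q, hq1, hq2⟩ := up 0
  obtain ⟨x0, hx0⟩ := arms_cross (hU p q hp1 hq1) hp2 hq2
  have hT : Tall L (x0, 0) := by
    intro M
    obtain ⟨r, hr1, hr2⟩ := up M
    exact ⟨r, hU _ _ (hp1.conn hx0) hr1, hr2.trans (le_abs_self _)⟩
  refine ⟨x0.natAbs + y.natAbs, fun n hn => arm_of_tall (x0 := x0) ?_ ?_ hT⟩ <;> omega

end Pool.Agent.MP_151d89_pr.H5
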