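import Pool.Agent.MP_151d89_pr.H5.Law

/-! The case of coexistence of infinite clusters of both colours. -/

set_option autoImplicit false
open MeasureTheory Filter Set

namespace Pool.Agent.MP_151d89_pr.H5
open Pool.Agent.MP_151d89_pr.H82 Pool.Agent.MP_151d89_pr.H33 FinalAux

namespace CoexAux

variable {μ : Measure X}

/-- the sign flip -/
def N : X → X := T (Equiv.refl V) (-1) 0

theorem N_apply (f : X) (z : V) : N f z = -f z := by simp [N, T]

theorem mN : Measurable N := meas_T _ _ _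

theorem nu_neg [IsProbabilityMeasure μ] (y c : ℤ) :
    nu (μ.map N) y (-c - 1) = (nu μ y c).map compl := by
  unfold nu
  rw [Measure.map_prod_map _ _ mN mN, Measure.map_map (meas_chi _ _) (mN.prodMap mN),
    Measure.map_map meas_compl (meas_chi _ _)]
  congr 1
  funext ω
  ext z
  show N ω.1 z + N ω.2 (R y z) ≤ -c - 1 ↔ ¬ (ω.1 z + ω.2 (R y z) ≤ c)
  rw [N_apply, N_apply]
  omega

theorem inv_neg {v : V} {c0 : ℤ} (h : μ.map (Tv v c0) = μ) :
    (μ.map N).map (Tv v (-c0)) = μ.map N := by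
  conv_rhs => rw [← h]
  rw [Measure.map_map (meas_Tv _ _) mN, Measure.map_map mN (meas_Tv _ _)]
  congr 1
  funext f z
  simp only [Function.comp, Tv, N_apply]
  ring

theorem d1_ray {e : V} (he : |e.1| + |e.2| = 1) (z : V) (r : ℕ) :
    d1 z (z + (r : ℤ) • e) = r ∧ d1 (z + (r : ℤ) • e) z = r := by
  rcases unit_cases he with rfl | rfl | rfl | rfl <;> simp [d1]

theorem asym (A B y : ℝ) (hy : 0 ≤ y) {ε : ℝ} (hε : 0 < ε) :
    ∀ᶠ n : ℕ in atTop, A + B * √(n + y) ≤ ε * n := by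
  filter_upwards [(tendsto_natCast_atTop_atTop (R := ℝ)).eventually_ge_atTop
    ((A + ε * y / 2 + B ^ 2 / (2 * ε)) / (ε / 2))] with n hn
  rw [div_le_iff₀ (by positivity)] at hn
  have h1 : √(n + y) ^ 2 = n + y := Real.sq_sqrt (by positivity)
  have h2 : B * √(n + y) ≤ ε / 2 * (n + y) + B ^ 2 / (2 * ε) := by
    have h3 : B ^ 2 / (2 * ε) * (2 * ε) = B ^ 2 := div_mul_cancel₀ _ (by positivity)
    by_contra hc
    have h4 := mul_lt_mul_of_pos_right (not_le.1 hc) (show 0 < 2 * ε by positivity)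
    generalize √(n + y) = s at *
    have h5 : (ε / 2 * (n + y) + B ^ 2 / (2 * ε)) * (2 * ε) = ε ^ 2 * s ^ 2 + B ^ 2 := by
      rw [add_mul, h3, h1]; ring
    nlinarith [sq_nonneg (ε * s - B)]
  nlinarith

theorem pick [IsProbabilityMeasure μ] {S : Set (X × X)} {A B : Set X} {p : ℝ} (hp : 0 < p)
    (hS : p ≤ (μ.prod μ).real S) (hA : μ.real A ≤ p / 3) (hB : μ.real B ≤ p / 3) :
    ∃ ω ∈ S, ω.1 ∉ A ∧ ω.2 ∉ B := by
  by_contra hc
  push Not at hc
  have h1 : S ⊆ A ×ˢ univ ∪ univ ×ˢ B := fun ω hω => by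
    by_cases h : ω.1 ∈ A
    · exact Or.inl ⟨h, trivial⟩
    · exact Or.inr ⟨trivial, hc ω hω h⟩
  have h2 := (measureReal_mono (μ := μ.prod μ) h1).trans (measureReal_union_le _ _)
  rw [measureReal_prod_prod, measureReal_prod_prod, probReal_univ, mul_one, one_mul] at h2
  linarith

end CoexAux

open CoexAux in
theorem coex_row (hS : SysStmt) (hD : DichStmt) (hF : FarStmt) (hE : EllStmt) (hT : DetStmt)
    (hL : SlopeStmt) (hC : ChebStmt) : CoexStmt := by
  intro μ a b c0 H y c hy q1 q2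
  have hG := H.gibbs
  have := hG.1
  have hG' : Gibbs (μ.map N) := gibbs_T hG (fun _ _ => rfl) (by norm_num) 0
  have S1 := hS μ hG H.triv a b c0 H.ha H.hab H.hb H.inv H.low y c
  have S2 := hS _ hG' (triv_T H.triv _ _ _) a b (-c0) H.ha H.hab H.hb (inv_neg H.inv)
    (fun x m h => H.high x (-m) (by
      rw [Measure.map_apply mN (meas_at x fun t => t ≤ m)] at h
      refine measure_mono_null (fun f hf => ?_) h
      have : -m ≤ f x := hf
      show N f x ≤ m
      rw [N_apply]; omega)) y (-c - 1)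
  have good := hD _ a b y hy S1 (by rw [← nu_neg]; exact S2) q1 q2
  have good' : ∀ᵐ L ∂(nu (μ.map N) y (-c - 1)), Good (th a b) L ∧ Good (th a b) Lᶜ := by
    rw [nu_neg, ae_map_iff meas_compl.aemeasurable (measurableSet_setOfPred.2
      ((mgood measurable_id' _).and (mgood meas_compl _)))]
    exact good.mono fun L h => ⟨h.2, by rw [compl_compl]; exact h.1⟩
  obtain ⟨p1, K1, hp1, -, F1⟩ := hF μ hG a b c0 y c H.inv S1.toSys0 good
  obtain ⟨p2, K2, hp2, -, F2⟩ := hF _ hG' a b (-c0) y (-c - 1) (inv_neg H.inv) S2.toSys0 good'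
  have ch := hC μ hG H.triv
  obtain ⟨E1, E2, E3, E4⟩ := hE μ hG ch
  obtain ⟨C, E3⟩ := E3 (min p1 p2) (lt_min hp1 hp2)
  have k1 : (K1 : ℝ) ≤ max (K1 : ℝ) K2 := le_max_left _ _
  have k2 : (K2 : ℝ) ≤ max (K1 : ℝ) K2 := le_max_right _ _
  obtain ⟨e, he, hR, h⟩ := hT (ell μ) a b c0 (max (K1 : ℝ) K2) C H.ha H.hab H.hb H.hc E1
    (E2 _ _ H.inv) fun r => by
      obtain ⟨J1, h1⟩ := F1 r
      obtain ⟨J2, h2⟩ := F2 r
      refine ⟨max J1 J2, fun z hz => ⟨?_, ?_⟩⟩
      · obtain ⟨⟨e, he, h⟩, -⟩ := h1 z (Rt_mono (le_max_left _ _) hz)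
        have := E3 z (z + (r : ℤ) • e) K1 (by
          rw [(d1_ray he z r).1]; exact (min_le_left _ _).trans h)
        rw [(d1_ray he z r).1, Int.cast_natCast] at this
        exact ⟨e, he, by linarith⟩
      · obtain ⟨⟨e, he, h⟩, -⟩ := h2 z (Rt_mono (le_max_right _ _) hz)
        have mA : MeasurableSet {f : X | (r : ℤ) - K2 ≤ f (z + (r : ℤ) • e) - f z} :=
          measurableSet_le measurable_const ((measurable_pi_apply (z + (r : ℤ) • e)).sub (measurable_pi_apply z))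
        rw [map_measureReal_apply mN mA] at h
        have := E3 (z + (r : ℤ) • e) z K2 (by
          rw [(d1_ray he z r).2]
          refine ((min_le_right _ _).trans h).trans (measureReal_mono fun f hf => ?_)
          have : (r : ℤ) - K2 ≤ N f (z + (r : ℤ) • e) - N f z := hf
          rw [N_apply, N_apply] at this
          show (r : ℤ) - K2 ≤ f z - f (z + (r : ℤ) • e)
          omega)
        rw [(d1_ray he z r).2, Int.cast_natCast] at this
        exact ⟨e, he, by linarith⟩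
  rcases h with h | h
  · exact ⟨e, hL μ hG ch e he h⟩
  refine ⟨-e, hL μ hG ch (-e) (by simpa using he) fun ε hε => ?_⟩
  obtain ⟨J, hJ⟩ := F1 0
  obtain ⟨C4, E4⟩ := E4 (p1 / 3) (by positivity)
  have hy' : (0 : ℝ) ≤ y := by exact_mod_cast hy
  filter_upwards [hR J, h (ε / 2) (by positivity),
    asym (y + K1 - c + 2 * |C4|) (2 * |C4|) y hy' (half_pos hε)] with n h1 h2 h3
  obtain ⟨ω, a1, a2, a3⟩ := pick hp1 (hJ _ h1).2 (E4 ((n : ℤ) • e)) (E4 (R y ((n : ℤ) • e)))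
  have b1 : ((c - K1 : ℤ) : ℝ) ≤ ((ω.1 ((n : ℤ) • e) + ω.2 (R y ((n : ℤ) • e)) : ℤ) : ℝ) :=
    Int.cast_le.2 a1
  push_cast at b1
  simp only [mem_ofPred_eq, not_lt] at a2 a3
  have b2 := (abs_le.1 a2).2
  have b3 := (abs_le.1 a3).2
  have b4 := E1 (R y ((n : ℤ) • e)) ((n : ℤ) • -e)
  have c1 : d1 (R y ((n : ℤ) • e)) ((n : ℤ) • -e) = y := by simp [d1, R, abs_of_nonneg hy]
  have c2 : d1 (0, 0) ((n : ℤ) • e) ≤ n + y ∧ d1 (0, 0) (R y ((n : ℤ) • e)) ≤ n + y := by
    rcases unit_cases he with rfl | rfl | rfl | rfl <;>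
      simp [d1, R, abs_of_nonneg hy, hy, abs_le] <;> omega
  have c3 : ∀ d : ℤ, d ≤ n + y → C4 * (1 + √d) ≤ |C4| * (1 + √(n + y)) := fun d hd =>
    mul_le_mul (le_abs_self _) (by
      have : √(d : ℝ) ≤ √(n + y) := Real.sqrt_le_sqrt (by exact_mod_cast hd)
      linarith) (by positivity) (abs_nonneg _)
  have c4 := c3 _ c2.1
  have c5 := c3 _ c2.2
  rw [c1] at b4
  linarith

end Pool.Agent.MP_151d89_pr.H5
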