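import Pool.Agent.MP_151d89_pr.H5.Meas

/-! The number of trifurcations in a window is at most the number of exit points. -/

set_option autoImplicit false
open MeasureTheory Filter Set

namespace Pool.Agent.MP_151d89_pr.H5
open Pool.Agent.MP_151d89_pr.H82 Pool.Agent.MP_151d89_pr.H33

namespace CountAux

theorem exit_pt {θ : ℤ → ℤ} (hθ : Col θ) {jA jB t0 t1 : ℤ} {S T : Set V} {W : Finset V}
    (hR : ¬ Perc (S ∩ Rt θ jB)) (hL : ¬ Perc (S ∩ Lf θ jA))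
    (hW : ∀ z : V, z ∈ W ↔ z ∈ Rt θ jA ∧ z ∈ Lf θ jB ∧ t0 ≤ z.2 ∧ z.2 ≤ t1)
    (hT : T ⊆ S) {p : V} (hp : Inf T p) (hpW : p ∈ W) :
    ∃ z, Conn T p z ∧ z ∈ W ∧ Exit θ jA jB S t0 t1 z := by
  obtain ⟨p1, p2, p3, p4⟩ := (hW p).1 hpW
  have hj : jA ≤ jB := by
    have h1 : θ p.2 + jA ≤ p.1 := p1
    have h2 : p.1 ≤ θ p.2 + jB := p2
    omega
  have h1 : ∃ q, Conn T p q ∧ ¬ (t0 ≤ q.2 ∧ q.2 ≤ t1) := by
    by_contra hc
    have hF : {z | Conn T p z ∧ z ∈ Rt θ jA ∧ z ∈ Lf θ jB}.Finite :=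
      W.finite_toSet.subset fun z hz => (hW z).2
        ⟨hz.2.1, hz.2.2, not_not.1 fun h => hc ⟨z, hz.1, h⟩⟩
    rcases hθ.perc_out hj hp hF with h | h
    · exact hR (h.mono (inter_subset_inter_left _ hT))
    · exact hL (h.mono (inter_subset_inter_left _ hT))
  obtain ⟨q, hq, hq'⟩ := h1
  have key := hq.ind (fun y => (∃ z, Conn T p z ∧ z ∈ W ∧ Exit θ jA jB S t0 t1 z) ∨
      ((t0 ≤ y.2 ∧ y.2 ≤ t1) ∧ ∃ z, Conn T p z ∧ z ∈ W ∧
        (z = y ∨ Conn (S ∩ Rt θ jB) z y ∨ Conn (S ∩ Lf θ jA) z y)))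
    (Or.inr ⟨⟨p3, p4⟩, p, Conn.refl hp.mem, hpW, Or.inl rfl⟩) (by
      rintro x y hx (ih | ⟨hr, z, z1, z2, z3⟩) ha hy
      · exact Or.inl ih
      have s1 : x ∈ W ∨ Conn (S ∩ Rt θ jB) z y ∨ Conn (S ∩ Lf θ jA) z y := by
        rcases z3 with rfl | z3 | z3
        · exact Or.inl z2
        · by_cases h : y ∈ Rt θ jB
          · exact Or.inr (Or.inl (z3.tail ha ⟨hT hy, h⟩))
          · have e := (hθ.exit_Rt ha z3.mem_right.2 h).1
            exact Or.inl ((hW x).2 ⟨by rw [e]; exact cp_mem_Rt hj,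
              by rw [e]; exact cp_mem_Lf le_rfl, hr⟩)
        · by_cases h : y ∈ Lf θ jA
          · exact Or.inr (Or.inr (z3.tail ha ⟨hT hy, h⟩))
          · have e := (hθ.exit_Lf ha z3.mem_right.2 h).1
            exact Or.inl ((hW x).2 ⟨by rw [e]; exact cp_mem_Rt le_rfl,
              by rw [e]; exact cp_mem_Lf hj, hr⟩)
      by_cases hy' : t0 ≤ y.2 ∧ y.2 ≤ t1
      · refine Or.inr ⟨hy', ?_⟩
        rcases s1 with s1 | s1
        · obtain ⟨x1, x2, -⟩ := (hW x).1 s1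
          by_cases a1 : y ∈ Rt θ jA
          · by_cases a2 : y ∈ Lf θ jB
            · exact ⟨y, hx.tail ha hy, (hW y).2 ⟨a1, a2, hy'⟩, Or.inl rfl⟩
            · have e := hθ.exit_Lf ha x2 a2
              exact ⟨x, hx, s1, Or.inr (Or.inl (conn_of_adj
                ⟨hT hx.mem_right, by rw [e.1]; exact cp_mem_Rt le_rfl⟩ ⟨hT hy, e.2⟩ ha))⟩
          · have e := hθ.exit_Rt ha x1 a1
            exact ⟨x, hx, s1, Or.inr (Or.inr (conn_of_adj
              ⟨hT hx.mem_right, by rw [e.1]; exact cp_mem_Lf le_rfl⟩ ⟨hT hy, e.2⟩ ha))⟩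
        · exact ⟨z, z1, z2, Or.inr s1⟩
      · have hy2 : y.2 < t0 ∨ t1 < y.2 := by omega
        rcases s1 with s1 | s1 | s1
        · exact Or.inl ⟨x, hx, s1, y, Or.inr (Or.inr ha), hy2⟩
        · exact Or.inl ⟨z, z1, z2, y, Or.inl s1, hy2⟩
        · exact Or.inl ⟨z, z1, z2, y, Or.inr (Or.inl s1), hy2⟩)
  exact key.resolve_right fun h => hq' h.1

/-- z is the largest of the three branch minima -/
def Sel (S : Set V) (r : ℕ) (Y : Finset V) (x z : V) : Prop :=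
  ∃ p : Fin 3 → V, (∀ i, ∃ w ∈ Hub S x r, Adj w (p i)) ∧
    (∀ i i', i ≠ i' → ¬ Conn (S \ Hub S x r) (p i) (p i')) ∧
    (∃ i, Conn (S \ Hub S x r) (p i) z) ∧
    (∀ z' ∈ Y, Conn (S \ Hub S x r) z z' → Encodable.encode z ≤ Encodable.encode z') ∧
    ∀ i, ∃ z' ∈ Y, Conn (S \ Hub S x r) (p i) z' ∧ Encodable.encode z' ≤ Encodable.encode z

theorem hub_conn {S : Set V} {r : ℕ} {x x' w : V} (hd : Disjoint (box x r) (box x' r))
    (hw : w ∈ Hub S x r) : Conn (S \ Hub S x' r) x w :=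
  Conn.mono hw fun _ hz => ⟨hz.1, fun h => Finset.disjoint_left.1 hd hz.2 (Conn.mem_right h).2⟩

theorem side {S : Set V} {r : ℕ} {x x' u v w : V} (hd : Disjoint (box x r) (box x' r))
    (hw : w ∈ Hub S x' r) (ha : Adj w u) (hn : ¬ Conn (S \ Hub S x' r) u x)
    (h : Conn (S \ Hub S x' r) u v) : Conn (S \ Hub S x r) x' v := by
  have h1 : Conn (S \ Hub S x r) u v :=
    (h.restrict (A := (Hub S x r)ᶜ) fun y hy hc => hn (hy.trans (hub_conn hd hc).symm)).mono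
      fun z hz => ⟨hz.1.1, hz.2⟩
  exact ((hub_conn hd.symm hw).tail ha h1.mem_left).trans h1

theorem not_in {S : Set V} {r : ℕ} {Y : Finset V} {x x' z : V}
    (hd : Disjoint (box x r) (box x' r)) (h : Sel S r Y x z) (h' : Sel S r Y x' z) :
    ¬ Conn (S \ Hub S x r) x' z := by
  intro hc
  obtain ⟨-, -, -, -, a4, -⟩ := h
  obtain ⟨p, b1, b2, -, -, b5⟩ := h'
  have k : ∀ i, ¬ Conn (S \ Hub S x' r) (p i) x → Conn (S \ Hub S x' r) (p i) z := by
    intro i hi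
    obtain ⟨w, w1, w2⟩ := b1 i
    obtain ⟨z', c1, c2, c3⟩ := b5 i
    have e := a4 z' c1 (hc.symm.trans (side hd w1 w2 hi c2))
    rw [← Encodable.encode_injective (le_antisymm c3 e)]
    exact c2
  have two : ∀ i i', i ≠ i' → Conn (S \ Hub S x' r) (p i) x ∨ Conn (S \ Hub S x' r) (p i') x := by
    intro i i' hi
    by_contra hn
    rw [not_or] at hn
    exact b2 i i' hi ((k i hn.1).trans (k i' hn.2).symm)
  have no : ∀ i i', i ≠ i' → Conn (S \ Hub S x' r) (p i) x → ¬ Conn (S \ Hub S x' r) (p i') x :=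
    fun i i' hi h1 h2 => b2 i i' hi (h1.trans h2.symm)
  rcases two 0 1 (by decide) with h0 | h1
  · rcases two 1 2 (by decide) with h1 | h2
    · exact no 0 1 (by decide) h0 h1
    · exact no 0 2 (by decide) h0 h2
  · rcases two 0 2 (by decide) with h0 | h2
    · exact no 0 1 (by decide) h0 h1
    · exact no 1 2 (by decide) h1 h2

theorem sel_inj {S : Set V} {r : ℕ} {Y : Finset V} {x x' z : V}
    (hd : Disjoint (box x r) (box x' r)) (h : Sel S r Y x z) (h' : Sel S r Y x' z) : False := by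
  have n1 := not_in hd h h'
  have n2 := not_in hd.symm h' h
  obtain ⟨p, b1, -, ⟨i, b3⟩, -⟩ := h'
  obtain ⟨w, w1, w2⟩ := b1 i
  by_cases hi : Conn (S \ Hub S x' r) (p i) x
  · exact n2 (hi.symm.trans b3)
  · exact n1 (side hd w1 w2 hi b3)

theorem exists_sel {S : Set V} {r : ℕ} {Y : Finset V} {x : V} (h : Tri S x r)
    (hY : ∀ p, Inf (S \ Hub S x r) p → p ∈ box x (r + 1) →
      ∃ z ∈ Y, Conn (S \ Hub S x r) p z) : ∃ z ∈ Y, Sel S r Y x z := by
  classical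
  obtain ⟨p, h1, h2⟩ := h
  have m : ∀ i, ∃ z ∈ Y, Conn (S \ Hub S x r) (p i) z ∧ ∀ z' ∈ Y,
      Conn (S \ Hub S x r) (p i) z' → Encodable.encode z ≤ Encodable.encode z' := by
    intro i
    obtain ⟨w, w1, w2⟩ := (h1 i).2
    obtain ⟨z, z1, z2⟩ := hY (p i) (h1 i).1 (w2.mem_box (Conn.mem_right w1).2)
    obtain ⟨u, u1, u2⟩ := Finset.exists_min_image
      (Y.filter fun z => Conn (S \ Hub S x r) (p i) z) Encodable.encode
      ⟨z, Finset.mem_filter.2 ⟨z1, z2⟩⟩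
    rw [Finset.mem_filter] at u1
    exact ⟨u, u1.1, u1.2, fun z' a b => u2 z' (Finset.mem_filter.2 ⟨a, b⟩)⟩
  choose m m1 m2 m3 using m
  obtain ⟨i0, hi⟩ := Finite.exists_max fun i => Encodable.encode (m i)
  exact ⟨m i0, m1 i0, p, fun i => (h1 i).2, h2, ⟨i0, m2 i0⟩,
    fun z' a b => m3 i0 z' a ((m2 i0).trans b), fun i => ⟨m i, m1 i, m2 i, hi i⟩⟩

end CountAux

open CountAux in
theorem count_row : CountStmt := by
  classical
  intro θ hθ jA jB t0 t1 S r I W hR hL hI hd hW hb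
  have h : ∀ x ∈ I, ∃ z ∈ W.filter (Exit θ jA jB S t0 t1),
      Sel S r (W.filter (Exit θ jA jB S t0 t1)) x z := fun x hx =>
    exists_sel (hI x hx) fun p h1 h2 => by
      obtain ⟨z, z1, z2, z3⟩ := exit_pt hθ hR hL hW sdiff_subset h1 (hb x hx h2)
      exact ⟨z, Finset.mem_filter.2 ⟨z2, z3⟩, z1⟩
  choose! φ h1 h2 using h
  refine Finset.card_le_card_of_injOn φ (fun x hx => h1 x hx) fun x hx x' hx' e => ?_
  by_contra hn
  exact sel_inj (hd x hx x' hx' hn) (h2 x hx) (e ▸ h2 x' hx')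

end Pool.Agent.MP_151d89_pr.H5
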