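import Pool.Agent.MP_151d89_pr.H5.Meas

/-! The deterministic row: a Lipschitz function with steep rays has a steep direction. -/

set_option autoImplicit false
open MeasureTheory Filter Set

namespace Pool.Agent.MP_151d89_pr.H5
open Pool.Agent.MP_151d89_pr.H82 Pool.Agent.MP_151d89_pr.H33

namespace DetAux

variable {l : V → ℝ} {a b c0 : ℤ}

theorem per (h : ∀ z, l (z + (a, b)) = l z + c0) (m : ℕ) (x y : ℤ) :
    l (x + a * m, y + b * m) = l (x, y) + c0 * m := by
  induction m with
  | zero => simp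
  | succ m ih =>
    have e : ((x + a * ((m + 1 : ℕ) : ℤ), y + b * ((m + 1 : ℕ) : ℤ)) : V) =
        (x + a * m, y + b * m) + (a, b) := by
      refine Prod.ext ?_ ?_ <;> simp only [Prod.fst_add, Prod.snd_add] <;> push_cast <;> ring
    rw [e, h, ih]; push_cast; ring

theorem lipH (h : ∀ z z', l z - l z' ≤ d1 z z') (x x' y n : ℤ) (h1 : x - x' ≤ n)
    (h2 : x' - x ≤ n) : l (x, y) - l (x', y) ≤ n := by
  refine (h _ _).trans ?_
  have : d1 (x, y) (x', y) ≤ n := by
    simp only [d1, sub_self, abs_zero, add_zero]; exact abs_le.2 ⟨by omega, h1⟩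
  exact_mod_cast this

theorem lipV (h : ∀ z z', l z - l z' ≤ d1 z z') (x y y' n : ℤ) (h1 : y - y' ≤ n)
    (h2 : y' - y ≤ n) : l (x, y) - l (x, y') ≤ n := by
  refine (h _ _).trans ?_
  have : d1 (x, y) (x, y') ≤ n := by
    simp only [d1, sub_self, abs_zero, zero_add]; exact abs_le.2 ⟨by omega, h1⟩
  exact_mod_cast this

theorem down (h : ∀ z, l (z + (a, b)) = l z + c0) (m : ℕ) (x : ℤ) :
    l (x, -(b * m)) = l (x + a * m, 0) - c0 * m := by
  have := per h m x (-(b * m))
  rw [neg_add_cancel] at this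
  linarith

theorem upp (h : ∀ z, l (z + (a, b)) = l z + c0) (m : ℕ) (x : ℤ) :
    l (x, b * m) = l (x - a * m, 0) + c0 * m := by
  have := per h m (x - a * m) 0
  rw [sub_add_cancel, zero_add] at this
  exact this

/-- the largest slope along the first axis -/
theorem slope (ha : 0 ≤ a) (hb : 0 < b) (hc : 0 < a + b + c0) (hl : ∀ z z', l z - l z' ≤ d1 z z')
    (h : ∀ z, l (z + (a, b)) = l z + c0) :
    ∃ u : ℝ, u ≤ 1 ∧ a * u ≤ b + c0 ∧ (u = 1 ∨ (0 < a ∧ a * u = b + c0)) ∧
      ∀ x n : ℤ, 0 ≤ n → l (x + n, 0) - l (x, 0) ≤ u * n + 2 * a := by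
  by_cases h1 : a ≤ b + c0
  · refine ⟨1, le_rfl, by exact_mod_cast (by omega : a * 1 ≤ b + c0), Or.inl rfl, fun x n hn => ?_⟩
    have := lipH hl (x + n) x 0 n (by omega) (by omega)
    have h2 : (0 : ℝ) ≤ a := by exact_mod_cast ha
    linarith
  · have ha0 : 0 < a := by omega
    have haR : (0 : ℝ) < a := by exact_mod_cast ha0
    have e : (a : ℝ) * ((b + c0) / a) = b + c0 := by field_simp
    have h2 : ((b : ℝ) + c0) / a ≤ 1 := by
      rw [div_le_one haR]; exact_mod_cast (by omega : b + c0 ≤ a)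
    have h3 : -1 ≤ ((b : ℝ) + c0) / a := by
      rw [le_div_iff₀ haR]
      have : (0 : ℝ) < a + b + c0 := by exact_mod_cast hc
      linarith
    refine ⟨(b + c0) / a, h2, e.le, Or.inr ⟨ha0, e⟩, fun x n hn => ?_⟩
    generalize ((b : ℝ) + c0) / a = u at *
    obtain ⟨m, hm⟩ := Int.eq_ofNat_of_zero_le (Int.ediv_nonneg hn ha)
    have h4 := Int.emod_add_mul_ediv n a
    have h5 := Int.emod_nonneg n ha0.ne'
    have h6 := Int.emod_lt_of_pos n ha0
    rw [hm] at h4
    generalize n % a = s at *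
    have h7 := lipH hl (x + n) (x + a * m) 0 s (by omega) (by omega)
    have h8 := down h m x
    have hbm : 0 ≤ b * (m : ℤ) := by positivity
    have h9 := lipV hl x (-(b * m)) 0 (b * m) (by omega) (by omega)
    have h10 : (n : ℝ) = s + a * m := by exact_mod_cast h4.symm
    have h11 : (0 : ℝ) ≤ s := by exact_mod_cast h5
    have h12 : (s : ℝ) ≤ a := by exact_mod_cast h6.le
    push_cast at h9
    have h13 : u * (a * m) = (b + c0) * m := by rw [← e]; ring
    rw [h10, mul_add, h13]
    nlinarith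

theorem unit {e : V} (he : |e.1| + |e.2| = 1) :
    e = (1, 0) ∨ e = (-1, 0) ∨ e = (0, 1) ∨ e = (0, -1) := by
  obtain ⟨x, y⟩ := e
  simp only [Prod.mk.injEq] at *
  rcases abs_cases x with ⟨e1, _⟩ | ⟨e1, _⟩ <;> rcases abs_cases y with ⟨e2, _⟩ | ⟨e2, _⟩ <;> omega

/-- a steep ray gives an extreme slope on the right or on the left -/
theorem ray (ha : 0 ≤ a) (hab : a ≤ b) (hb : 0 < b) (hc : 0 < a + b + c0) (hc' : 0 < a + b - c0)
    (h : ∀ z, l (z + (a, b)) = l z + c0) {u u' D : ℝ} (u1 : u ≤ 1) (u2 : a * u ≤ b + c0)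
    (u3 : ∀ x n : ℤ, 0 ≤ n → l (x + n, 0) - l (x, 0) ≤ u * n + 2 * a)
    (v1 : u' ≤ 1) (v2 : a * u' ≤ b - c0)
    (v3 : ∀ x n : ℤ, 0 ≤ n → l (x, 0) - l (x + n, 0) ≤ u' * n + 2 * a)
    (m : ℕ) (hD : D < m) (x : ℤ) {e : V} (he : |e.1| + |e.2| = 1)
    (hr : l (x, 0) + b * m - D ≤ l ((x, 0) + (b * m) • e)) :
    u * m - D - 2 * a ≤ l (x + m, 0) - l (x, 0) ∨ u' * m - D - 2 * a ≤ l (x - m, 0) - l (x, 0) := by
  have m0 : (0 : ℤ) ≤ m := Int.natCast_nonneg m
  have m0R : (0 : ℝ) ≤ m := Nat.cast_nonneg m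
  have bR : (0 : ℝ) ≤ (b : ℝ) * m := by positivity
  have R : ∀ n : ℤ, m ≤ n → u * n - D ≤ l (x + n, 0) - l (x, 0) →
      u * m - D - 2 * a ≤ l (x + m, 0) - l (x, 0) := fun n h1 h2 => by
    have h3 := u3 (x + m) (n - m) (by omega)
    rw [show x + m + (n - m) = x + n by ring] at h3
    push_cast at h3
    linarith
  have L : ∀ n : ℤ, m ≤ n → u' * n - D ≤ l (x - n, 0) - l (x, 0) →
      u' * m - D - 2 * a ≤ l (x - m, 0) - l (x, 0) := fun n h1 h2 => by
    have h3 := v3 (x - n) (n - m) (by omega)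
    rw [show x - n + (n - m) = x - m by ring] at h3
    push_cast at h3
    linarith
  rcases unit he with rfl | rfl | rfl | rfl
  · refine Or.inl (R (b * m) (by nlinarith) ?_)
    simp only [Prod.smul_mk, smul_eq_mul, mul_one, mul_zero, Prod.mk_add_mk, add_zero] at hr
    push_cast
    nlinarith
  · refine Or.inr (L (b * m) (by nlinarith) ?_)
    simp only [Prod.smul_mk, smul_eq_mul, mul_neg, mul_one, mul_zero, Prod.mk_add_mk, add_zero,
      ← sub_eq_add_neg] at hr
    push_cast
    nlinarith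
  · simp only [Prod.smul_mk, smul_eq_mul, mul_one, mul_zero, Prod.mk_add_mk, add_zero,
      zero_add] at hr
    rw [upp h] at hr
    rcases ha.eq_or_lt with rfl | ha0
    · exfalso
      simp only [zero_mul, sub_zero] at hr
      have : (1 : ℝ) ≤ b - c0 := by exact_mod_cast (by omega : 1 ≤ b - c0)
      nlinarith
    · refine Or.inr (L (a * m) (by nlinarith) ?_)
      push_cast
      nlinarith
  · simp only [Prod.smul_mk, smul_eq_mul, mul_neg, mul_one, mul_zero, Prod.mk_add_mk, add_zero,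
      zero_add] at hr
    rw [down h] at hr
    rcases ha.eq_or_lt with rfl | ha0
    · exfalso
      simp only [zero_mul, add_zero] at hr
      have : (1 : ℝ) ≤ b + c0 := by exact_mod_cast (by omega : 1 ≤ b + c0)
      nlinarith
    · refine Or.inl (R (a * m) (by nlinarith) ?_)
      push_cast
      nlinarith

theorem grow (hl : ∀ z z', l z - l z' ≤ d1 z z') {s : ℝ} {m : ℕ} (hm : 0 < m) {J : ℤ}
    (h : ∀ x, J ≤ x → s * m ≤ l (x + m, 0) - l (x, 0)) :
    ∃ B : ℝ, ∀ x, J ≤ x → s * x - B ≤ l (x, 0) := by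
  have key : ∀ n : ℕ, l (J, 0) + s * n - (1 + |s|) * m ≤ l (J + n, 0) := by
    intro n
    induction n using Nat.strong_induction_on with
    | _ n ih =>
      by_cases hn : n < m
      · have h1 := lipH hl J (J + n) 0 n (by omega) (by omega)
        have h2 : (n : ℝ) ≤ m := by exact_mod_cast hn.le
        have h3 : (0 : ℝ) ≤ n := Nat.cast_nonneg n
        have h4 := le_abs_self s
        have h5 := abs_nonneg s
        push_cast at h1
        nlinarith
      · obtain ⟨k, rfl⟩ := Nat.exists_eq_add_of_le' (not_lt.1 hn)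
        have h1 := ih k (by omega)
        have h2 := h (J + k) (by omega)
        push_cast
        rw [← add_assoc]
        linarith
  refine ⟨s * J + (1 + |s|) * m - l (J, 0), fun x hx => ?_⟩
  obtain ⟨n, hn⟩ := Int.eq_ofNat_of_zero_le (sub_nonneg.2 hx)
  have h1 := key n
  have h2 : x = J + n := by omega
  subst h2
  push_cast
  linarith

theorem ev_lin {δ : ℝ} (hδ : 0 < δ) (B : ℝ) : ∀ᶠ n : ℕ in atTop, B < δ * n :=
  (tendsto_natCast_atTop_atTop.const_mul_atTop hδ).eventually_gt_atTop B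

theorem small (hb : 0 < b) (K C : ℝ) {δ : ℝ} (hδ : 0 < δ) :
    ∀ᶠ m : ℕ in atTop, K + C * √((b : ℝ) * m) < δ * m := by
  have bR : (0 : ℝ) < b := by exact_mod_cast hb
  filter_upwards [ev_lin (half_pos hδ) (K + C ^ 2 * b / (2 * δ))] with m hm
  have h1 : √((b : ℝ) * m) ^ 2 = b * m := Real.sq_sqrt (by positivity)
  generalize √((b : ℝ) * m) = s at *
  have h2 : C * s ≤ δ / 2 * m + C ^ 2 * b / (2 * δ) := by
    have h3 : δ / 2 * m + C ^ 2 * b / (2 * δ) - C * s = (δ * s - C * b) ^ 2 / (2 * δ * b) := by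
      field_simp
      linear_combination (-δ ^ 2) * h1
    have h4 : 0 ≤ (δ * s - C * b) ^ 2 / (2 * δ * b) := by positivity
    linarith
  linarith

theorem fin (hab : a ≤ b) (hb : 0 < b) (hl : ∀ z z', l z - l z' ≤ d1 z z')
    (h : ∀ z, l (z + (a, b)) = l z + c0) {u : ℝ} (hu : u = 1 ∨ (0 < a ∧ a * u = b + c0))
    (hs : ∀ ε : ℝ, 0 < ε → ∃ (m : ℕ) (J : ℤ), 0 < m ∧
      ∀ x, J ≤ x → (u - ε) * m ≤ l (x + m, 0) - l (x, 0)) :
    ∃ e : V, |e.1| + |e.2| = 1 ∧ (∀ J, ∀ᶠ n : ℕ in atTop, (n : ℤ) • e ∈ Rt (th a b) J) ∧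
      ∀ ε : ℝ, 0 < ε → ∀ᶠ n : ℕ in atTop, (1 - ε) * n ≤ l ((n : ℤ) • e) := by
  rcases hu with rfl | ⟨ha0, hu⟩
  · refine ⟨(1, 0), by simp, fun J => ?_, fun ε hε => ?_⟩
    · filter_upwards [eventually_ge_atTop J.natAbs] with n hn
      simp only [Rt, Prod.smul_mk, smul_eq_mul, mul_one, mul_zero, mem_ofPred_eq, th_zero]
      omega
    · obtain ⟨m, J, hm, h1⟩ := hs (ε / 2) (half_pos hε)
      obtain ⟨B, hB⟩ := grow hl hm h1
      filter_upwards [eventually_ge_atTop J.natAbs, ev_lin (half_pos hε) B] with n hn h2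
      have h3 := hB n (by omega)
      simp only [Prod.smul_mk, smul_eq_mul, mul_one, mul_zero]
      push_cast at h3
      linarith
  · refine ⟨(0, -1), by simp, fun J => ?_, fun ε hε => ?_⟩
    · filter_upwards [eventually_ge_atTop (b * J).natAbs] with n hn
      simp only [Rt, th, Prod.smul_mk, smul_eq_mul, mul_neg, mul_one, mul_zero, mem_ofPred_eq]
      have h1 : -(a * (n : ℤ)) / b ≤ -J := by
        apply Int.ediv_le_of_le_mul hb
        have h2 : b * J ≤ n := by omega
        have h3 : (0 : ℤ) ≤ n := Int.natCast_nonneg n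
        nlinarith
      omega
    · obtain ⟨m, J, hm, h1⟩ := hs (ε / 2) (half_pos hε)
      obtain ⟨B, hB⟩ := grow hl hm h1
      filter_upwards [eventually_ge_atTop (b * (J.natAbs + 1)).natAbs,
        ev_lin (half_pos hε) (B + 2 * b)] with n hn h2
      have n0 : (0 : ℤ) ≤ n := Int.natCast_nonneg n
      obtain ⟨k, hk⟩ := Int.eq_ofNat_of_zero_le (Int.ediv_nonneg n0 hb.le)
      have h4 := Int.emod_add_mul_ediv n b
      have h5 := Int.emod_nonneg n hb.ne'
      have h6 := Int.emod_lt_of_pos n hb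
      rw [hk] at h4
      generalize (n : ℤ) % b = s at *
      have k0 : (0 : ℤ) ≤ k := Int.natCast_nonneg k
      have h7 : (J.natAbs : ℤ) ≤ k := by
        have h8 : b * (J.natAbs + 1) ≤ n := by omega
        by_contra h9
        nlinarith
      have h8 : (k : ℤ) ≤ a * k := by nlinarith
      have h9 := hB (a * k) (by omega)
      have h10 := down h k 0
      have h11 := lipV hl 0 (-(b * k)) (-n) b (by omega) (by omega)
      rw [zero_add] at h10
      simp only [Prod.smul_mk, smul_eq_mul, mul_neg, mul_one, mul_zero]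
      have h12 : (n : ℝ) ≤ b + b * k := by exact_mod_cast (by omega : (n : ℤ) ≤ b + b * k)
      have h13 : (a : ℝ) * k ≤ n := by
        have : a * (k : ℤ) ≤ n := by nlinarith
        exact_mod_cast this
      push_cast at h9
      have h14 : u * (a * k) = (b + c0) * k := by rw [← hu]; ring
      nlinarith

end DetAux

open DetAux in
theorem det_row : DetStmt := by
  intro l a b c0 K C ha hab hb hc hl h hr
  have hc1 : 0 < a + b + c0 := by have := abs_lt.1 hc; omega
  have hc2 : 0 < a + b - c0 := by have := abs_lt.1 hc; omega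
  have hl' : ∀ z z', (fun z => -l z) z - (fun z => -l z) z' ≤ d1 z z' := fun z z' => by
    have h1 := hl z' z
    have h2 : d1 z' z = d1 z z' := by unfold d1; rw [abs_sub_comm z'.1, abs_sub_comm z'.2]
    rw [h2] at h1
    simp only
    linarith
  have h' : ∀ z, (fun z => -l z) (z + (a, b)) = (fun z => -l z) z + ((-c0 : ℤ) : ℝ) := fun z => by
    simp only [h z]; push_cast; ring
  obtain ⟨u, u1, u2, u3, u4⟩ := slope ha hb hc1 hl h
  obtain ⟨w, w1, w2, w3, w4⟩ := slope ha hb (by omega) hl' h'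
  push_cast at w2
  have aR : (0 : ℝ) ≤ a := by exact_mod_cast ha
  have bR : (0 : ℝ) < b := by exact_mod_cast hb
  have c1R : (0 : ℝ) < a + b + c0 := by exact_mod_cast hc1
  have c2R : (0 : ℝ) < a + b - c0 := by exact_mod_cast hc2
  have uw : 0 < u + w := by
    have key : 0 < a * (u + w) → 0 < u + w := fun h0 => by
      by_contra h1
      nlinarith
    rcases u3 with rfl | ⟨-, u3⟩ <;> rcases w3 with rfl | ⟨-, w3⟩
    · norm_num
    · push_cast at w3; exact key (by linarith)
    · exact key (by linarith)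
    · push_cast at w3; exact key (by linarith)
  have main : ∀ᶠ m : ℕ in atTop,
      (∃ J : ℤ, ∀ x, J ≤ x → u * m - (K + C * √((b : ℝ) * m)) - 2 * a ≤ l (x + m, 0) - l (x, 0)) ∨
      (∃ J : ℤ, ∀ x, J ≤ x → w * m - (K + C * √((b : ℝ) * m)) - 2 * a ≤ l (x, 0) - l (x + m, 0)) := by
    filter_upwards [small hb K C one_pos, small hb (K + 2 * a + 1) C (half_pos uw)] with m h1 h2
    obtain ⟨b', rfl⟩ := Int.eq_ofNat_of_zero_le hb.le
    obtain ⟨J, hJ⟩ := hr (b' * m)
    push_cast at hJ h1 h2 ⊢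
    generalize √((b' : ℝ) * m) = s at *
    have alt : ∀ x, J ≤ x → u * m - (K + C * s) - 2 * a ≤ l (x + m, 0) - l (x, 0) ∨
        w * m - (K + C * s) - 2 * a ≤ l (x, 0) - l (x + m, 0) := fun x hx => by
      obtain ⟨⟨e, he, e1⟩, e', he', e2⟩ := hJ (x, 0) (by
        simp only [Rt, mem_ofPred_eq, th_zero]; omega)
      have r1 := ray ha hab hb hc1 hc2 h u1 u2 u4 w1 (by linarith)
        (fun x n hn => by have := w4 x n hn; linarith) m
        (D := K + C * s) (by linarith) x he (by push_cast; linarith)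
      have r2 := ray (l := fun z => -l z) (c0 := -c0) ha hab hb (by omega) (by omega) h' w1
        (by push_cast at w2 ⊢; linarith) w4 u1 (by push_cast at u2 ⊢; linarith)
        (fun x n hn => by have := u4 x n hn; linarith) m
        (D := K + C * s) (by linarith) x he' (by push_cast; linarith)
      rcases r1 with r1 | r1
      · exact Or.inl r1
      · rcases r2 with r2 | r2
        · exact Or.inr (by linarith)
        · exfalso; linarith
    have lp : ∀ x : ℤ, l (x + 1, 0) - l (x, 0) ≤ 1 ∧ l (x, 0) - l (x + 1, 0) ≤ 1 := fun x =>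
      ⟨by simpa using lipH hl (x + 1) x 0 1 (by omega) (by omega),
        by simpa using lipH hl x (x + 1) 0 1 (by omega) (by omega)⟩
    rcases alt J le_rfl with h3 | h3
    · refine Or.inl ⟨J, fun x hx => ?_⟩
      induction x, hx using Int.leInduction with
      | base => exact h3
      | succ x hx ih =>
        refine (alt (x + 1) (by omega)).resolve_right fun h4 => ?_
        have h5 := lp x
        have h6 := lp (x + m)
        rw [show x + 1 + m = x + m + 1 by ring] at h4
        linarith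
    · refine Or.inr ⟨J, fun x hx => ?_⟩
      induction x, hx using Int.leInduction with
      | base => exact h3
      | succ x hx ih =>
        refine (alt (x + 1) (by omega)).resolve_left fun h4 => ?_
        have h5 := lp x
        have h6 := lp (x + m)
        rw [show x + 1 + m = x + m + 1 by ring] at h4
        linarith
  rcases frequently_or_distrib.1 main.frequently with hf | hf
  · obtain ⟨e, h1, h2, h3⟩ := fin hab hb hl h u3 fun ε hε => by
      obtain ⟨m, ⟨J, hJ⟩, h4, h5⟩ :=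
        (hf.and_eventually ((small hb (K + 2 * a) C hε).and (eventually_gt_atTop 0))).exists
      exact ⟨m, J, h5, fun x hx => by have := hJ x hx; linarith⟩
    exact ⟨e, h1, h2, Or.inl h3⟩
  · obtain ⟨e, h1, h2, h3⟩ := fin hab hb hl' h' w3 fun ε hε => by
      obtain ⟨m, ⟨J, hJ⟩, h4, h5⟩ :=
        (hf.and_eventually ((small hb (K + 2 * a) C hε).and (eventually_gt_atTop 0))).exists
      exact ⟨m, J, h5, fun x hx => by have := hJ x hx; linarith⟩
    exact ⟨e, h1, h2, Or.inr fun ε hε => (h3 ε hε).mono fun n hn => by linarith⟩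

end Pool.Agent.MP_151d89_pr.H5
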