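import Pool.Agent.MP_151d89_pr.H5.Meas

/-! The dichotomy: if both colours percolate then both are good. -/

set_option autoImplicit false
open MeasureTheory Filter Set

namespace Pool.Agent.MP_151d89_pr.H5
open Pool.Agent.MP_151d89_pr.H82 Pool.Agent.MP_151d89_pr.H33

namespace DichAux

variable {ν : Measure (Set V)} {a b y : ℤ}

theorem rf_rf (y : ℤ) (L : Set V) : rf y (rf y L) = L := by
  ext z; simp [rf, R_R]

theorem mp (T : Set V) : MeasurableSet {L : Set V | Perc (L ∩ T)} :=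
  measurableSet_setOfPred.2 (mperc (minter measurable_id measurable_const))

theorem sym_eq (h : Sys ν a b y) (T : Set V) :
    ν {L | Perc (L ∩ T)} = ν {L | Perc (L ∩ rf y T)} := by
  conv_lhs => rw [← h.sym, Measure.map_apply (meas_rf y) (mp T)]
  congr 1
  ext L
  simp only [mem_preimage, mem_ofPred_eq]
  rw [← perc_rf y, rf_inter, rf_rf]

theorem rf_sub (hb : 0 < b) (j : ℤ) : rf y (Rt (th a b) j) ⊆ Lf (th a b) (y - j + 1) := by
  intro z hz
  have h1 : th a b (-z.2) + j ≤ y - z.1 := hz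
  have h2 := th_neg (a := a) hb z.2
  show z.1 ≤ th a b z.2 + (y - j + 1)
  omega

theorem sub_rf (hb : 0 < b) (j : ℤ) : Lf (th a b) (y - j) ⊆ rf y (Rt (th a b) j) := by
  intro z hz
  have h1 : z.1 ≤ th a b z.2 + (y - j) := hz
  have h2 := th_neg (a := a) hb z.2
  show th a b (-z.2) + j ≤ y - z.1
  omega

theorem perc_le (ν : Measure (Set V)) {T T' : Set V} (h : T ⊆ T') :
    ν {L | Perc (L ∩ T)} ≤ ν {L | Perc (L ∩ T')} :=
  measure_mono fun _ hL => Perc.mono hL (inter_subset_inter_right _ h)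

/-- every right half-plane percolates with positive probability -/
def HL (ν : Measure (Set V)) (a b : ℤ) : Prop := ∀ j, ν {L | Perc (L ∩ Rt (th a b) j)} ≠ 0

theorem good_of (h5 : GoodStmt) (h : Sys ν a b y) (hL : HL ν a b) :
    ∀ᵐ L ∂ν, Good (th a b) L := by
  refine h5 ν a b h.toSys0 h.mod fun j => ⟨hL j, fun h0 => hL (y + 1 - j) ?_⟩
  rw [sym_eq h]
  refine le_antisymm (h0 ▸ perc_le ν ?_) zero_le
  have := rf_sub (a := a) (y := y) h.hb (y + 1 - j)
  rwa [show y - (y + 1 - j) + 1 = j by ring] at this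

theorem strip_of (h : Sys ν a b y) (hL : ¬ HL ν a b) : ∃ jA jB : ℤ, jA ≤ jB ∧
    ∀ᵐ L ∂ν, ¬ Perc (L ∩ Rt (th a b) jB) ∧ ¬ Perc (L ∩ Lf (th a b) jA) := by
  unfold HL at hL
  push Not at hL
  obtain ⟨j, hj⟩ := hL
  have h1 : ν {L | Perc (L ∩ Lf (th a b) (min j (y - j)))} = 0 := by
    refine le_antisymm ?_ zero_le
    rw [← hj, sym_eq h (Rt (th a b) j)]
    exact perc_le ν ((Lf_mono (min_le_right _ _)).trans (sub_rf h.hb j))
  refine ⟨min j (y - j), j, min_le_left _ _, ?_⟩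
  filter_upwards [measure_eq_zero_iff_ae_notMem.1 hj, measure_eq_zero_iff_ae_notMem.1 h1]
    with L h2 h3
  exact ⟨h2, h3⟩

theorem not_perc (h6 : FinStmt) {θ : ℤ → ℤ} (hθ : Col θ) {A B : Set V} (hd : Disjoint A B)
    (hg : Good θ A) {jA jB : ℤ} (hj : jA ≤ jB) (h : ¬ Perc (B ∩ Rt θ jB) ∧ ¬ Perc (B ∩ Lf θ jA)) :
    ¬ Perc B := by
  rintro ⟨p, hp⟩
  rcases hθ.perc_out hj hp ((h6 θ hθ A B hd hg).strip p jA jB) with h' | h'
  · exact h.1 h'
  · exact h.2 h'

/-- no arm from the slit -/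
def No (n : ℕ) (y : ℤ) : Set (Set V) := {L | ∀ x, ¬ TopArm L n y x ∧ ¬ BotArm L n y x}

theorem mNo (n : ℕ) (y : ℤ) : MeasurableSet (No n y) :=
  measurableSet_setOfPred.2 (Measurable.forall fun x =>
    (mtop measurable_id n y x).not.and (mbot measurable_id n y x).not)

theorem arms_of (h1 : NoTriStmt) (h2 : UniqStmt) (h3 : ArmsStmt) (h : Sys ν a b y)
    (hL : ¬ HL ν a b) (hp : ν {L | Perc L} ≠ 0) {δ : ENNReal} (hδ : δ ≠ 0) :
    (∀ᵐ L ∂ν, Uniq L) ∧ ∃ n0 : ℕ, ∀ n, n0 ≤ n → ν (No n y) ≤ δ := by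
  have := h.prob
  obtain ⟨jA, jB, -, hs⟩ := strip_of h hL
  have hu := h2 ν a b h.toSys0 h.mod (h1 ν a b h.toSys0 jA jB hs)
  have hP : ∀ᵐ L ∂ν, L ∈ {L | Perc L} :=
    h.toSys0.ae_of_inv (measurableSet_setOfPred.2 (mperc measurable_id)) (fun L => perc_sh _) hp
  have ha := h3 ν a b h.toSys0 jA jB (by
    filter_upwards [hs, hu, hP] with L e1 e2 e3 using ⟨e1.1, e1.2, e3, e2⟩) y
  refine ⟨hu, ?_⟩
  have hm : ∀ m : ℕ, MeasurableSet (⋃ n : ℕ, ⋃ _ : m ≤ n, No n y) := fun m =>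
    MeasurableSet.iUnion fun n => MeasurableSet.iUnion fun _ => mNo n y
  have hA : Antitone fun m : ℕ => ⋃ n : ℕ, ⋃ _ : m ≤ n, No n y := fun m m' hm' =>
    iUnion_mono fun n => iUnion_subset fun hn => subset_iUnion_of_subset (hm'.trans hn) le_rfl
  have ht := tendsto_measure_iInter_atTop (μ := ν) (fun m => (hm m).nullMeasurableSet) hA
    ⟨0, measure_ne_top _ _⟩
  have h0 : ν (⋂ m : ℕ, ⋃ n : ℕ, ⋃ _ : m ≤ n, No n y) = 0 := by
    rw [measure_eq_zero_iff_ae_notMem]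
    filter_upwards [ha] with L ⟨n0, hn0⟩ hL'
    obtain ⟨n, hn, h4⟩ := mem_iUnion₂.1 (mem_iInter.1 hL' n0)
    obtain ⟨x, hx⟩ := hn0 n hn
    exact hx.elim (h4 x).1 (h4 x).2
  rw [h0] at ht
  obtain ⟨n0, hn0⟩ := (ht.eventually (Iic_mem_nhds (pos_iff_ne_zero.2 hδ))).exists
  refine ⟨n0, fun n hn => le_trans (measure_mono ?_) hn0⟩
  exact subset_iUnion₂_of_subset n hn le_rfl

theorem final (h7 : FourStmt) [IsProbabilityMeasure ν] {A B : Set V → Set V}
    (hd : ∀ L, Disjoint (A L) (B L)) (hA : ∀ᵐ L ∂ν, Uniq (A L)) (hB : ∀ᵐ L ∂ν, Uniq (B L))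
    {n s s' : ℤ} (hs : s' ≤ s) {η : ENNReal} (hη : η + η + η + η < 1)
    (e1 : ν {L | ∀ x, x ≤ s' → ¬ TopArm (A L) n y x} ≤ η)
    (e2 : ν {L | ∀ x, y - s' ≤ x → ¬ BotArm (A L) n y x} ≤ η)
    (e3 : ν {L | ∀ x, s ≤ x → ¬ TopArm (B L) n y x} ≤ η)
    (e4 : ν {L | ∀ x, x ≤ y - s → ¬ BotArm (B L) n y x} ≤ η) : False := by
  have key : (univ : Set (Set V)) ≤ᵐ[ν] (({L | ∀ x, x ≤ s' → ¬ TopArm (A L) n y x} ∪
      {L | ∀ x, y - s' ≤ x → ¬ BotArm (A L) n y x} ∪ {L | ∀ x, s ≤ x → ¬ TopArm (B L) n y x} ∪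
      {L | ∀ x, x ≤ y - s → ¬ BotArm (B L) n y x} : Set (Set V))) := by
    filter_upwards [hA, hB] with L uA uB _
    by_contra hc
    change ¬ ((((∀ x, x ≤ s' → ¬ TopArm (A L) n y x) ∨ ∀ x, y - s' ≤ x → ¬ BotArm (A L) n y x) ∨
      ∀ x, s ≤ x → ¬ TopArm (B L) n y x) ∨ ∀ x, x ≤ y - s → ¬ BotArm (B L) n y x) at hc
    push Not at hc
    obtain ⟨⟨⟨⟨x, hx, tx⟩, x', hx', bx⟩, u, hu, tu⟩, u', hu', bu⟩ := hc
    have n1 : x ≠ u := fun e => disjoint_left.1 (hd L) tx.1 (e ▸ tu.1)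
    have n2 : x' ≠ u' := fun e => disjoint_left.1 (hd L) bx.1 (e ▸ bu.1)
    exact h7 _ _ (hd L) n y x x' u u' tx bx tu bu (by omega) (by omega)
      (uA _ _ tx.inf bx.inf) (uB _ _ tu.inf bu.inf)
  have := measure_mono_ae key
  rw [measure_univ] at this
  refine absurd (this.trans ?_) (not_le.2 hη)
  refine (measure_union_le _ _).trans (add_le_add ((measure_union_le _ _).trans
    (add_le_add ((measure_union_le _ _).trans (add_le_add e1 e2)) e3)) e4)

end DichAux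

open DichAux in
theorem dich_row (h1 : NoTriStmt) (h2 : UniqStmt) (h3 : ArmsStmt) (h4 : RootStmt) (h5 : GoodStmt)
    (h6 : FinStmt) (h7 : FourStmt) : DichStmt := by
  intro ν a b y hy h h' hp hp'
  have := h.prob
  have hθ := h.toSys0.col
  have ae : ∀ {P : Set V → Prop}, (∀ᵐ L ∂(ν.map compl), P L) → ∀ᵐ L ∂ν, P Lᶜ :=
    fun H => ae_of_ae_map meas_compl.aemeasurable H
  by_cases hL : HL ν a b <;> by_cases hU : HL (ν.map compl) a b
  · filter_upwards [good_of h5 h hL, ae (good_of h5 h' hU)] with L e1 e2 using ⟨e1, e2⟩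
  · obtain ⟨jA, jB, hj, hs⟩ := strip_of h' hU
    refine absurd (measure_eq_zero_iff_ae_notMem.2 ?_) hp'
    filter_upwards [good_of h5 h hL, ae hs] with L e1 e2
    exact not_perc h6 hθ disjoint_compl_right e1 hj e2
  · obtain ⟨jA, jB, hj, hs⟩ := strip_of h hL
    refine absurd (measure_eq_zero_iff_ae_notMem.2 ?_) hp
    filter_upwards [ae (good_of h5 h' hU), hs] with L e1 e2
    exact not_perc h6 hθ disjoint_compl_left e1 hj e2
  · exfalso
    obtain ⟨η, h0, hη1, hη⟩ : ∃ η : ENNReal, η ≠ 0 ∧ η < 1 ∧ η + η + η + η < 1 := by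
      refine ⟨((1 / 10 : NNReal) : ENNReal), by simp, ?_, ?_⟩
      · exact_mod_cast (by norm_num : (1 / 10 : NNReal) < 1)
      · exact_mod_cast (by norm_num : (1 / 10 + 1 / 10 + 1 / 10 + 1 / 10 : NNReal) < 1)
    have hq : (ν.map compl) {L | Perc L} ≠ 0 := by
      have hm : MeasurableSet {L : Set V | Perc L} :=
        measurableSet_setOfPred.2 (mperc measurable_id)
      rwa [Measure.map_apply meas_compl hm]
    obtain ⟨u1, n1, a1⟩ := arms_of h1 h2 h3 h hL hp (pow_ne_zero 4 h0)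
    obtain ⟨u2, n2, a2⟩ := arms_of h1 h2 h3 h' hU hq (pow_ne_zero 4 h0)
    have b1 := a1 (n1 + n2) (by omega)
    have b2 := a2 (n1 + n2) (by omega)
    rw [Measure.map_apply meas_compl (mNo _ _)] at b2
    obtain ⟨s, e1, e2, e3, e4⟩ := h4 ν a b y h (n1 + n2) η (by omega) hη1 b2
    have mm : ∀ {E : Set (Set V)}, MeasurableSet E →
        (ν.map compl) (compl ⁻¹' E) = ν E := fun hE => by
      rw [Measure.map_apply meas_compl (meas_compl hE), ← preimage_comp, compl_comp_compl,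
        preimage_id]
    obtain ⟨s', f1, f2, f3, f4⟩ := h4 _ a b y h' (n1 + n2) η (by omega) hη1
      ((mm (mNo (n1 + n2) y)).trans_le b1)
    have mt : ∀ (P : ℤ → Prop) (n : ℤ), MeasurableSet {L : Set V | ∀ x, P x → ¬ TopArm L n y x} :=
      fun P n => measurableSet_setOfPred.2 (Measurable.forall fun x =>
        measurable_const.imp (mtop measurable_id n y x).not)
    have mb : ∀ (P : ℤ → Prop) (n : ℤ), MeasurableSet {L : Set V | ∀ x, P x → ¬ BotArm L n y x} :=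
      fun P n => measurableSet_setOfPred.2 (Measurable.forall fun x =>
        measurable_const.imp (mbot measurable_id n y x).not)
    have g1 := (mm (mt _ _)).symm.trans_le f1
    have g2 := (mm (mt _ _)).symm.trans_le f2
    have g3 := (mm (mb _ _)).symm.trans_le f3
    have g4 := (mm (mb _ _)).symm.trans_le f4
    rcases le_total s' s with hs | hs
    · exact final h7 (A := id) (B := compl) (fun _ => disjoint_compl_right) u1 (ae u2) hs hη
        g1 g3 e2 e4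
    · exact final h7 (A := compl) (B := id) (fun _ => disjoint_compl_left) (ae u2) u1 hs hη
        e1 e3 g2 g4

end Pool.Agent.MP_151d89_pr.H5
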