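import Pool.Agent.MP_151d89_pr.H5.Meas

/-! Stochastic domination from the absence of an infinite cluster, by swapping finite clusters. -/

set_option autoImplicit false
open MeasureTheory Filter Set

namespace Pool.Agent.MP_151d89_pr.H5
open Pool.Agent.MP_151d89_pr.H82 Pool.Agent.MP_151d89_pr.H33

namespace DomAux

/-- the cluster of x for the square lattice -/
def Cl (ω : X × X) (x z : V) : Prop :=
  Relation.ReflTransGen (fun u w : V => |u.1 - w.1| + |u.2 - w.2| = 1 ∧ ω.1 w < ω.2 w) x z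

/-- the event with a cluster inside the box -/
def Ev (x : V) (t : ℤ) (n : ℕ) : Set (X × X) :=
  {ω | Hom ω.1 ∧ Hom ω.2 ∧ (∀ z, (ω.1 z - ω.2 z) % 2 = 0) ∧ ω.1 x < t ∧ t ≤ ω.2 x ∧
    ∀ z, Cl ω x z → z ∈ box x n}

open Classical in
/-- the cluster as a finite set -/
noncomputable def Lam (x : V) (n : ℕ) (ω : X × X) : Finset V := (box x n).filter (Cl ω x)

variable {x : V} {t : ℤ} {n : ℕ} {ω ω' : X × X}

theorem mem_Lam (h : ω ∈ Ev x t n) {z : V} : z ∈ Lam x n ω ↔ Cl ω x z := by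
  classical
  rw [Lam, Finset.mem_filter]
  exact ⟨fun k => k.2, fun k => ⟨h.2.2.2.2.2 z k, k⟩⟩

theorem lt_of_cl (h : ω ∈ Ev x t n) {z : V} (k : Cl ω x z) : ω.1 z < ω.2 z := by
  induction k with
  | refl => exact h.2.2.2.1.trans_le h.2.2.2.2.1
  | tail _ k _ => exact k.2

theorem bd (h : ω ∈ Ev x t n) {u w : V} (hu : u ∈ Lam x n ω)
    (huw : |u.1 - w.1| + |u.2 - w.2| = 1) (hw : w ∉ Lam x n ω) : ω.1 w = ω.2 w := by
  rw [mem_Lam h] at hu hw
  have h1 : ¬ ω.1 w < ω.2 w := fun k => hw (Relation.ReflTransGen.tail hu ⟨huw, k⟩)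
  have h2 := lt_of_cl h hu
  have h3 := abs_le.1 (h.1 u w huw).le
  have h4 := abs_le.1 (h.2.1 u w huw).le
  have h5 := h.2.2.1 u
  omega

theorem hom_rep {Λ : Finset V} {f g : X} (hf : Hom f) (hg : Hom g)
    (h : ∀ u ∈ Λ, ∀ w : V, |u.1 - w.1| + |u.2 - w.2| = 1 → w ∉ Λ → f w = g w) :
    Hom (rep Λ g f) := by
  intro u w huw
  unfold rep
  split_ifs with h1 h2 h2
  · exact hg u w huw
  · rw [h u h1 w huw h2]
    exact hg u w huw
  · rw [h w h2 u (by rwa [abs_sub_comm w.1, abs_sub_comm w.2]) h1]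
    exact hg u w huw
  · exact hf u w huw

theorem lam_box (z : V) (hz : z ∈ Lam x n ω) :
    z ∈ box x (n + 1) ∧ ∀ y : V, |z.1 - y.1| + |z.2 - y.2| = 1 → y ∈ box x (n + 1) := by
  classical
  have h := (Finset.mem_filter.1 hz).1
  exact ⟨box_mono x n.le_succ h, fun y hy => (adj_of_nn hy).mem_box h⟩

theorem cl_sub (h : ω ∈ Ev x t n) (h' : ω' ∈ Ev x t n)
    (e1 : ∀ z ∈ box x (n + 1), rep (Lam x n ω) ω.2 ω.1 z = rep (Lam x n ω') ω'.2 ω'.1 z)
    (e2 : ∀ z ∈ box x (n + 1), rep (Lam x n ω) ω.1 ω.2 z = rep (Lam x n ω') ω'.1 ω'.2 z)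
    {z : V} (k : Cl ω x z) : Cl ω' x z := by
  induction k with
  | refl => exact Relation.ReflTransGen.refl
  | @tail u w k1 k2 ih =>
    have hw : w ∈ Lam x n ω := (mem_Lam h).2 (Relation.ReflTransGen.tail k1 k2)
    by_contra hc
    rw [← mem_Lam h'] at hc ih
    have a1 := e1 w (lam_box w hw).1
    have a2 := e2 w (lam_box w hw).1
    have a3 := bd h' ih k2.1 hc
    have a4 := k2.2
    simp only [rep, if_pos hw, if_neg hc] at a1 a2
    omega

theorem ev_le {μ1 μ2 : Measure X} (h1 : Gibbs μ1) (h2 : Gibbs μ2) (x : V) (t : ℤ) (n : ℕ) :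
    μ1.prod μ2 (Ev x t n) ≤ μ1.prod μ2 ({f | t ≤ f x} ×ˢ {f | t ≤ f x}ᶜ) := by
  have := h1.1
  have := h2.1
  let π : X × X → (box x (n + 1) → ℤ) × (box x (n + 1) → ℤ) :=
    fun ω => (fun z => ω.1 z, fun z => ω.2 z)
  have hc : ∀ i : π '' Ev x t n, ∃ ω ∈ Ev x t n, π ω = i := fun i => i.2
  choose r hr er using hc
  let T : π '' Ev x t n → Set (X × X) := fun i =>
    cyl (box x (n + 1)) (rep (Lam x n (r i)) (r i).2 (r i).1) ×ˢ
      cyl (box x (n + 1)) (rep (Lam x n (r i)) (r i).1 (r i).2)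
  have hd : Pairwise (Function.onFun Disjoint T) := by
    intro i j hij
    refine Set.disjoint_left.2 fun ω k k' => hij (Subtype.ext ?_)
    have e1 := fun z hz => (k.1 z hz).symm.trans (k'.1 z hz)
    have e2 := fun z hz => (k.2 z hz).symm.trans (k'.2 z hz)
    have e : ∀ z, z ∈ Lam x n (r i) ↔ z ∈ Lam x n (r j) := fun z => by
      rw [mem_Lam (hr i), mem_Lam (hr j)]
      exact ⟨cl_sub (hr i) (hr j) e1 e2, cl_sub (hr j) (hr i) (fun z hz => (e1 z hz).symm)
        fun z hz => (e2 z hz).symm⟩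
    rw [← er i, ← er j]
    refine Prod.ext (funext fun z => ?_) (funext fun z => ?_)
    all_goals
      have a1 := e1 z z.2
      have a2 := e2 z z.2
      simp only [rep, e] at a1 a2
      split_ifs at a1 a2 <;> assumption
  calc μ1.prod μ2 (Ev x t n)
      ≤ μ1.prod μ2 (⋃ i, cyl (box x (n + 1)) (r i).1 ×ˢ cyl (box x (n + 1)) (r i).2) := by
        refine measure_mono fun ω hω => mem_iUnion.2 ⟨⟨π ω, mem_image_of_mem π hω⟩, ?_⟩
        have e := er ⟨π ω, mem_image_of_mem π hω⟩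
        exact ⟨fun z hz => (congrFun (congrArg Prod.fst e) ⟨z, hz⟩).symm,
          fun z hz => (congrFun (congrArg Prod.snd e) ⟨z, hz⟩).symm⟩
    _ ≤ ∑' i, μ1.prod μ2 (cyl (box x (n + 1)) (r i).1 ×ˢ cyl (box x (n + 1)) (r i).2) :=
        measure_iUnion_le _
    _ = ∑' i, μ1.prod μ2 (T i) := by
        refine tsum_congr fun i => ?_
        rw [Measure.prod_prod, Measure.prod_prod]
        congr 1
        · exact h1.2.2 (Lam x n (r i)) _ _ _ (hr i).1 (hom_rep (hr i).1 (hr i).2.1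
            fun u hu w huw hw => bd (hr i) hu huw hw) (fun z hz => by simp [rep, hz]) lam_box
        · exact h2.2.2 (Lam x n (r i)) _ _ _ (hr i).2.1 (hom_rep (hr i).2.1 (hr i).1
            fun u hu w huw hw => (bd (hr i) hu huw hw).symm) (fun z hz => by simp [rep, hz])
            lam_box
    _ = μ1.prod μ2 (⋃ i, T i) :=
        (measure_iUnion hd fun i => (meas_cyl _ _).prod (meas_cyl _ _)).symm
    _ ≤ _ := by
        refine measure_mono (iUnion_subset fun i ω k => ?_)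
        have hx : x ∈ Lam x n (r i) := (mem_Lam (hr i)).2 Relation.ReflTransGen.refl
        have a1 := k.1 x (self_mem_box _ _)
        have a2 := k.2 x (self_mem_box _ _)
        simp only [rep, if_pos hx] at a1 a2
        exact ⟨(hr i).2.2.2.2.1.trans a1.ge, not_le.2 (a2.trans_lt (hr i).2.2.2.1)⟩

end DomAux

theorem dom_row : DomStmt := by
  intro μ1 μ2 h1 h2 h x t
  have := h1.1
  have := h2.1
  have hS : MeasurableSet {f : X | t ≤ f x} := meas_at x fun a => t ≤ a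
  have key : μ1.prod μ2 ({f | t ≤ f x}ᶜ ×ˢ {f | t ≤ f x}) ≤
      μ1.prod μ2 ({f | t ≤ f x} ×ˢ {f | t ≤ f x}ᶜ) := by
    have hm : Monotone (DomAux.Ev x t) := fun n m hnm ω k =>
      ⟨k.1, k.2.1, k.2.2.1, k.2.2.2.1, k.2.2.2.2.1, fun z hz => box_mono x hnm (k.2.2.2.2.2 z hz)⟩
    refine le_trans (measure_mono_ae (t := ⋃ n, DomAux.Ev x t n) ?_) ?_
    · filter_upwards [h, Measure.quasiMeasurePreserving_fst.ae h1.2.1,
        Measure.quasiMeasurePreserving_snd.ae h2.2.1] with ω k k1 k2 k3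
      have hx : ω.1 x < t := not_le.1 k3.1
      obtain ⟨n, hn⟩ := finite_sub_box x (not_not.1 fun hi => k.2 ⟨x, hi⟩)
      refine mem_iUnion.2 ⟨n, k1, k2, fun z => ?_, hx, k3.2, fun z hz => hn z ?_⟩
      · have a1 := (lip k1 z (0, 0)).2
        have a2 := (lip k2 z (0, 0)).2
        have a3 := k.1
        omega
      · induction hz with
        | refl => exact Conn.refl (hx.trans_le k3.2)
        | tail _ a ih => exact Conn.tail ih (adj_of_nn a.1) a.2
    · rw [hm.measure_iUnion]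
      exact iSup_le fun n => DomAux.ev_le h1 h2 x t n
  rw [Measure.prod_prod, Measure.prod_prod] at key
  calc μ2 {g | t ≤ g x} = (μ1 {f | t ≤ f x} + μ1 {f | t ≤ f x}ᶜ) * μ2 {g | t ≤ g x} := by
        rw [measure_add_measure_compl hS, measure_univ, one_mul]
    _ ≤ μ1 {f | t ≤ f x} * (μ2 {f | t ≤ f x} + μ2 {f | t ≤ f x}ᶜ) := by
        rw [add_mul, mul_add]
        exact add_le_add_right key _
    _ = _ := by rw [measure_add_measure_compl hS, measure_univ, mul_one]

end Pool.Agent.MP_151d89_pr.H5
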