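import Pool.Agent.MP_151d89_pr.H5.Meas

/-! Ergodicity of the two-copy field. -/

set_option autoImplicit false
open MeasureTheory Filter Set

namespace Pool.Agent.MP_151d89_pr.H5
open Pool.Agent.MP_151d89_pr.H82 Pool.Agent.MP_151d89_pr.H33

namespace ErgAux

/-- events of two copies depending on a finite set -/
def Loc2 (Δ : Finset V) (B : Set (X × X)) : Prop :=
  ∀ ω ω' : X × X, (∀ x ∈ Δ, ω.1 x = ω'.1 x ∧ ω.2 x = ω'.2 x) → (ω ∈ B ↔ ω' ∈ B)

/-- the algebra of local events -/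
def CC : Set (Set (X × X)) := {B | MeasurableSet B ∧ ∃ Δ, Loc2 Δ B}

theorem ring : IsSetRing CC where
  empty_mem := ⟨MeasurableSet.empty, ∅, fun _ _ _ => Iff.rfl⟩
  union_mem := by
    rintro s t ⟨hs, Δ, h⟩ ⟨ht, Δ', h'⟩
    exact ⟨hs.union ht, Δ ∪ Δ', fun ω ω' e => or_congr
      (h ω ω' fun x hx => e x (Finset.mem_union_left _ hx))
      (h' ω ω' fun x hx => e x (Finset.mem_union_right _ hx))⟩
  sdiff_mem := by
    rintro s t ⟨hs, Δ, h⟩ ⟨ht, Δ', h'⟩
    exact ⟨hs.diff ht, Δ ∪ Δ', fun ω ω' e => and_congr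
      (h ω ω' fun x hx => e x (Finset.mem_union_left _ hx))
      (not_congr (h' ω ω' fun x hx => e x (Finset.mem_union_right _ hx)))⟩

theorem gen : (inferInstance : MeasurableSpace (X × X)) = MeasurableSpace.generateFrom CC := by
  refine le_antisymm ?_ (MeasurableSpace.generateFrom_le fun B hB => hB.1)
  have h1 : @Measurable (X × X) X (MeasurableSpace.generateFrom CC) _ Prod.fst := by
    refine (@measurable_pi_iff _ _ _ (MeasurableSpace.generateFrom CC) _ _).2 fun x s hs => ?_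
    refine MeasurableSpace.measurableSet_generateFrom
      ⟨((measurable_pi_apply x).comp measurable_fst) hs, {x}, fun ω ω' e => ?_⟩
    simp only [mem_preimage, (e x (Finset.mem_singleton_self x)).1]
  have h2 : @Measurable (X × X) X (MeasurableSpace.generateFrom CC) _ Prod.snd := by
    refine (@measurable_pi_iff _ _ _ (MeasurableSpace.generateFrom CC) _ _).2 fun x s hs => ?_
    refine MeasurableSpace.measurableSet_generateFrom
      ⟨((measurable_pi_apply x).comp measurable_snd) hs, {x}, fun ω ω' e => ?_⟩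
    simp only [mem_preimage, (e x (Finset.mem_singleton_self x)).2]
  exact sup_le h1.comap_le h2.comap_le

theorem approx (P : Measure (X × X)) [IsProbabilityMeasure P] {E : Set (X × X)}
    (hE : MeasurableSet E) (k : ℕ) : ∃ B ∈ CC, P (symmDiff B E) < 2⁻¹ ^ k := by
  refine exists_measure_symmDiff_lt_of_generateFrom_isSetRing ring
    ⟨{univ}, countable_singleton _, ?_, by simp⟩ gen hE ?_
  · rintro _ rfl
    exact ⟨MeasurableSet.univ, ∅, fun _ _ _ => Iff.rfl⟩
  · exact ENNReal.pow_pos (by simp) k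

/-- tail events of the product are trivial -/
theorem tail (μ : Measure X) [IsProbabilityMeasure μ] (hT : Triv μ) {T : Set (X × X)}
    (hm : MeasurableSet T)
    (h : ∀ (Λ : Finset V) (ω ω' : X × X), (∀ x ∉ Λ, ω.1 x = ω'.1 x ∧ ω.2 x = ω'.2 x) →
      (ω ∈ T ↔ ω' ∈ T)) : μ.prod μ T = 0 ∨ μ.prod μ Tᶜ = 0 := by
  have hG : MeasurableSet {f | μ (Prod.mk f ⁻¹' T) ≠ 0} :=
    (measurable_measure_prodMk_left hm (measurableSet_singleton 0)).compl
  by_cases h0 : μ {f | μ (Prod.mk f ⁻¹' T) ≠ 0} = 0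
  · exact Or.inl ((Measure.measure_prod_null hm).2 h0)
  · refine Or.inr ((Measure.measure_prod_null hm.compl).2 ?_)
    have h1 := hT _ hG (fun Λ b => ?_) h0
    · refine (show ∀ᵐ f ∂μ, μ (Prod.mk f ⁻¹' T) ≠ 0 from h1).mono fun f hf => ?_
      refine hT _ (measurable_prodMk_left hm) (fun Λ b => ?_) hf
      ext g
      exact h Λ _ _ fun x hx => ⟨rfl, if_neg hx⟩
    · ext f
      have : Prod.mk (rep Λ b f) ⁻¹' T = Prod.mk f ⁻¹' T := by
        ext g
        exact h Λ _ _ fun x hx => ⟨if_neg hx, rfl⟩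
      simp only [mem_preimage, mem_ofPred_eq, this]

/-- the invariance -/
def Ph (v : V) (c0 : ℤ) (ω : X × X) : X × X := (Tv v c0 ω.1, Tv (-v) (-c0) ω.2)

theorem ph_iter (v : V) (c0 : ℤ) (n : ℕ) (ω : X × X) (x : V) :
    ((Ph v c0)^[n] ω).1 x = ω.1 (x + (n : ℤ) • v) - n * c0 ∧
      ((Ph v c0)^[n] ω).2 x = ω.2 (x - (n : ℤ) • v) + n * c0 := by
  induction n generalizing x with
  | zero => simp
  | succ n ih =>
    rw [Function.iterate_succ_apply']
    have e1 : x + v + (n : ℤ) • v = x + ((n + 1 : ℕ) : ℤ) • v := by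
      rw [Nat.cast_succ, add_smul, one_smul]; abel
    have e2 : x + -v - (n : ℤ) • v = x - ((n + 1 : ℕ) : ℤ) • v := by
      rw [Nat.cast_succ, add_smul, one_smul]; abel
    constructor
    · show ((Ph v c0)^[n] ω).1 (x + v) - c0 = _
      rw [(ih _).1, e1]; push_cast; ring
    · show ((Ph v c0)^[n] ω).2 (x + -v) - -c0 = _
      rw [(ih _).2, e2]; push_cast; ring

theorem far {v : V} (hv : v ≠ 0) (Δ : Finset V) (k : ℕ) :
    ∃ n : ℕ, ∀ x ∈ Δ, x + (n : ℤ) • v ∉ box 0 k ∧ x - (n : ℤ) • v ∉ box 0 k := by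
  obtain ⟨r, hr⟩ := finite_sub_box 0 Δ.finite_toSet
  refine ⟨r + k + 1, fun x hx => ?_⟩
  have h1 := mem_box.1 (hr x hx)
  have h2 : v.1 ≠ 0 ∨ v.2 ≠ 0 := by
    by_contra h
    push Not at h
    exact hv (Prod.ext h.1 h.2)
  have h3 : ∀ a : ℤ, a ≠ 0 → ((r + k + 1 : ℕ) : ℤ) ≤ ((r + k + 1 : ℕ) : ℤ) * a ∨
      ((r + k + 1 : ℕ) : ℤ) * a ≤ -((r + k + 1 : ℕ) : ℤ) := by
    intro a ha
    have : (0 : ℤ) ≤ ((r + k + 1 : ℕ) : ℤ) := Int.natCast_nonneg _
    rcases lt_or_gt_of_ne ha with h | h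
    · right; nlinarith
    · left; nlinarith
  simp only [mem_box, Prod.fst_add, Prod.snd_add, Prod.fst_sub, Prod.snd_sub, Prod.smul_fst,
    Prod.smul_snd, smul_eq_mul, Prod.fst_zero, Prod.snd_zero] at h1 ⊢
  rcases h2 with h | h
  · have := h3 _ h
    generalize ((r + k + 1 : ℕ) : ℤ) * v.1 = t at this ⊢
    omega
  · have := h3 _ h
    generalize ((r + k + 1 : ℕ) : ℤ) * v.2 = t at this ⊢
    omega

end ErgAux

open ErgAux

theorem erg_row : ErgStmt := by
  intro μ hμ hT v c0 hv hinv E hE hEi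
  have m1 : MeasurePreserving (Tv v c0) μ μ := ⟨meas_Tv v c0, hinv⟩
  have m2 : MeasurePreserving (Tv (-v) (-c0)) μ μ := by
    refine ⟨meas_Tv _ _, ?_⟩
    have e : Tv (-v) (-c0) ∘ Tv v c0 = id := by
      funext f z
      simp [Tv]
    conv_lhs => rw [← hinv]
    rw [Measure.map_map (meas_Tv _ _) (meas_Tv _ _), e, Measure.map_id]
  have m3 : MeasurePreserving (Ph v c0) (μ.prod μ) (μ.prod μ) := m1.prod m2
  have hEn : ∀ (n : ℕ) (ω : X × X), (Ph v c0)^[n] ω ∈ E ↔ ω ∈ E := by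
    intro n
    induction n with
    | zero => exact fun ω => Iff.rfl
    | succ n ih =>
      intro ω
      rw [Function.iterate_succ_apply']
      exact (hEi _).trans (ih ω)
  choose B hB hP using approx (μ.prod μ) hE
  choose Δ hΔ using fun k => (hB k).2
  choose n hn using fun k => far hv (Δ k) k
  have hm : ∀ k, MeasurableSet ((Ph v c0)^[n k] ⁻¹' B k) := fun k =>
    (m3.iterate (n k)).measurable (hB k).1
  have hle : ∀ k, μ.prod μ ((Ph v c0)^[n k] ⁻¹' symmDiff (B k) E) ≤ 2⁻¹ ^ k := fun k => by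
    rw [(m3.iterate (n k)).measure_preimage ((hB k).1.symmDiff hE).nullMeasurableSet]
    exact (hP k).le
  have hae := ae_eventually_notMem (μ := μ.prod μ)
    (s := fun k => (Ph v c0)^[n k] ⁻¹' symmDiff (B k) E)
    (ne_top_of_le_ne_top (by rw [ENNReal.tsum_geometric]; simp) (ENNReal.tsum_le_tsum hle))
  have hTm : MeasurableSet {ω | ∀ᶠ k in atTop, ω ∈ (Ph v c0)^[n k] ⁻¹' B k} := by
    simp only [eventually_atTop]
    exact measurableSet_setOfPred.2 (Measurable.exists fun N => Measurable.forall fun k =>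
      measurable_const.imp (measurableSet_setOfPred.1 (hm k)))
  have heq : E =ᵐ[μ.prod μ] ({ω | ∀ᶠ k in atTop, ω ∈ (Ph v c0)^[n k] ⁻¹' B k} : Set (X × X)) := by
    refine eventuallyEq_set.2 (hae.mono fun ω h => ?_)
    simp only [mem_preimage, mem_symmDiff, hEn, mem_ofPred_eq] at h ⊢
    constructor
    · intro h1
      exact h.mono fun k hk => by tauto
    · intro h1
      obtain ⟨k, h2, h3⟩ := (h.and h1).exists
      tauto
  rw [measure_congr heq, measure_congr heq.compl]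
  refine tail μ hT hTm fun Λ ω ω' e => ?_
  obtain ⟨r, hr⟩ := finite_sub_box 0 Λ.finite_toSet
  refine eventually_congr ((eventually_ge_atTop r).mono fun k hk => hΔ k _ _ fun x hx => ?_)
  rw [(ph_iter v c0 _ ω x).1, (ph_iter v c0 _ ω x).2, (ph_iter v c0 _ ω' x).1,
    (ph_iter v c0 _ ω' x).2, (e _ fun h => (hn k x hx).1 (box_mono 0 hk (hr _ h))).1,
    (e _ fun h => (hn k x hx).2 (box_mono 0 hk (hr _ h))).2]
  exact ⟨rfl, rfl⟩

end Pool.Agent.MP_151d89_pr.H5
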