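import Pool.Agent.MP_151d89_pr.H5.Law

/-! Far to the right the height climbs along an axis direction with positive probability. -/

set_option autoImplicit false
open MeasureTheory Filter Set

namespace Pool.Agent.MP_151d89_pr.H5
open Pool.Agent.MP_151d89_pr.H82 Pool.Agent.MP_151d89_pr.H33

namespace FarAux

theorem cp_dist {θ : ℤ → ℤ} (h : Col θ) (j s t k : ℤ) (h1 : s - t ≤ k) (h2 : t - s ≤ k) :
    |(cp θ j s).1 - (cp θ j t).1| + |(cp θ j s).2 - (cp θ j t).2| ≤ 2 * k := by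
  have a1 : |(cp θ j s).1 - (cp θ j t).1| ≤ k := by
    simp only [cp]
    rw [abs_le]
    rcases le_total s t with h3 | h3
    · have := h.lip h3; omega
    · have := h.lip h3; omega
  have a2 : |(cp θ j s).2 - (cp θ j t).2| ≤ k := by
    simp only [cp]
    rw [abs_le]; omega
  omega

theorem four {α : Type} [MeasurableSpace α] (μ : Measure α) (A : V → Set α) (S : Set α)
    (q : ENNReal) (hS : 4 * q ≤ μ S) (h : ∀ f ∈ S, ∃ e : V, |e.1| + |e.2| = 1 ∧ f ∈ A e) :
    ∃ e : V, |e.1| + |e.2| = 1 ∧ q ≤ μ (A e) := by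
  by_contra hc
  push Not at hc
  have h1 := hc (1, 0) (by simp)
  have h2 := hc (-1, 0) (by simp)
  have h3 := hc (0, 1) (by simp)
  have h4 := hc (0, -1) (by simp)
  have h5 : μ S ≤ μ (A (1, 0)) + μ (A (-1, 0)) + (μ (A (0, 1)) + μ (A (0, -1))) := by
    refine le_trans (measure_mono (t := A (1, 0) ∪ A (-1, 0) ∪ (A (0, 1) ∪ A (0, -1))) ?_)
      ((measure_union_le _ _).trans (add_le_add (measure_union_le _ _) (measure_union_le _ _)))
    intro f hf
    obtain ⟨e, he, h6⟩ := h f hf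
    rcases unit_cases he with rfl | rfl | rfl | rfl <;> simp [h6]
  have h6 := ENNReal.add_lt_add (ENNReal.add_lt_add h1 h2) (ENNReal.add_lt_add h3 h4)
  have h7 : q + q + (q + q) = 4 * q := by ring
  rw [h7] at h6
  exact absurd (hS.trans h5) (not_le.2 h6)

end FarAux

open FarAux in
theorem far_row (hN : NeckStmt) (hR : RareStmt) (hM : MergeStmt) (hQ : ModQStmt) (hF : FinStmt) :
    FarStmt := by
  intro μ hG a b c0 y c hinv S good
  have := hG.1
  have := S.prob
  have col := S.col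
  set θ := th a b with hθ
  obtain ⟨p0, K0, hp0, hN⟩ := hN _ a b S good
  have hp1 : p0 ≤ 1 := by
    obtain ⟨K2, h⟩ := hN 0
    obtain ⟨t, h⟩ := h 0 le_rfl
    exact h.trans prob_le_one
  have hpt : p0 ≠ ⊤ := ne_top_of_le_ne_top ENNReal.one_ne_top hp1
  have fin : ∀ᵐ L ∂(nu μ y c), FinCol θ L :=
    good.mono fun L h => hF θ col Lᶜ L disjoint_compl_left h.2
  have h8 : p0 / 8 ≤ p0 := by
    rw [ENNReal.div_le_iff (by norm_num) (by norm_num)]
    exact le_mul_of_one_le_right' (by norm_num)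
  have toR : ∀ {α : Type} [MeasurableSpace α] (m : Measure α) [IsProbabilityMeasure m] (A : Set α),
      p0 / 8 ≤ m A → (p0 / 8).toReal ≤ m.real A := fun m _ A h =>
    ENNReal.toReal_mono (measure_ne_top _ _) h
  refine ⟨(p0 / 8).toReal, 4 * K0 + 4 * b, ENNReal.toReal_pos
    (ENNReal.div_ne_zero.2 ⟨hp0, by norm_num⟩) (ne_top_of_le_ne_top hpt h8),
    ENNReal.toReal_le_of_le_ofReal zero_le_one (by rw [ENNReal.ofReal_one]; exact h8.trans hp1),
    fun r => ?_⟩
  obtain ⟨K2, hN⟩ := hN ((2 * (r + K0) + 1) ^ 2 + 1)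
  obtain ⟨C, hC, hQ⟩ := hQ (r + K0)
  have hC1 : C + 1 ≠ ⊤ := ENNReal.add_ne_top.2 ⟨hC, ENNReal.one_ne_top⟩
  obtain ⟨J0, hJ⟩ := hR _ a b S fin (2 * (r + K0) + 1) K2 (p0 / 2 / (C + 1))
    (ENNReal.div_ne_zero.2 ⟨ENNReal.div_ne_zero.2 ⟨hp0, by norm_num⟩, hC1⟩)
  refine ⟨max J0 0, fun z hz => ?_⟩
  have hz' : θ z.2 + max J0 0 ≤ z.1 := hz
  set j := z.1 - θ z.2 with hj
  have hzj : z = cp θ j z.2 := Prod.ext (by simp only [cp]; omega) rfl
  obtain ⟨t, ht⟩ := hN j (by omega)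
  have hb := S.hb
  obtain ⟨m, m1, m2⟩ : ∃ m : ℤ, t + m * b ≤ z.2 ∧ z.2 < t + m * b + b := by
    have h1 := Int.ediv_mul_le (z.2 - t) hb.ne'
    have h2 := Int.lt_ediv_add_one_mul_self (z.2 - t) hb
    rw [add_mul, one_mul] at h2
    exact ⟨(z.2 - t) / b, by omega, by omega⟩
  have mN : MeasurableSet {L | Neck θ j L t K0 ((2 * (r + K0) + 1) ^ 2 + 1) K2} :=
    measurableSet_setOfPred.2 (mneck measurable_id' _ _ _ _ _ _)
  have hom2 : ∀ᵐ ω ∂(μ.prod μ), Hom ω.1 ∧ Hom ω.2 :=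
    (Measure.quasiMeasurePreserving_fst.ae hG.2.1).and (Measure.quasiMeasurePreserving_snd.ae hG.2.1)
  constructor
  · set x := cp θ j t with hx
    have b1 := hQ μ hG y c x 0 K0
      {L | FinCol θ L ∧ Neck θ j L t K0 ((2 * (r + K0) + 1) ^ 2 + 1) K2}
      {L | Mrg θ j (j + ((2 * (r + K0) + 1 : ℕ) : ℤ)) L t K2}
      (measurableSet_setOfPred.2 (mmrg measurable_id' _ _ _ _ _))
      (fun L hL L' hL' => by
        have := hM θ col j t L L' K0 _ K2 (r + K0) hL.1 hL.2 (Nat.lt_succ_self _)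
          (Nat.le_add_left _ _) hL'
        have e : j + ((2 * (r + K0) + 1 : ℕ) : ℤ) = j + 2 * ((r + K0 : ℕ) : ℤ) + 1 := by
          push_cast; ring
        show Mrg θ j _ L' t K2
        rwa [e]) (Nat.le_add_left _ _)
    have b2 : C * nu μ y c {L | Mrg θ j (j + ((2 * (r + K0) + 1 : ℕ) : ℤ)) L t K2} ≤ p0 / 2 := by
      refine (mul_le_mul' le_self_add (hJ j (by omega) t) : _ ≤ (C + 1) * _).trans (le_of_eq ?_)
      exact ENNReal.mul_div_cancel (by simp) hC1
    let B : Set X := {f | f x - 4 * K0 < top f x (r + K0 + 1)}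
    have b3 : p0 ≤ p0 / 2 + μ B := by
      have e1 : μ.prod μ (Prod.fst ⁻¹' B) ≤ μ B := by
        have : (Prod.fst ⁻¹' B : Set (X × X)) = B ×ˢ univ := by ext; simp
        rw [this, Measure.prod_prod, measure_univ, mul_one]
      refine ht.trans (le_trans ?_ (add_le_add (b1.trans b2) e1))
      rw [nu_apply _ _ _ mN]
      refine le_trans (measure_mono_ae ?_) (measure_union_le _ _)
      filter_upwards [ae_of_ae_map (meas_chi y c).aemeasurable fin] with ω h1 h2
      by_cases h3 : ω.1 ∈ B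
      · exact Or.inr h3
      · refine Or.inl ⟨⟨h1, h2⟩, ?_, ?_⟩
        · obtain ⟨a', b', h4, -, -, h5, -⟩ := h2
          have h6 := (h4 (Fin.last _).castSucc).mem.1
          rw [h5] at h6
          have h7 : ω.1 x + ω.2 (R y x) ≤ c := h6
          simpa using h7
        · have : top ω.1 x (r + K0 + 1) ≤ ω.1 x - 4 * K0 := not_lt.1 h3
          simpa using this
    have b4 : 4 * (p0 / 8) ≤ μ B := by
      have e : 4 * (p0 / 8) = p0 / 2 := by
        rw [div_eq_mul_inv, div_eq_mul_inv, mul_left_comm]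
        congr 1
        rw [show (8 : ENNReal) = 4 * 2 by norm_num, ENNReal.mul_inv (by norm_num) (by norm_num),
          ← mul_assoc, ENNReal.mul_inv_cancel (by norm_num) (by norm_num), one_mul]
      rw [e]
      refine (ENNReal.add_le_add_iff_left (a := p0 / 2) ?_).1 (by rwa [ENNReal.add_halves])
      exact ne_top_of_le_ne_top hpt ENNReal.half_le_self
    obtain ⟨e, he, b5⟩ := four μ
      (fun e => {f | f x - 4 * K0 < f (x + ((r + K0 + 1 : ℕ) : ℤ) • e) - ((r + K0 + 1 : ℕ) : ℤ)})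
      B _ b4 fun f hf => by
        obtain ⟨e, he, h⟩ := top_dir (f := f) x (r + K0 + 1)
        exact ⟨e, he, lt_of_lt_of_eq hf h.symm⟩
    refine ⟨e, he, toR μ _ (b5.trans ?_)⟩
    have mA : MeasurableSet {f : X | f x - 4 * K0 <
        f (x + ((r + K0 + 1 : ℕ) : ℤ) • e) - ((r + K0 + 1 : ℕ) : ℤ)} :=
      measurableSet_lt ((measurable_pi_apply _).sub_const _) ((measurable_pi_apply _).sub_const _)
    rw [← meas_inv (map_Tv_zsmul hinv m) mA]
    refine measure_mono_ae ?_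
    filter_upwards [hG.2.1] with f hf h1
    have h2 : f (x + m • (a, b)) - m * c0 - 4 * K0 <
      f (x + ((r + K0 + 1 : ℕ) : ℤ) • e + m • (a, b)) - m * c0 - ((r + K0 + 1 : ℕ) : ℤ) := h1
    rw [add_right_comm, hx, cp_add hb, ← hθ] at h2
    have d1 := cp_dist col j (t + m * b) z.2 b (by omega) (by omega)
    have d2 := cp_dist col j z.2 (t + m * b) b (by omega) (by omega)
    rw [← hzj] at d1 d2
    have l1 := (lip hf z (cp θ j (t + m * b))).1
    have l2 := (lip hf (cp θ j (t + m * b) + ((r + K0 + 1 : ℕ) : ℤ) • e) (z + (r : ℤ) • e)).1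
    have l3 := ray_dist he (cp θ j (t + m * b)) z (r + K0 + 1) r (by omega)
    show (r : ℤ) - (4 * K0 + 4 * b) ≤ f (z + (r : ℤ) • e) - f z
    omega
  · refine toR _ _ (h8.trans (ht.trans ?_))
    have mS : MeasurableSet {L | sh (m • (a, b)) L ∈
        {L | Neck θ j L t K0 ((2 * (r + K0) + 1) ^ 2 + 1) K2}} := meas_sh _ mN
    rw [← S.meas_sh m mN, nu_apply _ _ _ mS]
    refine measure_mono_ae ?_
    filter_upwards [hom2] with ω hω h1
    obtain ⟨a', b', -, h2, h3, h4, h5, -⟩ := h1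
    have h6 := (h2 (Fin.last _)).mem.1
    have h7 := h3 (Fin.last _)
    rw [h4, Fin.succ_last] at h7
    generalize b' (Fin.last _) = s at h6 h7
    have h9 : s ≤ t + K0 := le_trans h7.2.le h5
    have h8 : ¬ (ω.1 (cp θ j s + m • (a, b)) + ω.2 (R y (cp θ j s + m • (a, b))) ≤ c) := h6
    rw [cp_add hb, ← hθ] at h8
    have d1 := cp_dist col j (s + m * b) z.2 (K0 + b) (by omega) (by omega)
    rw [← hzj] at d1
    have l1 := (lip hω.1 (cp θ j (s + m * b)) z).1
    have l2 := (lip hω.2 (R y (cp θ j (s + m * b))) (R y z)).1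
    have l3 := iso_Re y (cp θ j (s + m * b)) z
    show c - (4 * K0 + 4 * b) ≤ ω.1 z + ω.2 (R y z)
    have l4 : |(R y (cp θ j (s + m * b))).1 - (R y z).1| + |(R y (cp θ j (s + m * b))).2 - (R y z).2|
      = |(cp θ j (s + m * b)).1 - z.1| + |(cp θ j (s + m * b)).2 - z.2| := l3
    omega

end Pool.Agent.MP_151d89_pr.H5
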