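import Pool.Agent.MP_151d89_pr.H5.Meas

set_option autoImplicit false
open MeasureTheory Filter Set

namespace Pool.Agent.MP_151d89_pr.H5
open Pool.Agent.MP_151d89_pr.H82 Pool.Agent.MP_151d89_pr.H33

namespace FinAux

theorem stay {c : ℤ → V} {A B C : Set V} (hd : Disjoint A B) {lo hi u t : ℤ}
    (hsep : ∀ t1 s t2 : ℤ, t1 < s → s < t2 → Conn (B ∩ C) (c t1) (c t2) → ¬ Inf (A ∩ C) (c s))
    (hlo : Inf (A ∩ C) (c lo)) (hhi : Inf (A ∩ C) (c hi)) (h1 : lo < u) (h2 : u < hi)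
    (h : Conn (B ∩ C) (c u) (c t)) : lo < t ∧ t < hi := by
  have hB : c t ∈ B := h.mem_right.1
  constructor
  · rcases lt_trichotomy lo t with e | e | e
    · exact e
    · exact absurd hB (Set.disjoint_left.1 hd (e ▸ hlo.mem.1))
    · exact absurd hlo (hsep t lo u e h1 h.symm)
  · rcases lt_trichotomy t hi with e | e | e
    · exact e
    · exact absurd hB (Set.disjoint_left.1 hd (e ▸ hhi.mem.1))
    · exact absurd hhi (hsep u hi t h2 e h)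

end FinAux

theorem fin_row (hS : SepStmt) : FinStmt := by
  intro θ hθ A B hd hG p j
  by_contra hinf
  obtain ⟨u0, hu0⟩ := Set.Infinite.nonempty hinf
  obtain ⟨⟨hi, h2, hiR, hiL⟩, lo, h1, loR, loL⟩ := hG j u0
  have sR : ∀ u t, lo < u → u < hi → Conn (B ∩ Rt θ j) (cp θ j u) (cp θ j t) → lo < t ∧ t < hi :=
    fun u t a b c => FinAux.stay (c := cp θ j) hd
      (fun t1 s t2 e1 e2 => (hS θ hθ j B A hd.symm t1 s t2 e1 e2).1) loR hiR a b c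
  have sL : ∀ u t, lo < u → u < hi → Conn (B ∩ Lf θ j) (cp θ j u) (cp θ j t) → lo < t ∧ t < hi :=
    fun u t a b c => FinAux.stay (c := cp θ j) hd
      (fun t1 s t2 e1 e2 => (hS θ hθ j B A hd.symm t1 s t2 e1 e2).2) loL hiL a b c
  refine hinf ((finite_Ioo lo hi).subset fun t ht => ?_)
  have hc : Conn B (cp θ j u0) (cp θ j t) := (Conn.symm hu0).trans ht
  obtain ⟨u, a, b, h | h⟩ := hc.ind (fun x => ∃ u, lo < u ∧ u < hi ∧
      (Conn (B ∩ Rt θ j) (cp θ j u) x ∨ Conn (B ∩ Lf θ j) (cp θ j u) x))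
    ⟨u0, h1, h2, Or.inl (Conn.refl ⟨hc.1, cp_mem_Rt le_rfl⟩)⟩ (by
      rintro x y - ⟨u, a, b, h | h⟩ ha hy
      · by_cases hyR : y ∈ Rt θ j
        · exact ⟨u, a, b, Or.inl (h.tail ha ⟨hy, hyR⟩)⟩
        · obtain ⟨e, hyL⟩ := hθ.exit_Rt ha h.mem_right.2 hyR
          obtain ⟨a', b'⟩ := sR u x.2 a b (e ▸ h)
          exact ⟨x.2, a', b', Or.inr (conn_of_adj ⟨e ▸ h.mem_right.1, cp_mem_Lf le_rfl⟩
            ⟨hy, hyL⟩ (e ▸ ha))⟩
      · by_cases hyL : y ∈ Lf θ j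
        · exact ⟨u, a, b, Or.inr (h.tail ha ⟨hy, hyL⟩)⟩
        · obtain ⟨e, hyR⟩ := hθ.exit_Lf ha h.mem_right.2 hyL
          obtain ⟨a', b'⟩ := sL u x.2 a b (e ▸ h)
          exact ⟨x.2, a', b', Or.inl (conn_of_adj ⟨e ▸ h.mem_right.1, cp_mem_Rt le_rfl⟩
            ⟨hy, hyR⟩ (e ▸ ha))⟩)
  · exact sR u t a b h
  · exact sL u t a b h

end Pool.Agent.MP_151d89_pr.H5
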