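import Pool.Agent.MP_151d89_pr.H5.Sep

/-! Four alternating arms around a slit cannot be joined crosswise. -/

set_option autoImplicit false
open MeasureTheory Filter Set

namespace Pool.Agent.MP_151d89_pr.H5
open Pool.Agent.MP_151d89_pr.H82 Pool.Agent.MP_151d89_pr.H33

namespace FourBAux

theorem w1 : ∀ a b : ZMod 2, a + b = 0 → a = b := by decide

theorem w2 : ∀ a b c d : ZMod 2, a + b = c + d → c = d → a = b := by decide

theorem w3 : ∀ a a' b b' c c' d d' e e' : ZMod 2, ∀ s t u v : ZMod 2, a + a' = s + t →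
    b + b' = t + 0 → c + c' = s + u → d + d' = u + v → e + e' = v + 0 →
    a + b + c + d + e = a' + b' + c' + d' + e' := by
  intro a a' b b' c c' d d' e e' s t u v h1 h2 h3 h4 h5
  have k : ∀ x : ZMod 2, x + x = 0 := by decide
  apply w1
  linear_combination h1 + h2 + h3 + h4 + h5 + k s + k t + k u + k v

theorem rows (F : Finset V) : ∃ M : ℕ, ∀ w ∈ F, |w.2| < M := by
  obtain ⟨n, hn⟩ := finite_sub_box (0, 0) F.finite_toSet
  refine ⟨n + 1, fun w hw => ?_⟩
  have := mem_box.1 (hn w hw)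
  rw [abs_lt]
  push_cast
  simp only at this
  omega

end FourBAux

open SepAux FourBAux in
theorem four_rowB (hI : IotaStmt) : FourStmt := by
  rintro A B hAB n y x x' u u' ⟨a1, a2, a3, p, a4, a5, a6⟩ ⟨b1, b2, b3, p', b4, b5, b6⟩
    ⟨c1, c2, c3, r, c4, c5, c6⟩ ⟨d1, d2, d3, r', d4, d5, d6⟩ hxu hux hA hB
  have dj : ∀ z, z ∈ B → z ∉ A := fun z h1 h2 => disjoint_left.1 hAB h2 h1
  have hp : p.2 = 1 := by unfold Adj at a4; simp only at a4; omega
  have hp' : p'.2 = -1 := by unfold Adj at b4; simp only at b4; omega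
  have pA : p ∈ A := a6.inf.mem.1
  have pA' : p' ∈ A := b6.inf.mem.1
  have n1 : u' ≠ x := fun h => dj _ d1 (h ▸ a1)
  have n2 : u ≠ x' := fun h => dj _ c1 (h ▸ b1)
  obtain ⟨Fb, hFb, hB⟩ := hB.finite
  obtain ⟨M, hM⟩ := rows Fb
  obtain ⟨q, hq, hqM⟩ := a6 M
  obtain ⟨q', hq', hqM'⟩ := b6 M
  obtain ⟨F1, i1, m1, -, -, e1, e2, e3, e4⟩ := hI {(x, 0), p} (x, 0) p
    (conn_of_adj (by simp) (by simp) a4)
  obtain ⟨F2, i2, m2, -, -, f1, f2, -, -⟩ := hI _ _ _ hq
  obtain ⟨F3, i3, m3, -, -, g1, g2, g3, -⟩ := hI _ _ _ hA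
  obtain ⟨F4, i4, m4, -, -, h1, h2, h3, h4⟩ := hI {(x', 0), p'} (x', 0) p'
    (conn_of_adj (by simp) (by simp) b4)
  obtain ⟨F5, i5, m5, -, -, k1, k2, -, -⟩ := hI _ _ _ hq'
  have o1 : ∀ z ∈ B, z ∉ F1 := fun z hz h => by
    rcases m1 z h with rfl | rfl
    · exact dj _ hz a1
    · exact dj _ hz pA
  have o2 : ∀ z ∈ B, z ∉ F2 := fun z hz h => dj _ hz (m2 z h).1
  have o3 : ∀ z ∈ B, z ∉ F3 := fun z hz h => dj _ hz (m3 z h)
  have o4 : ∀ z ∈ B, z ∉ F4 := fun z hz h => by
    rcases m4 z h with rfl | rfl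
    · exact dj _ hz b1
    · exact dj _ hz pA'
  have o5 : ∀ z ∈ B, z ∉ F5 := fun z hz h => dj _ hz (m5 z h).1
  have main := const (fun z => i1 z + i2 z + i3 z + i4 z + i5 z)
    (fun z hz z' hz' ha he => by
      have s := hFb z hz
      have s' := hFb z' hz'
      simp only [e1 z z' (o1 z s) (o1 z' s') ha he, f1 z z' (o2 z s) (o2 z' s') ha he,
        g1 z z' (o3 z s) (o3 z' s') ha he, h1 z z' (o4 z s) (o4 z' s') ha he,
        k1 z z' (o5 z s) (o5 z' s') ha he])
    (fun z hz z' hz' ha he => by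
      have s := hFb z hz
      have s' := hFb z' hz'
      have t := hM z' hz'
      have t2 := f2 z z' (o2 z s) (o2 z' s') ha he
      have t5 := k2 z z' (o5 z s) (o5 z' s') ha he
      rw [if_neg (show ¬ (q.2 = z'.2 ∧ z'.1 < q.1) from fun h => by rw [h.1] at hqM; omega)] at t2
      rw [if_neg (show ¬ (q'.2 = z'.2 ∧ z'.1 < q'.1) from fun h => by rw [h.1] at hqM'; omega)] at t5
      exact w3 _ _ _ _ _ _ _ _ _ _ _ _ _ _ (e2 z z' (o1 z s) (o1 z' s') ha he) t2
        (g2 z z' (o3 z s) (o3 z' s') ha he) (h2 z z' (o4 z s) (o4 z' s') ha he) t5) hB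
  have sl : ∀ (F : Finset V) (i : V → ZMod 2), (∀ w ∈ F, w ∈ A \ slit n y) →
      (∀ z z' : V, z ∉ F → z' ∉ F → Adj z z' → z'.2 = z.2 → i z = i z') → i (u', 0) = i (u, 0) := by
    intro F i m e
    have key : ∀ s t : ℤ, -n ≤ s → s ≤ t → t ≤ y + n → i (t, 0) = i (s, 0) := fun s t s1 s2 s3 =>
      const (S := slit n y) i
        (fun z hz z' hz' ha he => e z z' (fun h => (m z h).2 hz) (fun h => (m z' h).2 hz') ha he)
        (fun z hz z' hz' _ he => by have := hz.1; have := hz'.1; omega)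
        (conn_row s2 fun w w1 w2 => ⟨rfl, by simp only; omega, by simp only; omega⟩)
    rcases le_total u u' with h | h
    · exact key u u' c2 h d3
    · exact (key u' u d2 h c3).symm
  have far : ∀ z, Tall (B \ slit n y) z → i3 z = 0 := by
    intro z hz
    obtain ⟨M3, hM3⟩ := rows F3
    obtain ⟨w, hw, hwM⟩ := hz M3
    rw [← const i3 (fun z hz z' hz' ha he => g1 z z' (o3 z hz.1) (o3 z' hz'.1) ha he)
      (fun z hz z' hz' ha he => w2 _ _ _ _ (g2 z z' (o3 z hz.1) (o3 z' hz'.1) ha he) ?_) hw]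
    · exact g3 w fun w' hw' e => by have := hM3 w' hw'; rw [e] at this; omega
    · have : ¬ (z'.2 = 0 ∧ -n ≤ z'.1 ∧ z'.1 ≤ y + n) := hz'.2
      refine if_congr ?_ rfl rfl
      simp only
      omega
  have rB : r ∈ B := c6.inf.mem.1
  have rB' : r' ∈ B := d6.inf.mem.1
  have v1 : i1 (u, 0) = 0 := e3 _ fun w hw e => by
    rcases m1 w hw with rfl | rfl
    · exact hxu.le
    · simp only at e; omega
  have v4 : ∀ s, s ≠ x' → i4 (s, 0) = 0 := fun s hs => by
    rcases lt_or_gt_of_ne hs with h | h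
    · rw [h4 _ fun w hw e => ?_, if_pos le_rfl, if_pos (by rw [hp']; norm_num)]
      · decide
      · rcases m4 w hw with rfl | rfl
        · exact h
        · simp only at e; omega
    · refine h3 _ fun w hw e => ?_
      rcases m4 w hw with rfl | rfl
      · exact h.le
      · simp only at e; omega
  have v3 : i3 (u, 0) = 0 := by
    rw [← far r c6]
    rcases c5 with h | h
    · refine w2 _ _ _ _ (g2 _ r (o3 _ c1) (o3 _ rB) c4 (by simpa using h)) ?_
      rw [if_neg (by simp only; omega), if_neg (by simp only; omega)]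
    · exact g1 _ r (o3 _ c1) (o3 _ rB) c4 h.1
  have v5 : i1 (u', 0) + i3 (u', 0) = 1 := by
    have t := far r' d6
    rcases lt_or_gt_of_ne n1 with h | h
    · have t1 : i1 (u', 0) = 1 := by
        rw [e4 _ fun w hw e => ?_, if_pos le_rfl, if_neg (by rw [hp]; norm_num), add_zero]
        rcases m1 w hw with rfl | rfl
        · exact h
        · simp only at e; omega
      have t3 : i3 (u', 0) = 0 := by
        rw [← t]
        rcases d5 with h' | h'
        · refine (w2 _ _ _ _ (g2 r' _ (o3 _ rB') (o3 _ d1) d4.symm (by simp [h'])) ?_).symm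
          rw [if_pos ⟨rfl, h⟩, if_pos ⟨rfl, hux⟩]
        · exact g1 _ r' (o3 _ d1) (o3 _ rB') d4 h'.1
      rw [t1, t3, add_zero]
    · have t1 : i1 (u', 0) = 0 := e3 _ fun w hw e => by
        rcases m1 w hw with rfl | rfl
        · exact h.le
        · simp only at e; omega
      have h' : r'.2 = -1 := by unfold Adj at d4; simp only at d4; omega
      have t3 := g2 r' _ (o3 _ rB') (o3 _ d1) d4.symm (by simp [h'])
      rw [t, if_neg (by simp only; omega), if_pos ⟨rfl, hux⟩, zero_add, zero_add] at t3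
      rw [t1, t3, zero_add]
  simp only [sl F2 i2 m2 f1, sl F5 i5 m5 k1, v1, v3, v4 u n2, v4 u' hux.ne] at main
  have : (1 : ZMod 2) = 0 := by linear_combination main - v5
  exact absurd this (by decide)

end Pool.Agent.MP_151d89_pr.H5
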