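import Pool.Agent.MP_151d89_pr.H5.Meas

/-! The crossing parity of a walk. -/

set_option autoImplicit false
open MeasureTheory Filter Set

namespace Pool.Agent.MP_151d89_pr.H5
open Pool.Agent.MP_151d89_pr.H82 Pool.Agent.MP_151d89_pr.H33

namespace IotaAux

/-- the edge from x to y passes between the row of z and the next row, to the right of z -/
def ed (x y z : V) : ZMod 2 :=
  if (x.2 = z.2 ∧ y.2 = z.2 + 1 ∧ z.1 < x.1) ∨ (y.2 = z.2 ∧ x.2 = z.2 + 1 ∧ z.1 < y.1) then 1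
  else 0

theorem ne_iff {z x : V} (h : z ≠ x) : z.1 ≠ x.1 ∨ z.2 ≠ x.2 := by
  by_contra hc
  push Not at hc
  exact h (Prod.ext hc.1 hc.2)

theorem ed_H {x y z z' : V} (h1 : z ≠ x) (h2 : z ≠ y) (h3 : z' ≠ x) (h4 : z' ≠ y)
    (ha : Adj z z') (hr : z'.2 = z.2) : ed x y z = ed x y z' := by
  have e1 := ne_iff h1
  have e2 := ne_iff h2
  have e3 := ne_iff h3
  have e4 := ne_iff h4
  unfold Adj at ha
  unfold ed
  refine if_congr ?_ rfl rfl
  omega

theorem ed_V {x y z z' : V} (hxy : Adj x y) (h1 : z ≠ x) (h2 : z ≠ y) (h3 : z' ≠ x)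
    (h4 : z' ≠ y) (ha : Adj z z') (hr : z'.2 = z.2 + 1) :
    ed x y z + ed x y z' = (if x.2 = z'.2 ∧ z'.1 < x.1 then 1 else 0) +
      (if y.2 = z'.2 ∧ z'.1 < y.1 then 1 else 0) := by
  have e1 := ne_iff h1
  have e2 := ne_iff h2
  have e3 := ne_iff h3
  have e4 := ne_iff h4
  unfold Adj at ha hxy
  unfold ed
  split_ifs <;> first | rfl | (exfalso; omega)

theorem ed_R {x y z : V} (h1 : x.2 = z.2 → x.1 ≤ z.1) (h2 : y.2 = z.2 → y.1 ≤ z.1) :
    ed x y z = 0 := by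
  unfold ed
  refine if_neg ?_
  omega

theorem ed_L {x y z : V} (hxy : Adj x y) (h1 : x.2 = z.2 → z.1 < x.1)
    (h2 : y.2 = z.2 → z.1 < y.1) :
    ed x y z = (if x.2 ≤ z.2 then 1 else 0) + (if y.2 ≤ z.2 then 1 else 0) := by
  unfold Adj at hxy
  unfold ed
  split_ifs <;> first | rfl | (exfalso; omega)

theorem two (a : ZMod 2) : a + a = 0 := by revert a; decide

theorem comb {a b c d u v w : ZMod 2} (h1 : a + b = u + v) (h2 : c + d = v + w) :
    (a + c) + (b + d) = u + w := by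
  have h3 := two v
  linear_combination h1 + h2 + h3

theorem comb' {a c u v w : ZMod 2} (h1 : a = u + v) (h2 : c = v + w) : a + c = u + w := by
  have h3 := two v
  linear_combination h1 + h2 + h3

end IotaAux

open IotaAux in
theorem iota_row : IotaStmt := by
  classical
  intro A p q h
  refine h.ind (fun q => ∃ (F : Finset V) (ι : V → ZMod 2),
    (∀ w ∈ F, w ∈ A) ∧ p ∈ F ∧ q ∈ F ∧
    (∀ z z' : V, z ∉ F → z' ∉ F → Adj z z' → z'.2 = z.2 → ι z = ι z') ∧
    (∀ z z' : V, z ∉ F → z' ∉ F → Adj z z' → z'.2 = z.2 + 1 →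
      ι z + ι z' = (if p.2 = z'.2 ∧ z'.1 < p.1 then 1 else 0) +
        (if q.2 = z'.2 ∧ z'.1 < q.1 then 1 else 0)) ∧
    (∀ z : V, (∀ w ∈ F, w.2 = z.2 → w.1 ≤ z.1) → ι z = 0) ∧
    ∀ z : V, (∀ w ∈ F, w.2 = z.2 → z.1 < w.1) →
      ι z = (if p.2 ≤ z.2 then 1 else 0) + (if q.2 ≤ z.2 then 1 else 0)) ?_ ?_
  · refine ⟨{p}, fun _ => 0, by simpa using h.1, by simp, by simp, fun _ _ _ _ _ _ => rfl,
      fun z z' _ _ _ _ => ?_, fun _ _ => rfl, fun z _ => (two _).symm⟩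
    rw [two, two]
  · rintro x y - ⟨F, ι, h1, h2, h3, h4, h5, h6, h7⟩ ha hy
    have hx : ∀ z : V, z ∉ insert y F → z ∉ F ∧ z ≠ x ∧ z ≠ y := fun z hz =>
      ⟨fun h' => hz (Finset.mem_insert_of_mem h'),
        fun h' => hz (Finset.mem_insert_of_mem (h' ▸ h3)),
        fun h' => hz (h' ▸ Finset.mem_insert_self y F)⟩
    refine ⟨insert y F, fun z => ι z + ed x y z, fun w hw => ?_, Finset.mem_insert_of_mem h2,
      Finset.mem_insert_self y F, fun z z' hz hz' hzz hr => ?_, fun z z' hz hz' hzz hr => ?_,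
      fun z hz => ?_, fun z hz => ?_⟩
    · rcases Finset.mem_insert.1 hw with rfl | hw
      · exact hy
      · exact h1 w hw
    · obtain ⟨a1, a2, a3⟩ := hx z hz
      obtain ⟨b1, b2, b3⟩ := hx z' hz'
      show ι z + ed x y z = ι z' + ed x y z'
      rw [h4 z z' a1 b1 hzz hr, ed_H a2 a3 b2 b3 hzz hr]
    · obtain ⟨a1, a2, a3⟩ := hx z hz
      obtain ⟨b1, b2, b3⟩ := hx z' hz'
      exact comb (h5 z z' a1 b1 hzz hr) (ed_V ha a2 a3 b2 b3 hzz hr)
    · show ι z + ed x y z = 0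
      rw [h6 z fun w hw => hz w (Finset.mem_insert_of_mem hw),
        ed_R (hz x (Finset.mem_insert_of_mem h3)) (hz y (Finset.mem_insert_self y F)), add_zero]
    · exact comb' (h7 z fun w hw => hz w (Finset.mem_insert_of_mem hw))
        (ed_L ha (hz x (Finset.mem_insert_of_mem h3)) (hz y (Finset.mem_insert_self y F)))

end Pool.Agent.MP_151d89_pr.H5
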