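import Pool.Agent.MP_151d89_pr.H5.Law

/-! Normalisation of the direction and assembly. -/

set_option autoImplicit false
open MeasureTheory Filter Set

namespace Pool.Agent.MP_151d89_pr.H5
open Pool.Agent.MP_151d89_pr.H82 Pool.Agent.MP_151d89_pr.H33 FinalAux

namespace MainAux

variable {μ : Measure X}

/-- a homomorphism climbing at full speed from z to z + (a, b) climbs along the first vertical edge -/
theorem up {f : X} (hf : Hom f) {a b : ℤ} (ha : 0 ≤ a) (hb : 0 < b) (z : V)
    (h : a + b ≤ f (z + (a, b)) - f z) : f (z + (0, 1)) = f z + 1 := by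
  have h1 := (lip hf (z + (a, b)) (z + (0, 1))).1
  have h2 := abs_le.1 (hf (z + (0, 1)) z (by simp)).le
  simp only [Prod.fst_add, Prod.snd_add, add_sub_add_left_eq_sub, sub_zero] at h1
  rw [abs_of_nonneg ha, abs_of_nonneg (by omega)] at h1
  omega

theorem down {f : X} (hf : Hom f) {a b : ℤ} (ha : 0 ≤ a) (hb : 0 < b) (z : V)
    (h : f (z + (a, b)) - f z ≤ -(a + b)) : f (z + (a, b) + (0, -1)) = f (z + (a, b)) + 1 := by
  have h1 := (lip hf z (z + (a, b) + (0, -1))).1
  have h2 := abs_le.1 (hf (z + (a, b) + (0, -1)) (z + (a, b)) (by simp)).le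
  have e1 : z.1 - (z + (a, b) + (0, -1)).1 = -a := by simp
  have e2 : z.2 - (z + (a, b) + (0, -1)).2 = -(b - 1) := by simp; ring
  rw [e1, e2, abs_neg, abs_neg, abs_of_nonneg ha, abs_of_nonneg (by omega)] at h1
  omega

theorem norm (hC : CoexStmt) (hP : ParityStmt) (hG : Gibbs μ) (hE : Ext μ) {a b c0 : ℤ}
    (ha : 0 ≤ a) (hab : a ≤ b) (hb : 0 < b) (hi : μ.map (Tv (a, b) c0) = μ) : ∃ e, AF μ e := by
  have := hG.1
  have hT : Triv μ := fun T h1 h2 h3 => zero_one hG hE h1 h2 h3
  have law : ∀ (z : V) (s : ℤ), μ {f | f (z + (a, b)) - c0 ≤ s} = μ {f | f z ≤ s} := fun z s =>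
    meas_inv hi (meas_at z fun t => t ≤ s)
  have lp : ∀ (z : V) (f : X), Hom f →
      f (z + (a, b)) - f z ≤ a + b ∧ f z - f (z + (a, b)) ≤ a + b := fun z f hf => by
    have h1 := (lip hf (z + (a, b)) z).1
    have h2 := (lip hf z (z + (a, b))).1
    simp only [Prod.fst_add, Prod.snd_add, add_sub_cancel_left, sub_add_cancel_left, abs_neg]
      at h1 h2
    rw [abs_of_nonneg ha, abs_of_nonneg hb.le] at h1 h2
    exact ⟨h1, h2⟩
  by_cases h1 : a + b ≤ c0
  · refine ⟨(0, 1), af_of_step (by simp) fun z => ?_⟩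
    filter_upwards [eq_of_law (μ := μ) (z + (a, b)) z c0
      (hG.2.1.mono fun f hf => by have := lp z f hf; omega) fun s => (law z s).le, hG.2.1]
      with f e hf
    exact up hf ha hb z (by omega)
  by_cases h2 : c0 ≤ -(a + b)
  · refine ⟨(0, -1), af_of_step (by simp) fun z => ?_⟩
    filter_upwards [eq_of_law' (μ := μ) (z - (a, b) + (a, b)) (z - (a, b)) c0
      (hG.2.1.mono fun f hf => by have := lp (z - (a, b)) f hf; omega)
      fun s => (law _ s).ge, hG.2.1] with f e hf
    have := down hf ha hb (z - (a, b)) (by omega)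
    rwa [sub_add_cancel] at this
  by_cases h3 : ∃ x m, μ {f | f x ≤ m} = 0
  · obtain ⟨x, m, h⟩ := h3
    obtain ⟨e, he, h⟩ := frozen hG hE x m
      ((measure_eq_zero_iff_ae_notMem.1 h).mono fun f hf => not_le.1 hf)
    exact ⟨e, he, fun u => (h u).mono fun f hf => hf.2⟩
  by_cases h4 : ∃ x m, μ {f | m ≤ f x} = 0
  · obtain ⟨x, m, h⟩ := h4
    exact finalAll μ hG hE x m ((measure_eq_zero_iff_ae_notMem.1 h).mono fun f hf => not_le.1 hf)
  push Not at h3 h4
  by_contra hn
  refine hn (hP μ hG hT fun y c hy => ?_)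
  by_contra hc
  push Not at hc
  exact hn (hC μ a b c0 ⟨hG, hT, ha, hab, hb, by rw [abs_lt]; omega, hi, h3, h4⟩ y c hy hc.1 hc.2)

theorem turn (hC : CoexStmt) (hP : ParityStmt) (hG : Gibbs μ) (hE : Ext μ) {c0 : ℤ} (e g : V)
    (he : |e.1| + |e.2| = 1) (hg : g = (-e.2, e.1) ∨ g = (e.2, -e.1)) {a b : ℤ} (ha : 0 ≤ a)
    (hab : a ≤ b) (hb : 0 < b) (hi : μ.map (Tv (a • e + b • g) c0) = μ) : ∃ d, AF μ d := by
  set φ := chart 0 e g he hg with hφ
  have lin : ∀ p q : V, φ (p + q) = φ p + φ q := by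
    rintro ⟨p1, p2⟩ ⟨q1, q2⟩
    rw [Prod.mk_add_mk, hφ, chart_apply, chart_apply, chart_apply]
    module
  have lin2 : ∀ (n : ℤ) (p : V), φ (n • p) = n • φ p := by
    rintro n ⟨p1, p2⟩
    rw [Prod.smul_mk, hφ, chart_apply, chart_apply, smul_eq_mul, smul_eq_mul]
    module
  have iso : Iso φ := iso_chart 0 e g he hg
  have z0 : φ (0, 0) = (0, 0) := by rw [hφ, chart_apply]; simp; rfl
  obtain ⟨d, hd, h⟩ := norm hC hP (gibbs_T hG iso (one_mul 1) 0) (ext_T hE iso (one_mul 1) 0)
    ha hab hb (c0 := c0) (by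
      conv_rhs => rw [← hi]
      rw [Measure.map_map (meas_Tv _ _) (meas_T _ _ _), Measure.map_map (meas_T _ _ _) (meas_Tv _ _)]
      congr 1
      funext f z
      have : φ (a, b) = a • e + b • g := by rw [hφ, chart_apply, zero_add]
      simp only [Function.comp, Tv, T, lin, this]
      ring)
  refine ⟨φ d, ?_, fun u => ?_⟩
  · have := iso d (0, 0)
    rw [z0] at this
    simpa [hd] using this
  · have := h (φ.symm u)
    rw [ae_T μ φ (one_mul 1)] at this
    filter_upwards [this] with f hf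
    simpa only [T, lin, lin2, φ.apply_symm_apply, one_mul, add_zero] using hf

end MainAux

open MainAux in
theorem main_row (hC : CoexStmt) (hP : ParityStmt) : MainStmt := by
  rintro μ hG hE ⟨p, q⟩ c0 hv hi
  have hv' : p ≠ 0 ∨ q ≠ 0 := by
    by_contra h
    push Not at h
    exact hv (Prod.ext h.1 h.2)
  have key : ∀ (e g : V) (a b : ℤ), |e.1| + |e.2| = 1 → (g = (-e.2, e.1) ∨ g = (e.2, -e.1)) →
      0 ≤ a → a ≤ b → 0 < b → a • e + b • g = (p, q) → ∃ d, AF μ d :=
    fun e g a b he hg ha hab hb h => turn hC hP hG hE e g he hg ha hab hb (by rw [h]; exact hi)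
  rcases le_total 0 p with hp | hp <;> rcases le_total 0 q with hq | hq
  · rcases le_total p q with h | h
    · exact key (1, 0) (0, 1) p q (by simp) (by simp) hp h (by omega) (by simp)
    · exact key (0, 1) (1, 0) q p (by simp) (by simp) hq h (by omega) (by simp)
  · rcases le_total p (-q) with h | h
    · exact key (1, 0) (0, -1) p (-q) (by simp) (by simp) hp h (by omega) (by simp)
    · exact key (0, -1) (1, 0) (-q) p (by simp) (by simp) (by omega) h (by omega) (by simp)
  · rcases le_total (-p) q with h | h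
    · exact key (-1, 0) (0, 1) (-p) q (by simp) (by simp) (by omega) h (by omega) (by simp)
    · exact key (0, 1) (-1, 0) q (-p) (by simp) (by simp) hq h (by omega) (by simp)
  · rcases le_total (-p) (-q) with h | h
    · exact key (-1, 0) (0, -1) (-p) (-q) (by simp) (by simp) (by omega) h (by omega) (by simp)
    · exact key (0, -1) (-1, 0) (-q) (-p) (by simp) (by simp) (by omega) h (by omega) (by simp)

end Pool.Agent.MP_151d89_pr.H5
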