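import Pool.Agent.MP_151d89_pr.H5.Meas

/-! A local modification at a neck merges two infinite clusters. -/

set_option autoImplicit false
open MeasureTheory Filter Set

namespace Pool.Agent.MP_151d89_pr.H5
open Pool.Agent.MP_151d89_pr.H82 Pool.Agent.MP_151d89_pr.H33

theorem merge_row (hS : SepStmt) : MergeStmt := by
  intro θ hθ j t L L' K n K2 r hF ⟨a, b, ha, hb, hab, ht, hu, h0⟩ hn hK hL
  have hmono : StrictMono a :=
    Fin.strictMono_iff_lt_succ.2 fun i => (hab i).1.trans (hab i).2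
  have hsep : ∀ i i' : Fin (n + 1), i < i' →
      ¬ Conn (Lᶜ ∩ Rt θ j) (cp θ j (b i)) (cp θ j (b i')) := by
    intro i i' hi hc
    have h1 : a i.succ ≤ a i'.castSucc := hmono.monotone (by
      rw [Fin.le_def]
      have : i.1 < i'.1 := hi
      simp only [Fin.val_succ, Fin.val_castSucc]
      omega)
    exact (hS θ hθ j Lᶜ L disjoint_compl_left (b i) (a i.succ) (b i') (hab i).2
      (h1.trans_lt (hab i').1)).1 hc (ha _)
  obtain ⟨i, hi⟩ : ∃ i : Fin n, ∀ z, Conn (Lᶜ ∩ Rt θ j) (cp θ j (b i.castSucc)) z →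
      z ∉ box (cp θ j t) r := by
    by_contra hc
    push Not at hc
    choose z hz1 hz2 using hc
    have hinj : Function.Injective z := by
      intro i i' e
      by_contra hne
      rcases lt_or_gt_of_ne hne with h | h
      · exact hsep _ _ (Fin.castSucc_lt_castSucc_iff.2 h) ((hz1 i).trans (e ▸ (hz1 i').symm))
      · exact hsep _ _ (Fin.castSucc_lt_castSucc_iff.2 h) ((hz1 i').trans (e ▸ (hz1 i).symm))
    have := Finset.card_le_card_of_injOn (s := Finset.univ) (t := box (cp θ j t) r) z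
      (fun i _ => hz2 i) hinj.injOn
    rw [card_box, Finset.card_univ, Fintype.card_fin] at this
    omega
  have harm : ArmR θ j L'ᶜ (b i.castSucc) :=
    (Inf.restrict (hb i.castSucc) (A := (↑(box (cp θ j t) r) : Set V)ᶜ) hi).mono
      fun z hz => ⟨fun h => hz.1.1 (hL.2.1 z hz.2 h), hz.1.2⟩
  have hbt : b i.castSucc < t := by
    refine (hab _).2.trans_le ?_
    rw [← ht]
    refine hmono.monotone ?_
    rw [Fin.le_def]
    have := i.2
    simp only [Fin.val_succ, Fin.val_castSucc, Fin.val_last]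
    omega
  have hb0 : t - K2 ≤ b i.castSucc :=
    h0.trans ((hmono.monotone (Fin.zero_le _)).trans (hab _).1.le)
  have h1 : t < b (Fin.last n) := ht ▸ (hab _).1
  have h2 : b (Fin.last n) < a (Fin.last (n + 1)) := (hab _).2
  have hsub : L ∩ Rt θ j ⊆ L' ∩ Rt θ j := inter_subset_inter_left _ hL.1
  have hat : ArmR θ j L t := ht ▸ ha _
  have htu : Conn (L' ∩ Rt θ j) (cp θ j t) (cp θ j (a (Fin.last (n + 1)))) :=
    hθ.conn_cp (by omega) fun u h3 h4 =>
      ⟨hL.2.2.1 _ (hθ.cp_mem_box (by omega) (by omega)), cp_mem_Rt le_rfl⟩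
  have hlow : ∀ s, Conn (L' ∩ Rt θ j) (cp θ j t) (cp θ j s) → b i.castSucc ≤ s := by
    intro s hs
    by_contra hc
    exact (hS θ hθ j L' L'ᶜ disjoint_compl_right s _ t (not_le.1 hc) hbt).1 hs.symm harm
  obtain ⟨s, hs, hmin⟩ := Int.exists_least_of_bdd
    (P := fun s => Conn (L' ∩ Rt θ j) (cp θ j t) (cp θ j s)) ⟨_, hlow⟩
    ⟨t, Conn.refl htu.mem_left⟩
  have hjk : j ≤ j + 2 * r + 1 := by omega
  obtain ⟨s1, p1, q1⟩ := hθ.push hF hjk hat
  obtain ⟨s2, p2, q2⟩ := hθ.push hF hjk (ha (Fin.last (n + 1)))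
  refine ⟨s, hb0.trans (hlow s hs), hmin t (Conn.refl htu.mem_left),
    ⟨(Inf.mono hat hsub).conn hs, fun s' h3 h4 => absurd (hmin s' (hs.trans h4)) (not_le.2 h3)⟩,
    s1, s2, Inf.mono p1 (inter_subset_inter_left _ hL.1),
    Inf.mono p2 (inter_subset_inter_left _ hL.1), hs.symm.trans (q1.mono hsub),
    hs.symm.trans (htu.trans (q2.mono hsub)), fun hc => ?_⟩
  have hout : L' ∩ Rt θ (j + 2 * r + 1) ⊆ L ∩ Rt θ j := by
    intro z hz
    refine ⟨hL.2.1 z (fun hzb => ?_) hz.1, Rt_mono hjk hz.2⟩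
    have h3 : θ z.2 + (j + 2 * r + 1) ≤ z.1 := hz.2
    rw [mem_box] at hzb
    simp only [cp] at hzb
    rcases le_total z.2 t with e | e
    · have := hθ.lip e
      omega
    · have := hθ.lip e
      omega
  exact (hS θ hθ j L Lᶜ disjoint_compl_right t _ _ h1 h2).1
    (q1.trans ((hc.mono hout).trans q2.symm)) (hb _)

end Pool.Agent.MP_151d89_pr.H5
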