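import Pool.Agent.MP_151d89_pr.H5.Meas

/-! Quantitative downward modification of the first copy. -/

set_option autoImplicit false
open MeasureTheory Filter Set

namespace Pool.Agent.MP_151d89_pr.H5
open Pool.Agent.MP_151d89_pr.H82 Pool.Agent.MP_151d89_pr.H33

namespace ModQAux

theorem mhom : Measurable fun f : X => Hom f := by
  refine Measurable.forall fun x => Measurable.forall fun z => measurable_const.imp ?_
  have h : Measurable fun f : X => (f x, f z) :=
    (measurable_pi_apply x).prodMk (measurable_pi_apply z)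
  exact (Measurable.of_discrete (f := fun u : ℤ × ℤ => |u.1 - u.2| = 1)).comp h

/-- a lattice neighbour one step closer to the centre, inside the same box -/
theorem closer (x w : V) (r : ℕ) (hw : w ∈ box x r) (hne : w ≠ x) :
    ∃ w' : V, w' ∈ box x r ∧ |w'.1 - w.1| + |w'.2 - w.2| = 1 ∧
      |w'.1 - x.1| + |w'.2 - x.2| + 1 = |w.1 - x.1| + |w.2 - x.2| := by
  rw [mem_box] at hw
  rcases lt_trichotomy w.1 x.1 with h | h | h
  · refine ⟨(w.1 + 1, w.2), by rw [mem_box]; simp only; omega, by simp, ?_⟩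
    simp only
    rw [abs_of_nonpos (by omega : w.1 + 1 - x.1 ≤ 0), abs_of_nonpos (by omega : w.1 - x.1 ≤ 0)]
    omega
  · rcases lt_trichotomy w.2 x.2 with h2 | h2 | h2
    · refine ⟨(w.1, w.2 + 1), by rw [mem_box]; simp only; omega, by simp, ?_⟩
      simp only
      rw [abs_of_nonpos (by omega : w.2 + 1 - x.2 ≤ 0), abs_of_nonpos (by omega : w.2 - x.2 ≤ 0)]
      omega
    · exact absurd (Prod.ext h h2) hne
    · refine ⟨(w.1, w.2 - 1), by rw [mem_box]; simp only; omega, by simp, ?_⟩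
      simp only
      rw [abs_of_nonneg (by omega : 0 ≤ w.2 - 1 - x.2), abs_of_nonneg (by omega : 0 ≤ w.2 - x.2)]
      omega
  · refine ⟨(w.1 - 1, w.2), by rw [mem_box]; simp only; omega, by simp, ?_⟩
    simp only
    rw [abs_of_nonneg (by omega : 0 ≤ w.1 - 1 - x.1), abs_of_nonneg (by omega : 0 ≤ w.1 - x.1)]
    omega

theorem lipR {f' : X} (hf' : Hom f') (y : ℤ) (w w' : V) :
    f' (R y w') - f' (R y w) ≤ |w'.1 - w.1| + |w'.2 - w.2| := by
  have h := (lip hf' (R y w') (R y w)).1
  have e1 : (R y w').1 - (R y w).1 = -(w'.1 - w.1) := by simp only [R]; ring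
  have e2 : (R y w').2 - (R y w).2 = -(w'.2 - w.2) := by simp only [R]; ring
  rwa [e1, e2, abs_neg, abs_neg] at h

/-- points under the cone are joined to the centre -/
theorem cone_conn {f f' : X} (hf' : Hom f') (y c k : ℤ) (x : V) (r : ℕ) (N : ℕ) :
    ∀ w : V, w ∈ box x r → |w.1 - x.1| + |w.2 - x.2| = N →
      k + (|w.1 - x.1| + |w.2 - x.2|) + f' (R y w) ≤ c →
      Conn (chi y c (cut f x k, f') ∩ ↑(box x r)) x w := by
  have hin : ∀ w : V, w ∈ box x r → k + (|w.1 - x.1| + |w.2 - x.2|) + f' (R y w) ≤ c →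
      w ∈ chi y c (cut f x k, f') ∩ ↑(box x r) := by
    intro w hw h
    refine ⟨?_, hw⟩
    have h1 : cut f x k w ≤ k + (|w.1 - x.1| + |w.2 - x.2|) := min_le_right _ _
    show cut f x k w + f' (R y w) ≤ c
    omega
  induction N with
  | zero =>
    intro w hw h0 h
    have e : w = x := by
      have h1 := abs_nonneg (w.1 - x.1)
      have h2 := abs_nonneg (w.2 - x.2)
      have h3 : |w.1 - x.1| = 0 := by omega
      have h4 : |w.2 - x.2| = 0 := by omega
      rw [abs_eq_zero] at h3 h4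
      exact Prod.ext (by omega) (by omega)
    have h5 := hin w hw h
    rw [e] at h5 ⊢
    exact Conn.refl h5
  | succ N ih =>
    intro w hw h0 h
    have hne : w ≠ x := by
      rintro rfl
      simp only [sub_self, abs_zero, add_zero] at h0
      omega
    obtain ⟨w', h1, h2, h3⟩ := closer x w r hw hne
    have h4 := lipR hf' y w w'
    refine (ih w' h1 (by push_cast at h0; omega) (by omega)).tail (adj_of_nn h2) (hin w hw h)

theorem cut_off {f : X} (hf : Hom f) (x : V) (r : ℕ) (k : ℤ) (hk : top f x (r + 1) ≤ k) (z : V)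
    (hz : z ∉ box x r) : cut f x k z = f z := by
  have h := cut_out hf x r z hz
  have h1 : cut f x (top f x (r + 1)) z ≤ top f x (r + 1) + (|z.1 - x.1| + |z.2 - x.2|) :=
    min_le_right _ _
  exact min_eq_left (by omega)

theorem low_cut {f f' : X} (hf : Hom f) (hf' : Hom f') (y c : ℤ) (x : V) (m n r : ℕ)
    (h1 : f x + f' (R y x) ≤ c + 2 * m) (h2 : top f x (r + 1) ≤ f x - 2 * m - 4 * n) :
    Low x n r (chi y c (f, f')) (chi y c (cut f x (f x - 2 * m - 4 * n), f')) := by
  have hle : ∀ z, cut f x (f x - 2 * m - 4 * n) z ≤ f z := fun z => min_le_left _ _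
  have hoff : ∀ z, z ∉ box x r → z ∈ chi y c (cut f x (f x - 2 * m - 4 * n), f') →
      z ∈ chi y c (f, f') := by
    intro z hz h
    have h3 : cut f x (f x - 2 * m - 4 * n) z + f' (R y z) ≤ c := h
    rw [cut_off hf x r _ h2 z hz] at h3
    exact h3
  refine ⟨fun z hz => ?_, hoff, fun z hz => ?_, fun z hz hz' => ?_⟩
  · have h3 : f z + f' (R y z) ≤ c := hz
    have h4 := hle z
    show cut f x (f x - 2 * m - 4 * n) z + f' (R y z) ≤ c
    omega
  · have h3 : cut f x (f x - 2 * m - 4 * n) z ≤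
        f x - 2 * m - 4 * n + (|z.1 - x.1| + |z.2 - x.2|) := min_le_right _ _
    have h4 := lipR hf' y x z
    rw [mem_box] at hz
    have h5 : |z.1 - x.1| ≤ n := abs_le.2 ⟨by omega, by omega⟩
    have h6 : |z.2 - x.2| ≤ n := abs_le.2 ⟨by omega, by omega⟩
    show cut f x (f x - 2 * m - 4 * n) z + f' (R y z) ≤ c
    omega
  · have hb : z ∈ box x r := by
      by_contra hb
      exact hz' (hoff z hb hz)
    have h3 : cut f x (f x - 2 * m - 4 * n) z + f' (R y z) ≤ c := hz
    have h4 : ¬ f z + f' (R y z) ≤ c := hz'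
    have h5 : cut f x (f x - 2 * m - 4 * n) z =
        min (f z) (f x - 2 * m - 4 * n + (|z.1 - x.1| + |z.2 - x.2|)) := rfl
    have h6 : 0 ≤ |z.1 - x.1| + |z.2 - x.2| := add_nonneg (abs_nonneg _) (abs_nonneg _)
    exact cone_conn hf' y c _ x r (|z.1 - x.1| + |z.2 - x.2|).toNat z hb
      (Int.toNat_of_nonneg h6).symm (by omega)

/-- the measurable hull of the modifiable configurations -/
def hull (y c : ℤ) (x : V) (r : ℕ) (E' : Set (Set V)) : Set (X × X) :=
  {ω | Hom ω.1 ∧ ∃ g ∈ {g : X | chi y c (g, ω.2) ∈ E'}, Hom g ∧ ∀ z, z ∉ box x r → g z = ω.1 z}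

theorem meas_hull (y c : ℤ) (x : V) (r : ℕ) {E' : Set (Set V)} (hE : MeasurableSet E') :
    MeasurableSet (hull y c x r E') := by
  classical
  let ex : (box x r → ℤ) → X := fun b z => if h : z ∈ box x r then b ⟨z, h⟩ else 0
  have e : hull y c x r E' = {ω | Hom ω.1 ∧ ∃ b : box x r → ℤ,
      chi y c (rep (box x r) (ex b) ω.1, ω.2) ∈ E' ∧ Hom (rep (box x r) (ex b) ω.1)} := by
    ext ω
    refine and_congr_right fun _ => ⟨?_, ?_⟩
    · rintro ⟨g, h1, h2, h3⟩
      have e1 : rep (box x r) (ex fun z => g z) ω.1 = g := by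
        funext z
        by_cases hz : z ∈ box x r
        · simp only [rep, ex, hz, if_true, dif_pos]
        · simp only [rep, hz, if_false, h3 z hz]
      exact ⟨fun z => g z, by rw [e1]; exact h1, by rw [e1]; exact h2⟩
    · rintro ⟨b, h1, h2⟩
      exact ⟨_, h1, h2, fun z hz => by simp only [rep, hz, if_false]⟩
  rw [e]
  refine measurableSet_setOfPred.2 ((mhom.comp measurable_fst).and (Measurable.exists fun b => ?_))
  have hm : Measurable fun ω : X × X => rep (box x r) (ex b) ω.1 :=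
    (meas_rep _ _).comp measurable_fst
  exact (measurableSet_setOfPred.1
    (((meas_chi y c).comp (hm.prodMk measurable_snd)) hE)).and (mhom.comp hm)

end ModQAux

open ModQAux in
theorem modq_row (hM : ModifStmt) : ModQStmt := by
  intro r
  have hC : (2 : ENNReal) ^ ((2 * r + 1) ^ 2) ≠ ⊤ := ENNReal.pow_ne_top ENNReal.ofNat_ne_top
  refine ⟨2 ^ ((2 * r + 1) ^ 2), hC, ?_⟩
  intro μ hμ y c x m n E E' hE' hLow _
  have := hμ.1
  have hae : ∀ᵐ ω ∂(μ.prod μ), Hom ω.1 ∧ Hom ω.2 :=
    (Measure.quasiMeasurePreserving_fst.ae hμ.2.1).and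
      (Measure.quasiMeasurePreserving_snd.ae hμ.2.1)
  refine (measure_mono_ae (t := hull y c x r E') ?_).trans ?_
  · filter_upwards [hae] with ω hω hS
    obtain ⟨h0, h1, h2⟩ := hS
    refine ⟨hω.1, cut ω.1 x (ω.1 x - 2 * m - 4 * n), ?_, cut_hom hω.1 x _ (by omega),
      fun z hz => cut_off hω.1 x r _ h2 z hz⟩
    exact hLow _ h0 _ (low_cut hω.1 hω.2 y c x m n r h1 h2)
  · rw [nu_apply μ y c hE', Measure.prod_apply_symm (meas_hull y c x r hE'),
      Measure.prod_apply_symm (meas_chi y c hE'), ← lintegral_const_mul' _ _ hC]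
    exact lintegral_mono fun f' => hM μ hμ x r {g : X | chi y c (g, f') ∈ E'}

end Pool.Agent.MP_151d89_pr.H5
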