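import Pool.Agent.MP_151d89_pr.H5.Meas

/-! Row Neck: alternating arms with bounded gaps occur with uniformly positive probability. -/

set_option autoImplicit false
open MeasureTheory Filter Set

namespace Pool.Agent.MP_151d89_pr.H5
open Pool.Agent.MP_151d89_pr.H82 Pool.Agent.MP_151d89_pr.H33

namespace NeckAux

open Classical in
theorem sum_real {Ω ι : Type} [MeasurableSpace Ω] (ν : Measure Ω) [IsProbabilityMeasure ν]
    (I : Finset ι) (E : ι → Set Ω) (hE : ∀ i, MeasurableSet (E i)) :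
    Integrable (fun ω => ((I.filter fun i => ω ∈ E i).card : ℝ)) ν ∧
      ∫ ω, ((I.filter fun i => ω ∈ E i).card : ℝ) ∂ν = ∑ i ∈ I, ν.real (E i) := by
  have e : (fun ω => ((I.filter fun i => ω ∈ E i).card : ℝ)) =
      fun ω => ∑ i ∈ I, (E i).indicator (1 : Ω → ℝ) ω := by
    funext ω
    rw [Finset.card_filter]
    push_cast
    refine Finset.sum_congr rfl fun i _ => ?_
    by_cases h : ω ∈ E i <;> simp [h]
  have hi : ∀ i ∈ I, Integrable ((E i).indicator (1 : Ω → ℝ)) ν := fun i _ =>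
    (integrable_const (1 : ℝ)).indicator (hE i)
  rw [e]
  refine ⟨integrable_finsetSum I hi, ?_⟩
  rw [integral_finsetSum I hi]
  exact Finset.sum_congr rfl fun i _ => integral_indicator_one (hE i)

open Classical in
theorem count_int {Ω ι κ : Type} [MeasurableSpace Ω] (ν : Measure Ω) [IsProbabilityMeasure ν]
    (I : Finset ι) (T : Finset κ) (E : ι → Set Ω) (F : κ → Set Ω) (c : ℕ)
    (hE : ∀ i, MeasurableSet (E i)) (hF : ∀ t, MeasurableSet (F t))
    (h : ∀ ω, (I.filter fun i => ω ∈ E i).card ≤ (T.filter fun t => ω ∈ F t).card + c) :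
    ∑ i ∈ I, ν.real (E i) ≤ ∑ t ∈ T, ν.real (F t) + c := by
  obtain ⟨h1, h2⟩ := sum_real ν I E hE
  obtain ⟨h3, h4⟩ := sum_real ν T F hF
  have h5 := integral_mono h1 (h3.add (integrable_const (c : ℝ))) fun ω => by
    have := h ω
    simp only [Pi.add_apply]
    exact_mod_cast this
  rw [h2] at h5
  have h6 := integral_add h3 (integrable_const (c : ℝ))
  rw [h4] at h6
  simp only [integral_const, probReal_univ, smul_eq_mul, one_mul] at h6
  rw [← h6]
  exact h5

theorem tele (A : ℕ → ℤ) (g : ℕ) (lo D : ℤ) (hD : 0 ≤ D) (hb : ∀ i < g, lo ≤ A i ∧ A i ≤ lo + D)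
    (m d : ℕ) (hm : m = 0 ∨ m + d + 1 ≤ g) :
    ∑ l ∈ Finset.range m, (A (l + (d + 1)) - A (l + d)) ≤ D := by
  rcases hm with rfl | hm
  · simpa using hD
  · have := Finset.sum_range_sub (fun l => A (l + d)) m
    have e : ∑ l ∈ Finset.range m, (A (l + (d + 1)) - A (l + d)) =
        ∑ l ∈ Finset.range m, (A (l + 1 + d) - A (l + d)) :=
      Finset.sum_congr rfl fun l _ => by rw [show l + (d + 1) = l + 1 + d by omega]
    rw [e, this]
    have h1 := hb (m + d) (by omega)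
    have h2 := hb (0 + d) (by omega)
    omega

theorem tele2 (A : ℕ → ℤ) (g : ℕ) (lo D : ℤ) (hD : 0 ≤ D) (hb : ∀ i < g, lo ≤ A i ∧ A i ≤ lo + D)
    (m d : ℕ) (hm : m = 0 ∨ m + d ≤ g) :
    ∑ l ∈ Finset.range m, (A (l + d) - A l) ≤ d * D := by
  induction d with
  | zero => simp
  | succ d ih =>
    have h1 := ih (by omega)
    have h2 := tele A g lo D hD hb m d (by omega)
    have e : ∑ l ∈ Finset.range m, (A (l + (d + 1)) - A l) =
        ∑ l ∈ Finset.range m, (A (l + (d + 1)) - A (l + d)) +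
          ∑ l ∈ Finset.range m, (A (l + d) - A l) := by
      rw [← Finset.sum_add_distrib]
      exact Finset.sum_congr rfl fun l _ => by ring
    rw [e]
    push_cast
    linarith

theorem markov (m : ℕ) (f : ℕ → ℤ) (hf : ∀ l < m, 0 ≤ f l) (K : ℤ) :
    (((Finset.range m).filter fun l => K < f l).card : ℤ) * K ≤ ∑ l ∈ Finset.range m, f l := by
  have h1 : ∑ l ∈ (Finset.range m).filter (fun l => K < f l), K ≤
      ∑ l ∈ (Finset.range m).filter (fun l => K < f l), f l :=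
    Finset.sum_le_sum fun l hl => (Finset.mem_filter.1 hl).2.le
  have h2 : ∑ l ∈ (Finset.range m).filter (fun l => K < f l), f l ≤ ∑ l ∈ Finset.range m, f l :=
    Finset.sum_le_sum_of_subset_of_nonneg (Finset.filter_subset _ _)
      fun l hl _ => hf l (Finset.mem_range.1 hl)
  rw [Finset.sum_const, nsmul_eq_mul] at h1
  exact h1.trans h2

open Classical in
/-- many necks from a long alternating sequence -/
theorem seq_neck (θ : ℤ → ℤ) (j : ℤ) (L : Set V) (A B : ℕ → ℤ) (g n M H : ℕ) (lo D : ℤ)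
    (hH : 0 < H) (hD0 : 0 ≤ D) (hD : D ≤ 16 * M * H) (hb : ∀ i < g, lo ≤ A i ∧ A i ≤ lo + D)
    (hA : ∀ i < g, ArmR θ j L (A i)) (hB : ∀ i < g, ArmR θ j Lᶜ (B i))
    (h1 : ∀ i < g, A i < B i) (h2 : ∀ i, i + 1 < g → B i < A (i + 1)) :
    g ≤ ((Finset.Icc lo (lo + D)).filter fun t =>
      L ∈ {L | Neck θ j L t (8 * H) n (8 * (n + 1) * H)}).card + (4 * M + (n + 1)) := by
  have mono : ∀ d i, i + (d + 1) < g → A i < A (i + (d + 1)) := by
    intro d
    induction d with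
    | zero => intro i hi; exact (h1 i (by omega)).trans (h2 i hi)
    | succ d ih =>
      intro i hi
      exact (ih i (by omega)).trans ((h1 _ (by omega)).trans (h2 (i + (d + 1)) hi))
  have mono' : ∀ i i', i < i' → i' < g → A i < A i' := by
    intro i i' h h'
    obtain ⟨d, rfl⟩ : ∃ d, i' = i + (d + 1) := ⟨i' - i - 1, by omega⟩
    exact mono d i h'
  have mono'' : ∀ i i', i ≤ i' → i' < g → A i ≤ A i' := by
    intro i i' h h'
    rcases h.eq_or_lt with rfl | h
    · exact le_rfl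
    · exact (mono' i i' h h').le
  set m := g - (n + 1) with hm
  have b1 := (markov m (fun l => A (l + (n + 1)) - A (l + n))
    (fun l hl => sub_nonneg.2 (mono'' _ _ (by omega) (by omega))) (8 * H)).trans
    (tele A g lo D hD0 hb m n (by omega))
  have b2 := (markov m (fun l => A (l + n) - A l)
    (fun l hl => sub_nonneg.2 (mono'' _ _ (by omega) (by omega))) (8 * (n + 1) * H)).trans
    (tele2 A g lo D hD0 hb m n (by omega))
  set S1 := (Finset.range m).filter fun l => (8 * H : ℤ) < A (l + (n + 1)) - A (l + n) with hS1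
  set S2 := (Finset.range m).filter fun l => (8 * (n + 1) * H : ℤ) < A (l + n) - A l with hS2
  have hH' : (0 : ℤ) < H := by exact_mod_cast hH
  have c1 : S1.card ≤ 2 * M := by
    have : (S1.card : ℤ) ≤ 2 * M := by
      by_contra hc
      push Not at hc
      nlinarith
    exact_mod_cast this
  have c2 : S2.card ≤ 2 * M := by
    have : (S2.card : ℤ) ≤ 2 * M := by
      by_contra hc
      push Not at hc
      have e1 : (n : ℤ) * D ≤ (n + 1) * (16 * M * H) := by
        have : (0 : ℤ) ≤ n := by positivity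
        nlinarith
      have e2 : (0 : ℤ) < 8 * (n + 1) * H := by positivity
      nlinarith
    exact_mod_cast this
  have c3 : ((Finset.range m \ S1) \ S2).card ≤ ((Finset.Icc lo (lo + D)).filter fun t =>
      L ∈ {L | Neck θ j L t (8 * H) n (8 * (n + 1) * H)}).card := by
    refine Finset.card_le_card_of_injOn (fun l => A (l + n)) (fun l hl => ?_) ?_
    · simp only [Finset.coe_sdiff, Set.mem_sdiff, Finset.mem_coe, Finset.mem_range, hS1, hS2,
        Finset.mem_filter, not_and, not_lt] at hl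
      obtain ⟨⟨l1, l2⟩, l3⟩ := hl
      have l4 := l2 l1
      have l5 := l3 l1
      simp only [Finset.coe_filter, Finset.mem_Icc, mem_ofPred_eq]
      refine ⟨hb _ (by omega), fun i => A (l + i), fun i => B (l + i),
        fun i => hA _ (by omega), fun i => hB _ (by omega), fun i => ⟨?_, ?_⟩, ?_, ?_, ?_⟩
      · exact h1 _ (by omega)
      · exact h2 (l + i) (by omega)
      · simp
      · simp only [Fin.val_last]; push_cast; omega
      · simp only [Fin.val_zero, add_zero]; push_cast; omega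
    · intro l hl l' hl' e
      simp only [Finset.coe_sdiff, Set.mem_sdiff, Finset.mem_coe, Finset.mem_range] at hl hl'
      have e' : A (l + n) = A (l' + n) := e
      rcases lt_trichotomy l l' with h | h | h
      · have := mono' (l + n) (l' + n) (by omega) (by omega); omega
      · exact h
      · have := mono' (l' + n) (l + n) (by omega) (by omega); omega
  have c4 := Finset.le_card_sdiff S1 (Finset.range m)
  have c5 := Finset.le_card_sdiff S2 (Finset.range m \ S1)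
  rw [Finset.card_range] at c4
  omega

/-- a window of column 0 whose two arms are pushed to column j -/
def G (θ : ℤ → ℤ) (j : ℤ) (H ρ : ℕ) (c : ℤ) (L : Set V) : Prop :=
  ∃ x y s w : ℤ, (c ≤ x ∧ x < y ∧ y < c + H ∧ c - ρ ≤ s ∧ s ≤ c + ρ) ∧
    Conn (L ∩ Rt θ 0) (cp θ 0 x) (cp θ j s) ∧ ArmR θ j L s ∧
    Conn (Lᶜ ∩ Rt θ 0) (cp θ 0 y) (cp θ j w) ∧ ArmR θ j Lᶜ w

theorem mG (θ : ℤ → ℤ) (j : ℤ) (H ρ : ℕ) (c : ℤ) : MeasurableSet {L | G θ j H ρ c L} :=
  measurableSet_setOfPred.2 (Measurable.exists fun _ => Measurable.exists fun _ =>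
    Measurable.exists fun _ => Measurable.exists fun _ => measurable_const.and
      ((mconn (minter measurable_id measurable_const) _ _).and ((marmR measurable_id θ j _).and
        ((mconn (minter (mcompl measurable_id) measurable_const) _ _).and
          (marmR (mcompl measurable_id) θ j _)))))

theorem G_sh {a b : ℤ} (hb : 0 < b) (j : ℤ) (H ρ : ℕ) (m : ℤ) (L : Set V)
    (h : G (th a b) j H ρ 0 (sh (m • (a, b)) L)) : G (th a b) j H ρ (m * b) L := by
  obtain ⟨x, y, s, w, h0, h1, h2, h3, h4⟩ := h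
  rw [← sh_compl] at h3 h4
  rw [conn_Rt_sh hb, cp_add hb, cp_add hb] at h1 h3
  rw [armR_sh hb] at h2 h4
  exact ⟨_, _, _, _, by omega, h1, h2, h3, h4⟩

open Classical in
theorem det (hO : OrdStmt) {θ : ℤ → ℤ} (hθ : Col θ) {j : ℤ} (hj : 0 ≤ j) (L : Set V)
    (n M H ρ : ℕ) (hH : 0 < H) (hρ : 2 * ρ ≤ M) (P : ℕ → Prop)
    (hP : ∀ k, P k → G θ j H ρ (k * H) L) :
    ((Finset.range (8 * M)).filter P).card ≤
      ((Finset.Icc (-(ρ : ℤ)) (-(ρ : ℤ) + (8 * M * H + 2 * ρ))).filter fun t =>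
      L ∈ {L | Neck θ j L t (8 * H) n (8 * (n + 1) * H)}).card + (4 * M + (n + 1)) := by
  set I := (Finset.range (8 * M)).filter P with hI
  have hex : ∃ e : ℕ → ℕ, (∀ i < I.card, e i ∈ I) ∧ ∀ i, i + 1 < I.card → e i < e (i + 1) := by
    refine ⟨fun i => if h : i < I.card then I.orderEmbOfFin rfl ⟨i, h⟩ else 0, fun i hi => ?_,
      fun i hi => ?_⟩
    · simp only [dif_pos hi]; exact Finset.orderEmbOfFin_mem _ _ _
    · simp only [dif_pos hi, dif_pos (show i < I.card by omega)]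
      exact (I.orderEmbOfFin rfl).strictMono (by simp [Fin.lt_def])
  obtain ⟨e, he1, he2⟩ := hex
  have hG : ∀ i : ℕ, ∃ x y s w : ℤ, i < I.card →
      ((e i : ℤ) * H ≤ x ∧ x < y ∧ y < e i * H + H ∧ e i * H - ρ ≤ s ∧ s ≤ e i * H + ρ) ∧
      Conn (L ∩ Rt θ 0) (cp θ 0 x) (cp θ j s) ∧ ArmR θ j L s ∧
      Conn (Lᶜ ∩ Rt θ 0) (cp θ 0 y) (cp θ j w) ∧ ArmR θ j Lᶜ w := by
    intro i
    by_cases hi : i < I.card
    · obtain ⟨x, y, s, w, h⟩ := hP _ (Finset.mem_filter.1 (he1 i hi)).2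
      exact ⟨x, y, s, w, fun _ => h⟩
    · exact ⟨0, 0, 0, 0, fun h => absurd h hi⟩
  choose x y A B hG using hG
  have hH' : (1 : ℤ) ≤ H := by exact_mod_cast hH
  have hρ' : 2 * (ρ : ℤ) ≤ M := by exact_mod_cast hρ
  refine seq_neck θ j L A B I.card n M H _ _ hH (by positivity) ?_ (fun i hi => ?_)
    (fun i hi => (hG i hi).2.2.1) (fun i hi => (hG i hi).2.2.2.2) (fun i hi => ?_) fun i hi => ?_
  · have : (0 : ℤ) ≤ M := by positivity
    nlinarith
  · have h1 := (hG i hi).1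
    have h2 : ((e i : ℕ) : ℤ) ≤ 8 * M := by
      exact_mod_cast (Finset.mem_range.1 (Finset.mem_filter.1 (he1 i hi)).1).le
    have h3 : (e i : ℤ) * H ≤ 8 * M * H := mul_le_mul_of_nonneg_right h2 (by positivity)
    have h4 : (0 : ℤ) ≤ e i * H := by positivity
    omega
  · obtain ⟨h0, h1, h2, h3, h4⟩ := hG i hi
    exact hO θ hθ 0 j hj L Lᶜ disjoint_compl_right _ _ _ _ h0.2.1 h1 h2 h3 h4
  · obtain ⟨h0, -, -, h3, h4⟩ := hG i (by omega)
    obtain ⟨h0', h1, h2, -, -⟩ := hG (i + 1) hi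
    have h5 : ((e i : ℕ) : ℤ) + 1 ≤ e (i + 1) := by exact_mod_cast he2 i hi
    have h6 : ((e i : ℤ) + 1) * H ≤ e (i + 1) * H := mul_le_mul_of_nonneg_right h5 (by positivity)
    exact hO θ hθ 0 j hj Lᶜ L disjoint_compl_left _ _ _ _ (by linarith) h3 h4 h1 h2

theorem exists_gt {Ω : Type} [MeasurableSpace Ω] (ν : Measure Ω) [IsProbabilityMeasure ν]
    (E : ℕ → Set Ω) (hE : Monotone E) (F : Set Ω) (c : ℝ) (hc : c < ν.real F)
    (h : ∀ᵐ ω ∂ν, ω ∈ F → ∃ k, ω ∈ E k) : ∃ k, c < ν.real (E k) := by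
  have h1 : ν F ≤ ν (⋃ k, E k) := measure_mono_ae (h.mono fun ω hω hF => mem_iUnion.2 (hω hF))
  have h2 : Tendsto (fun k => ν.real (E k)) atTop (nhds (ν.real (⋃ k, E k))) :=
    (ENNReal.tendsto_toReal (measure_ne_top ν _)).comp (tendsto_measure_iUnion_atTop hE)
  have h3 : ν.real F ≤ ν.real (⋃ k, E k) := ENNReal.toReal_mono (measure_ne_top ν _) h1
  exact (h2.eventually (lt_mem_nhds (hc.trans_le h3))).exists

end NeckAux

open NeckAux in
theorem neck_row (hF : FinStmt) (hO : OrdStmt) : NeckStmt := by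
  classical
  intro ν a b hS hg
  have := hS.prob
  have hb := hS.hb
  obtain ⟨β, rfl⟩ : ∃ β : ℕ, b = β := ⟨b.toNat, by omega⟩
  have hβ : 0 < β := by exact_mod_cast hb
  obtain ⟨h, hh⟩ := exists_gt ν (fun h => {L | ∃ x y : ℤ, 0 ≤ x ∧ x < y ∧ y < ((h + 1) * β : ℕ) ∧
      ArmR (th a β) 0 L x ∧ ArmR (th a β) 0 Lᶜ y})
    (fun h h' hle L ⟨x, y, h1, h2, h3, h4⟩ => ⟨x, y, h1, h2, h3.trans_le (by
      exact_mod_cast Nat.mul_le_mul_right β (by omega)), h4⟩) univ (7 / 8) (by simp; norm_num)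
    (hg.mono fun L hL _ => by
      obtain ⟨x, h1, h2, -⟩ := (hL.1 0 0).1
      obtain ⟨y, h3, h4, -⟩ := (hL.2 0 x).1
      refine ⟨y.toNat, x, y, h1.le, h3, ?_, h2, h4⟩
      have e : ((y.toNat : ℕ) : ℤ) = y := by omega
      push_cast
      rw [e]
      nlinarith)
  set H := (h + 1) * β with hH
  have hH0 : 0 < H := by positivity
  have hH1 : (0 : ℝ) < H := by exact_mod_cast hH0
  refine ⟨ENNReal.ofReal (1 / (24 * H)), 8 * H, by simp [hH1], fun n =>
    ⟨8 * (n + 1) * H, fun j hj => ?_⟩⟩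
  obtain ⟨ρ, hρ⟩ := exists_gt ν (fun ρ => {L | G (th a β) j H ρ 0 L})
    (fun ρ ρ' hle L ⟨x, y, s, w, h0, h1⟩ => ⟨x, y, s, w, by omega, h1⟩) _ _ hh
    (hg.mono fun L hL ⟨x, y, h1, h2, h3, h4, h5⟩ => by
      obtain ⟨s, s1, s2⟩ := hS.col.push (hF _ hS.col Lᶜ L disjoint_compl_left hL.2) hj h4
      obtain ⟨w, w1, w2⟩ := hS.col.push (hF _ hS.col L Lᶜ disjoint_compl_right hL.1) hj h5
      exact ⟨s.natAbs, x, y, s, w, by omega, s2, s1, w2, w1⟩)
  set M := 2 * ρ + (n + 1) with hM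
  by_contra hc
  push Not at hc
  have key := count_int ν (Finset.range (8 * M))
    (Finset.Icc (-(ρ : ℤ)) (-(ρ : ℤ) + (8 * M * H + 2 * ρ)))
    (fun k => {L | sh (((k : ℤ) * (h + 1)) • (a, (β : ℤ))) L ∈ {L | G (th a β) j H ρ 0 L}})
    (fun t => {L | Neck (th a β) j L t (8 * H) n (8 * (n + 1) * H)}) (4 * M + (n + 1))
    (fun k => meas_sh _ (mG _ _ _ _ _))
    (fun t => measurableSet_setOfPred.2 (mneck measurable_id _ _ _ _ _ _)) fun L => by
      have := det hO hS.col hj L n M H ρ hH0 (by omega)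
        (fun k => L ∈ {L | sh (((k : ℤ) * (h + 1)) • (a, (β : ℤ))) L ∈
          {L | G (th a β) j H ρ 0 L}}) fun k hk => by
          have := G_sh hb j H ρ _ L hk
          rwa [show (k : ℤ) * (h + 1) * β = k * H by rw [hH]; push_cast; ring] at this
      convert this
  have l1 : ∑ k ∈ Finset.range (8 * M), (7 / 8 : ℝ) ≤ ∑ k ∈ Finset.range (8 * M), ν.real
      {L | sh (((k : ℤ) * (h + 1)) • (a, (β : ℤ))) L ∈ {L | G (th a β) j H ρ 0 L}} :=
    Finset.sum_le_sum fun k _ => by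
      unfold Measure.real at hρ ⊢
      rw [hS.meas_sh _ (mG _ _ _ _ _)]
      exact hρ.le
  have l2 : ∑ t ∈ Finset.Icc (-(ρ : ℤ)) (-(ρ : ℤ) + (8 * M * H + 2 * ρ)), ν.real
      {L | Neck (th a β) j L t (8 * H) n (8 * (n + 1) * H)} ≤
      ∑ t ∈ Finset.Icc (-(ρ : ℤ)) (-(ρ : ℤ) + (8 * M * H + 2 * ρ)), (1 / (24 * H) : ℝ) :=
    Finset.sum_le_sum fun t _ => ENNReal.toReal_le_of_le_ofReal (by positivity) (hc t).le
  rw [Finset.sum_const, nsmul_eq_mul] at l1 l2
  rw [Finset.card_range] at l1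
  have l3 : (Finset.Icc (-(ρ : ℤ)) (-(ρ : ℤ) + (8 * M * H + 2 * ρ))).card ≤ M * (24 * H) := by
    rw [Int.card_Icc]
    have e1 : M ≤ M * H := Nat.le_mul_of_pos_right M hH0
    have e2 : M * (24 * H) = 24 * (M * H) := by ring
    have e3 : (8 * M * H : ℤ) = 8 * ((M * H : ℕ) : ℤ) := by push_cast; ring
    rw [e2, e3]
    omega
  have l4 : ((Finset.Icc (-(ρ : ℤ)) (-(ρ : ℤ) + (8 * M * H + 2 * ρ))).card : ℝ) *
      (1 / (24 * H)) ≤ M := by
    rw [mul_one_div, div_le_iff₀ (by positivity)]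
    exact_mod_cast l3
  have l5 : ((n : ℝ) + 1) ≤ M := by
    have : n + 1 ≤ M := by omega
    exact_mod_cast this
  have l6 : (0 : ℝ) ≤ n := by positivity
  push_cast at key l1
  linarith

end Pool.Agent.MP_151d89_pr.H5
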