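import Pool.Agent.MP_151d89_pr.H5.Meas

/-! No trifurcations when the outer half-planes do not percolate. -/

set_option autoImplicit false
open MeasureTheory Filter Set

namespace Pool.Agent.MP_151d89_pr.H5
open Pool.Agent.MP_151d89_pr.H82 Pool.Agent.MP_151d89_pr.H33

namespace NoTriAux

open Classical in
theorem int_card {Ω ι : Type} [MeasurableSpace Ω] (ν : Measure Ω) [IsProbabilityMeasure ν]
    (I : Finset ι) (A : ι → Set Ω) (hA : ∀ i, MeasurableSet (A i)) :
    Integrable (fun ω => ((I.filter fun i => ω ∈ A i).card : ℝ)) ν ∧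
      ∫ ω, ((I.filter fun i => ω ∈ A i).card : ℝ) ∂ν = ∑ i ∈ I, ν.real (A i) := by
  have e : (fun ω => ((I.filter fun i => ω ∈ A i).card : ℝ)) =
      fun ω => ∑ i ∈ I, (A i).indicator (1 : Ω → ℝ) ω := by
    funext ω
    rw [Finset.natCast_card_filter]
    exact Finset.sum_congr rfl fun i _ => by simp [Set.indicator_apply]
  have hi : ∀ i ∈ I, Integrable ((A i).indicator (1 : Ω → ℝ)) ν := fun i _ =>
    (integrable_const (1 : ℝ)).indicator (hA i)
  rw [e]
  refine ⟨integrable_finsetSum I hi, ?_⟩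
  rw [integral_finsetSum I hi]
  exact Finset.sum_congr rfl fun i _ => integral_indicator_one (hA i)

open Classical in
theorem count_int {Ω ι κ : Type} [MeasurableSpace Ω] (ν : Measure Ω) [IsProbabilityMeasure ν]
    (I : Finset ι) (J : Finset κ) (A : ι → Set Ω) (B : κ → Set Ω) (hA : ∀ i, MeasurableSet (A i))
    (hB : ∀ j, MeasurableSet (B j)) (c : ℕ)
    (h : ∀ᵐ ω ∂ν, (I.filter fun i => ω ∈ A i).card ≤ c + (J.filter fun j => ω ∈ B j).card) :
    ∑ i ∈ I, ν.real (A i) ≤ c + ∑ j ∈ J, ν.real (B j) := by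
  obtain ⟨a1, a2⟩ := int_card ν I A hA
  obtain ⟨b1, b2⟩ := int_card ν J B hB
  have h1 := integral_mono_ae a1 ((integrable_const (c : ℝ)).add b1)
    (h.mono fun ω hω => by simp only [Pi.add_apply]; exact_mod_cast hω)
  simp only [Pi.add_apply] at h1
  rw [integral_add (integrable_const _) b1, a2, b2] at h1
  simpa using h1

/-- the window of the strip between two rows -/
noncomputable def Win (θ : ℤ → ℤ) (jA jB t0 t1 : ℤ) : Finset V :=
  (Finset.Icc t0 t1 ×ˢ Finset.Icc jA jB).image fun u => cp θ u.2 u.1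

theorem mem_Win {θ : ℤ → ℤ} {jA jB t0 t1 : ℤ} (z : V) :
    z ∈ Win θ jA jB t0 t1 ↔ z ∈ Rt θ jA ∧ z ∈ Lf θ jB ∧ t0 ≤ z.2 ∧ z.2 ≤ t1 := by
  simp only [Win, Finset.mem_image, Finset.mem_product, Finset.mem_Icc]
  constructor
  · rintro ⟨u, ⟨h1, h2⟩, rfl⟩
    exact ⟨cp_mem_Rt h2.1, cp_mem_Lf h2.2, h1.1, h1.2⟩
  · rintro ⟨h1, h2, h3, h4⟩
    have h5 : θ z.2 + jA ≤ z.1 := h1
    have h6 : z.1 ≤ θ z.2 + jB := h2
    exact ⟨(z.2, z.1 - θ z.2), ⟨⟨h3, h4⟩, by simp only; omega, by simp only; omega⟩,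
      Prod.ext (by simp [cp]) rfl⟩

theorem card_Win (θ : ℤ → ℤ) (jA jB t0 t1 : ℤ) (n : ℕ) (h : t1 + 1 - t0 = n) :
    (Win θ jA jB t0 t1).card ≤ n * (jB + 1 - jA).toNat := by
  refine Finset.card_image_le.trans ?_
  rw [Finset.card_product, Int.card_Icc, Int.card_Icc, h, Int.toNat_natCast]

/-- the outer clusters of `z` reach distance more than `l` in the vertical direction -/
def Far (θ : ℤ → ℤ) (jA jB : ℤ) (l : ℕ) (z : V) : Set (Set V) :=
  {L | Exit θ jA jB L (z.2 - l) (z.2 + l) z}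

theorem meas_Far (θ : ℤ → ℤ) (jA jB : ℤ) (l : ℕ) (z : V) : MeasurableSet (Far θ jA jB l z) :=
  measurableSet_setOfPred.2 (mexit measurable_id θ jA jB _ _ z)

theorem far_small {ν : Measure (Set V)} {a b jA jB : ℤ} (h : Sys0 ν a b)
    (hp : ∀ᵐ L ∂ν, ¬ Perc (L ∩ Rt (th a b) jB) ∧ ¬ Perc (L ∩ Lf (th a b) jA)) {η : ℝ} (hη : 0 < η) :
    ∃ l : ℕ, ∀ z, z ∈ Rt (th a b) jA → z ∈ Lf (th a b) jB → ν.real (Far (th a b) jA jB l z) ≤ η := by
  have := h.prob
  have h1 : ∀ d : V, ∀ᶠ l : ℕ in atTop, ν (Far (th a b) jA jB l d) ≤ ENNReal.ofReal η := by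
    intro d
    have hanti : Antitone fun l : ℕ => Far (th a b) jA jB l d := by
      rintro l l' hl L ⟨q, h1, h2⟩
      exact ⟨q, h1, by omega⟩
    have ht := tendsto_measure_iInter_atTop (μ := ν)
      (fun l : ℕ => (meas_Far (th a b) jA jB l d).nullMeasurableSet) hanti ⟨0, measure_ne_top _ _⟩
    have h0 : ν (⋂ l : ℕ, Far (th a b) jA jB l d) = 0 := by
      refine measure_mono_null (fun L hL => ?_) (ae_iff.1 hp)
      intro hg
      have f1 : {q | Conn (L ∩ Rt (th a b) jB) d q}.Finite := not_infinite.1 fun hi => hg.1 ⟨d, hi⟩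
      have f2 : {q | Conn (L ∩ Lf (th a b) jA) d q}.Finite := not_infinite.1 fun hi => hg.2 ⟨d, hi⟩
      obtain ⟨n, hn⟩ := finite_sub_box d (f1.union (f2.union (finite_adj d)))
      obtain ⟨q, h2, h3⟩ := mem_iInter.1 hL n
      have := mem_box.1 (hn q h2)
      omega
    rw [h0] at ht
    exact ht.eventually (Iic_mem_nhds (ENNReal.ofReal_pos.2 hη))
  obtain ⟨l, hl⟩ := ((eventually_all_finset (Win (th a b) jA jB 0 (b - 1))).2 fun d _ => h1 d).exists
  refine ⟨l, fun z hz1 hz2 => ?_⟩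
  have hb := h.hb
  obtain ⟨u, d, rfl, d0, d1⟩ : ∃ (u : ℤ) (d : V), z = d + u • (a, b) ∧ 0 ≤ d.2 ∧ d.2 ≤ b - 1 := by
    have e1 := Int.emod_add_mul_ediv z.2 b
    have e2 := Int.emod_nonneg z.2 hb.ne'
    have e3 := Int.emod_lt_of_pos z.2 hb
    refine ⟨z.2 / b, z - (z.2 / b) • (a, b), (sub_add_cancel _ _).symm, ?_, ?_⟩ <;>
      simp only [Prod.snd_sub, Prod.smul_mk, smul_eq_mul] <;> linarith
  have hd : d ∈ Win (th a b) jA jB 0 (b - 1) := (mem_Win d).2
    ⟨by rw [← sh_Rt hb u]; exact hz1, by rw [← sh_Lf hb u]; exact hz2, d0, d1⟩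
  refine ENNReal.toReal_le_of_le_ofReal hη.le (le_trans ?_ (hl d hd))
  rw [← h.meas_sh u (meas_Far (th a b) jA jB l d)]
  refine measure_mono ?_
  rintro L ⟨q, h2, h3⟩
  obtain ⟨q, rfl⟩ : ∃ q' : V, q = q' + u • (a, b) := ⟨q - _, (sub_add_cancel _ _).symm⟩
  refine ⟨q, ?_, ?_⟩
  · rw [conn_Rt_sh hb, conn_Lf_sh hb, ← adj_add (u • (a, b))]
    exact h2
  · simp only [Prod.snd_add] at h3
    omega

theorem tri_sh {L : Set V} {w x : V} {r : ℕ} (h : Tri (sh w L) x r) : Tri L (x + w) r := by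
  have e1 : sh w L ∩ ↑(box x r) = sh w (L ∩ ↑(box (x + w) r)) := by
    ext z
    simp only [sh, mem_inter_iff, mem_ofPred_eq, Finset.mem_coe, mem_box, Prod.fst_add,
      Prod.snd_add]
    exact and_congr_right fun _ => by omega
  have e2 : Hub (sh w L) x r = sh w (Hub L (x + w) r) := by
    ext z
    change Conn _ x z ↔ Conn _ (x + w) (z + w)
    rw [e1, conn_sh]
  obtain ⟨p, h1, h2⟩ := h
  rw [e2, ← sh_diff] at h1 h2
  refine ⟨fun i => p i + w, fun i => ⟨(inf_sh w).1 (h1 i).1, ?_⟩,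
    fun i i' hi hc => h2 i i' hi ((conn_sh w).2 hc)⟩
  obtain ⟨u, hu, ha⟩ := (h1 i).2
  exact ⟨u + w, hu, (adj_add w _ _).2 ha⟩

end NoTriAux

open NoTriAux in
theorem notri_row (hC : CountStmt) : NoTriStmt := by
  classical
  intro ν a b h jA0 jB0 hp0 x r
  have := h.prob
  have hb := h.hb
  obtain ⟨jA, hA0, hA⟩ : ∃ jA, jA ≤ jA0 ∧ ∀ z ∈ box x (r + 1), z ∈ Rt (th a b) jA := by
    obtain ⟨j, hj⟩ := ((box x (r + 1)).finite_toSet.image fun z => z.1 - th a b z.2).bddBelow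
    refine ⟨min j jA0, min_le_right _ _, fun z hz => ?_⟩
    have h1 : j ≤ z.1 - th a b z.2 := hj (mem_image_of_mem _ hz)
    change th a b z.2 + min j jA0 ≤ z.1
    omega
  obtain ⟨jB, hB0, hB⟩ : ∃ jB, jB0 ≤ jB ∧ ∀ z ∈ box x (r + 1), z ∈ Lf (th a b) jB := by
    obtain ⟨j, hj⟩ := ((box x (r + 1)).finite_toSet.image fun z => z.1 - th a b z.2).bddAbove
    refine ⟨max j jB0, le_max_right _ _, fun z hz => ?_⟩
    have h1 : z.1 - th a b z.2 ≤ j := hj (mem_image_of_mem _ hz)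
    change z.1 ≤ th a b z.2 + max j jB0
    omega
  have hp : ∀ᵐ L ∂ν, ¬ Perc (L ∩ Rt (th a b) jB) ∧ ¬ Perc (L ∩ Lf (th a b) jA) :=
    hp0.mono fun L hL => ⟨fun hc => hL.1 (hc.mono (inter_subset_inter_right _ (Rt_mono hB0))),
      fun hc => hL.2 (hc.mono (inter_subset_inter_right _ (Lf_mono hA0)))⟩
  have hT : MeasurableSet {L | Tri L x r} := measurableSet_setOfPred.2 (mtri measurable_id x r)
  obtain ⟨β, rfl⟩ : ∃ β : ℕ, b = β := ⟨b.toNat, by omega⟩
  obtain ⟨C, hCd⟩ : ∃ C, C = (jB + 1 - jA).toNat := ⟨_, rfl⟩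
  obtain ⟨c, hc⟩ : ∃ c : ℕ → V, ∀ k, c k = x + ((k : ℤ) * (2 * r + 1)) • (a, (β : ℤ)) :=
    ⟨_, fun _ => rfl⟩
  have hc2 : ∀ k, (c k).2 = x.2 + (k : ℤ) * ((2 * r + 1) * β) := fun k => by
    rw [hc]; simp only [Prod.snd_add, Prod.smul_mk, smul_eq_mul]; ring
  have hm : (2 * r + 1 : ℤ) ≤ (2 * r + 1) * β := le_mul_of_one_le_right (by positivity) (by omega)
  have hsep : ∀ k k' : ℕ, k < k' → (c k).2 + (2 * r + 1) ≤ (c k').2 := fun k k' hk => by
    have : ((k : ℤ) + 1) * ((2 * r + 1) * β) ≤ (k' : ℤ) * ((2 * r + 1) * β) :=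
      mul_le_mul_of_nonneg_right (by omega) (by positivity)
    rw [hc2, hc2]; linarith
  have main : ∀ η : ℝ, 0 < η → ∃ l : ℕ, ∀ N : ℕ, N * ν.real {L | Tri L x r} ≤
      (l * C + l * C : ℕ) + ((N * ((2 * r + 1) * β) + 2 * r + 3) * C : ℕ) * η := by
    intro η hη
    obtain ⟨l, hl⟩ := far_small h hp hη
    refine ⟨l, fun N => ?_⟩
    obtain ⟨t0, ht0⟩ : ∃ t0 : ℤ, t0 = x.2 - (r + 1) := ⟨_, rfl⟩
    obtain ⟨t1, ht1⟩ : ∃ t1 : ℤ, t1 = x.2 + N * ((2 * r + 1) * β) + (r + 1) := ⟨_, rfl⟩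
    have h1 := count_int ν (Finset.range N) (Win (th a β) jA jB t0 t1)
      (fun k => {L | sh (((k : ℤ) * (2 * r + 1)) • (a, (β : ℤ))) L ∈ {L | Tri L x r}})
      (Far (th a β) jA jB l) (fun k => H5.meas_sh _ hT) (meas_Far _ _ _ _) (l * C + l * C)
      (hp.mono fun L hL => by
        have hinj : Function.Injective c := fun k k' e => by
          by_contra hne
          rcases Nat.lt_or_gt_of_ne hne with hlt | hlt
          · have := hsep _ _ hlt; rw [e] at this; omega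
          · have := hsep _ _ hlt; rw [e] at this; omega
        rw [← Finset.card_image_of_injective _ hinj]
        refine (hC _ h.col jA jB t0 t1 L r _ (Win (th a β) jA jB t0 t1) hL.1 hL.2 ?_ ?_ mem_Win
          ?_).trans ?_
        · intro y hy
          obtain ⟨k, hk, rfl⟩ := Finset.mem_image.1 hy
          rw [hc]
          exact tri_sh (Finset.mem_filter.1 hk).2
        · intro y hy y' hy' hne
          obtain ⟨k, -, rfl⟩ := Finset.mem_image.1 hy
          obtain ⟨k', -, rfl⟩ := Finset.mem_image.1 hy'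
          refine Finset.disjoint_left.2 fun z h1 h2 => ?_
          rw [mem_box] at h1 h2
          rcases Nat.lt_or_gt_of_ne (fun e : k = k' => hne (by rw [e])) with hlt | hlt
          · have := hsep _ _ hlt; omega
          · have := hsep _ _ hlt; omega
        · intro y hy z hz
          obtain ⟨k, hk, rfl⟩ := Finset.mem_image.1 hy
          have hk' : k < N := Finset.mem_range.1 (Finset.mem_filter.1 hk).1
          obtain ⟨d, rfl⟩ : ∃ d : V, z = d + ((k : ℤ) * (2 * r + 1)) • (a, (β : ℤ)) :=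
            ⟨z - _, (sub_add_cancel _ _).symm⟩
          have hd : d ∈ box x (r + 1) := by
            rw [hc] at hz
            simp only [mem_box, Prod.fst_add, Prod.snd_add] at hz ⊢
            omega
          have e0 := hc2 0
          have e1 := hc2 N
          have e2 := hsep k N hk'
          have e3 : x.2 ≤ (c k).2 := by
            rw [hc2]; exact le_add_of_nonneg_right (by positivity)
          have e4 := (mem_box.1 hz).2
          refine (mem_Win _).2 ⟨?_, ?_, by omega, by omega⟩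
          · have := hA d hd
            rwa [← sh_Rt hb ((k : ℤ) * (2 * r + 1))] at this
          · have := hB d hd
            rwa [← sh_Lf hb ((k : ℤ) * (2 * r + 1))] at this
        · have s1 := card_Win (th a β) jA jB t0 (t0 + l - 1) l (by ring)
          have s2 := card_Win (th a β) jA jB (t1 - l + 1) t1 l (by ring)
          rw [← hCd] at s1 s2
          refine le_trans (Finset.card_le_card (t := (Win (th a β) jA jB t0 (t0 + l - 1) ∪
            Win (th a β) jA jB (t1 - l + 1) t1) ∪ (Win (th a β) jA jB t0 t1).filter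
              fun z => L ∈ Far (th a β) jA jB l z) fun z hz => ?_)
            ((Finset.card_union_le _ _).trans (Nat.add_le_add_right
              ((Finset.card_union_le _ _).trans (Nat.add_le_add s1 s2)) _))
          obtain ⟨hz1, q, hq1, hq2⟩ := Finset.mem_filter.1 hz
          obtain ⟨z1, z2, z3, z4⟩ := (mem_Win z).1 hz1
          simp only [Finset.mem_union, Finset.mem_filter, mem_Win]
          by_cases b1 : z.2 ≤ t0 + l - 1
          · exact Or.inl (Or.inl ⟨z1, z2, z3, b1⟩)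
          by_cases b2 : t1 - l + 1 ≤ z.2
          · exact Or.inl (Or.inr ⟨z1, z2, b2, z4⟩)
          exact Or.inr ⟨⟨z1, z2, z3, z4⟩, q, hq1, by omega⟩)
    have h2 : ∀ k : ℕ, ν.real {L | sh (((k : ℤ) * (2 * r + 1)) • (a, (β : ℤ))) L ∈ {L | Tri L x r}} =
        ν.real {L | Tri L x r} := fun k => by
      rw [measureReal_def, h.meas_sh _ hT, measureReal_def]
    simp only [h2, Finset.sum_const, Finset.card_range, nsmul_eq_mul] at h1
    refine h1.trans (add_le_add le_rfl ?_)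
    refine (Finset.sum_le_card_nsmul _ _ η fun z hz =>
      hl z ((mem_Win z).1 hz).1 ((mem_Win z).1 hz).2.1).trans ?_
    rw [nsmul_eq_mul]
    refine mul_le_mul_of_nonneg_right ?_ hη.le
    have s3 := card_Win (th a β) jA jB t0 t1 (N * ((2 * r + 1) * β) + 2 * r + 3)
      (by rw [ht0, ht1]; push_cast; ring)
    rw [← hCd] at s3
    exact_mod_cast s3
  by_contra hne
  have hpos : 0 < ν.real {L | Tri L x r} := ENNReal.toReal_pos hne (measure_ne_top _ _)
  generalize ν.real {L | Tri L x r} = p at main hpos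
  obtain ⟨K, hK⟩ : ∃ K : ℝ, K = ((2 * r + 1) * β + 2 * r + 3) * C + 1 := ⟨_, rfl⟩
  have K0 : 0 < K := by rw [hK]; positivity
  obtain ⟨l, hl⟩ := main (p / (2 * K)) (by positivity)
  obtain ⟨N, hN⟩ := exists_nat_gt (2 * ((l * C + l * C : ℕ) : ℝ) / p)
  have h1 := hl (N + 1)
  rw [div_lt_iff₀ hpos] at hN
  have h2 : ((((N + 1) * ((2 * r + 1) * β) + 2 * r + 3) * C : ℕ) : ℝ) ≤ (N + 1) * K := by
    rw [hK]
    push_cast
    have : (0 : ℝ) ≤ N * ((2 * r + 3) * C) + (N + 1) := by positivity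
    linarith
  have h3 := mul_le_mul_of_nonneg_right h2 (show 0 ≤ p / (2 * K) by positivity)
  have h4 : (N + 1) * K * (p / (2 * K)) = (N + 1) * p / 2 := by field_simp
  push_cast at h1 h3 hN
  linarith

end Pool.Agent.MP_151d89_pr.H5
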