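import Pool.Agent.MP_151d89_pr.H5.Meas

/-! Order of arms on two columns. -/

set_option autoImplicit false
open MeasureTheory Filter Set

namespace Pool.Agent.MP_151d89_pr.H5
open Pool.Agent.MP_151d89_pr.H82 Pool.Agent.MP_151d89_pr.H33

namespace OrdAux

theorem const {S : Set V} {p q : V} (I : V → ZMod 2) (h : Conn S p q)
    (h0 : ∀ z ∈ S, ∀ z' ∈ S, Adj z z' → z'.2 = z.2 → I z = I z')
    (h1 : ∀ z ∈ S, ∀ z' ∈ S, Adj z z' → z'.2 = z.2 + 1 → I z = I z') : I p = I q := by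
  refine h.ind (fun x => I p = I x) rfl fun x y hx ih ha hy => ih.trans ?_
  have h3 : y.2 = x.2 ∨ y.2 = x.2 + 1 ∨ x.2 = y.2 + 1 := by
    unfold Adj at ha
    omega
  rcases h3 with e | e | e
  · exact h0 x hx.mem_right y hy ha e
  · exact h1 x hx.mem_right y hy ha e
  · exact (h1 y hy x hx.mem_right ha.symm e).symm

theorem far {S : Set V} {θ : ℤ → ℤ} {j : ℤ} {p : V} (h : Inf (S ∩ Rt θ j) p) (F : Finset V) :
    ∃ q, Conn (S ∩ Rt θ j) p q ∧ ∀ z ∈ F, z.2 = q.2 → z.1 < q.1 := by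
  obtain ⟨n, hn⟩ := finite_sub_box (0, 0)
    (F.finite_toSet.union (F.finite_toSet.image fun z => cp θ j z.2))
  obtain ⟨q, h1, h2⟩ := (inf_iff_box (0, 0)).1 h n
  refine ⟨q, h1, fun z hz e => ?_⟩
  have a1 := hn z (Or.inl hz)
  have a2 := hn (cp θ j z.2) (Or.inr (mem_image_of_mem _ hz))
  have a3 : θ q.2 + j ≤ q.1 := h1.mem_right.2
  rw [mem_box] at a1 a2 h2
  rw [e] at a2
  simp only [cp] at a1 a2 h2
  omega

theorem lt_of {A B : Set V} (hd : Disjoint A B) {θ : ℤ → ℤ} {i k u : ℤ} (hik : i ≤ k) {w : V}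
    (hw : w ∈ A ∩ Rt θ k) (hu : cp θ i u ∈ B) (e : w.2 = (cp θ i u).2) : (cp θ i u).1 < w.1 := by
  have a1 : θ w.2 + k ≤ w.1 := hw.2
  have a2 : w ≠ cp θ i u := fun h => Set.disjoint_left.1 hd hw.1 (h ▸ hu)
  by_contra hc
  refine a2 (Prod.ext ?_ e)
  simp only [cp] at e hc ⊢
  rw [e] at a1
  omega

theorem z1 : ∀ a b : ZMod 2, a + b = 0 → a = b := by decide

theorem z2 : ∀ a b c d e f g : ZMod 2, a + b = 0 + e → c + d = e + (f + g) →
    a + c + f = b + d + g := by decide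

theorem z3 : ∀ a b : ZMod 2, 1 + a + (a + b) + b = 1 := by decide

theorem z4 : ∀ b : ZMod 2, 0 + (0 + b) + b = 0 := by decide

end OrdAux

open OrdAux in
theorem ord_row (hI : IotaStmt) : OrdStmt := by
  intro θ _ i j hij A B hd t u s w htu hα hA hβ hB
  have hne : s ≠ w := by
    rintro rfl
    exact Set.disjoint_left.1 hd hα.mem_right.1 hβ.mem_right.1
  by_contra hsw
  have hws : w < s := by omega
  obtain ⟨G, hG, hβ'⟩ := hβ.finite
  obtain ⟨q, hl, hq⟩ := far hA G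
  obtain ⟨F, ι, hF, -, -, f0, f1, fR, fL⟩ := hI _ _ _ hα
  obtain ⟨F', κ, hF', -, -, g0, g1, -, gL⟩ := hI _ _ _ hl
  have nF : ∀ z ∈ B, z ∉ F := fun z hz h => Set.disjoint_left.1 hd (hF z h).1 hz
  have nF' : ∀ z ∈ B, z ∉ F' := fun z hz h => Set.disjoint_left.1 hd (hF' z h).1 hz
  have e1 : ι (cp θ j w) = 0 := by
    obtain ⟨q', hl', hq'⟩ := far hB F
    rw [const ι hl' (fun z hz z' hz' ha e => f0 z z' (nF z hz.1) (nF z' hz'.1) ha e)
      fun z hz z' hz' ha e => ?_]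
    · exact fR q' fun x hx e => (hq' x hx e).le
    · have h1 := f1 z z' (nF z hz.1) (nF z' hz'.1) ha e
      have a1 : θ z'.2 + j ≤ z'.1 := hz'.2
      rw [if_neg, if_neg, add_zero] at h1
      · exact z1 _ _ h1
      · rintro ⟨b1, b2⟩
        simp only [cp] at b1 b2
        rw [← b1] at a1
        omega
      · rintro ⟨b1, b2⟩
        simp only [cp] at b1 b2
        rw [← b1] at a1
        omega
  have key := const (fun z => ι z + κ z + if q.2 ≤ z.2 then 1 else 0) hβ'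
    (fun z hz z' hz' ha e => by
      rw [f0 z z' (nF z (hG z hz).1) (nF z' (hG z' hz').1) ha e,
        g0 z z' (nF' z (hG z hz).1) (nF' z' (hG z' hz').1) ha e, e])
    (fun z hz z' hz' ha e => by
      have h1 := f1 z z' (nF z (hG z hz).1) (nF z' (hG z' hz').1) ha e
      have h2 := g1 z z' (nF' z (hG z hz).1) (nF' z' (hG z' hz').1) ha e
      have a1 : θ z'.2 + i ≤ z'.1 := (hG z' hz').2
      rw [if_neg (c := (cp θ i t).2 = z'.2 ∧ z'.1 < (cp θ i t).1)] at h1
      · refine z2 _ _ _ _ _ _ _ h1 (h2.trans ?_)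
        congr 1
        have a2 := hq z' hz'
        split_ifs <;> first | rfl | decide | (exfalso; omega)
      · rintro ⟨b1, b2⟩
        simp only [cp] at b1 b2
        rw [← b1] at a1
        omega)
  have huB : cp θ i u ∈ B := hβ.mem_left.1
  have hwB : cp θ j w ∈ B := hβ.mem_right.1
  have e2 := fL (cp θ i u) fun x hx e => lt_of hd le_rfl (hF x hx) huB e
  have e3 := gL (cp θ i u) fun x hx e => lt_of hd hij (hF' x hx) huB e
  have e4 := gL (cp θ j w) fun x hx e => lt_of hd le_rfl (hF' x hx) hwB e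
  rw [if_pos (show (cp θ i t).2 ≤ (cp θ i u).2 from htu.le)] at e2
  rw [if_neg (show ¬ (cp θ j s).2 ≤ (cp θ j w).2 from not_le.2 hws)] at e4
  rw [e1, e2, e3, e4, z3, z4] at key
  exact one_ne_zero key

end Pool.Agent.MP_151d89_pr.H5
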