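import Pool.Agent.MP_151d89_pr.H5.Meas

/-! Merging of infinite half-plane clusters is rare far to the right. -/

set_option autoImplicit false
open MeasureTheory Filter Set

namespace Pool.Agent.MP_151d89_pr.H5
open Pool.Agent.MP_151d89_pr.H82 Pool.Agent.MP_151d89_pr.H33

namespace RareAux

/-- the anchor s' of column k descends from the anchor s of column j -/
def M (θ : ℤ → ℤ) (j k : ℤ) (L : Set V) (s s' : ℤ) : Prop :=
  An θ j L s ∧ An θ k L s' ∧ Conn (L ∩ Rt θ j) (cp θ j s) (cp θ k s')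

theorem an_eq {θ : ℤ → ℤ} {j s s' : ℤ} {L : Set V} (h : An θ j L s) (h' : An θ j L s')
    (hc : Conn (L ∩ Rt θ j) (cp θ j s) (cp θ j s')) : s = s' := by
  rcases lt_trichotomy s s' with e | e | e
  · exact absurd hc.symm (h'.2 s e)
  · exact e
  · exact absurd hc (h.2 s' e)

theorem anchor {θ : ℤ → ℤ} {k s : ℤ} {L : Set V} (hF : FinCol θ L) (h : ArmR θ k L s) :
    ∃ s', An θ k L s' ∧ Conn (L ∩ Rt θ k) (cp θ k s) (cp θ k s') := by
  have hfin : {u | Conn (L ∩ Rt θ k) (cp θ k s) (cp θ k u)}.Finite :=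
    (hF (cp θ k s) k).subset fun u hu => Conn.mono hu inter_subset_left
  obtain ⟨s', h1, h2⟩ := Set.exists_min_image _ id hfin ⟨s, Conn.refl (Inf.mem h)⟩
  refine ⟨s', ⟨Inf.conn h h1, fun u hu hc => ?_⟩, h1⟩
  have : s' ≤ u := h2 u (Conn.trans h1 hc)
  omega

theorem one {θ : ℤ → ℤ} (hθ : Col θ) {j k s : ℤ} (hjk : j ≤ k) {L : Set V} (hF : FinCol θ L)
    (h : An θ j L s) : ∃ s', M θ j k L s s' := by
  obtain ⟨u, h1, h2⟩ := hθ.push hF hjk h.1
  obtain ⟨s', h3, h4⟩ := anchor hF h1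
  exact ⟨s', h, h3, h2.trans (h4.mono (inter_subset_inter_right _ (Rt_mono hjk)))⟩

theorem two {θ : ℤ → ℤ} {j k s : ℤ} (hjk : j ≤ k) {L : Set V} (hF : FinCol θ L)
    (h : An θ j L s) (h' : Two θ j k L s) :
    ∃ s1 s2, s1 ≠ s2 ∧ M θ j k L s s1 ∧ M θ j k L s s2 := by
  obtain ⟨u1, u2, h1, h2, h3, h4, h5⟩ := h'
  obtain ⟨s1, h6, h7⟩ := anchor hF h1
  obtain ⟨s2, h8, h9⟩ := anchor hF h2
  refine ⟨s1, s2, fun e => h5 (h7.trans (e ▸ h9.symm)),
    ⟨h, h6, h3.trans (h7.mono (inter_subset_inter_right _ (Rt_mono hjk)))⟩,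
    h, h8, h4.trans (h9.mono (inter_subset_inter_right _ (Rt_mono hjk)))⟩

theorem mM (θ : ℤ → ℤ) (j k s s' : ℤ) : MeasurableSet {L | M θ j k L s s'} :=
  measurableSet_setOfPred.2 ((man measurable_id θ j s).and ((man measurable_id θ k s').and
    (mconn (minter measurable_id measurable_const) _ _)))

theorem mAn (θ : ℤ → ℤ) (j s : ℤ) : MeasurableSet {L | An θ j L s} :=
  measurableSet_setOfPred.2 (man measurable_id θ j s)

theorem mAT (θ : ℤ → ℤ) (j k s : ℤ) : MeasurableSet {L | An θ j L s ∧ Two θ j k L s} :=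
  measurableSet_setOfPred.2 ((man measurable_id θ j s).and (mtwo measurable_id θ j k s))

theorem conn_cp_sh {a b : ℤ} (hb : 0 < b) (m i j k s t : ℤ) (L : Set V) :
    Conn (sh (m • (a, b)) L ∩ Rt (th a b) i) (cp (th a b) j s) (cp (th a b) k t) ↔
      Conn (L ∩ Rt (th a b) i) (cp (th a b) j (s + m * b)) (cp (th a b) k (t + m * b)) := by
  rw [conn_Rt_sh hb, cp_add hb, cp_add hb]

theorem an_sh {a b : ℤ} (hb : 0 < b) (m j s : ℤ) (L : Set V) :
    An (th a b) j (sh (m • (a, b)) L) s ↔ An (th a b) j L (s + m * b) := by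
  unfold An
  rw [armR_sh hb]
  refine and_congr_right fun _ => ⟨fun H u hu hc => H (u - m * b) (by omega) ?_,
    fun H u hu hc => H (u + m * b) (by omega) ((conn_cp_sh hb m j j j s u L).1 hc)⟩
  rw [conn_cp_sh hb, sub_add_cancel]
  exact hc

theorem two_sh {a b : ℤ} (hb : 0 < b) (m j k s : ℤ) (L : Set V) :
    Two (th a b) j k (sh (m • (a, b)) L) s ↔ Two (th a b) j k L (s + m * b) := by
  unfold Two
  simp only [armR_sh hb, conn_cp_sh hb]
  constructor
  · rintro ⟨s1, s2, h⟩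
    exact ⟨_, _, h⟩
  · rintro ⟨s1, s2, h⟩
    exact ⟨s1 - m * b, s2 - m * b, by simpa only [sub_add_cancel] using h⟩

theorem M_sh {a b : ℤ} (hb : 0 < b) (m j k s s' : ℤ) (L : Set V) :
    M (th a b) j k (sh (m • (a, b)) L) s s' ↔ M (th a b) j k L (s + m * b) (s' + m * b) := by
  unfold M
  rw [an_sh hb, an_sh hb, conn_cp_sh hb]

theorem tsum_int (n : ℕ) [NeZero n] (f : ℤ → ENNReal) :
    ∑' s, f s = ∑' r : Fin n, ∑' m : ℤ, f (((r : ℕ) : ℤ) + m * n) := by
  rw [← (Int.divModEquiv n).symm.tsum_eq, ENNReal.tsum_prod', ENNReal.tsum_comm]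
  refine tsum_congr fun r => tsum_congr fun m => ?_
  congr 1
  simp [Int.divModEquiv, add_comm]

theorem transport (n : ℕ) [NeZero n] (f : ℤ → ℤ → ENNReal)
    (hf : ∀ s s' m, f (s + m * n) (s' + m * n) = f s s') :
    ∑' r : Fin n, ∑' s', f ((r : ℕ) : ℤ) s' = ∑' r : Fin n, ∑' s, f s ((r : ℕ) : ℤ) := by
  rw [tsum_congr fun r : Fin n => tsum_int n (f ((r : ℕ) : ℤ)),
    tsum_congr fun r : Fin n => tsum_int n fun s => f s ((r : ℕ) : ℤ), ENNReal.tsum_comm]
  refine tsum_congr fun r' => tsum_congr fun r => ?_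
  rw [← (Equiv.neg ℤ).tsum_eq]
  refine tsum_congr fun m => ?_
  rw [← hf _ _ m]
  congr 1
  simp

variable {ν : Measure (Set V)} {a b : ℤ}

theorem out_le (h : Sys0 ν a b) (hF : ∀ᵐ L ∂ν, FinCol (th a b) L) {j k : ℤ} (hjk : j ≤ k)
    (s : ℤ) : ν {L | An (th a b) j L s} + ν {L | An (th a b) j L s ∧ Two (th a b) j k L s} ≤
      ∑' s', ν {L | M (th a b) j k L s s'} := by
  classical
  simp only [← lintegral_indicator_one (mM _ _ _ _ _), ← lintegral_indicator_one (mAn _ _ _),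
    ← lintegral_indicator_one (mAT _ _ _ _)]
  rw [← lintegral_tsum fun s' => (measurable_one.indicator (mM _ _ _ _ _)).aemeasurable,
    ← lintegral_add_left (measurable_one.indicator (mAn _ _ _))]
  refine lintegral_mono_ae ?_
  filter_upwards [hF] with L hL
  by_cases h1 : An (th a b) j L s
  · by_cases h2 : Two (th a b) j k L s
    · obtain ⟨s1, s2, h3, h4, h5⟩ := two hjk hL h1 h2
      refine le_trans ?_ (ENNReal.sum_le_tsum {s1, s2})
      rw [Finset.sum_pair h3]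
      simp [indicator, h1, h2, h4, h5]
    · obtain ⟨s1, h4⟩ := one h.col hjk hL h1
      refine le_trans ?_ (ENNReal.le_tsum s1)
      simp [indicator, h1, h2, h4]
  · simp [indicator, h1]

theorem in_le (ν : Measure (Set V)) (θ : ℤ → ℤ) (j k s' : ℤ) :
    ∑' s, ν {L | M θ j k L s s'} ≤ ν {L | An θ k L s'} := by
  rw [← measure_iUnion _ fun s => mM θ j k s s']
  · exact measure_mono (iUnion_subset fun s L hL => hL.2.1)
  · intro s1 s2 hne
    exact Set.disjoint_left.2 fun L h1 h2 => hne (an_eq h1.1 h2.1 (h1.2.2.trans h2.2.2.symm))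

end RareAux

open RareAux in
theorem rare_row : RareStmt := by
  intro ν a b h hF d K2 η hη
  have hp := h.prob
  have hb := h.hb
  obtain ⟨n, rfl⟩ : ∃ n : ℕ, b = n := ⟨b.toNat, by omega⟩
  haveI : NeZero n := ⟨by omega⟩
  set κ : ℤ → ENNReal := fun j => ∑' r : Fin n, ν {L | An (th a n) j L ((r : ℕ) : ℤ)} with hκ
  set δ : ℤ → ℤ → ENNReal := fun j k =>
    ∑' r : Fin n, ν {L | An (th a n) j L ((r : ℕ) : ℤ) ∧ Two (th a n) j k L ((r : ℕ) : ℤ)} with hδ
  have hbd : ∀ j, κ j ≤ n := by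
    intro j
    refine (ENNReal.tsum_le_tsum fun r => prob_le_one).trans ?_
    simp
  have hstep : ∀ j k, j ≤ k → κ j + δ j k ≤ κ k := by
    intro j k hjk
    simp only [hκ, hδ]
    rw [← ENNReal.tsum_add]
    refine (ENNReal.tsum_le_tsum fun r => out_le h hF hjk _).trans ?_
    rw [transport n (fun s s' => ν {L | M (th a n) j k L s s'})]
    · exact ENNReal.tsum_le_tsum fun r => in_le ν _ j k _
    · intro s s' m
      rw [← h.meas_sh m (mM _ j k s s')]
      simp only [mem_ofPred_eq, M_sh hb]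
  have hper : ∀ j k s, ν {L | An (th a n) j L s ∧ Two (th a n) j k L s} ≤ δ j k := by
    intro j k s
    obtain ⟨⟨m, r⟩, rfl⟩ := (Int.divModEquiv n).symm.surjective s
    have e : (Int.divModEquiv n).symm (m, r) = ((r : ℕ) : ℤ) + m * n := by
      simp [Int.divModEquiv, add_comm]
    rw [e]
    refine le_trans (le_of_eq ?_) (ENNReal.le_tsum r)
    rw [← h.meas_sh m (mAT _ j k ((r : ℕ) : ℤ))]
    simp only [mem_ofPred_eq, an_sh hb, two_sh hb]
  have hε : η / ((K2 : ENNReal) + 1) ≠ 0 := by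
    simp [hη]
  have hsup : (⨆ j, κ j) ≠ ⊤ := ne_top_of_le_ne_top (by simp) (iSup_le hbd)
  have hlt := ENNReal.lt_add_right hsup hε
  rw [ENNReal.iSup_add, lt_iSup_iff] at hlt
  obtain ⟨J, hJ⟩ := hlt
  refine ⟨J, fun j hj t => ?_⟩
  have hδε : δ j (j + d) ≤ η / ((K2 : ENNReal) + 1) := by
    have h1 : κ j + δ j (j + d) ≤ κ j + η / ((K2 : ENNReal) + 1) := by
      refine ((hstep j (j + d) (by omega)).trans (le_iSup κ _)).trans (hJ.le.trans ?_)
      exact add_le_add_left (le_self_add.trans (hstep J j hj)) _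
    exact (ENNReal.add_le_add_iff_left (ne_top_of_le_ne_top (by simp) (hbd j))).1 h1
  have hsub : {L | Mrg (th a n) j (j + d) L t K2} ⊆
      ⋃ s ∈ Finset.Icc (t - K2) t, {L | An (th a n) j L s ∧ Two (th a n) j (j + d) L s} := by
    rintro L ⟨s, h1, h2, h3⟩
    exact mem_iUnion₂.2 ⟨s, Finset.mem_Icc.2 ⟨h1, h2⟩, h3⟩
  refine (measure_mono hsub).trans ((measure_biUnion_finset_le _ _).trans ?_)
  refine (Finset.sum_le_card_nsmul _ _ _ fun s _ => (hper j (j + d) s).trans hδε).trans ?_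
  have hc : (Finset.Icc (t - K2) t).card = K2 + 1 := by
    rw [Int.card_Icc]; omega
  rw [hc, nsmul_eq_mul]
  push_cast
  exact ENNReal.mul_div_le

end Pool.Agent.MP_151d89_pr.H5
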