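import Pool.Agent.MP_151d89_pr.H5.Meas

/-! The fourth root trick for arms from the slit. -/

set_option autoImplicit false
open MeasureTheory Filter Set

namespace Pool.Agent.MP_151d89_pr.H5
open Pool.Agent.MP_151d89_pr.H82 Pool.Agent.MP_151d89_pr.H33

namespace RootAux

/-- local increasing events -/
def G0 (A : Set (Set V)) : Prop := ∃ Δ : Finset V, Up Δ A

/-- decreasing limits of local increasing events -/
def G1 (A : Set (Set V)) : Prop :=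
  ∃ f : ℕ → Set (Set V), Antitone f ∧ (∀ k, G0 (f k)) ∧ A = ⋂ k, f k

/-- increasing limits of the former -/
def G2 (A : Set (Set V)) : Prop :=
  ∃ f : ℕ → Set (Set V), Monotone f ∧ (∀ k, G1 (f k)) ∧ A = ⋃ k, f k

theorem up_mono {Δ Δ' : Finset V} {A : Set (Set V)} (h : Up Δ A) (hs : Δ ⊆ Δ') : Up Δ' A :=
  fun L L' hL => h L L' fun z hz => hL z (hs hz)

theorem G0.inter {A B : Set (Set V)} (hA : G0 A) (hB : G0 B) : G0 (A ∩ B) := by
  classical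
  obtain ⟨Δ, h⟩ := hA
  obtain ⟨Δ', h'⟩ := hB
  exact ⟨Δ ∪ Δ', fun L L' hL hm => ⟨up_mono h Finset.subset_union_left L L' hL hm.1,
    up_mono h' Finset.subset_union_right L L' hL hm.2⟩⟩

theorem G1.inter {A B : Set (Set V)} (hA : G1 A) (hB : G1 B) : G1 (A ∩ B) := by
  obtain ⟨f, h1, h2, rfl⟩ := hA
  obtain ⟨g, h3, h4, rfl⟩ := hB
  exact ⟨fun k => f k ∩ g k, fun _ _ h => inter_subset_inter (h1 h) (h3 h),
    fun k => (h2 k).inter (h4 k), (iInter_inter_distrib f g).symm⟩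

theorem G2.inter {A B : Set (Set V)} (hA : G2 A) (hB : G2 B) : G2 (A ∩ B) := by
  obtain ⟨f, h1, h2, rfl⟩ := hA
  obtain ⟨g, h3, h4, rfl⟩ := hB
  refine ⟨fun k => f k ∩ g k, fun _ _ h => inter_subset_inter (h1 h) (h3 h),
    fun k => (h2 k).inter (h4 k), ?_⟩
  ext L
  simp only [mem_inter_iff, mem_iUnion]
  exact ⟨fun ⟨⟨i, hi⟩, j, hj⟩ => ⟨max i j, h1 (le_max_left i j) hi, h3 (le_max_right i j) hj⟩,
    fun ⟨i, hi, hj⟩ => ⟨⟨i, hi⟩, i, hj⟩⟩

theorem G2.univ : G2 univ :=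
  ⟨fun _ => Set.univ, monotone_const, fun _ => ⟨fun _ => Set.univ, antitone_const,
    fun _ => ⟨∅, fun _ _ _ _ => mem_univ _⟩, (iInter_const _).symm⟩, (iUnion_const _).symm⟩

theorem G2.biInter {ι : Type} {F : Set ι} (hF : F.Finite) (A : ι → Set (Set V))
    (hA : ∀ i, G2 (A i)) : G2 (⋂ i ∈ F, A i) := by
  induction F, hF using Set.Finite.induction_on with
  | empty => simpa using G2.univ
  | insert _ _ ih => rw [biInter_insert]; exact (hA _).inter ih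

variable {ν : Measure (Set V)} {a b y : ℤ}

theorem fkg0 (h : Sys ν a b y) {A B : Set (Set V)} (hA : G0 A) (hB : G0 B) :
    ν A * ν B ≤ ν (A ∩ B) := by
  classical
  obtain ⟨Δ, h1⟩ := hA
  obtain ⟨Δ', h2⟩ := hB
  exact h.fkg (Δ ∪ Δ') A B (up_mono h1 Finset.subset_union_left)
    (up_mono h2 Finset.subset_union_right)

theorem fkg1 (h : Sys ν a b y) {A B : Set (Set V)} (hA : G1 A) (hB : G1 B) :
    ν A * ν B ≤ ν (A ∩ B) := by
  have := h.prob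
  obtain ⟨f, h1, h2, rfl⟩ := hA
  obtain ⟨g, h3, h4, rfl⟩ := hB
  have hA : Antitone fun k => f k ∩ g k := fun _ _ h => inter_subset_inter (h1 h) (h3 h)
  rw [← iInter_inter_distrib, hA.measure_iInter (fun k => by
    obtain ⟨Δ, hΔ⟩ := (h2 k).inter (h4 k)
    exact hΔ.meas.nullMeasurableSet) ⟨0, measure_ne_top _ _⟩]
  exact le_iInf fun k => (mul_le_mul' (measure_mono (iInter_subset f k))
    (measure_mono (iInter_subset g k))).trans (fkg0 h (h2 k) (h4 k))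

theorem fkg2 (h : Sys ν a b y) {A B : Set (Set V)} (hA : G2 A) (hB : G2 B) :
    ν A * ν B ≤ ν (A ∩ B) := by
  obtain ⟨f, h1, h2, rfl⟩ := hA
  obtain ⟨g, h3, h4, rfl⟩ := hB
  rw [h1.measure_iUnion, h3.measure_iUnion, ENNReal.iSup_mul]
  refine iSup_le fun i => ?_
  rw [ENNReal.mul_iSup]
  exact iSup_le fun j => (fkg1 h (h2 i) (h4 j)).trans
    (measure_mono (inter_subset_inter (subset_iUnion f i) (subset_iUnion g j)))

theorem basic (w p : V) (T : Set V) : G2 {L : Set V | ¬ (w ∈ Lᶜ ∧ Tall (Lᶜ \ T) p)} := by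
  classical
  refine ⟨fun M => {L | ¬ (w ∈ Lᶜ ∧ ∃ q, Conn (Lᶜ \ T) p q ∧ (M : ℤ) ≤ |q.2|)}, ?_, fun M => ?_, ?_⟩
  · intro M M' hM L hL ⟨h1, q, h2, h3⟩
    exact hL ⟨h1, q, h2, le_trans (by exact_mod_cast hM) h3⟩
  · refine ⟨fun K => {L | ¬ (w ∈ Lᶜ ∧ ∃ q, Conn ((Lᶜ \ T) ∩ ↑(box (0, 0) K)) p q ∧
      (M : ℤ) ≤ |q.2|)}, ?_, fun K => ⟨insert w (box (0, 0) K), ?_⟩, ?_⟩
    · intro K K' hK L hL ⟨h1, q, h2, h3⟩
      exact hL ⟨h1, q, h2.mono (inter_subset_inter_right _ (box_mono _ hK)), h3⟩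
    · intro L L' hL hm ⟨h1, q, h2, h3⟩
      refine hm ⟨fun hw => h1 (hL w (Finset.mem_insert_self _ _) hw), q, h2.mono ?_, h3⟩
      exact fun z hz => ⟨⟨fun hz' => hz.1.1 (hL z (Finset.mem_insert_of_mem hz.2) hz'),
        hz.1.2⟩, hz.2⟩
    · ext L
      simp only [mem_iInter, mem_ofPred_eq]
      refine ⟨fun hL K ⟨h1, q, h2, h3⟩ => hL ⟨h1, q, h2.mono inter_subset_left, h3⟩,
        fun hL ⟨h1, q, h2, h3⟩ => ?_⟩
      obtain ⟨K, hK⟩ := h2.exists_box (0, 0)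
      exact hL K ⟨h1, q, hK, h3⟩
  · ext L
    simp only [mem_iUnion, mem_ofPred_eq]
    constructor
    · intro hL
      by_contra hc
      push Not at hc
      exact hL ⟨(hc 0).1, fun M => (hc M).2⟩
    · rintro ⟨M, hM⟩ ⟨h1, h2⟩
      exact hM ⟨h1, h2 M⟩

theorem arms (n y : ℤ) (P : ℤ → Prop) (Q : V → Prop) :
    G2 {L : Set V | ∀ x, P x → ¬ ((x, 0) ∈ Lᶜ ∧ -n ≤ x ∧ x ≤ y + n ∧
      ∃ p, Adj (x, 0) p ∧ Q p ∧ Tall (Lᶜ \ slit n y) p)} := by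
  have hF : {u : ℤ × V | P u.1 ∧ -n ≤ u.1 ∧ u.1 ≤ y + n ∧ Adj (u.1, 0) u.2 ∧ Q u.2}.Finite := by
    refine ((finite_Icc (-n) (y + n)).prod
      (finite_nbr ((finite_Icc (-n) (y + n)).image fun x : ℤ => ((x, 0) : V)))).subset ?_
    rintro ⟨x, p⟩ ⟨-, h1, h2, h3, -⟩
    exact ⟨⟨h1, h2⟩, (x, 0), ⟨x, ⟨h1, h2⟩, rfl⟩, h3⟩
  have e : {L : Set V | ∀ x, P x → ¬ ((x, 0) ∈ Lᶜ ∧ -n ≤ x ∧ x ≤ y + n ∧
      ∃ p, Adj (x, 0) p ∧ Q p ∧ Tall (Lᶜ \ slit n y) p)} =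
      ⋂ u ∈ {u : ℤ × V | P u.1 ∧ -n ≤ u.1 ∧ u.1 ≤ y + n ∧ Adj (u.1, 0) u.2 ∧ Q u.2},
        {L : Set V | ¬ ((u.1, 0) ∈ Lᶜ ∧ Tall (Lᶜ \ slit n y) u.2)} := by
    ext L
    simp only [mem_iInter, mem_ofPred_eq]
    exact ⟨fun h u ⟨h1, h2, h3, h4, h5⟩ ⟨h6, h7⟩ => h u.1 h1 ⟨h6, h2, h3, u.2, h4, h5, h7⟩,
      fun h x h1 ⟨h6, h2, h3, p, h4, h5, h7⟩ => h (x, p) ⟨h1, h2, h3, h4, h5⟩ ⟨h6, h7⟩⟩
  rw [e]
  exact G2.biInter hF _ fun u => basic _ _ _

theorem top2 (n y : ℤ) (P : ℤ → Prop) : G2 {L : Set V | ∀ x, P x → ¬ TopArm Lᶜ n y x} :=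
  arms n y P _

theorem bot2 (n y : ℤ) (P : ℤ → Prop) : G2 {L : Set V | ∀ x, P x → ¬ BotArm Lᶜ n y x} :=
  arms n y P _

theorem rf_slit (n y : ℤ) : rf y (slit n y) = slit n y := by
  ext z
  simp only [rf, slit, R, mem_ofPred_eq]
  omega

theorem tall_rf (y : ℤ) (S : Set V) (p : V) : Tall (rf y S) p ↔ Tall S (R y p) := by
  refine forall_congr' fun M => ⟨fun ⟨q, h1, h2⟩ => ⟨R y q, (conn_rf y).1 h1, ?_⟩,
    fun ⟨q, h1, h2⟩ => ⟨R y q, (conn_rf y).2 (by rwa [R_R]), ?_⟩⟩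
  · simpa [R] using h2
  · simpa [R] using h2

theorem top_rf (n y x : ℤ) (S : Set V) : TopArm (rf y S) n y x ↔ BotArm S n y (y - x) := by
  have e : R y (x, 0) = (y - x, 0) := by simp [R]
  have e2 : ∀ p, Tall (rf y S \ slit n y) p ↔ Tall (S \ slit n y) (R y p) := fun p => by
    rw [← tall_rf, rf_diff, rf_slit]
  constructor
  · rintro ⟨h1, h2, h3, p, h4, h5, h6⟩
    refine ⟨e ▸ h1, by omega, by omega, R y p, e ▸ (adj_R y _ _).2 h4, ?_, (e2 p).1 h6⟩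
    simp only [R]
    omega
  · rintro ⟨h1, h2, h3, p, h4, h5, h6⟩
    refine ⟨show R y (x, 0) ∈ S from e ▸ h1, by omega, by omega, R y p, ?_, ?_,
      (e2 _).2 (by rwa [R_R])⟩
    · rw [← adj_R y, e, R_R]
      exact h4
    · simp only [R]
      omega

theorem bot_eq (h : Sys ν a b y) (n : ℤ) (P P' : ℤ → Prop) (hP : ∀ x, P x ↔ P' (y - x)) :
    ν {L | ∀ x, P' x → ¬ BotArm Lᶜ n y x} = ν {L | ∀ x, P x → ¬ TopArm Lᶜ n y x} := by
  have hm : MeasurableSet {L : Set V | ∀ x, P x → ¬ TopArm Lᶜ n y x} :=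
    measurableSet_setOfPred.2 (Measurable.forall fun x =>
      measurable_const.imp (mtop meas_compl n y x).not)
  conv_rhs => rw [← h.sym, Measure.map_apply (meas_rf y) hm]
  congr 1
  ext L
  simp only [mem_preimage, mem_ofPred_eq, ← rf_compl, top_rf]
  refine ⟨fun H x hx => H _ ((hP x).1 hx), fun H x hx => ?_⟩
  have := H (y - x) ((hP _).2 (by rwa [sub_sub_cancel]))
  rwa [sub_sub_cancel] at this

end RootAux

open RootAux in
theorem root_row : RootStmt := by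
  intro ν a b y h n η _ hη h4
  have := h.prob
  have eC : ∀ s : ℤ, ν {L | ∀ x, y - s ≤ x → ¬ BotArm Lᶜ n y x} =
      ν {L | ∀ x, x ≤ s → ¬ TopArm Lᶜ n y x} := fun s =>
    bot_eq h n (fun x => x ≤ s) (fun x => y - s ≤ x) fun x => by omega
  have eD : ∀ s : ℤ, ν {L | ∀ x, x ≤ y - s → ¬ BotArm Lᶜ n y x} =
      ν {L | ∀ x, s ≤ x → ¬ TopArm Lᶜ n y x} := fun s =>
    bot_eq h n (fun x => s ≤ x) (fun x => x ≤ y - s) fun x => by omega
  have key : ∀ s : ℤ, ν {L | ∀ x, x ≤ s → ¬ TopArm Lᶜ n y x} ≤ η ∨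
      ν {L | ∀ x, s + 1 ≤ x → ¬ TopArm Lᶜ n y x} ≤ η := by
    intro s
    by_contra hc
    rw [not_or, not_le, not_le] at hc
    have hA := top2 n y fun x => x ≤ s
    have hB := top2 n y fun x => s + 1 ≤ x
    have hC := bot2 n y fun x => y - s ≤ x
    have hD := bot2 n y fun x => x ≤ y - (s + 1)
    have h1 := (ENNReal.mul_lt_mul hc.1 hc.2).trans_le (fkg2 h hA hB)
    have h2 := (ENNReal.mul_lt_mul (hc.1.trans_eq (eC s).symm)
      (hc.2.trans_eq (eD (s + 1)).symm)).trans_le (fkg2 h hC hD)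
    have h3 := (ENNReal.mul_lt_mul h1 h2).trans_le (fkg2 h (hA.inter hB) (hC.inter hD))
    have h5 : η * η * (η * η) = η ^ 4 := by ring
    rw [h5] at h3
    refine absurd ((measure_mono ?_).trans h4) (not_le.2 h3)
    rintro L ⟨⟨k1, k2⟩, k3, k4⟩ x
    constructor
    · rcases le_or_gt x s with e | e
      · exact k1 x e
      · exact k2 x e
    · rcases le_or_gt (y - s) x with e | e
      · exact k3 x e
      · exact k4 x (by omega)
  obtain ⟨s, hs, hmin⟩ := Int.exists_least_of_bdd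
    (P := fun s : ℤ => ν {L | ∀ x, x ≤ s → ¬ TopArm Lᶜ n y x} ≤ η) ⟨-n, fun s hs => by
      by_contra hc
      have e : {L : Set V | ∀ x, x ≤ s → ¬ TopArm Lᶜ n y x} = univ :=
        eq_univ_of_forall fun L x hx ht => by have := ht.2.1; omega
      rw [e, measure_univ] at hs
      exact absurd hs (not_le.2 hη)⟩ ⟨y + n, (key (y + n)).resolve_right fun hs => by
      have e : {L : Set V | ∀ x, y + n + 1 ≤ x → ¬ TopArm Lᶜ n y x} = univ :=
        eq_univ_of_forall fun L x hx ht => by have := ht.2.2.1; omega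
      rw [e, measure_univ] at hs
      exact absurd hs (not_le.2 hη)⟩
  have hb : ν {L | ∀ x, s ≤ x → ¬ TopArm Lᶜ n y x} ≤ η := by
    have := (key (s - 1)).resolve_left fun hs' => by have := hmin _ hs'; omega
    rwa [sub_add_cancel] at this
  exact ⟨s, hs, hb, (eC s).trans_le hs, (eD s).trans_le hb⟩

end Pool.Agent.MP_151d89_pr.H5
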