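import Pool.Agent.MP_151d89_pr.H5.Meas

/-! A walk between two points of a column separates the points between them from infinity. -/

set_option autoImplicit false
open MeasureTheory Filter Set

namespace Pool.Agent.MP_151d89_pr.H5
open Pool.Agent.MP_151d89_pr.H82 Pool.Agent.MP_151d89_pr.H33

namespace SepAux

/-- a function that is constant along horizontal and upward edges is constant on clusters -/
theorem const {S : Set V} {p q : V} (κ : V → ZMod 2)
    (h0 : ∀ z ∈ S, ∀ z' ∈ S, Adj z z' → z'.2 = z.2 → κ z = κ z')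
    (h1 : ∀ z ∈ S, ∀ z' ∈ S, Adj z z' → z'.2 = z.2 + 1 → κ z = κ z') (h : Conn S p q) :
    κ q = κ p := by
  refine h.ind (fun z => κ z = κ p) rfl fun x y hx ih ha hy => ?_
  have hx' := hx.mem_right
  have : y.2 = x.2 ∨ y.2 = x.2 + 1 ∨ x.2 = y.2 + 1 := by unfold Adj at ha; omega
  rcases this with k | k | k
  · exact (h0 x hx' y hy ha k).symm.trans ih
  · exact (h1 x hx' y hy ha k).symm.trans ih
  · exact (h1 y hy x hx' ha.symm k).trans ih

theorem fin_rows (F : Finset V) (l u : V → ℤ) :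
    {z : V | ∃ w ∈ F, w.2 = z.2 ∧ l w ≤ z.1 ∧ z.1 ≤ u w}.Finite := by
  refine (F.finite_toSet.biUnion fun w _ =>
    (finite_Icc (l w) (u w)).image fun x => (x, w.2)).subset ?_
  rintro z ⟨w, hw, h1, h2, h3⟩
  exact mem_biUnion hw ⟨z.1, ⟨h2, h3⟩, Prod.ext rfl h1⟩

theorem z1 : ∀ a b : ZMod 2, a + b = 0 + 0 → a = b := by decide

theorem z2 : ∀ a b c d c' d' e f : ZMod 2, a + b = e + f → c' = c + e → d' = d + f →
    a + (c + d) = b + (c' + d') := by decide

theorem z3 : ∀ a : ZMod 2, a + a = 0 := by decide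

theorem step (s x y : ℤ) (h : y = x + 1) :
    (if s ≤ y then 1 else 0 : ZMod 2) = (if s ≤ x then 1 else 0) + if s = y then 1 else 0 := by
  split_ifs <;> first | omega | simp

end SepAux

open SepAux in
theorem sep_row (hI : IotaStmt) : SepStmt := by
  intro θ _ j A B hAB t1 t t2 h1 h2
  refine ⟨fun hc ha => ?_, fun hc ha => ?_⟩
  · obtain ⟨F, ι, hF, -, -, c1, c2, c3, c4⟩ := hI _ _ _ hc
    have nF : ∀ z ∈ B ∩ Rt θ j, z ∉ F := fun z hz h => disjoint_left.1 hAB (hF z h).1 hz.1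
    obtain ⟨q, hq, hn⟩ := Inf.exists_notMem ha (fin_rows F (fun w => θ w.2 + j) fun w => w.1)
    have e1 : ι (cp θ j t) = 1 := by
      rw [c4 _ fun w hw e => ?_, if_pos (show (cp θ j t1).2 ≤ (cp θ j t).2 from h1.le),
        if_neg (show ¬ (cp θ j t2).2 ≤ (cp θ j t).2 from h2.not_ge), add_zero]
      have k : θ w.2 + j ≤ w.1 := (hF w hw).2
      have e' : w.2 = t := e
      refine lt_of_le_of_ne (show θ t + j ≤ w.1 from e' ▸ k) fun k' => nF _ hq.1 ?_
      rwa [show cp θ j t = w from Prod.ext k' e.symm]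
    have e2 : ι q = 0 := c3 q fun w hw e => by
      by_contra k
      have k2 : θ q.2 + j ≤ q.1 := hq.mem_right.2
      exact hn ⟨w, hw, e, e ▸ k2, (not_le.1 k).le⟩
    have e3 := const ι (fun z hz z' hz' => c1 z z' (nF z hz) (nF z' hz'))
      (fun z hz z' hz' a e => z1 _ _ (by
        have k : θ z'.2 + j ≤ z'.1 := hz'.2
        have n : ∀ s, ¬ ((cp θ j s).2 = z'.2 ∧ z'.1 < (cp θ j s).1) := fun s hs => by
          have e1 : s = z'.2 := hs.1
          have e2 : z'.1 < θ s + j := hs.2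
          rw [e1] at e2
          omega
        rw [c2 z z' (nF z hz) (nF z' hz') a e, if_neg (n t1), if_neg (n t2)])) hq
    rw [e1, e2] at e3
    exact zero_ne_one e3
  · obtain ⟨F, ι, hF, hp1, hp2, c1, c2, c3, c4⟩ := hI _ _ _ hc
    have nF : ∀ z ∈ B ∩ Lf θ j, z ∉ F := fun z hz h => disjoint_left.1 hAB (hF z h).1 hz.1
    obtain ⟨q, hq, hn⟩ := Inf.exists_notMem ha (fin_rows F (fun w => w.1) fun w => θ w.2 + j)
    have e1 : ι (cp θ j t) = 0 := c3 _ fun w hw e => by
      have k : w.1 ≤ θ w.2 + j := (hF w hw).2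
      have e' : w.2 = t := e
      exact show w.1 ≤ θ t + j from e' ▸ k
    have e2 : ι q = (if t1 ≤ q.2 then 1 else 0) + if t2 ≤ q.2 then 1 else 0 :=
      c4 q fun w hw e => by
        by_contra k
        have k2 : q.1 ≤ θ q.2 + j := hq.mem_right.2
        exact hn ⟨w, hw, e, not_lt.1 k, e ▸ k2⟩
    have e3 := const (fun z => ι z + ((if t1 ≤ z.2 then 1 else 0) + if t2 ≤ z.2 then 1 else 0))
      (fun z hz z' hz' a e => by rw [c1 z z' (nF z hz) (nF z' hz') a e, e])
      (fun z hz z' hz' a e => by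
        have k : z'.1 ≤ θ z'.2 + j := hz'.2
        have n : ∀ s, cp θ j s ∈ F →
            ((cp θ j s).2 = z'.2 ∧ z'.1 < (cp θ j s).1 ↔ s = z'.2) := fun s hs => by
          refine ⟨fun h => h.1, fun h => ⟨h, ?_⟩⟩
          refine lt_of_le_of_ne (show z'.1 ≤ θ s + j from h ▸ k) fun k' => nF _ hz' ?_
          rwa [show z' = cp θ j s from Prod.ext k' h.symm]
        have c := c2 z z' (nF z hz) (nF z' hz') a e
        simp only [n t1 hp1, n t2 hp2] at c
        exact z2 _ _ _ _ _ _ _ _ c (step t1 _ _ e) (step t2 _ _ e)) hq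
    rw [e1, ← e2, z3, if_pos (show t1 ≤ (cp θ j t).2 from h1.le),
      if_neg (show ¬ t2 ≤ (cp θ j t).2 from h2.not_ge)] at e3
    revert e3
    decide

end Pool.Agent.MP_151d89_pr.H5
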