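import Pool.Agent.MP_151d89_pr.H5.Meas

/-! The law of the low set of the two-copy field is a symmetric associated ergodic system. -/

set_option autoImplicit false
open MeasureTheory Filter Set

namespace Pool.Agent.MP_151d89_pr.H5
open Pool.Agent.MP_151d89_pr.H82 Pool.Agent.MP_151d89_pr.H33

namespace SysAux

theorem chi_Tv (y c : ℤ) (v : V) (c0 : ℤ) (ω : X × X) :
    chi y c (Tv v c0 ω.1, Tv (-v) (-c0) ω.2) = sh v (chi y c ω) := by
  ext z
  have e : R y z + -v = R y (z + v) := by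
    unfold R
    ext <;> simp only [Prod.fst_add, Prod.snd_add, Prod.fst_neg, Prod.snd_neg] <;> ring
  simp only [chi, sh, Tv, mem_ofPred_eq, e]
  omega

theorem chi_swap (y c : ℤ) (ω : X × X) : chi y c ω.swap = rf y (chi y c ω) := by
  ext z
  simp only [chi, rf, mem_ofPred_eq, R_R, Prod.fst_swap, Prod.snd_swap]
  omega

theorem map_neg {μ : Measure X} {v : V} {c0 : ℤ} (h : μ.map (Tv v c0) = μ) :
    μ.map (Tv (-v) (-c0)) = μ := by
  conv_lhs => rw [← h, Measure.map_map (meas_Tv _ _) (meas_Tv _ _)]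
  have : Tv (-v) (-c0) ∘ Tv v c0 = id := by
    funext f z
    simp [Tv]
  rw [this, Measure.map_id]

theorem ray_null {μ : Measure X} (hμ : Gibbs μ) (hT : Triv μ) {x e : V} (he : |e.1| + |e.2| = 1)
    (K : ℤ) (hl : μ {f | f x ≤ K} ≠ 0) : μ (Ray x e K) = 0 := by
  by_contra hne
  have h5 : ∀ᵐ f ∂μ, f ∈ Ray x e K := hT _ (meas_Ray x e K) (inv_Ray he x K) hne
  refine hl (measure_eq_zero_iff_ae_notMem.2 ?_)
  filter_upwards [h5, hμ.2.1] with f hf hh
  obtain ⟨m, hm⟩ := Eventually.exists hf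
  have h6 := (lip hh (x + (m : ℤ) • e) (x + ((0 : ℕ) : ℤ) • e)).1
  have h7 := ray_dist he x x m 0 (Nat.zero_le m)
  simp only [sub_self, abs_zero, zero_add] at h7
  have e0 : x + ((0 : ℕ) : ℤ) • e = x := by simp
  have h8 : f (x + ((0 : ℕ) : ℤ) • e) = f x := by rw [e0]
  show ¬ f x ≤ K
  omega

theorem top_low {μ : Measure X} (hμ : Gibbs μ) (hT : Triv μ) (x : V)
    (hl : ∀ m, μ {f | f x ≤ m} ≠ 0) :
    ∀ᵐ f ∂μ, ∀ (K : ℤ) (n : ℕ), ∃ r, n ≤ r ∧ top f x (r + 1) ≤ K := by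
  have h1 : ∀ᵐ f ∂μ, ∀ (K : ℤ) (e : V), |e.1| + |e.2| = 1 → f ∉ Ray x e K := by
    refine ae_all_iff.2 fun K => ae_all_iff.2 fun e => ?_
    by_cases he : |e.1| + |e.2| = 1
    · filter_upwards [measure_eq_zero_iff_ae_notMem.1 (ray_null hμ hT he K (hl K))] with f hf _
        using hf
    · exact Eventually.of_forall fun _ h => absurd h he
  filter_upwards [h1, hμ.2.1] with f hf hh K n
  have hc' : ∀ e : V, ∃ k : ℕ, |e.1| + |e.2| = 1 → f (x + (k : ℤ) • e) ≤ K + k := by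
    intro e
    by_cases he : |e.1| + |e.2| = 1
    · by_contra hc
      push Not at hc
      exact hf K e he (Eventually.of_forall fun k => (hc k).2)
    · exact ⟨0, fun h => absurd h he⟩
  choose N hN using hc'
  refine ⟨n + N (1, 0) + N (-1, 0) + N (0, 1) + N (0, -1), by omega, ?_⟩
  set M := n + N (1, 0) + N (-1, 0) + N (0, 1) + N (0, -1) with hM
  obtain ⟨e, he, h1⟩ := top_dir (f := f) x (M + 1)
  have h3 := hN e he
  have hle : N e ≤ M + 1 := by
    rcases unit_cases he with rfl | rfl | rfl | rfl <;> omega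
  have h4 := (lip hh (x + ((M + 1 : ℕ) : ℤ) • e) (x + (N e : ℤ) • e)).1
  have h5 := ray_dist he x x (M + 1) (N e) hle
  simp only [sub_self, abs_zero, zero_add] at h5
  omega

end SysAux

open SysAux in
theorem sys_row (h1 : FkgStmt) (h2 : ErgStmt) (h3 : ModQStmt) : SysStmt := by
  intro μ hμ hT a b c0 ha hab hb hinv hl y c
  have hp := hμ.1
  have hv : ((a, b) : V) ≠ 0 := fun h => hb.ne' (congrArg Prod.snd h)
  have hΦ : Measurable (Prod.map (Tv (a, b) c0) (Tv (-(a, b)) (-c0))) :=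
    (meas_Tv _ _).prodMap (meas_Tv _ _)
  refine ⟨⟨?_, ha, hab, hb, ?_, fun E hE hi => ?_⟩, ?_, h1 μ hμ hT y c, ?_⟩
  · exact Measure.isProbabilityMeasure_map (meas_chi y c).aemeasurable
  · have e : sh (a, b) ∘ chi y c = chi y c ∘ Prod.map (Tv (a, b) c0) (Tv (-(a, b)) (-c0)) :=
      funext fun ω => (chi_Tv y c (a, b) c0 ω).symm
    unfold nu
    rw [Measure.map_map (meas_sh _) (meas_chi y c), e, ← Measure.map_map (meas_chi y c) hΦ,
      ← Measure.map_prod_map _ _ (meas_Tv _ _) (meas_Tv _ _), hinv, map_neg hinv]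
  · rw [nu_apply μ y c hE, nu_apply μ y c hE.compl]
    exact h2 μ hp hT (a, b) c0 hv hinv _ (meas_chi y c hE) fun ω => by
      rw [mem_preimage, chi_Tv, hi, mem_preimage]
  · have e : rf y ∘ chi y c = chi y c ∘ Prod.swap := funext fun ω => (chi_swap y c ω).symm
    unfold nu
    rw [Measure.map_map (meas_rf _) (meas_chi y c), e,
      ← Measure.map_map (meas_chi y c) measurable_swap, Measure.prod_swap]
  · intro x n E E' hE hE' hlow h0
    by_contra hc
    push Not at hc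
    apply h0
    rw [nu_apply μ y c hE]
    have hz : ∀ (m r : ℕ), n ≤ r → μ.prod μ {ω | chi y c ω ∈ E ∧
        ω.1 x + ω.2 (R y x) ≤ c + 2 * m ∧ top ω.1 x (r + 1) ≤ ω.1 x - 2 * m - 4 * n} = 0 := by
      intro m r hr
      obtain ⟨C, -, hC⟩ := h3 r
      have := hC μ hμ y c x m n E (E' r) (hE' r) (fun L hL L' h => hlow L hL r L' hr h) hr
      rw [hc r, mul_zero] at this
      exact le_antisymm this zero_le
    have ha1 : ∀ᵐ ω ∂μ.prod μ, ∀ m r : ℕ, n ≤ r → ¬ (chi y c ω ∈ E ∧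
        ω.1 x + ω.2 (R y x) ≤ c + 2 * m ∧ top ω.1 x (r + 1) ≤ ω.1 x - 2 * m - 4 * n) := by
      refine ae_all_iff.2 fun m => ae_all_iff.2 fun r => ?_
      by_cases hr : n ≤ r
      · filter_upwards [measure_eq_zero_iff_ae_notMem.1 (hz m r hr)] with ω hω _ using hω
      · exact Eventually.of_forall fun _ h => absurd h hr
    have ha2 := (Measure.quasiMeasurePreserving_fst (μ := μ) (ν := μ)).ae
      (top_low hμ hT x (hl x))
    refine measure_eq_zero_iff_ae_notMem.2 ?_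
    filter_upwards [ha1, ha2] with ω hω hω' hmem
    obtain ⟨r, hr, h4⟩ := hω' (ω.1 x - 2 * ((ω.1 x + ω.2 (R y x) - c).toNat : ℕ) - 4 * n) n
    exact hω _ r hr ⟨hmem, by omega, h4⟩

end Pool.Agent.MP_151d89_pr.H5
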