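import Pool.Agent.MP_151d89_pr.H5.Meas

/-! Uniqueness of the infinite cluster in the absence of trifurcations. -/

set_option autoImplicit false
open MeasureTheory Filter Set

namespace Pool.Agent.MP_151d89_pr.H5
open Pool.Agent.MP_151d89_pr.H82 Pool.Agent.MP_151d89_pr.H33

namespace UniqAux

/-- three different infinite clusters meet the box -/
def E3 (n : ℕ) (L : Set V) : Prop :=
  ∃ p : Fin 3 → V, (∀ i, p i ∈ box (0, 0) n ∧ Inf L (p i)) ∧
    ∀ i i', i ≠ i' → ¬ Conn L (p i) (p i')

/-- exactly two infinite clusters, both meet the box -/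
def E2 (n : ℕ) (L : Set V) : Prop :=
  (∃ p q : V, (p ∈ box (0, 0) n ∧ q ∈ box (0, 0) n) ∧ Inf L p ∧ Inf L q ∧ ¬ Conn L p q) ∧
    ∀ m, ¬ E3 m L

theorem m3 (n : ℕ) : Measurable fun L => E3 n L :=
  Measurable.exists fun p => (Measurable.forall fun i =>
    measurable_const.and (minf measurable_id (p i))).and
    (Measurable.forall fun i => Measurable.forall fun i' =>
      measurable_const.imp (mconn measurable_id (p i) (p i')).not)

theorem m2 (n : ℕ) : Measurable fun L => E2 n L :=
  (Measurable.exists fun p => Measurable.exists fun q => measurable_const.and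
    ((minf measurable_id p).and ((minf measurable_id q).and (mconn measurable_id p q).not))).and
    (Measurable.forall fun m => (m3 m).not)

variable {x : V} {n r : ℕ} {L L' : Set V}

theorem diff_eq (h : Low x n r L L') : L' \ Hub L' x r = L \ Hub L' x r := by
  ext z
  refine ⟨fun hz => ⟨?_, hz.2⟩, fun hz => ⟨h.1 hz.1, hz.2⟩⟩
  by_contra k
  exact hz.2 (h.2.2.2 z hz.1 k)

theorem tri_of (hn : n ≤ r) (h : Low (0, 0) n r L L') (h3 : E3 n L) : Tri L' (0, 0) r := by
  obtain ⟨p, h1, h2⟩ := h3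
  choose q c1 c2 c3 using fun i => (h1 i).2.konig (hub_finite L' (0, 0) r)
  unfold Tri
  rw [diff_eq h]
  refine ⟨q, fun i => ⟨c2 i, (c3 i).resolve_left fun e => ?_⟩, fun i i' hi k => ?_⟩
  · exact (c2 i).mem.2 (e ▸ h.box_hub hn _ (h1 i).1)
  · exact h2 i i' hi (((c1 i).trans (k.mono sdiff_subset)).trans (c1 i').symm)

theorem uniq_of (hn : n ≤ r) (h : Low (0, 0) n r L L') (h2 : E2 n L) : Uniq L' := by
  obtain ⟨⟨p, q, ⟨hp, hq⟩, ip, iq, hpq⟩, h3⟩ := h2
  have key : ∀ z, Inf L' z → Conn L' (0, 0) z := by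
    intro z hz
    obtain ⟨w, c1, c2, -⟩ := hz.konig (hub_finite L' (0, 0) r)
    rw [diff_eq h] at c2
    have c3 : Conn L p w ∨ Conn L q w := by
      by_contra k
      push Not at k
      obtain ⟨m, hm⟩ := exists_box (0, 0) w
      refine h3 (max n m) ⟨![p, q, w], fun i => ?_, fun i i' hi => ?_⟩
      · fin_cases i
        · exact ⟨box_mono _ (le_max_left _ _) hp, ip⟩
        · exact ⟨box_mono _ (le_max_left _ _) hq, iq⟩
        · exact ⟨box_mono _ (le_max_right _ _) hm, c2.mono sdiff_subset⟩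
      · fin_cases i <;> fin_cases i'
        · exact absurd rfl hi
        · exact hpq
        · exact k.1
        · exact fun e => hpq e.symm
        · exact absurd rfl hi
        · exact k.2
        · exact fun e => k.1 e.symm
        · exact fun e => k.2 e.symm
        · exact absurd rfl hi
    rcases c3 with c3 | c3
    · exact ((Conn.mono (h.box_hub hn p hp) inter_subset_left).trans (c3.mono h.1)).trans c1.symm
    · exact ((Conn.mono (h.box_hub hn q hq) inter_subset_left).trans (c3.mono h.1)).trans c1.symm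
  exact fun z z' hz hz' => (key z hz).symm.trans (key z' hz')

theorem uniq_sh (w : V) (L : Set V) : Uniq (sh w L) ↔ Uniq L := by
  constructor
  · intro h p q hp hq
    have := h (p - w) (q - w) ((inf_sh w).2 (by rwa [sub_add_cancel]))
      ((inf_sh w).2 (by rwa [sub_add_cancel]))
    rwa [conn_sh, sub_add_cancel, sub_add_cancel] at this
  · intro h p q hp hq
    exact (conn_sh w).2 (h _ _ ((inf_sh w).1 hp) ((inf_sh w).1 hq))

end UniqAux

open UniqAux

theorem uniq_row : UniqStmt := by
  intro ν a b hS hM hT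
  have mU : MeasurableSet {L : Set V | Uniq L} := measurableSet_setOfPred.2 (muniq measurable_id)
  rcases hS.erg _ mU (fun L => uniq_sh _ L) with h0 | h0
  swap
  · exact h0
  have n3 : ∀ n, ν {L | E3 n L} = 0 := fun n => by
    by_contra k
    obtain ⟨r, hr⟩ := hM (0, 0) n _ (fun r => {L | Tri L (0, 0) r})
      (measurableSet_setOfPred.2 (m3 n))
      (fun r => measurableSet_setOfPred.2 (mtri measurable_id _ r))
      (fun L hL r L' hn h => tri_of hn h hL) k
    exact hr (hT _ r)
  have n2 : ∀ n, ν {L | E2 n L} = 0 := fun n => by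
    by_contra k
    obtain ⟨r, hr⟩ := hM (0, 0) n _ (fun _ => {L | Uniq L}) (measurableSet_setOfPred.2 (m2 n))
      (fun _ => mU) (fun L hL r L' hn h => uniq_of hn h hL) k
    exact hr h0
  have a3 : ∀ᵐ L ∂ν, ∀ n, ¬ E3 n L := ae_all_iff.2 fun n => measure_eq_zero_iff_ae_notMem.1 (n3 n)
  have a2 : ∀ᵐ L ∂ν, ∀ n, ¬ E2 n L := ae_all_iff.2 fun n => measure_eq_zero_iff_ae_notMem.1 (n2 n)
  filter_upwards [a3, a2] with L h3 h2 p q hp hq
  by_contra k
  obtain ⟨n, hn⟩ := exists_box (0, 0) p
  obtain ⟨m, hm⟩ := exists_box (0, 0) q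
  exact h2 (max n m) ⟨⟨p, q, ⟨box_mono _ (le_max_left _ _) hn, box_mono _ (le_max_right _ _) hm⟩,
    hp, hq, k⟩, h3⟩

end Pool.Agent.MP_151d89_pr.H5
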