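import Pool.Agent.MP_151d89_pr.H67.Rows
import Pool.Agent.MP_151d89_pr.H5.Iota
import Pool.Agent.MP_151d89_pr.H5.Sep
import Pool.Agent.MP_151d89_pr.H5.Fin
import Pool.Agent.MP_151d89_pr.H5.Ord
import Pool.Agent.MP_151d89_pr.H5.FourB
import Pool.Agent.MP_151d89_pr.H5.Count
import Pool.Agent.MP_151d89_pr.H5.Merge
import Pool.Agent.MP_151d89_pr.H5.NoTri
import Pool.Agent.MP_151d89_pr.H5.Uniq
import Pool.Agent.MP_151d89_pr.H5.Arms
import Pool.Agent.MP_151d89_pr.H5.Root
import Pool.Agent.MP_151d89_pr.H5.Good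
import Pool.Agent.MP_151d89_pr.H5.Dich
import Pool.Agent.MP_151d89_pr.H5.Neck
import Pool.Agent.MP_151d89_pr.H5.Rare
import Pool.Agent.MP_151d89_pr.H5.Erg
import Pool.Agent.MP_151d89_pr.H5.ModQ
import Pool.Agent.MP_151d89_pr.H5.Sys
import Pool.Agent.MP_151d89_pr.H5.Dom
import Pool.Agent.MP_151d89_pr.H5.Ell
import Pool.Agent.MP_151d89_pr.H5.Slope
import Pool.Agent.MP_151d89_pr.H5.Det
import Pool.Agent.MP_151d89_pr.H5.Far
import Pool.Agent.MP_151d89_pr.H5.Coex
import Pool.Agent.MP_151d89_pr.H5.Parity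
import Pool.Agent.MP_151d89_pr.H5.Main

/-! Assembly. -/

set_option autoImplicit false

namespace Pool.Agent.MP_151d89_pr.H5

theorem sepAll : SepStmt := sep_row iota_row

theorem finAll : FinStmt := fin_row sepAll

theorem dichAll : DichStmt :=
  dich_row (notri_row count_row) uniq_row arms_row root_row good_row finAll (four_rowB iota_row)

theorem farAll : FarStmt :=
  far_row (neck_row finAll (ord_row iota_row)) rare_row (merge_row sepAll) (modq_row modif_row)
    finAll

theorem coexAll : CoexStmt :=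
  coex_row (sys_row fkg_row erg_row (modq_row modif_row)) dichAll farAll ell_row det_row slope_row
    cheb_row

theorem mainAll : MainStmt := main_row coexAll (parity_row dom_row)

end Pool.Agent.MP_151d89_pr.H5
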