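import Pool.Agent.MP_151d89_pr.H33.All

/-! Definitions and row statements for extremal Gibbs measures invariant under one translation. -/

set_option autoImplicit false
open MeasureTheory Filter Set

namespace Pool.Agent.MP_151d89_pr.H5
open Pool.Agent.MP_151d89_pr.H82 Pool.Agent.MP_151d89_pr.H33

abbrev V : Type := ℤ × ℤ

abbrev X : Type := ℤ × ℤ → ℤ

/-- equal or adjacent in the triangular lattice with diagonal (1, 1) -/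
def Adj (p q : V) : Prop :=
  q.1 - p.1 ≤ 1 ∧ p.1 - q.1 ≤ 1 ∧ q.2 - p.2 ≤ 1 ∧ p.2 - q.2 ≤ 1 ∧
    (q.1 - p.1) - (q.2 - p.2) ≤ 1 ∧ (q.2 - p.2) - (q.1 - p.1) ≤ 1

/-- joined by a walk inside S -/
def Conn (S : Set V) (p q : V) : Prop :=
  p ∈ S ∧ Relation.ReflTransGen (fun x y => Adj x y ∧ y ∈ S) p q

/-- the cluster of p in S is infinite -/
def Inf (S : Set V) (p : V) : Prop := {q | Conn S p q}.Infinite

/-- S has an infinite cluster -/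
def Perc (S : Set V) : Prop := ∃ p, Inf S p

/-- S has at most one infinite cluster -/
def Uniq (S : Set V) : Prop := ∀ p q, Inf S p → Inf S q → Conn S p q

/-- admissible column functions -/
def Col (θ : ℤ → ℤ) : Prop := ∀ t, θ t ≤ θ (t + 1) ∧ θ (t + 1) ≤ θ t + 1

/-- the column function in direction (a, b) -/
def th (a b t : ℤ) : ℤ := a * t / b

/-- right half-plane -/
def Rt (θ : ℤ → ℤ) (j : ℤ) : Set V := {z | θ z.2 + j ≤ z.1}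

/-- left half-plane -/
def Lf (θ : ℤ → ℤ) (j : ℤ) : Set V := {z | z.1 ≤ θ z.2 + j}

/-- the point of column j in row t -/
def cp (θ : ℤ → ℤ) (j t : ℤ) : V := (θ t + j, t)

def ArmR (θ : ℤ → ℤ) (j : ℤ) (S : Set V) (t : ℤ) : Prop := Inf (S ∩ Rt θ j) (cp θ j t)

def ArmL (θ : ℤ → ℤ) (j : ℤ) (S : Set V) (t : ℤ) : Prop := Inf (S ∩ Lf θ j) (cp θ j t)

/-- every column has two-sided arms of S arbitrarily high and low -/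
def Good (θ : ℤ → ℤ) (S : Set V) : Prop :=
  ∀ j t, (∃ s, t < s ∧ ArmR θ j S s ∧ ArmL θ j S s) ∧ ∃ s, s < t ∧ ArmR θ j S s ∧ ArmL θ j S s

/-- every cluster of S meets every column in a finite set -/
def FinCol (θ : ℤ → ℤ) (S : Set V) : Prop := ∀ p j, {t | Conn S p (cp θ j t)}.Finite

/-- the horizontal slit -/
def slit (n y : ℤ) : Set V := {z | z.2 = 0 ∧ -n ≤ z.1 ∧ z.1 ≤ y + n}

/-- the cluster of p reaches arbitrarily far rows -/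
def Tall (S : Set V) (p : V) : Prop := ∀ M : ℕ, ∃ q, Conn S p q ∧ (M : ℤ) ≤ |q.2|

def TopArm (S : Set V) (n y x : ℤ) : Prop :=
  (x, 0) ∈ S ∧ -n ≤ x ∧ x ≤ y + n ∧
    ∃ p, Adj (x, 0) p ∧ (p.2 = 1 ∨ (p.2 = 0 ∧ y + n < p.1)) ∧ Tall (S \ slit n y) p

def BotArm (S : Set V) (n y x : ℤ) : Prop :=
  (x, 0) ∈ S ∧ -n ≤ x ∧ x ≤ y + n ∧
    ∃ p, Adj (x, 0) p ∧ (p.2 = -1 ∨ (p.2 = 0 ∧ p.1 < -n)) ∧ Tall (S \ slit n y) p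

/-- the component of x inside the box of radius r -/
def Hub (S : Set V) (x : V) (r : ℕ) : Set V := {z | Conn (S ∩ ↑(box x r)) x z}

/-- trifurcation -/
def Tri (S : Set V) (x : V) (r : ℕ) : Prop :=
  ∃ p : Fin 3 → V, (∀ i, Inf (S \ Hub S x r) (p i) ∧ ∃ w ∈ Hub S x r, Adj w (p i)) ∧
    ∀ i i', i ≠ i' → ¬ Conn (S \ Hub S x r) (p i) (p i')

/-- from p one reaches a row outside [t0, t1] by one step or inside an outer half-plane -/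
def Exit (θ : ℤ → ℤ) (jA jB : ℤ) (S : Set V) (t0 t1 : ℤ) (p : V) : Prop :=
  ∃ q, (Conn (S ∩ Rt θ jB) p q ∨ Conn (S ∩ Lf θ jA) p q ∨ Adj p q) ∧ (q.2 < t0 ∨ t1 < q.2)

/-- L' is L enlarged inside the box of radius r, contains the box of radius n, new points join x -/
def Low (x : V) (n r : ℕ) (L L' : Set V) : Prop :=
  L ⊆ L' ∧ (∀ z, z ∉ box x r → z ∈ L' → z ∈ L) ∧ (∀ z ∈ box x n, z ∈ L') ∧
    ∀ z ∈ L', z ∉ L → z ∈ Hub L' x r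

/-- alternating arms on column j, the last three at distance at most K above t -/
def Neck (θ : ℤ → ℤ) (j : ℤ) (L : Set V) (t : ℤ) (K n K2 : ℕ) : Prop :=
  ∃ (a : Fin (n + 2) → ℤ) (b : Fin (n + 1) → ℤ), (∀ i, ArmR θ j L (a i)) ∧
    (∀ i, ArmR θ j Lᶜ (b i)) ∧ (∀ i : Fin (n + 1), a i.castSucc < b i ∧ b i < a i.succ) ∧
    a (Fin.last n).castSucc = t ∧ a (Fin.last (n + 1)) ≤ t + K ∧ t - K2 ≤ a 0

/-- lowest point on column j of an infinite cluster of the half-plane -/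
def An (θ : ℤ → ℤ) (j : ℤ) (L : Set V) (s : ℤ) : Prop :=
  ArmR θ j L s ∧ ∀ s', s' < s → ¬ Conn (L ∩ Rt θ j) (cp θ j s) (cp θ j s')

/-- the cluster contains two different infinite clusters of the smaller half-plane -/
def Two (θ : ℤ → ℤ) (j k : ℤ) (L : Set V) (s : ℤ) : Prop :=
  ∃ s1 s2, ArmR θ k L s1 ∧ ArmR θ k L s2 ∧ Conn (L ∩ Rt θ j) (cp θ j s) (cp θ k s1) ∧
    Conn (L ∩ Rt θ j) (cp θ j s) (cp θ k s2) ∧ ¬ Conn (L ∩ Rt θ k) (cp θ k s1) (cp θ k s2)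

def Mrg (θ : ℤ → ℤ) (j k : ℤ) (L : Set V) (t : ℤ) (K2 : ℕ) : Prop :=
  ∃ s, t - K2 ≤ s ∧ s ≤ t ∧ An θ j L s ∧ Two θ j k L s

/-- translation of sets -/
def sh (w : V) (L : Set V) : Set V := {z | z + w ∈ L}

/-- the point reflection -/
def R (y : ℤ) (z : V) : V := (y - z.1, -z.2)

/-- point reflection of sets -/
def rf (y : ℤ) (L : Set V) : Set V := {z | R y z ∈ L}

/-- increasing events depending on a finite set -/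
def Up (Δ : Finset V) (A : Set (Set V)) : Prop :=
  ∀ L L' : Set V, (∀ z ∈ Δ, z ∈ L → z ∈ L') → L ∈ A → L' ∈ A

def ModL (ν : Measure (Set V)) : Prop :=
  ∀ (x : V) (n : ℕ) (E : Set (Set V)) (E' : ℕ → Set (Set V)), MeasurableSet E →
    (∀ r, MeasurableSet (E' r)) → (∀ L ∈ E, ∀ r L', n ≤ r → Low x n r L L' → L' ∈ E' r) →
    ν E ≠ 0 → ∃ r, ν (E' r) ≠ 0

/-- random sets: invariant and ergodic under the translation by (a, b) -/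
structure Sys0 (ν : Measure (Set V)) (a b : ℤ) : Prop where
  prob : IsProbabilityMeasure ν
  ha : 0 ≤ a
  hab : a ≤ b
  hb : 0 < b
  inv : ν.map (sh (a, b)) = ν
  erg : ∀ E, MeasurableSet E → (∀ L, sh (a, b) L ∈ E ↔ L ∈ E) → ν E = 0 ∨ ν Eᶜ = 0

/-- symmetric, positively associated, with upward modifications -/
structure Sys (ν : Measure (Set V)) (a b y : ℤ) : Prop extends Sys0 ν a b where
  sym : ν.map (rf y) = ν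
  fkg : ∀ Δ A B, Up Δ A → Up Δ B → ν A * ν B ≤ ν (A ∩ B)
  mod : ModL ν

/-- the distance of the square lattice -/
def d1 (p q : V) : ℤ := |p.1 - q.1| + |p.2 - q.2|

/-- translation with height shift -/
def Tv (v : V) (c : ℤ) (f : X) : X := fun z => f (z + v) - c

/-- the low set of the two-copy field -/
def chi (y c : ℤ) (ω : X × X) : Set V := {z | ω.1 z + ω.2 (R y z) ≤ c}

/-- its law -/
noncomputable def nu (μ : Measure X) (y c : ℤ) : Measure (Set V) := (μ.prod μ).map (chi y c)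

/-- events depending on a finite set -/
def Local (Δ : Finset V) (A : Set X) : Prop :=
  ∀ f g : X, (∀ x ∈ Δ, f x = g x) → f ∈ A → g ∈ A

/-- almost frozen in direction e -/
def AF (μ : Measure X) (e : V) : Prop :=
  |e.1| + |e.2| = 1 ∧ ∀ u : V, ∀ᵐ f ∂μ,
    Tendsto (fun n : ℕ => ((f (u + (n : ℤ) • e) - f u : ℤ) : ℝ) / (n : ℝ)) atTop (nhds 1)

/-! ### planar rows -/

def IotaStmt : Prop :=
  ∀ (A : Set V) (p q : V), Conn A p q → ∃ (F : Finset V) (ι : V → ZMod 2),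
    (∀ w ∈ F, w ∈ A) ∧ p ∈ F ∧ q ∈ F ∧
    (∀ z z' : V, z ∉ F → z' ∉ F → Adj z z' → z'.2 = z.2 → ι z = ι z') ∧
    (∀ z z' : V, z ∉ F → z' ∉ F → Adj z z' → z'.2 = z.2 + 1 →
      ι z + ι z' = (if p.2 = z'.2 ∧ z'.1 < p.1 then 1 else 0) +
        (if q.2 = z'.2 ∧ z'.1 < q.1 then 1 else 0)) ∧
    (∀ z : V, (∀ w ∈ F, w.2 = z.2 → w.1 ≤ z.1) → ι z = 0) ∧
    ∀ z : V, (∀ w ∈ F, w.2 = z.2 → z.1 < w.1) →
      ι z = (if p.2 ≤ z.2 then 1 else 0) + (if q.2 ≤ z.2 then 1 else 0)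

def SepStmt : Prop :=
  ∀ θ, Col θ → ∀ (j : ℤ) (A B : Set V), Disjoint A B → ∀ t1 t t2 : ℤ, t1 < t → t < t2 →
    (Conn (A ∩ Rt θ j) (cp θ j t1) (cp θ j t2) → ¬ ArmR θ j B t) ∧
    (Conn (A ∩ Lf θ j) (cp θ j t1) (cp θ j t2) → ¬ ArmL θ j B t)

def FinStmt : Prop := ∀ θ, Col θ → ∀ A B : Set V, Disjoint A B → Good θ A → FinCol θ B

def OrdStmt : Prop :=
  ∀ θ, Col θ → ∀ i j : ℤ, i ≤ j → ∀ A B : Set V, Disjoint A B → ∀ t u s w : ℤ,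
    t < u → Conn (A ∩ Rt θ i) (cp θ i t) (cp θ j s) → ArmR θ j A s →
    Conn (B ∩ Rt θ i) (cp θ i u) (cp θ j w) → ArmR θ j B w → s < w

def FourStmt : Prop :=
  ∀ (A B : Set V), Disjoint A B → ∀ n y x x' u u' : ℤ, TopArm A n y x → BotArm A n y x' →
    TopArm B n y u → BotArm B n y u' → x < u → u' < x' → Conn A (x, 0) (x', 0) →
    Conn B (u, 0) (u', 0) → False

open Classical in
def CountStmt : Prop :=
  ∀ θ, Col θ → ∀ (jA jB t0 t1 : ℤ) (S : Set V) (r : ℕ) (I : Finset V) (W : Finset V),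
    ¬ Perc (S ∩ Rt θ jB) → ¬ Perc (S ∩ Lf θ jA) → (∀ x ∈ I, Tri S x r) →
    (∀ x ∈ I, ∀ x' ∈ I, x ≠ x' → Disjoint (box x r) (box x' r)) →
    (∀ z : V, z ∈ W ↔ z ∈ Rt θ jA ∧ z ∈ Lf θ jB ∧ t0 ≤ z.2 ∧ z.2 ≤ t1) →
    (∀ x ∈ I, box x (r + 1) ⊆ W) →
    I.card ≤ (W.filter (Exit θ jA jB S t0 t1)).card

def MergeStmt : Prop :=
  ∀ θ, Col θ → ∀ (j t : ℤ) (L L' : Set V) (K n K2 r : ℕ), FinCol θ L → Neck θ j L t K n K2 →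
    (2 * r + 1) ^ 2 < n → K ≤ r → Low (cp θ j t) K r L L' → Mrg θ j (j + 2 * r + 1) L' t K2

/-! ### rows on random sets -/

def NoTriStmt : Prop :=
  ∀ ν a b, Sys0 ν a b → ∀ jA jB : ℤ,
    (∀ᵐ L ∂ν, ¬ Perc (L ∩ Rt (th a b) jB) ∧ ¬ Perc (L ∩ Lf (th a b) jA)) →
    ∀ x r, ν {L | Tri L x r} = 0

def UniqStmt : Prop :=
  ∀ ν a b, Sys0 ν a b → ModL ν → (∀ x r, ν {L | Tri L x r} = 0) → ∀ᵐ L ∂ν, Uniq L

def ArmsStmt : Prop :=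
  ∀ ν a b, Sys0 ν a b → ∀ jA jB : ℤ,
    (∀ᵐ L ∂ν, ¬ Perc (L ∩ Rt (th a b) jB) ∧ ¬ Perc (L ∩ Lf (th a b) jA) ∧ Perc L ∧ Uniq L) →
    ∀ y : ℤ, ∀ᵐ L ∂ν, ∃ n0 : ℕ, ∀ n : ℕ, n0 ≤ n → ∃ x,
      TopArm L n y x ∨ BotArm L n y x

def RootStmt : Prop :=
  ∀ ν a b y, Sys ν a b y → ∀ (n : ℕ) (η : ENNReal), 0 ≤ y + 2 * n → η < 1 →
    ν {L | ∀ x, ¬ TopArm Lᶜ n y x ∧ ¬ BotArm Lᶜ n y x} ≤ η ^ 4 →
    ∃ s : ℤ, ν {L | ∀ x, x ≤ s → ¬ TopArm Lᶜ n y x} ≤ η ∧ ν {L | ∀ x, s ≤ x → ¬ TopArm Lᶜ n y x} ≤ η ∧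
      ν {L | ∀ x, y - s ≤ x → ¬ BotArm Lᶜ n y x} ≤ η ∧
      ν {L | ∀ x, x ≤ y - s → ¬ BotArm Lᶜ n y x} ≤ η

def GoodStmt : Prop :=
  ∀ ν a b, Sys0 ν a b → ModL ν →
    (∀ j, ν {L | Perc (L ∩ Rt (th a b) j)} ≠ 0 ∧ ν {L | Perc (L ∩ Lf (th a b) j)} ≠ 0) →
    ∀ᵐ L ∂ν, Good (th a b) L

def DichStmt : Prop :=
  ∀ ν a b y, 0 ≤ y → Sys ν a b y → Sys (ν.map compl) a b y → ν {L | Perc L} ≠ 0 →
    ν {L | Perc Lᶜ} ≠ 0 → ∀ᵐ L ∂ν, Good (th a b) L ∧ Good (th a b) Lᶜ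

def NeckStmt : Prop :=
  ∀ ν a b, Sys0 ν a b → (∀ᵐ L ∂ν, Good (th a b) L ∧ Good (th a b) Lᶜ) →
    ∃ (p : ENNReal) (K : ℕ), p ≠ 0 ∧ ∀ n : ℕ, ∃ K2 : ℕ, ∀ j : ℤ, 0 ≤ j → ∃ t : ℤ,
      p ≤ ν {L | Neck (th a b) j L t K n K2}

def RareStmt : Prop :=
  ∀ ν a b, Sys0 ν a b → (∀ᵐ L ∂ν, FinCol (th a b) L) → ∀ (d K2 : ℕ) (η : ENNReal), η ≠ 0 →
    ∃ J : ℤ, ∀ j, J ≤ j → ∀ t, ν {L | Mrg (th a b) j (j + d) L t K2} ≤ η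

/-! ### rows on Gibbs measures -/

/-- mean height difference -/
noncomputable def ell (μ : Measure X) (z : V) : ℝ := ∫ f, ((f z : ℝ) - (f (0, 0) : ℝ)) ∂μ

/-- Chebyshev bound for height differences -/
def Cheb (μ : Measure X) : Prop :=
  ∀ (x y : V) (t : ℝ), 0 < t →
    μ {f | t ≤ |((f x : ℝ) - (f y : ℝ)) - ∫ g, ((g x : ℝ) - (g y : ℝ)) ∂μ|} ≤
      ENNReal.ofReal (2 * (d1 x y : ℝ) / t ^ 2)

def ChebStmt : Prop := ∀ μ : Measure X, Gibbs μ → Triv μ → Cheb μ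

def ModifStmt : Prop :=
  ∀ μ : Measure X, Gibbs μ → ∀ (u : V) (r : ℕ) (B : Set X),
    μ {f | Hom f ∧ ∃ g ∈ B, Hom g ∧ ∀ x, x ∉ box u r → g x = f x} ≤ 2 ^ ((2 * r + 1) ^ 2) * μ B

def FkgStmt : Prop :=
  ∀ μ : Measure X, Gibbs μ → Triv μ → ∀ (y c : ℤ) (Δ : Finset V) (A B : Set (Set V)),
    Up Δ A → Up Δ B → nu μ y c A * nu μ y c B ≤ nu μ y c (A ∩ B)

def ErgStmt : Prop :=
  ∀ μ : Measure X, IsProbabilityMeasure μ → Triv μ → ∀ (v : V) (c0 : ℤ), v ≠ 0 →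
    μ.map (Tv v c0) = μ → ∀ E : Set (X × X), MeasurableSet E →
      (∀ ω : X × X, (Tv v c0 ω.1, Tv (-v) (-c0) ω.2) ∈ E ↔ ω ∈ E) →
      μ.prod μ E = 0 ∨ μ.prod μ Eᶜ = 0

def ModQStmt : Prop :=
  ∀ r : ℕ, ∃ C : ENNReal, C ≠ ⊤ ∧ ∀ μ : Measure X, Gibbs μ → ∀ (y c : ℤ) (x : V) (m n : ℕ)
    (E E' : Set (Set V)), MeasurableSet E' → (∀ L ∈ E, ∀ L', Low x n r L L' → L' ∈ E') → n ≤ r →
    μ.prod μ {ω | chi y c ω ∈ E ∧ ω.1 x + ω.2 (R y x) ≤ c + 2 * m ∧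
      top ω.1 x (r + 1) ≤ ω.1 x - 2 * m - 4 * n} ≤ C * nu μ y c E'

def SysStmt : Prop :=
  ∀ μ : Measure X, Gibbs μ → Triv μ → ∀ a b c0 : ℤ, 0 ≤ a → a ≤ b → 0 < b →
    μ.map (Tv (a, b) c0) = μ → (∀ x m, μ {f | f x ≤ m} ≠ 0) → ∀ y c, Sys (nu μ y c) a b y

def DomStmt : Prop :=
  ∀ μ1 μ2 : Measure X, Gibbs μ1 → Gibbs μ2 →
    (∀ᵐ ω ∂(μ1.prod μ2), (ω.1 (0, 0) - ω.2 (0, 0)) % 2 = 0 ∧ ¬ Perc {z | ω.1 z < ω.2 z}) →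
    ∀ x t, μ2 {g | t ≤ g x} ≤ μ1 {f | t ≤ f x}

def EllStmt : Prop :=
  ∀ μ : Measure X, Gibbs μ → Cheb μ → (∀ z z', ell μ z - ell μ z' ≤ d1 z z') ∧
    (∀ v c0, μ.map (Tv v c0) = μ → ∀ z, ell μ (z + v) = ell μ z + c0) ∧
    (∀ p : ℝ, 0 < p → ∃ C : ℝ, ∀ (z z' : V) (K : ℤ),
      p ≤ μ.real {f | d1 z z' - K ≤ f z' - f z} →
        ell μ z + d1 z z' - K - C * √(d1 z z') ≤ ell μ z') ∧
    ∀ η : ℝ, 0 < η → ∃ C : ℝ, ∀ z,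
      μ.real {f | C * (1 + √(d1 (0, 0) z)) < |(f z : ℝ) - ell μ z|} ≤ η

def SlopeStmt : Prop :=
  ∀ μ : Measure X, Gibbs μ → Cheb μ → ∀ e : V, |e.1| + |e.2| = 1 →
    (∀ ε : ℝ, 0 < ε → ∀ᶠ n : ℕ in atTop, (1 - ε) * n ≤ ell μ ((n : ℤ) • e)) → AF μ e

def DetStmt : Prop :=
  ∀ (l : V → ℝ) (a b c0 : ℤ) (K C : ℝ), 0 ≤ a → a ≤ b → 0 < b → |c0| < a + b →
    (∀ z z', l z - l z' ≤ d1 z z') → (∀ z, l (z + (a, b)) = l z + c0) →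
    (∀ r : ℕ, ∃ J : ℤ, ∀ z ∈ Rt (th a b) J,
      (∃ e : V, |e.1| + |e.2| = 1 ∧ l z + r - K - C * √r ≤ l (z + (r : ℤ) • e)) ∧
      ∃ e : V, |e.1| + |e.2| = 1 ∧ l (z + (r : ℤ) • e) ≤ l z - r + K + C * √r) →
    ∃ e : V, |e.1| + |e.2| = 1 ∧ (∀ J, ∀ᶠ n : ℕ in atTop, (n : ℤ) • e ∈ Rt (th a b) J) ∧
      ((∀ ε : ℝ, 0 < ε → ∀ᶠ n : ℕ in atTop, (1 - ε) * n ≤ l ((n : ℤ) • e)) ∨
        ∀ ε : ℝ, 0 < ε → ∀ᶠ n : ℕ in atTop, l ((n : ℤ) • e) ≤ -(1 - ε) * n)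

def FarStmt : Prop :=
  ∀ μ : Measure X, Gibbs μ → ∀ a b c0 y c : ℤ, μ.map (Tv (a, b) c0) = μ → Sys0 (nu μ y c) a b →
    (∀ᵐ L ∂(nu μ y c), Good (th a b) L ∧ Good (th a b) Lᶜ) →
    ∃ (p : ℝ) (K : ℤ), 0 < p ∧ p ≤ 1 ∧ ∀ r : ℕ, ∃ J : ℤ, ∀ z ∈ Rt (th a b) J,
      (∃ e : V, |e.1| + |e.2| = 1 ∧ p ≤ μ.real {f | r - K ≤ f (z + (r : ℤ) • e) - f z}) ∧
      p ≤ (μ.prod μ).real {ω | c - K ≤ ω.1 z + ω.2 (R y z)}

/-- the standing hypotheses after normalisation -/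
structure Std (μ : Measure X) (a b c0 : ℤ) : Prop where
  gibbs : Gibbs μ
  triv : Triv μ
  ha : 0 ≤ a
  hab : a ≤ b
  hb : 0 < b
  hc : |c0| < a + b
  inv : μ.map (Tv (a, b) c0) = μ
  low : ∀ x m, μ {f | f x ≤ m} ≠ 0
  high : ∀ x m, μ {f | m ≤ f x} ≠ 0

def CoexStmt : Prop :=
  ∀ μ a b c0, Std μ a b c0 → ∀ y c : ℤ, 0 ≤ y → nu μ y c {L | Perc L} ≠ 0 →
    nu μ y c {L | Perc Lᶜ} ≠ 0 → ∃ e, AF μ e

def ParityStmt : Prop :=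
  ∀ μ : Measure X, Gibbs μ → Triv μ →
    (∀ y c : ℤ, 0 ≤ y → nu μ y c {L | Perc L} = 0 ∨ nu μ y c {L | Perc Lᶜ} = 0) → ∃ e, AF μ e

def MainStmt : Prop :=
  ∀ μ : Measure X, Gibbs μ → FinalAux.Ext μ → ∀ (v : V) (c0 : ℤ), v ≠ 0 →
    μ.map (Tv v c0) = μ → ∃ e, AF μ e

end Pool.Agent.MP_151d89_pr.H5
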