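import Pool.Agent.MP_151d89_pr.H5.Meas

/-! Four alternating arms from the slit are incompatible with two crossing connections. -/

set_option autoImplicit false
open MeasureTheory Filter Set

namespace Pool.Agent.MP_151d89_pr.H5
open Pool.Agent.MP_151d89_pr.H82 Pool.Agent.MP_151d89_pr.H33

namespace FourAux

theorem add_zero_iff (a b : ZMod 2) : a + b = 0 ↔ a = b := by revert a b; decide

theorem const {S : Set V} (J : V → ZMod 2)
    (hH : ∀ z z', z ∈ S → z' ∈ S → Adj z z' → z'.2 = z.2 → J z = J z')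
    (hV : ∀ z z', z ∈ S → z' ∈ S → Adj z z' → z'.2 = z.2 + 1 → J z + J z' = 0) {p q : V}
    (h : Conn S p q) : J p = J q := by
  refine h.ind (fun z => J p = J z) rfl fun z z' hz ih ha hz' => ih.trans ?_
  have h1 : z'.2 = z.2 ∨ z'.2 = z.2 + 1 ∨ z.2 = z'.2 + 1 := by unfold Adj at ha; omega
  rcases h1 with h1 | h1 | h1
  · exact hH z z' hz.mem_right hz' ha h1
  · exact (add_zero_iff _ _).1 (hV z z' hz.mem_right hz' ha h1)
  · exact ((add_zero_iff _ _).1 (hV z' z hz' hz.mem_right ha.symm h1)).symm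

theorem rows (F : Finset V) : ∃ M : ℕ, ∀ w ∈ F, |w.2| < M := by
  refine ⟨F.sup (fun w => w.2.natAbs) + 1, fun w hw => ?_⟩
  have : w.2.natAbs ≤ F.sup fun w => w.2.natAbs := Finset.le_sup (f := fun w : V => w.2.natAbs) hw
  rw [Int.abs_eq_natAbs]
  omega

theorem slit_conn {n y a b : ℤ} (ha : -n ≤ a) (hab : a ≤ b) (hb : b ≤ y + n) :
    Conn (slit n y) (a, 0) (b, 0) := by
  induction b, hab using Int.leInduction with
  | base => exact Conn.refl ⟨rfl, ha, hb⟩
  | succ b hab ih =>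
    exact (ih (by omega)).tail (by unfold Adj; simp only; omega) ⟨rfl, by simp only; omega, hb⟩

theorem slit_const {n y a b : ℤ} (ha : -n ≤ a) (ha' : a ≤ y + n) (hb : -n ≤ b) (hb' : b ≤ y + n)
    {F : Finset V} {J : V → ZMod 2} (hF : ∀ w ∈ F, w ∉ slit n y)
    (hH : ∀ z z' : V, z ∉ F → z' ∉ F → Adj z z' → z'.2 = z.2 → J z = J z') :
    J (a, 0) = J (b, 0) := by
  have key : ∀ {c d : ℤ}, -n ≤ c → c ≤ d → d ≤ y + n → J (c, 0) = J (d, 0) := fun h1 h2 h3 =>
    const J (fun z z' hz hz' => hH z z' (fun h => hF _ h hz) fun h => hF _ h hz')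
      (fun z z' hz hz' _ h => by have := hz.1; have := hz'.1; omega) (slit_conn h1 h2 h3)
  rcases le_total a b with h | h
  · exact key ha h hb'
  · exact (key hb h ha').symm

end FourAux

open FourAux in
theorem four_row (hI : IotaStmt) : FourStmt := by
  rintro A B hd n y x x' u u' ⟨hx, hx1, hx2, p, hp, hp2, hpT⟩ ⟨hx', hx1', hx2', p', hp', hp2', hpT'⟩
    ⟨hu, hu1, hu2, r, hr, hr2, hrT⟩ ⟨hu', hu1', hu2', r', hr', hr2', hrT'⟩ hxu hux hA hB
  have hAB : ∀ {z : V}, z ∈ A → z ∈ B → False := fun h1 h2 => Set.disjoint_left.1 hd h1 h2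
  replace hp2 : p.2 = 1 := hp2.resolve_right fun h => by unfold Adj at hp; simp only at hp; omega
  replace hp2' : p'.2 = -1 :=
    hp2'.resolve_right fun h => by unfold Adj at hp'; simp only at hp'; omega
  have hne : u' ≠ x := fun h => hAB hx (h ▸ hu')
  have hne' : u ≠ x' := fun h => hAB hx' (h ▸ hu)
  obtain ⟨β, hβ, hβc⟩ := hB.finite
  obtain ⟨M, hM⟩ := rows β
  obtain ⟨q, hq, hq2⟩ := hpT M
  obtain ⟨q', hq', hq2'⟩ := hpT' M
  obtain ⟨F1, i1, f1, -, -, H1, V1, R1, L1⟩ := hI {(x, 0), p} (x, 0) p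
    (conn_of_adj (by simp) (by simp) hp)
  obtain ⟨F2, i2, f2, -, -, H2, V2, -, -⟩ := hI _ _ _ hq
  obtain ⟨F3, i3, f3, -, -, H3, V3, R3, -⟩ := hI _ _ _ hA
  obtain ⟨F4, i4, f4, -, -, H4, V4, R4, L4⟩ := hI {(x', 0), p'} (x', 0) p'
    (conn_of_adj (by simp) (by simp) hp')
  obtain ⟨F5, i5, f5, -, -, H5, V5, -, -⟩ := hI _ _ _ hq'
  have n1 : ∀ {z : V}, z ∈ B → z ∉ F1 := fun hz h => by
    rcases f1 _ h with rfl | rfl
    · exact hAB hx hz
    · exact hAB hq.1.1 hz
  have n2 : ∀ {z : V}, z ∈ B → z ∉ F2 := fun hz h => hAB (f2 _ h).1 hz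
  have n3 : ∀ {z : V}, z ∈ B → z ∉ F3 := fun hz h => hAB (f3 _ h) hz
  have n4 : ∀ {z : V}, z ∈ B → z ∉ F4 := fun hz h => by
    rcases f4 _ h with rfl | rfl
    · exact hAB hx' hz
    · exact hAB hq'.1.1 hz
  have n5 : ∀ {z : V}, z ∈ B → z ∉ F5 := fun hz h => hAB (f5 _ h).1 hz
  have main := const (fun z => i1 z + i2 z + i3 z + i4 z + i5 z)
    (fun z z' hz hz' ha h => by
      have b := hβ z hz
      have b' := hβ z' hz'
      simp only [H1 z z' (n1 b) (n1 b') ha h, H2 z z' (n2 b) (n2 b') ha h,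
        H3 z z' (n3 b) (n3 b') ha h, H4 z z' (n4 b) (n4 b') ha h, H5 z z' (n5 b) (n5 b') ha h])
    (fun z z' hz hz' ha h => by
      have b := hβ z hz
      have b' := hβ z' hz'
      have e1 := V1 z z' (n1 b) (n1 b') ha h
      have e2 := V2 z z' (n2 b) (n2 b') ha h
      have e3 := V3 z z' (n3 b) (n3 b') ha h
      have e4 := V4 z z' (n4 b) (n4 b') ha h
      have e5 := V5 z z' (n5 b) (n5 b') ha h
      have hz2 := hM z' hz'
      rw [if_neg (show ¬ (q.2 = z'.2 ∧ z'.1 < q.1) from fun h => by rw [h.1] at hq2; omega)] at e2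
      rw [if_neg (show ¬ (q'.2 = z'.2 ∧ z'.1 < q'.1) from fun h => by rw [h.1] at hq2'; omega)]
        at e5
      have two : ∀ a : ZMod 2, a + a = 0 := by decide
      linear_combination e1 + e2 + e3 + e4 + e5 +
        two (if ((x, 0) : V).2 = z'.2 ∧ z'.1 < ((x, 0) : V).1 then 1 else 0) +
        two (if p.2 = z'.2 ∧ z'.1 < p.1 then 1 else 0) +
        two (if ((x', 0) : V).2 = z'.2 ∧ z'.1 < ((x', 0) : V).1 then 1 else 0) +
        two (if p'.2 = z'.2 ∧ z'.1 < p'.1 then 1 else 0))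
    hβc
  have s2 : i2 (u, 0) = i2 (u', 0) := slit_const hu1 hu2 hu1' hu2' (fun w h => (f2 w h).2) H2
  have s5 : i5 (u, 0) = i5 (u', 0) := slit_const hu1 hu2 hu1' hu2' (fun w h => (f5 w h).2) H5
  have c1 : ∀ w ∈ F1, w.2 = 0 → w.1 = x := fun w h h0 => by
    rcases f1 _ h with rfl | rfl
    · rfl
    · omega
  have c4 : ∀ w ∈ F4, w.2 = 0 → w.1 = x' := fun w h h0 => by
    rcases f4 _ h with rfl | rfl
    · rfl
    · omega
  have a1 : i1 (u, 0) = 0 := R1 _ fun w h h0 => by have := c1 w h h0; simp only; omega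
  have a1' : i1 (u', 0) = if u' < x then 1 else 0 := by
    split_ifs with h
    · rw [L1 _ fun w hw h0 => by have := c1 w hw h0; simp only; omega]
      simp [hp2]
    · exact R1 _ fun w hw h0 => by have := c1 w hw h0; simp only; omega
  have a4 : ∀ w : ℤ, w ≠ x' → i4 (w, 0) = 0 := fun w hw => by
    rcases lt_or_gt_of_ne hw with h | h
    · rw [L4 _ fun v hv h0 => by have := c4 v hv h0; simp only; omega]
      rw [if_pos (le_refl _), if_pos (by simp only [hp2']; omega)]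
      decide
    · exact R4 _ fun v hv h0 => by have := c4 v hv h0; simp only; omega
  have far : ∀ z : V, Tall (B \ slit n y) z → i3 z = 0 := fun z hz => by
    obtain ⟨M', hM'⟩ := rows F3
    obtain ⟨w, hw, hw2⟩ := hz M'
    rw [const i3 (fun a b ha hb => H3 a b (n3 ha.1) (n3 hb.1)) (fun a b ha hb hab h => ?_) hw]
    · exact R3 _ fun v hv h0 => by have := hM' v hv; rw [h0] at this; omega
    · rw [V3 a b (n3 ha.1) (n3 hb.1) hab h, add_zero_iff]
      have h1 : ¬ (b.2 = 0 ∧ -n ≤ b.1 ∧ b.1 ≤ y + n) := hb.2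
      simp only
      split_ifs <;> first | rfl | omega
  have mem : ∀ z : V, Tall (B \ slit n y) z → z ∈ B := fun z hz => (hz 0).choose_spec.1.1.1
  have a3 : i3 (u, 0) = 0 := by
    rw [← far r hrT]
    rcases hr2 with h | h
    · rw [← add_zero_iff, V3 _ _ (n3 hu) (n3 (mem r hrT)) hr (by simp [h])]
      simp [h]
    · exact H3 _ _ (n3 hu) (n3 (mem r hrT)) hr h.1
  have a3' : i3 (u', 0) = (if u' < x then 1 else 0) + 1 := by
    rcases hr2' with h | h
    · have := V3 _ _ (n3 (mem r' hrT')) (n3 hu') hr'.symm (by simp [h])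
      rw [far r' hrT', zero_add] at this
      rw [this]
      simp [hux]
    · rw [H3 _ _ (n3 hu') (n3 (mem r' hrT')) hr' h.1, far r' hrT',
        if_pos (by unfold Adj at hr'; simp only at hr'; omega)]
      decide
  simp only [a1, a1', a3, a3', a4 u hne', a4 u' hux.ne, s2, s5] at main
  generalize (if u' < x then (1 : ZMod 2) else 0) = a at main
  generalize i2 (u', 0) = b at main
  generalize i5 (u', 0) = c at main
  revert a b c
  decide

end Pool.Agent.MP_151d89_pr.H5
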