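import Pool.Agent.MP_151d89_pr.H5.Meas

/-! Two-sided arms on every column, arbitrarily high and low. -/

set_option autoImplicit false
open MeasureTheory Filter Set

namespace Pool.Agent.MP_151d89_pr.H5
open Pool.Agent.MP_151d89_pr.H82 Pool.Agent.MP_151d89_pr.H33

namespace GoodAux

/-- along the column inside the box -/
theorem col_conn {θ : ℤ → ℤ} (h : Col θ) (j : ℤ) {n : ℕ} {S : Set V} {s : ℤ}
    (hS : ∀ u, -(n : ℤ) ≤ u → u ≤ n → cp θ j u ∈ S) (h1 : -(n : ℤ) ≤ s) (h2 : s ≤ n) :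
    Conn S (cp θ j s) (cp θ j 0) := by
  rcases le_total s 0 with e | e
  · exact h.conn_cp e fun u h3 h4 => hS u (by omega) (by omega)
  · exact (h.conn_cp e fun u h3 h4 => hS u (by omega) (by omega)).symm

theorem armR_of_box {θ : ℤ → ℤ} (h : Col θ) (j : ℤ) {n : ℕ} {L : Set V} {p : V}
    (hL : ∀ z ∈ box (cp θ j 0) n, z ∈ L) (hp : p ∈ box (cp θ j 0) n)
    (hi : Inf (L ∩ Rt θ j) p) : ArmR θ j L 0 := by
  have hp' := mem_box.1 hp
  have hpR : θ p.2 + j ≤ p.1 := hi.mem.2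
  have hb : ∀ u, -(n : ℤ) ≤ u → u ≤ n → cp θ j u ∈ box (cp θ j 0) n :=
    fun u h1 h2 => h.cp_mem_box (by omega) (by omega)
  simp only [cp] at hp'
  have h0 := mem_box.1 (hb p.2 (by omega) (by omega))
  simp only [cp] at h0
  have h1 : Conn (L ∩ Rt θ j) (θ p.2 + j, p.2) (p.1, p.2) :=
    conn_row hpR fun x h1 h2 => ⟨hL _ (by rw [mem_box]; simp only [cp]; omega), h1⟩
  have h2 : Conn (L ∩ Rt θ j) (cp θ j p.2) (cp θ j 0) :=
    col_conn h j (fun u h3 h4 => ⟨hL _ (hb u h3 h4), cp_mem_Rt le_rfl⟩) (by omega) (by omega)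
  exact hi.conn (h1.symm.trans h2)

theorem armL_of_box {θ : ℤ → ℤ} (h : Col θ) (j : ℤ) {n : ℕ} {L : Set V} {p : V}
    (hL : ∀ z ∈ box (cp θ j 0) n, z ∈ L) (hp : p ∈ box (cp θ j 0) n)
    (hi : Inf (L ∩ Lf θ j) p) : ArmL θ j L 0 := by
  have hp' := mem_box.1 hp
  have hpL : p.1 ≤ θ p.2 + j := hi.mem.2
  have hb : ∀ u, -(n : ℤ) ≤ u → u ≤ n → cp θ j u ∈ box (cp θ j 0) n :=
    fun u h1 h2 => h.cp_mem_box (by omega) (by omega)
  simp only [cp] at hp'
  have h0 := mem_box.1 (hb p.2 (by omega) (by omega))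
  simp only [cp] at h0
  have h1 : Conn (L ∩ Lf θ j) (p.1, p.2) (θ p.2 + j, p.2) :=
    conn_row hpL fun x h1 h2 => ⟨hL _ (by rw [mem_box]; simp only [cp]; omega), h2⟩
  have h2 : Conn (L ∩ Lf θ j) (cp θ j p.2) (cp θ j 0) :=
    col_conn h j (fun u h3 h4 => ⟨hL _ (hb u h3 h4), cp_mem_Lf le_rfl⟩) (by omega) (by omega)
  exact hi.conn (h1.trans h2)

theorem two_arms {ν : Measure (Set V)} {a b : ℤ} (h : Sys0 ν a b) (hm : ModL ν) (j : ℤ)
    (hR : ν {L | Perc (L ∩ Rt (th a b) j)} ≠ 0) (hL : ν {L | Perc (L ∩ Lf (th a b) j)} ≠ 0) :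
    ν {L | ArmR (th a b) j L 0 ∧ ArmL (th a b) j L 0} ≠ 0 := by
  have := h.prob
  have aR : ∀ᵐ L ∂ν, L ∈ {L | Perc (L ∩ Rt (th a b) j)} := by
    refine h.ae_of_inv (measurableSet_setOfPred.2 (mperc (minter measurable_id measurable_const)))
      (fun L => ?_) hR
    have e := sh_Rt h.hb 1 j (a := a)
    rw [one_smul] at e
    simp only [mem_ofPred_eq]
    rw [← perc_sh (S := L ∩ Rt (th a b) j) (a, b), sh_inter, e]
  have aL : ∀ᵐ L ∂ν, L ∈ {L | Perc (L ∩ Lf (th a b) j)} := by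
    refine h.ae_of_inv (measurableSet_setOfPred.2 (mperc (minter measurable_id measurable_const)))
      (fun L => ?_) hL
    have e := sh_Lf h.hb 1 j (a := a)
    rw [one_smul] at e
    simp only [mem_ofPred_eq]
    rw [← perc_sh (S := L ∩ Lf (th a b) j) (a, b), sh_inter, e]
  obtain ⟨n, hn⟩ : ∃ n : ℕ, ν {L | (∃ p, p ∈ box (cp (th a b) j 0) n ∧ Inf (L ∩ Rt (th a b) j) p) ∧
      ∃ p, p ∈ box (cp (th a b) j 0) n ∧ Inf (L ∩ Lf (th a b) j) p} ≠ 0 := by
    by_contra hc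
    push Not at hc
    have h1 : ∀ᵐ L ∂ν, ∀ n : ℕ,
        ¬ ((∃ p, p ∈ box (cp (th a b) j 0) n ∧ Inf (L ∩ Rt (th a b) j) p) ∧
          ∃ p, p ∈ box (cp (th a b) j 0) n ∧ Inf (L ∩ Lf (th a b) j) p) :=
      ae_all_iff.2 fun n => (measure_eq_zero_iff_ae_notMem.1 (hc n))
    have h2 : ∀ᵐ _L ∂ν, False := by
      filter_upwards [aR, aL, h1] with L ⟨p, hp⟩ ⟨q, hq⟩ h3
      obtain ⟨n1, h4⟩ := exists_box (cp (th a b) j 0) p
      obtain ⟨n2, h5⟩ := exists_box (cp (th a b) j 0) q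
      exact h3 (max n1 n2) ⟨⟨p, box_mono _ (le_max_left _ _) h4, hp⟩,
        q, box_mono _ (le_max_right _ _) h5, hq⟩
    exact (eventually_const.1 h2)
  obtain ⟨r, hr⟩ := hm (cp (th a b) j 0) n _
    (fun _ => {L | ArmR (th a b) j L 0 ∧ ArmL (th a b) j L 0})
    (measurableSet_setOfPred.2
      ((Measurable.exists fun p => measurable_const.and
        (minf (minter measurable_id measurable_const) p)).and
       (Measurable.exists fun p => measurable_const.and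
        (minf (minter measurable_id measurable_const) p))))
    (fun _ => measurableSet_setOfPred.2
      ((marmR measurable_id _ j 0).and (marmL measurable_id _ j 0)))
    (by
      rintro L ⟨⟨p, hp, hi⟩, q, hq, hj⟩ r L' - hl
      exact ⟨armR_of_box h.col j hl.2.2.1 hp (hi.mono (inter_subset_inter_left _ hl.1)),
        armL_of_box h.col j hl.2.2.1 hq (hj.mono (inter_subset_inter_left _ hl.1))⟩) hn
  exact hr

end GoodAux

theorem good_row : GoodStmt := by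
  intro ν a b h hm hP
  refine ae_all_iff.2 fun j => ?_
  have h0 := GoodAux.two_arms h hm j (hP j).1 (hP j).2
  have hb := h.hb
  filter_upwards [h.io (measurableSet_setOfPred.2
      ((marmR measurable_id _ j 0).and (marmL measurable_id _ j 0))) h0] with L hL t
  obtain ⟨⟨m, h1, h2, h3⟩, -⟩ := hL (|t| + 1)
  obtain ⟨-, m', h4, h5, h6⟩ := hL (-(|t| + 1))
  have h7 := le_abs_self t
  have h8 := neg_abs_le t
  have h9 := abs_nonneg t
  exact ⟨⟨0 + m * b, by nlinarith, (armR_sh hb m j 0).1 h2, (armL_sh hb m j 0).1 h3⟩,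
    0 + m' * b, by nlinarith, (armR_sh hb m' j 0).1 h5, (armL_sh hb m' j 0).1 h6⟩

end Pool.Agent.MP_151d89_pr.H5
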