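import Pool.Agent.MP_151d89_pr.H5.Defs

/-! Basic facts on clusters, columns, symmetries. -/

set_option autoImplicit false
open MeasureTheory Filter Set

namespace Pool.Agent.MP_151d89_pr.H5
open Pool.Agent.MP_151d89_pr.H82 Pool.Agent.MP_151d89_pr.H33

variable {S T A : Set V} {p q r : V}

theorem Adj.refl (p : V) : Adj p p := by unfold Adj; omega

theorem Adj.symm (h : Adj p q) : Adj q p := by unfold Adj at *; omega

theorem adj_of_nn (h : |p.1 - q.1| + |p.2 - q.2| = 1) : Adj p q := by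
  unfold Adj
  rcases abs_cases (p.1 - q.1) with ⟨e1, _⟩ | ⟨e1, _⟩ <;>
  rcases abs_cases (p.2 - q.2) with ⟨e2, _⟩ | ⟨e2, _⟩ <;> omega

theorem Adj.mem_box (h : Adj p q) {x : V} {n : ℕ} (hp : p ∈ box x n) : q ∈ box x (n + 1) := by
  rw [H82.mem_box] at *; unfold Adj at h; push_cast; omega

theorem self_mem_box (x : V) (n : ℕ) : x ∈ box x n := by rw [mem_box]; omega

theorem box_mono (x : V) {n m : ℕ} (h : n ≤ m) : box x n ⊆ box x m := by
  intro z hz; rw [mem_box] at *; omega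

theorem exists_box (x z : V) : ∃ n : ℕ, z ∈ box x n :=
  ⟨(z.1 - x.1).natAbs + (z.2 - x.2).natAbs, by rw [mem_box]; omega⟩

theorem finite_sub_box (x : V) {F : Set V} (hF : F.Finite) : ∃ n : ℕ, ∀ z ∈ F, z ∈ box x n := by
  choose g hg using exists_box x
  obtain ⟨n, hn⟩ := (hF.image g).bddAbove
  exact ⟨n, fun z hz => box_mono x (hn (mem_image_of_mem g hz)) (hg z)⟩

theorem finite_adj (p : V) : {q | Adj p q}.Finite :=
  (box p (0 + 1)).finite_toSet.subset fun _ h => Adj.mem_box h (self_mem_box p 0)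

theorem finite_nbr {F : Set V} (hF : F.Finite) : {q | ∃ w ∈ F, Adj w q}.Finite := by
  have := hF.biUnion fun w _ => finite_adj w
  exact this.subset fun q ⟨w, hw, h⟩ => mem_biUnion hw h

theorem Conn.refl (h : p ∈ S) : Conn S p p := ⟨h, .refl⟩

theorem Conn.mem_left (h : Conn S p q) : p ∈ S := h.1

theorem Conn.mem_right (h : Conn S p q) : q ∈ S := by
  obtain ⟨h1, h2⟩ := h
  induction h2 with
  | refl => exact h1
  | tail _ h _ => exact h.2

theorem Conn.tail (h : Conn S p q) (ha : Adj q r) (hr : r ∈ S) : Conn S p r :=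
  ⟨h.1, h.2.tail ⟨ha, hr⟩⟩

theorem Conn.trans (h : Conn S p q) (h' : Conn S q r) : Conn S p r := ⟨h.1, h.2.trans h'.2⟩

theorem conn_of_adj (hp : p ∈ S) (hq : q ∈ S) (h : Adj p q) : Conn S p q :=
  (Conn.refl hp).tail h hq

/-- induction along a walk -/
theorem Conn.ind (h : Conn S p q) (P : V → Prop) (h0 : P p)
    (hs : ∀ x y, Conn S p x → P x → Adj x y → y ∈ S → P y) : P q := by
  obtain ⟨h1, h2⟩ := h
  induction h2 with
  | refl => exact h0
  | tail h3 h4 ih => exact hs _ _ ⟨h1, h3⟩ ih h4.1 h4.2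

theorem Conn.symm (h : Conn S p q) : Conn S q p :=
  h.ind (fun x => Conn S x p) (Conn.refl h.1) fun _ _ hx ih ha hy =>
    (conn_of_adj hy hx.mem_right ha.symm).trans ih

theorem Conn.mono (h : Conn S p q) (hST : S ⊆ T) : Conn T p q :=
  h.ind (fun x => Conn T p x) (Conn.refl (hST h.1)) fun _ _ _ ih ha hy => ih.tail ha (hST hy)

/-- a walk stays in the cluster, hence in any set containing the cluster -/
theorem Conn.restrict (h : Conn S p q) (hA : ∀ x, Conn S p x → x ∈ A) : Conn (S ∩ A) p q :=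
  h.ind (fun x => Conn (S ∩ A) p x) (Conn.refl ⟨h.1, hA p (Conn.refl h.1)⟩)
    fun _ y hx ih ha hy => ih.tail ha ⟨hy, hA y (hx.tail ha hy)⟩

theorem Conn.finite (h : Conn S p q) : ∃ F : Finset V, (∀ w ∈ F, w ∈ S) ∧ Conn (↑F) p q := by
  classical
  refine h.ind (fun x => ∃ F : Finset V, (∀ w ∈ F, w ∈ S) ∧ Conn (↑F) p x)
    ⟨{p}, by simpa using h.1, Conn.refl (by simp)⟩ ?_
  rintro x y - ⟨F, h1, h2⟩ ha hy
  refine ⟨insert y F, fun w hw => ?_, (h2.mono (by simp)).tail ha (by simp)⟩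
  rcases Finset.mem_insert.1 hw with rfl | hw
  · exact hy
  · exact h1 w hw

theorem Conn.exists_box (h : Conn S p q) (x : V) : ∃ n : ℕ, Conn (S ∩ ↑(box x n)) p q := by
  obtain ⟨F, h1, h2⟩ := h.finite
  obtain ⟨n, hn⟩ := finite_sub_box x F.finite_toSet
  exact ⟨n, h2.mono fun w hw => ⟨h1 w hw, hn w hw⟩⟩

theorem Conn.first_exit (h : Conn S p q) (hp : p ∈ A) (hq : q ∉ A) :
    ∃ x y, Conn (S ∩ A) p x ∧ Adj x y ∧ y ∈ S ∧ y ∉ A := by
  have := h.ind (fun z => Conn (S ∩ A) p z ∨ ∃ x y, Conn (S ∩ A) p x ∧ Adj x y ∧ y ∈ S ∧ y ∉ A)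
    (Or.inl (Conn.refl ⟨h.1, hp⟩)) (by
      rintro x y - (ih | ih) ha hy
      · by_cases hA : y ∈ A
        · exact Or.inl (ih.tail ha ⟨hy, hA⟩)
        · exact Or.inr ⟨x, y, ih, ha, hy, hA⟩
      · exact Or.inr ih)
  exact this.resolve_left fun h' => hq h'.mem_right.2

theorem Conn.last_visit (h : Conn S p q) (hp : p ∈ A) (hq : q ∉ A) :
    ∃ x y, x ∈ A ∧ Conn S p x ∧ Adj x y ∧ Conn (S \ A) y q := by
  obtain ⟨x, y, h1, h2, h3, h4⟩ := h.symm.first_exit (A := Aᶜ) hq (not_not.2 hp)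
  exact ⟨y, x, not_not.1 h4, h.trans ((h1.mono inter_subset_left).tail h2 h3), h2.symm, h1.symm⟩

theorem Inf.mem (h : Inf S p) : p ∈ S := by
  obtain ⟨q, hq⟩ := Set.Infinite.nonempty h
  exact hq.1

theorem Inf.mono (h : Inf S p) (hST : S ⊆ T) : Inf T p :=
  Set.Infinite.mono (fun _ hq => Conn.mono hq hST) h

theorem Inf.conn (h : Inf S p) (hq : Conn S p q) : Inf S q :=
  Set.Infinite.mono (fun _ hr => hq.symm.trans hr) h

theorem Inf.restrict (h : Inf S p) (hA : ∀ x, Conn S p x → x ∈ A) : Inf (S ∩ A) p :=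
  Set.Infinite.mono (fun _ hr => Conn.restrict hr hA) h

theorem Inf.exists_notMem (h : Inf S p) {F : Set V} (hF : F.Finite) : ∃ q, Conn S p q ∧ q ∉ F :=
  Set.Infinite.exists_notMem_finite h hF

theorem inf_iff_box (x : V) : Inf S p ↔ ∀ n : ℕ, ∃ q, Conn S p q ∧ q ∉ box x n := by
  refine ⟨fun h n => h.exists_notMem (box x n).finite_toSet, fun h hf => ?_⟩
  obtain ⟨n, hn⟩ := finite_sub_box x hf
  obtain ⟨q, h1, h2⟩ := h n
  exact h2 (hn q h1)

theorem Perc.mono (h : Perc S) (hST : S ⊆ T) : Perc T := by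
  obtain ⟨p, hp⟩ := h
  exact ⟨p, hp.mono hST⟩

/-- removing a finite set from an infinite cluster leaves an infinite cluster -/
theorem Inf.konig (h : Inf S p) {F : Set V} (hF : F.Finite) :
    ∃ q, Conn S p q ∧ Inf (S \ F) q ∧ (q = p ∨ ∃ w ∈ F, Adj w q) := by
  by_contra hc
  push Not at hc
  have hN : ({p} ∪ {q | ∃ w ∈ F, Adj w q} : Set V).Finite := (finite_singleton p).union (finite_nbr hF)
  have hfin : (F ∪ ⋃ q ∈ ({p} ∪ {q | ∃ w ∈ F, Adj w q} : Set V) ∩ {q | Conn S p q},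
      {z | Conn (S \ F) q z}).Finite := by
    refine hF.union ((hN.inter_of_left _).biUnion fun q hq => ?_)
    by_contra hi
    obtain ⟨h1, h2⟩ := hc q hq.2 hi
    rcases hq.1 with h3 | ⟨w, hw, h3⟩
    · exact h1 h3
    · exact h2 w hw h3
  refine h (hfin.subset fun z hz => ?_)
  refine Conn.ind hz (fun z => z ∈ F ∪ ⋃ q ∈ ({p} ∪ {q | ∃ w ∈ F, Adj w q} : Set V) ∩
      {q | Conn S p q}, {z | Conn (S \ F) q z}) ?_ ?_
  · by_cases hp : p ∈ F
    · exact Or.inl hp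
    · exact Or.inr (mem_biUnion (x := p) ⟨Or.inl rfl, Conn.refl h.mem⟩ (Conn.refl ⟨h.mem, hp⟩))
  · intro x y hx ih ha hy
    by_cases hyF : y ∈ F
    · exact Or.inl hyF
    · rcases ih with ih | ih
      · exact Or.inr (mem_biUnion (x := y) ⟨Or.inr ⟨x, ih, ha⟩, hx.tail ha hy⟩
          (Conn.refl ⟨hy, hyF⟩))
      · obtain ⟨q, hq, h2⟩ := mem_iUnion₂.1 ih
        exact Or.inr (mem_biUnion hq (Conn.tail h2 ha ⟨hy, hyF⟩))

theorem Tall.inf (h : Tall S p) : Inf S p := by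
  refine (inf_iff_box (0, 0)).2 fun n => ?_
  obtain ⟨q, h1, h2⟩ := h (n + 1)
  refine ⟨q, h1, fun hq => ?_⟩
  rw [mem_box] at hq
  push_cast at h2
  rcases abs_cases q.2 with ⟨e, _⟩ | ⟨e, _⟩ <;> simp only at hq <;> omega

theorem TopArm.inf {n y x : ℤ} (h : TopArm S n y x) : Inf S (x, 0) := by
  obtain ⟨h1, -, -, p, h2, -, h3⟩ := h
  have h4 := h3.inf.mono sdiff_subset
  exact h4.conn (conn_of_adj h4.mem h1 h2.symm)

theorem BotArm.inf {n y x : ℤ} (h : BotArm S n y x) : Inf S (x, 0) := by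
  obtain ⟨h1, -, -, p, h2, -, h3⟩ := h
  have h4 := h3.inf.mono sdiff_subset
  exact h4.conn (conn_of_adj h4.mem h1 h2.symm)

/-- horizontal segments -/
theorem conn_row {a b t : ℤ} (hab : a ≤ b) (h : ∀ x, a ≤ x → x ≤ b → (x, t) ∈ S) :
    Conn S (a, t) (b, t) := by
  induction b, hab using Int.leInduction with
  | base => exact Conn.refl (h a le_rfl le_rfl)
  | succ b hb ih =>
    exact (ih fun x h1 h2 => h x h1 (by omega)).tail (by unfold Adj; simp only; omega)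
      (h _ (by omega) le_rfl)

/-- vertical segments -/
theorem conn_vert {a s t : ℤ} (hst : s ≤ t) (h : ∀ u, s ≤ u → u ≤ t → (a, u) ∈ S) :
    Conn S (a, s) (a, t) := by
  induction t, hst using Int.leInduction with
  | base => exact Conn.refl (h s le_rfl le_rfl)
  | succ b hb ih =>
    exact (ih fun x h1 h2 => h x h1 (by omega)).tail (by unfold Adj; simp only; omega)
      (h _ (by omega) le_rfl)

theorem conn_box {x z : V} {n : ℕ} (hS : ∀ w ∈ box x n, w ∈ S) (hz : z ∈ box x n) :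
    Conn S x z := by
  obtain ⟨a, s⟩ := x
  obtain ⟨b, t⟩ := z
  rw [mem_box] at hz
  simp only at hz
  have h1 : Conn S (a, s) (b, s) := by
    rcases le_total a b with h | h
    · exact conn_row h fun u _ _ => hS _ (by rw [mem_box]; simp only; omega)
    · exact (conn_row h fun u _ _ => hS _ (by rw [mem_box]; simp only; omega)).symm
  refine h1.trans ?_
  rcases le_total s t with h | h
  · exact conn_vert h fun u _ _ => hS _ (by rw [mem_box]; simp only; omega)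
  · exact (conn_vert h fun u _ _ => hS _ (by rw [mem_box]; simp only; omega)).symm

theorem hub_finite (S : Set V) (x : V) (r : ℕ) : (Hub S x r).Finite :=
  (box x r).finite_toSet.subset fun _ h => (Conn.mem_right h).2

theorem Low.box_hub {x : V} {n r : ℕ} {L L' : Set V} (h : Low x n r L L') (hn : n ≤ r) :
    ∀ z ∈ box x n, z ∈ Hub L' x r :=
  fun _ hz => conn_box (fun w hw => ⟨h.2.2.1 w hw, box_mono x hn hw⟩) hz

/-! ### columns -/

variable {θ : ℤ → ℤ} {i j k s t : ℤ}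

theorem col_th {a b : ℤ} (ha : 0 ≤ a) (hab : a ≤ b) (hb : 0 < b) : Col (th a b) := by
  intro t
  unfold th
  refine ⟨Int.ediv_le_ediv hb (by nlinarith), ?_⟩
  have h1 : (a * t + b) / b = a * t / b + 1 := by
    have := Int.add_mul_ediv_right (a * t) 1 hb.ne'
    simpa using this
  rw [← h1]
  exact Int.ediv_le_ediv hb (by nlinarith)

theorem th_add {a b : ℤ} (hb : 0 < b) (t m : ℤ) : th a b (t + m * b) = th a b t + m * a := by
  unfold th
  have : a * (t + m * b) = a * t + (m * a) * b := by ring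
  rw [this, Int.add_mul_ediv_right _ _ hb.ne']

theorem th_zero (a b : ℤ) : th a b 0 = 0 := by simp [th]

theorem th_neg {a b : ℤ} (hb : 0 < b) (t : ℤ) :
    -1 ≤ th a b t + th a b (-t) ∧ th a b t + th a b (-t) ≤ 0 := by
  unfold th
  have h1 := Int.emod_add_mul_ediv (a * t) b
  have h2 := Int.emod_add_mul_ediv (a * -t) b
  have h3 := Int.emod_nonneg (a * t) hb.ne'
  have h4 := Int.emod_nonneg (a * -t) hb.ne'
  have h5 := Int.emod_lt_of_pos (a * t) hb
  have h6 := Int.emod_lt_of_pos (a * -t) hb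
  have h7 : b * (a * t / b + a * -t / b) = -(a * t % b + a * -t % b) := by linarith
  constructor <;> nlinarith

theorem Col.lip (h : Col θ) (hst : s ≤ t) : θ s ≤ θ t ∧ θ t - θ s ≤ t - s := by
  induction t, hst using Int.leInduction with
  | base => simp
  | succ t ht ih => have := h t; omega

theorem Col.adj (h : Col θ) (ha : Adj p q) : (q.1 - θ q.2) - (p.1 - θ p.2) ≤ 1 := by
  unfold Adj at ha
  have h1 := h p.2
  have h2 := h q.2
  rcases (by omega : q.2 = p.2 ∨ q.2 = p.2 + 1 ∨ p.2 = q.2 + 1) with e | e | e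
  · rw [e]; omega
  · rw [e]; omega
  · rw [e]; omega

theorem Col.adj_cp (h : Col θ) (j t : ℤ) : Adj (cp θ j t) (cp θ j (t + 1)) := by
  have := h t
  unfold Adj cp; simp only; omega

theorem cp_mem_Rt (h : i ≤ j) : cp θ j t ∈ Rt θ i := by
  show θ t + i ≤ θ t + j; omega

theorem cp_mem_Lf (h : j ≤ i) : cp θ j t ∈ Lf θ i := by
  show θ t + j ≤ θ t + i; omega

theorem eq_cp (h1 : p ∈ Rt θ j) (h2 : p ∈ Lf θ j) : p = cp θ j p.2 :=
  Prod.ext (le_antisymm h2 h1) rfl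

theorem cp_inj (h : cp θ j s = cp θ j t) : s = t := congrArg Prod.snd h

theorem Rt_mono (h : i ≤ j) : Rt θ j ⊆ Rt θ i := fun z hz => by
  have : θ z.2 + j ≤ z.1 := hz
  show θ z.2 + i ≤ z.1; omega

theorem Lf_mono (h : i ≤ j) : Lf θ i ⊆ Lf θ j := fun z hz => by
  have : z.1 ≤ θ z.2 + i := hz
  show z.1 ≤ θ z.2 + j; omega

/-- leaving a right half-plane happens from its boundary column -/
theorem Col.exit_Rt (h : Col θ) (ha : Adj p q) (hp : p ∈ Rt θ j) (hq : q ∉ Rt θ j) :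
    p = cp θ j p.2 ∧ q ∈ Lf θ j := by
  have h1 := h.adj ha.symm
  have h2 : θ p.2 + j ≤ p.1 := hp
  have h3 : ¬ θ q.2 + j ≤ q.1 := hq
  exact ⟨eq_cp hp (show p.1 ≤ θ p.2 + j by omega), show q.1 ≤ θ q.2 + j by omega⟩

theorem Col.exit_Lf (h : Col θ) (ha : Adj p q) (hp : p ∈ Lf θ j) (hq : q ∉ Lf θ j) :
    p = cp θ j p.2 ∧ q ∈ Rt θ j := by
  have h1 := h.adj ha
  have h2 : p.1 ≤ θ p.2 + j := hp
  have h3 : ¬ q.1 ≤ θ q.2 + j := hq
  exact ⟨eq_cp (show θ p.2 + j ≤ p.1 by omega) hp, show θ q.2 + j ≤ q.1 by omega⟩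

theorem Col.conn_cp (h : Col θ) (hst : s ≤ t) (hS : ∀ u, s ≤ u → u ≤ t → cp θ j u ∈ S) :
    Conn S (cp θ j s) (cp θ j t) := by
  induction t, hst using Int.leInduction with
  | base => exact Conn.refl (hS s le_rfl le_rfl)
  | succ b hb ih =>
    exact (ih fun x h1 h2 => hS x h1 (by omega)).tail (h.adj_cp j b) (hS _ (by omega) le_rfl)

theorem Col.cp_mem_box (h : Col θ) {n : ℕ} (h1 : t - n ≤ s) (h2 : s ≤ t + n) :
    cp θ j s ∈ box (cp θ j t) n := by
  rw [mem_box]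
  unfold cp
  simp only
  rcases le_total s t with e | e
  · have := h.lip e; omega
  · have := h.lip e; omega

/-- an infinite cluster with finitely many points in a strip gives an infinite cluster outside -/
theorem Col.perc_out (h : Col θ) (hij : i ≤ j) (hp : Inf S p)
    (hF : {z | Conn S p z ∧ z ∈ Rt θ i ∧ z ∈ Lf θ j}.Finite) :
    Perc (S ∩ Rt θ j) ∨ Perc (S ∩ Lf θ i) := by
  obtain ⟨q, h1, h2, -⟩ := hp.konig hF
  have key : ∀ z, Conn (S \ {z | Conn S p z ∧ z ∈ Rt θ i ∧ z ∈ Lf θ j}) q z →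
      ¬ (z ∈ Rt θ i ∧ z ∈ Lf θ j) :=
    fun z hz hc => hz.mem_right.2 ⟨h1.trans (hz.mono sdiff_subset), hc⟩
  have hq := key q (Conn.refl h2.mem)
  by_cases hl : q ∈ Lf θ j
  · refine Or.inr ⟨q, (h2.restrict (A := Lf θ i) fun z hz => ?_).mono
      fun z hz => ⟨hz.1.1, hz.2⟩⟩
    have := hz.ind (fun z => z ∉ Rt θ i) (fun hr => hq ⟨hr, hl⟩) fun x y hx ih ha hy hr => by
      have e := h.exit_Rt ha.symm hr ih
      exact key y (hx.tail ha hy) ⟨hr, by rw [e.1]; exact cp_mem_Lf hij⟩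
    have h3 : ¬ θ z.2 + i ≤ z.1 := this
    show z.1 ≤ θ z.2 + i; omega
  · refine Or.inl ⟨q, (h2.restrict (A := Rt θ j) fun z hz => ?_).mono
      fun z hz => ⟨hz.1.1, hz.2⟩⟩
    have := hz.ind (fun z => z ∉ Lf θ j) hl fun x y hx ih ha hy hr => by
      have e := h.exit_Lf ha.symm hr ih
      exact key y (hx.tail ha hy) ⟨by rw [e.1]; exact cp_mem_Rt hij, hr⟩
    have h3 : ¬ z.1 ≤ θ z.2 + j := this
    show θ z.2 + j ≤ z.1; omega

theorem FinCol.strip (hS : FinCol θ S) (p : V) (i j : ℤ) :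
    {z | Conn S p z ∧ z ∈ Rt θ i ∧ z ∈ Lf θ j}.Finite := by
  refine ((finite_Icc i j).biUnion fun k _ => (hS p k).image (cp θ k)).subset ?_
  rintro z ⟨h1, h2, h3⟩
  have h4 : θ z.2 + i ≤ z.1 := h2
  have h5 : z.1 ≤ θ z.2 + j := h3
  have e : cp θ (z.1 - θ z.2) z.2 = z := Prod.ext (by simp [cp]) rfl
  exact mem_biUnion (x := z.1 - θ z.2) ⟨by omega, by omega⟩ ⟨z.2, by rw [mem_ofPred_eq, e]; exact h1, e⟩

/-- an arm continues to every column further right -/
theorem Col.push (h : Col θ) (hS : FinCol θ S) (hjk : j ≤ k) (ht : ArmR θ j S t) :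
    ∃ s, ArmR θ k S s ∧ Conn (S ∩ Rt θ j) (cp θ j t) (cp θ k s) := by
  induction k, hjk using Int.leInduction with
  | base => exact ⟨t, ht, Conn.refl ht.mem⟩
  | succ k hk ih =>
    obtain ⟨s, h1, h2⟩ := ih
    have hF : (cp θ k '' {u | Conn S (cp θ k s) (cp θ k u)}).Finite := (hS _ k).image _
    obtain ⟨q, h3, h4, h5⟩ := Inf.konig h1 hF
    have key : ∀ z, Conn ((S ∩ Rt θ k) \ (cp θ k '' {u | Conn S (cp θ k s) (cp θ k u)})) q z →
        z ∈ Rt θ (k + 1) := by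
      intro z hz
      have h6 : θ z.2 + k ≤ z.1 := hz.mem_right.1.2
      by_contra h7
      have h8 : ¬ θ z.2 + (k + 1) ≤ z.1 := h7
      have e : z = cp θ k z.2 := eq_cp hz.mem_right.1.2 (show z.1 ≤ θ z.2 + k by omega)
      refine hz.mem_right.2 ⟨z.2, ?_, e.symm⟩
      rw [mem_ofPred_eq, ← e]
      exact (h3.trans (hz.mono sdiff_subset)).mono inter_subset_left
    have hq := key q (Conn.refl h4.mem)
    have hq2 : q ∈ Lf θ (k + 1) := by
      rcases h5 with rfl | ⟨w, ⟨u, -, rfl⟩, ha⟩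
      · exact cp_mem_Lf (by omega)
      · have := h.adj ha
        simp only [cp] at this
        show q.1 ≤ θ q.2 + (k + 1); omega
    have e := eq_cp hq hq2
    refine ⟨q.2, ?_, ?_⟩
    · unfold ArmR
      rw [← e]
      exact (h4.restrict key).mono fun z hz => ⟨hz.1.1.1, hz.2⟩
    · rw [← e]
      exact h2.trans (h3.mono (inter_subset_inter_right _ (Rt_mono hk)))

/-! ### symmetries -/

theorem conn_pre (φ : V ≃ V) (hφ : ∀ p q, Adj (φ p) (φ q) ↔ Adj p q) :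
    Conn (φ ⁻¹' S) p q ↔ Conn S (φ p) (φ q) := by
  constructor
  · intro h
    exact h.ind (fun x => Conn S (φ p) (φ x)) (Conn.refl h.1)
      fun x y _ ih ha hy => ih.tail ((hφ x y).2 ha) hy
  · intro h
    have := h.ind (fun x => Conn (φ ⁻¹' S) p (φ.symm x)) (by rw [φ.symm_apply_apply]; exact Conn.refl h.1)
      fun x y _ ih ha hy => ih.tail ((hφ _ _).1 (by simpa using ha)) (by simpa using hy)
    simpa using this

theorem inf_pre (φ : V ≃ V) (hφ : ∀ p q, Adj (φ p) (φ q) ↔ Adj p q) :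
    Inf (φ ⁻¹' S) p ↔ Inf S (φ p) := by
  have : {q | Conn (φ ⁻¹' S) p q} = φ ⁻¹' {q | Conn S (φ p) q} := by
    ext q; exact conn_pre φ hφ
  unfold Inf
  rw [this]
  exact ⟨fun h hf => h (hf.preimage φ.injective.injOn),
    fun h => h.preimage (by rw [φ.range_eq_univ]; exact subset_univ _)⟩

theorem adj_add (w p q : V) : Adj (p + w) (q + w) ↔ Adj p q := by
  unfold Adj; simp only [Prod.fst_add, Prod.snd_add]; omega

theorem adj_R (y : ℤ) (p q : V) : Adj (R y p) (R y q) ↔ Adj p q := by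
  unfold Adj R; simp only; omega

theorem R_R (y : ℤ) (p : V) : R y (R y p) = p := by
  unfold R; ext <;> simp

/-- the point reflection as an equivalence -/
def Re (y : ℤ) : V ≃ V := ⟨R y, R y, R_R y, R_R y⟩

theorem conn_sh (w : V) : Conn (sh w S) p q ↔ Conn S (p + w) (q + w) :=
  conn_pre (Equiv.addRight w) (adj_add w)

theorem inf_sh (w : V) : Inf (sh w S) p ↔ Inf S (p + w) :=
  inf_pre (Equiv.addRight w) (adj_add w)

theorem conn_rf (y : ℤ) : Conn (rf y S) p q ↔ Conn S (R y p) (R y q) :=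
  conn_pre (Re y) (adj_R y)

theorem inf_rf (y : ℤ) : Inf (rf y S) p ↔ Inf S (R y p) := inf_pre (Re y) (adj_R y)

theorem perc_sh (w : V) : Perc (sh w S) ↔ Perc S :=
  ⟨fun ⟨p, h⟩ => ⟨p + w, (inf_sh w).1 h⟩,
    fun ⟨p, h⟩ => ⟨p - w, (inf_sh w).2 (by rwa [sub_add_cancel])⟩⟩

theorem perc_rf (y : ℤ) : Perc (rf y S) ↔ Perc S :=
  ⟨fun ⟨p, h⟩ => ⟨R y p, (inf_rf y).1 h⟩, fun ⟨p, h⟩ => ⟨R y p, (inf_rf y).2 (by rwa [R_R])⟩⟩

theorem sh_inter (w : V) : sh w (S ∩ T) = sh w S ∩ sh w T := rfl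

theorem sh_diff (w : V) : sh w (S \ T) = sh w S \ sh w T := rfl

theorem sh_compl (w : V) : sh w Sᶜ = (sh w S)ᶜ := rfl

theorem rf_inter (y : ℤ) : rf y (S ∩ T) = rf y S ∩ rf y T := rfl

theorem rf_diff (y : ℤ) : rf y (S \ T) = rf y S \ rf y T := rfl

theorem rf_compl (y : ℤ) : rf y Sᶜ = (rf y S)ᶜ := rfl

theorem sh_sh (w w' : V) : sh w (sh w' S) = sh (w + w') S := by
  ext z; simp [sh, add_assoc]

theorem sh_zero : sh 0 S = S := by ext z; simp [sh]

theorem sh_Rt {a b : ℤ} (hb : 0 < b) (m j : ℤ) : sh (m • (a, b)) (Rt (th a b) j) = Rt (th a b) j := by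
  ext z
  simp only [sh, Rt, mem_ofPred_eq, Prod.fst_add, Prod.snd_add, Prod.smul_mk, smul_eq_mul,
    th_add hb]
  omega

theorem sh_Lf {a b : ℤ} (hb : 0 < b) (m j : ℤ) : sh (m • (a, b)) (Lf (th a b) j) = Lf (th a b) j := by
  ext z
  simp only [sh, Lf, mem_ofPred_eq, Prod.fst_add, Prod.snd_add, Prod.smul_mk, smul_eq_mul,
    th_add hb]
  omega

theorem cp_add {a b : ℤ} (hb : 0 < b) (m j t : ℤ) :
    cp (th a b) j t + m • (a, b) = cp (th a b) j (t + m * b) := by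
  simp only [cp, th_add hb, Prod.smul_mk, smul_eq_mul, Prod.mk_add_mk]
  congr 1; ring

theorem conn_Rt_sh {a b : ℤ} (hb : 0 < b) (m j : ℤ) :
    Conn (sh (m • (a, b)) S ∩ Rt (th a b) j) p q ↔
      Conn (S ∩ Rt (th a b) j) (p + m • (a, b)) (q + m • (a, b)) := by
  rw [← conn_sh, sh_inter, sh_Rt hb]

theorem conn_Lf_sh {a b : ℤ} (hb : 0 < b) (m j : ℤ) :
    Conn (sh (m • (a, b)) S ∩ Lf (th a b) j) p q ↔
      Conn (S ∩ Lf (th a b) j) (p + m • (a, b)) (q + m • (a, b)) := by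
  rw [← conn_sh, sh_inter, sh_Lf hb]

theorem armR_sh {a b : ℤ} (hb : 0 < b) (m j t : ℤ) :
    ArmR (th a b) j (sh (m • (a, b)) S) t ↔ ArmR (th a b) j S (t + m * b) := by
  unfold ArmR
  rw [← cp_add hb, ← inf_sh, sh_inter, sh_Rt hb]

theorem armL_sh {a b : ℤ} (hb : 0 < b) (m j t : ℤ) :
    ArmL (th a b) j (sh (m • (a, b)) S) t ↔ ArmL (th a b) j S (t + m * b) := by
  unfold ArmL
  rw [← cp_add hb, ← inf_sh, sh_inter, sh_Lf hb]

end Pool.Agent.MP_151d89_pr.H5
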