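import Pool.Agent.MP_151d89_pr.H5.Law

/-! The case without coexistence: the parity trick. -/

set_option autoImplicit false
open MeasureTheory Filter Set

namespace Pool.Agent.MP_151d89_pr.H5
open Pool.Agent.MP_151d89_pr.H82 Pool.Agent.MP_151d89_pr.H33 FinalAux

namespace ParityAux

variable {μ : Measure X}

theorem mlt : Measurable fun ω : X × X => {z | ω.1 z < ω.2 z} := by
  refine measurable_set_iff.2 fun z => ?_
  have h : Measurable fun ω : X × X => (ω.1 z, ω.2 z) :=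
    ((measurable_pi_apply z).comp measurable_fst).prodMk
      ((measurable_pi_apply z).comp measurable_snd)
  exact (Measurable.of_discrete (f := fun p : ℤ × ℤ => p.1 < p.2)).comp h

theorem mev : MeasurableSet {ω : X × X |
    (ω.1 (0, 0) - ω.2 (0, 0)) % 2 = 0 ∧ ¬ Perc {z | ω.1 z < ω.2 z}} := by
  have h : Measurable fun ω : X × X => (ω.1 (0, 0), ω.2 (0, 0)) :=
    ((measurable_pi_apply _).comp measurable_fst).prodMk
      ((measurable_pi_apply _).comp measurable_snd)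
  exact measurableSet_setOfPred.2
    (((Measurable.of_discrete (f := fun p : ℤ × ℤ => (p.1 - p.2) % 2 = 0)).comp h).and
      (mperc mlt).not)

theorem par (hG : Gibbs μ) (hT : Triv μ) (y : ℤ) :
    ∀ᵐ ω ∂(μ.prod μ), ∀ z, (ω.1 z + ω.2 (R y z) - y) % 2 = 0 := by
  have := hG.1
  obtain ⟨π, hπ⟩ := par_const hG hT
  have h := hπ.and hG.2.1
  filter_upwards [Measure.quasiMeasurePreserving_fst.ae h,
    Measure.quasiMeasurePreserving_snd.ae h] with ω h1 h2 z
  have a1 := (lip h1.2 z (0, 0)).2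
  have a2 := (lip h2.2 (R y z) (0, 0)).2
  have a3 := h1.1
  have a4 := h2.1
  simp only [R, sub_zero] at a1 a2 ⊢
  rcases abs_cases z.1 with ⟨e1, _⟩ | ⟨e1, _⟩ <;> rcases abs_cases z.2 with ⟨e2, _⟩ | ⟨e2, _⟩ <;>
  rcases abs_cases (y - z.1) with ⟨e3, _⟩ | ⟨e3, _⟩ <;>
  rcases abs_cases (-z.2) with ⟨e4, _⟩ | ⟨e4, _⟩ <;> omega

theorem law_T (y c : ℤ) (x : V) (t : ℤ) :
    μ.map (T (Re y) (-1) c) {g | t ≤ g x} = μ {g | g (R y x) ≤ c - t} := by
  rw [Measure.map_apply (meas_T _ _ _) (meas_at x fun a => t ≤ a)]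
  congr 1
  ext g
  show t ≤ -1 * g (R y x) + c ↔ g (R y x) ≤ c - t
  omega

theorem domA (hD : DomStmt) (hG : Gibbs μ) (hT : Triv μ) {y c : ℤ} (hc : (c - y) % 2 = 0)
    (h : nu μ y (c - 1) {L | Perc L} = 0) (x : V) (t : ℤ) :
    μ {g | g (R y x) ≤ c - t} ≤ μ {f | t ≤ f x} := by
  have := hG.1
  rw [← law_T]
  refine hD μ _ hG (gibbs_T hG (iso_Re y) (by norm_num) c) ?_ x t
  have e : μ.prod (μ.map (T (Re y) (-1) c)) = (μ.prod μ).map (Prod.map id (T (Re y) (-1) c)) := by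
    rw [← Measure.map_prod_map _ _ measurable_id (meas_T _ _ _), Measure.map_id]
  rw [e, ae_map_iff (measurable_id.prodMap (meas_T _ _ _)).aemeasurable mev]
  rw [nu_apply _ _ _ (measurableSet_setOfPred.2 (mperc measurable_id'))] at h
  filter_upwards [measure_eq_zero_iff_ae_notMem.1 h, par hG hT y] with ω h1 h2
  refine ⟨?_, fun hp => h1 (Perc.mono hp fun z hz => ?_)⟩
  · have := h2 (0, 0)
    show (ω.1 (0, 0) - (-1 * ω.2 (R y (0, 0)) + c)) % 2 = 0
    omega
  · have : ω.1 z < -1 * ω.2 (R y z) + c := hz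
    show ω.1 z + ω.2 (R y z) ≤ c - 1
    omega

theorem domB (hD : DomStmt) (hG : Gibbs μ) (hT : Triv μ) {y c : ℤ} (hc : (c - y) % 2 = 0)
    (h : nu μ y c {L | Perc Lᶜ} = 0) (x : V) (t : ℤ) :
    μ {f | t ≤ f x} ≤ μ {g | g (R y x) ≤ c - t} := by
  have := hG.1
  rw [← law_T]
  refine hD _ μ (gibbs_T hG (iso_Re y) (by norm_num) c) hG ?_ x t
  have e : (μ.map (T (Re y) (-1) c)).prod μ = (μ.prod μ).map (Prod.map (T (Re y) (-1) c) id) := by
    rw [← Measure.map_prod_map _ _ (meas_T _ _ _) measurable_id, Measure.map_id]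
  rw [e, ae_map_iff ((meas_T _ _ _).prodMap measurable_id).aemeasurable mev]
  rw [nu_apply _ _ _ (measurableSet_setOfPred.2 (mperc meas_compl))] at h
  filter_upwards [(Measure.measurePreserving_swap (μ := μ) (ν := μ)).quasiMeasurePreserving.ae
    ((measure_eq_zero_iff_ae_notMem.1 h).and (par hG hT y))] with ω ⟨h1, h2⟩
  refine ⟨?_, fun hp => h1 (Perc.mono hp fun z hz => ?_)⟩
  · have : (ω.2 (0, 0) + ω.1 (R y (0, 0)) - y) % 2 = 0 := h2 (0, 0)
    show (-1 * ω.1 (R y (0, 0)) + c - ω.2 (0, 0)) % 2 = 0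
    omega
  · have : -1 * ω.1 (R y z) + c < ω.2 z := hz
    show ¬ (ω.2 z + ω.1 (R y z) ≤ c)
    omega

theorem halves [IsProbabilityMeasure μ] {A B : Set X} (hA : μ A < 1 / 2) (hB : μ B < 1 / 2)
    {C : Set X} (h1 : Aᶜ ⊆ C) {C' : Set X} (h2 : C' ⊆ B) (h : μ C ≤ μ C') : False := by
  have a1 : μ univ ≤ μ A + μ Aᶜ := by
    rw [← union_compl_self A]; exact measure_union_le _ _
  have a2 : μ Aᶜ < 1 / 2 := (((measure_mono h1).trans h).trans (measure_mono h2)).trans_lt hB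
  have a3 := ENNReal.add_lt_add hA a2
  rw [ENNReal.add_halves] at a3
  rw [measure_univ] at a1
  exact absurd a3 (not_lt.2 a1)

theorem level (hD : DomStmt) (hG : Gibbs μ) (hT : Triv μ) (y : ℤ)
    (H : ∀ c : ℤ, nu μ y c {L | Perc L} = 0 ∨ nu μ y c {L | Perc Lᶜ} = 0) :
    ∃ c : ℤ, (c - y) % 2 = 0 ∧ ∀ x t, μ {f | t ≤ f x} = μ {g | g (R y x) ≤ c - t} := by
  have := hG.1
  have mp : MeasurableSet {L : Set V | Perc L} := measurableSet_setOfPred.2 (mperc measurable_id)
  obtain ⟨M, hM⟩ := tight (μ := μ) (0, 0) (η := 1 / 2) (by norm_num)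
  obtain ⟨M', hM'⟩ := tight (μ := μ) (R y (0, 0)) (η := 1 / 2) (by norm_num)
  have down : ∀ c c', c ≤ c' → nu μ y c' {L | Perc L} = 0 → nu μ y c {L | Perc L} = 0 := by
    intro c c' hcc h
    rw [nu_apply _ _ _ mp] at h ⊢
    exact measure_mono_null (fun ω hω => Perc.mono hω fun z hz => le_trans hz hcc) h
  have h1 : nu μ y (y + 2 * (M + M' + |y|) - 1) {L | Perc L} ≠ 0 := fun h =>
    halves hM' hM (fun g hg => ?_) (fun f hf => ?_)
      (domA hD hG hT (c := y + 2 * (M + M' + |y|)) (by omega) h (0, 0) M)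
  rotate_left
  · have : ¬ ((M' : ℤ) ≤ |g (R y (0, 0))|) := hg
    show g (R y (0, 0)) ≤ _
    have := le_abs_self (g (R y (0, 0)))
    have := neg_abs_le y
    have := abs_nonneg y
    omega
  · exact le_trans (show (M : ℤ) ≤ f (0, 0) from hf) (le_abs_self _)
  have h2 : nu μ y (y - 2 * (M + M' + |y|)) {L | Perc L} = 0 :=
    (H _).resolve_right fun h => halves hM hM' (fun f hf => ?_) (fun g hg => ?_)
      (domB hD hG hT (c := y - 2 * (M + M' + |y|)) (by omega) h (0, 0) (-M))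
  rotate_left
  · have : ¬ ((M : ℤ) ≤ |f (0, 0)|) := hf
    show -(M : ℤ) ≤ f (0, 0)
    have := neg_abs_le (f (0, 0))
    omega
  · have : g (R y (0, 0)) ≤ y - 2 * (M + M' + |y|) - -M := hg
    show (M' : ℤ) ≤ |g (R y (0, 0))|
    have := neg_abs_le (g (R y (0, 0)))
    have := le_abs_self y
    have := abs_nonneg y
    omega
  obtain ⟨c, hc, hmax⟩ := Int.exists_greatest_of_bdd (P := fun c => nu μ y c {L | Perc L} = 0)
    ⟨y + 2 * (M + M' + |y|) - 1, fun c hc => by
      by_contra hh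
      exact h1 (down _ _ (by omega) hc)⟩ ⟨_, h2⟩
  have h3 : nu μ y (c + 1) {L | Perc L} ≠ 0 := fun h => by have := hmax _ h; omega
  have h4 : (c + 1 - y) % 2 = 0 := by
    by_contra hh
    apply h3
    rw [nu_apply _ _ _ mp] at hc ⊢
    refine measure_eq_zero_iff_ae_notMem.2 ?_
    filter_upwards [measure_eq_zero_iff_ae_notMem.1 hc, par hG hT y] with ω a1 a2 a3
    refine a1 (Perc.mono a3 fun z hz => ?_)
    have a4 : ω.1 z + ω.2 (R y z) ≤ c + 1 := hz
    have := a2 z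
    show ω.1 z + ω.2 (R y z) ≤ c
    omega
  exact ⟨c + 1, h4, fun x t => le_antisymm (domB hD hG hT h4 ((H _).resolve_left h3) x t)
    (domA hD hG hT h4 (by rwa [add_sub_cancel_right]) x t)⟩

end ParityAux

open ParityAux in
theorem parity_row (hD : DomStmt) : ParityStmt := by
  intro μ hG hT H
  have := hG.1
  obtain ⟨c0, p0, h0⟩ := level hD hG hT 0 fun c => H 0 c le_rfl
  obtain ⟨c1, p1, h1⟩ := level hD hG hT 1 fun c => H 1 c zero_le_one
  have key : ∀ (z : V) (s : ℤ), μ {f | f (z + (1, 0)) - (c1 - c0) ≤ s} = μ {f | f z ≤ s} := by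
    intro z s
    have a0 := h0 (-z) (c0 - s)
    have a1 := h1 (-z) (c0 - s)
    have e0 : R 0 (-z) = z := by ext <;> simp [R]
    have e1 : R 1 (-z) = z + (1, 0) := by ext <;> simp [R, add_comm]
    rw [e0, sub_sub_cancel] at a0
    rw [e1] at a1
    rw [← a0, a1]
    congr 1
    ext f
    simp only [mem_ofPred_eq]
    omega
  have st : ∀ (z : V) (f : X), Hom f → |f (z + (1, 0)) - f z| = 1 := fun z f hf =>
    hf _ _ (by simp)
  rcases lt_or_gt_of_ne (show c1 - c0 ≠ 0 by omega) with h | h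
  · refine ⟨(-1, 0), af_of_step (by simp) fun z => ?_⟩
    have e : z + (-1, 0) + (1, 0) = z := by ext <;> simp
    have := eq_of_law' (μ := μ) (z + (-1, 0) + (1, 0)) (z + (-1, 0)) (c1 - c0)
      (hG.2.1.mono fun f hf => by have := abs_le.1 (st (z + (-1, 0)) f hf).le; omega)
      fun s => (key _ s).ge
    filter_upwards [this, hG.2.1] with f a1 hf
    have := abs_le.1 (st (z + (-1, 0)) f hf).le
    rw [e] at a1 this
    omega
  · refine ⟨(1, 0), af_of_step (by simp) fun z => ?_⟩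
    have := eq_of_law (μ := μ) (z + (1, 0)) z (c1 - c0)
      (hG.2.1.mono fun f hf => by have := abs_le.1 (st z f hf).le; omega) fun s => (key _ s).le
    filter_upwards [this, hG.2.1] with f a1 hf
    have := abs_le.1 (st z f hf).le
    omega

end Pool.Agent.MP_151d89_pr.H5
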